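import Pool.Agent.Hsh.Stmts

set_option autoImplicit false

/-!
# Arcs: each arc of a tile is an arc of exactly one other tile
-/

namespace Pool.Agent.Hsh

open Set Metric MeasureTheory Filter Topology Classical

theorem Arc1_mem_at {A : Finset (Set ℂ)} {p : ℂ} {t : Set ℂ} : t ∈ at_ A p ↔ t ∈ A ∧ p ∈ t := by
  unfold at_
  exact Finset.mem_filter

theorem Arc1_card {A : Finset (Set ℂ)} {X : Set ℂ} {q : ℂ} (hq : q ∈ fr A X) :
    (at_ A q).card ≤ 2 := by
  by_contra h
  exact hq.2 ⟨hq.1.2, by omega⟩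

theorem Arc1_pair {A : Finset (Set ℂ)} (hb : Bas A) {X Y : Set ℂ} (hX : X ∈ A) (hY : Y ∈ A)
    (hXY : Y ≠ X) {q : ℂ} (hq : q ∈ fr A X) (hqY : q ∈ Y) : at_ A q = {X, Y} := by
  have hqX : q ∈ X := (hb.closed X hX).frontier_subset hq.1.1
  symm
  apply Finset.eq_of_subset_of_card_le
  · intro t ht
    rw [Finset.mem_insert, Finset.mem_singleton] at ht
    rcases ht with rfl | rfl
    · exact Arc1_mem_at.2 ⟨hX, hqX⟩
    · exact Arc1_mem_at.2 ⟨hY, hqY⟩
  · rw [Finset.card_pair hXY.symm]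
    exact Arc1_card hq

theorem Arc1_const {A : Finset (Set ℂ)} (hb : Bas A) {X Y : Set ℂ} (hX : X ∈ A) (hY : Y ∈ A)
    (hXY : Y ≠ X) {p : ℂ} (hp : p ∈ fr A X) (hpY : p ∈ Y) :
    ∀ q ∈ connectedComponentIn (fr A X) p, at_ A q = {X, Y} := by
  have hpre : IsPreconnected (connectedComponentIn (fr A X) p) := isPreconnected_connectedComponentIn
  have hsub : connectedComponentIn (fr A X) p ⊆ fr A X := connectedComponentIn_subset _ _
  have hpm : p ∈ connectedComponentIn (fr A X) p := mem_connectedComponentIn hp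
  have hall : connectedComponentIn (fr A X) p ⊆ Y := by
    intro q hq
    by_contra hqY
    let v : Set ℂ := ⋃ Z ∈ (A.erase X).erase Y, Z
    have hv : IsClosed v := by
      apply isClosed_biUnion_finset
      intro Z hZ
      exact hb.closed Z (Finset.mem_of_mem_erase (Finset.mem_of_mem_erase hZ))
    have hmem : ∀ z ∈ connectedComponentIn (fr A X) p, z ∉ Y → z ∈ v := by
      intro z hz hzY
      obtain ⟨t, ht, htX, hzt⟩ := hb.other X hX z (hsub hz).1.1 (hsub hz).1.2
      have htY : t ≠ Y := fun h => hzY (h ▸ hzt)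
      exact mem_biUnion (Finset.mem_erase.2 ⟨htY, Finset.mem_erase.2 ⟨htX, ht⟩⟩) hzt
    have hcov : connectedComponentIn (fr A X) p ⊆ Y ∪ v := by
      intro z hz
      by_cases h : z ∈ Y
      · exact Or.inl h
      · exact Or.inr (hmem z hz h)
    obtain ⟨z, hz, hzY, hzv⟩ := isPreconnected_closed_iff.1 hpre Y v (hb.closed Y hY) hv hcov
      ⟨p, hpm, hpY⟩ ⟨q, hq, hmem q hq hqY⟩
    obtain ⟨Z, hZ, hzZ⟩ := mem_iUnion₂.1 hzv
    have h1 := Arc1_pair hb hX hY hXY (hsub hz) hzY
    have h2 : Z ∈ at_ A z :=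
      Arc1_mem_at.2 ⟨Finset.mem_of_mem_erase (Finset.mem_of_mem_erase hZ), hzZ⟩
    rw [h1, Finset.mem_insert, Finset.mem_singleton] at h2
    rcases h2 with h2 | h2
    · exact (Finset.mem_erase.1 (Finset.mem_of_mem_erase hZ)).1 h2
    · exact (Finset.mem_erase.1 hZ).1 h2
  intro q hq
  exact Arc1_pair hb hX hY hXY (hsub hq) (hall hq)

theorem arc1 (hB : Stmt_Bas) : Stmt_Arc1 := by
  intro A hA X hX l hl
  have hb := hB A hA
  obtain ⟨p, hp, rfl⟩ := hl
  obtain ⟨Y, hY, hYX, hpY⟩ := hb.other X hX p hp.1.1 hp.1.2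
  have h1 := Arc1_const hb hX hY hYX hp hpY
  have hpX : p ∈ X := (hb.closed X hX).frontier_subset hp.1.1
  have hfr : ∀ {U V : Set ℂ}, U ∈ A → V ∈ A → V ≠ U → ∀ q ∈ fr A U, at_ A q = {U, V} →
      q ∈ fr A V := by
    intro U V hU hV hVU q hq hat
    have hqV : q ∈ V := by
      have : V ∈ at_ A q := by rw [hat]; simp
      exact (Arc1_mem_at.1 this).2
    have hqU : q ∈ U := (hb.closed U hU).frontier_subset hq.1.1
    exact ⟨⟨hb.mem_frontier V hV U hU hVU ⟨hqV, hqU⟩, hq.1.2⟩, hq.2⟩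
  have hsub : connectedComponentIn (fr A X) p ⊆ fr A X := connectedComponentIn_subset _ _
  have hpm : p ∈ connectedComponentIn (fr A X) p := mem_connectedComponentIn hp
  have hlY : connectedComponentIn (fr A X) p ⊆ fr A Y := fun q hq =>
    hfr hX hY hYX q (hsub hq) (h1 q hq)
  have hpfY : p ∈ fr A Y := hlY hpm
  have h2 := Arc1_const hb hY hX hYX.symm hpfY hpX
  have hsub2 : connectedComponentIn (fr A Y) p ⊆ fr A Y := connectedComponentIn_subset _ _
  have hmX : connectedComponentIn (fr A Y) p ⊆ fr A X := fun q hq =>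
    hfr hY hX hYX.symm q (hsub2 hq) (h2 q hq)
  have heq : connectedComponentIn (fr A X) p = connectedComponentIn (fr A Y) p := by
    apply Subset.antisymm
    · exact isPreconnected_connectedComponentIn.subset_connectedComponentIn hpm hlY
    · exact isPreconnected_connectedComponentIn.subset_connectedComponentIn
        (mem_connectedComponentIn hpfY) hmX
  exact ⟨Y, hY, hYX, ⟨p, hpfY, heq⟩, ⟨p, hpm⟩, hsub, h1⟩

end Pool.Agent.Hsh
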