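import Pool.Agent.Hsh.Stmts

set_option autoImplicit false

/-! # Module Arc2: at a vertex of a tile exactly two arcs of the tile end -/

namespace Pool.Agent.Hsh

open Set Metric MeasureTheory Filter Topology Classical

theorem arc2_front {A : Finset (Set ℂ)} (hB : Bas A) {X : Set ℂ} (hX : X ∈ A) {v : ℂ}
    (hv : v ∈ Vx A) (hvX : v ∈ X) : v ∈ frontier X := by
  have h3 : 3 ≤ (at_ A v).card := hv.2
  have h : ∃ t ∈ at_ A v, t ≠ X := by
    by_contra h
    push Not at h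
    have hs : at_ A v ⊆ {X} := fun t ht => Finset.mem_singleton.2 (h t ht)
    have := Finset.card_le_card hs
    rw [Finset.card_singleton] at this
    omega
  obtain ⟨t, ht, hne⟩ := h
  obtain ⟨htA, hvt⟩ := Finset.mem_filter.1 ht
  exact hB.mem_frontier X hX t htA hne.symm ⟨hvX, hvt⟩

/-- first point of a closed set to the right -/
theorem arc2_right {N : Set ℝ} (hN : IsClosed N) {s e : ℝ} (_he : 0 < e) (he1 : e ≤ 1)
    (hs1 : s + 1 ∈ N) (hp : ∀ x, x ≠ s → |x - s| < e → x ∉ N) :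
    ∃ b ∈ N, s + e ≤ b ∧ b ≤ s + 1 ∧ ∀ x ∈ Ioo s b, x ∉ N := by
  have hM : IsCompact (N ∩ Icc (s + e) (s + 1)) := isCompact_Icc.inter_left hN
  have hne : (N ∩ Icc (s + e) (s + 1)).Nonempty := ⟨s + 1, hs1, by constructor <;> linarith⟩
  have hb := hM.sInf_mem hne
  refine ⟨sInf (N ∩ Icc (s + e) (s + 1)), hb.1, hb.2.1, hb.2.2, fun x hx hxN => ?_⟩
  rcases lt_or_ge x (s + e) with h | h
  · refine hp x (ne_of_gt hx.1) ?_ hxN
    rw [abs_of_pos (by linarith [hx.1])]
    linarith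
  · have h2 := csInf_le hM.bddBelow (show x ∈ N ∩ Icc (s + e) (s + 1) from
      ⟨hxN, h, hx.2.le.trans hb.2.2⟩)
    exact absurd hx.2 (not_lt.2 h2)

/-- last point of a closed set to the left -/
theorem arc2_left {N : Set ℝ} (hN : IsClosed N) {s e : ℝ} (_he : 0 < e) (he1 : e ≤ 1)
    (hs1 : s - 1 ∈ N) (hp : ∀ x, x ≠ s → |x - s| < e → x ∉ N) :
    ∃ a ∈ N, a ≤ s - e ∧ s - 1 ≤ a ∧ ∀ x ∈ Ioo a s, x ∉ N := by
  have hM : IsCompact (N ∩ Icc (s - 1) (s - e)) := isCompact_Icc.inter_left hN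
  have hne : (N ∩ Icc (s - 1) (s - e)).Nonempty := ⟨s - 1, hs1, by constructor <;> linarith⟩
  have hb := hM.sSup_mem hne
  refine ⟨sSup (N ∩ Icc (s - 1) (s - e)), hb.1, hb.2.2, hb.2.1, fun x hx hxN => ?_⟩
  rcases lt_or_ge (s - e) x with h | h
  · refine hp x (ne_of_lt hx.2) ?_ hxN
    rw [abs_of_neg (by linarith [hx.2])]
    linarith
  · have h2 := le_csSup hM.bddAbove (show x ∈ N ∩ Icc (s - 1) (s - e) from
      ⟨hxN, hb.2.1.trans hx.1.le, h⟩)
    exact absurd hx.1 (not_lt.2 h2)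

theorem arc2_ne {γ : ℝ → ℂ} (per : ∀ x y, γ x = γ y ↔ ∃ n : ℤ, y = x + n) {x y : ℝ}
    (h1 : x < y) (h2 : y < x + 1) : γ x ≠ γ y := by
  intro h
  obtain ⟨n, hn⟩ := (per x y).1 h
  have h3 : (0 : ℝ) < n := by linarith
  have h4 : (n : ℝ) < 1 := by linarith
  have h5 : (0 : ℤ) < n := by exact_mod_cast h3
  have h6 : n < (1 : ℤ) := by exact_mod_cast h4
  omega

theorem arc2 (hB : Stmt_Bas) (hV : Stmt_VFin) (hT : Stmt_Two) (hC : Stmt_Circ) : Stmt_Arc2 := by
  intro A hA X hX v hv hvX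
  have B := hB A hA
  have hVf := hV A hA
  have hvF := arc2_front B hX hv hvX
  obtain ⟨c, γ, d⟩ := CT.disc_final X (hA.disk X hX)
  have hfrγ : ∀ x, γ x ∈ frontier X := fun x => by rw [← d.range]; exact mem_range_self x
  obtain ⟨s, hs⟩ : ∃ s, γ s = v := by rw [← d.range] at hvF; exact hvF
  have hshift : ∀ x (n : ℤ), γ (x + n) = γ x := fun x n => ((d.per x (x + n)).2 ⟨n, rfl⟩).symm
  have hshift1 : ∀ x, γ (x + 1) = γ x := fun x => by simpa using hshift x 1
  have hvn : v ∉ fr A X := fun h => h.2 hv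
  -- the parameters of points not in `fr A X`
  set N : Set ℝ := {x | γ x ∉ fr A X} with hNdef
  have hNc : IsClosed N := by
    have hopen : IsOpen (γ ⁻¹' (reg A \ Vx A)) :=
      (isOpen_interior.sdiff hVf.isClosed).preimage d.cont
    have heq : N = (γ ⁻¹' (reg A \ Vx A))ᶜ := by
      ext x
      simp only [hNdef, fr, mem_ofPred_eq, mem_compl_iff, mem_preimage, Set.mem_sdiff, mem_inter_iff,
        hfrγ x, true_and]
    rw [heq]
    exact hopen.isClosed_compl
  have hper : ∀ x, x ∈ N → x + 1 ∈ N := fun x hx => by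
    show γ (x + 1) ∉ fr A X
    rw [hshift1]; exact hx
  have hper' : ∀ x, x ∈ N → x - 1 ∈ N := fun x hx => by
    show γ (x - 1) ∉ fr A X
    rw [← hshift1 (x - 1), sub_add_cancel]; exact hx
  have hsN : s ∈ N := by show γ s ∉ fr A X; rw [hs]; exact hvn
  -- a punctured neighbourhood of `s`
  obtain ⟨e, he, he1, hp⟩ : ∃ e > 0, e ≤ (1 : ℝ) ∧ ∀ x, x ≠ s → |x - s| < e → x ∉ N := by
    have hU : IsOpen (reg A \ (Vx A \ {v})) :=
      isOpen_interior.sdiff (hVf.subset sdiff_subset).isClosed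
    have hvU : v ∈ reg A \ (Vx A \ {v}) := ⟨hv.1, fun h => h.2 rfl⟩
    obtain ⟨e, he, hee⟩ := Metric.isOpen_iff.1 (hU.preimage d.cont) s (by
      rw [mem_preimage, hs]; exact hvU)
    refine ⟨min e 1, lt_min he one_pos, min_le_right _ _, fun x hx hxs hxN => hxN ?_⟩
    have h1 : x ∈ ball s e := by
      rw [mem_ball, Real.dist_eq]; exact lt_of_lt_of_le hxs (min_le_left _ _)
    have h2 : |x - s| < 1 := lt_of_lt_of_le hxs (min_le_right _ _)
    have h3 := hee h1
    have h4 : γ x ≠ v := by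
      rw [← hs]
      rw [abs_lt] at h2
      rcases lt_or_gt_of_ne hx with h | h
      · exact arc2_ne d.per h (by linarith [h2.1])
      · exact (arc2_ne d.per h (by linarith [h2.2])).symm
    exact ⟨⟨hfrγ x, h3.1⟩, fun hvx => h3.2 ⟨hvx, h4⟩⟩
  obtain ⟨b, hbN, hb1, hb2, hb3⟩ := arc2_right hNc he he1 (hper s hsN) hp
  obtain ⟨a, haN, ha1, ha2, ha3⟩ := arc2_left hNc he he1 (hper' s hsN) hp
  have hba : b ≤ a + 1 := by
    have hne : a ≠ s - 1 := by
      intro h
      have hsub : frontier X \ {v} ⊆ fr A X := by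
        rintro y ⟨hy, hyv⟩
        rw [← d.range, CT.InterAux.range_Icc d.per (s - 1)] at hy
        obtain ⟨x, hx, rfl⟩ := hy
        have hx1 : x ≠ s - 1 := by
          rintro rfl
          apply hyv
          show γ (s - 1) = v
          rw [← hshift1 (s - 1), sub_add_cancel, hs]
        have hx2 : x ≠ s := by
          rintro rfl
          exact hyv hs
        by_contra hcon
        refine ha3 x ⟨?_, ?_⟩ hcon
        · rw [h]; exact lt_of_le_of_ne hx.1 (Ne.symm hx1)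
        · refine lt_of_le_of_ne ?_ hx2
          have := hx.2
          linarith
      have hreg : X ⊆ reg A := by
        intro y hy
        by_cases hyi : y ∈ interior X
        · exact interior_mono (subset_biUnion_of_mem (u := fun t => t) hX) hyi
        · have hyf : y ∈ frontier X := by
            rw [(B.closed X hX).frontier_eq]
            exact ⟨hy, hyi⟩
          by_cases hyv : y = v
          · rw [hyv]; exact hv.1
          · exact (hsub ⟨hyf, hyv⟩).1.2
      obtain ⟨u, hu, w, hw, huw, huX, hwX⟩ := hT A hA X ⟨hX, hreg⟩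
      by_cases huv : u = v
      · have hwv : w ≠ v := fun h => huw (huv.trans h.symm)
        exact (hsub ⟨arc2_front B hX hw hwX, hwv⟩).2 hw
      · exact (hsub ⟨arc2_front B hX hu huX, huv⟩).2 hu
    by_contra hcon
    push Not at hcon
    have hlt : s - 1 < a := lt_of_le_of_ne ha2 (Ne.symm hne)
    exact hb3 (a + 1) ⟨by linarith, hcon⟩ (hper a haN)
  have hOr : fr A X ⊆ range γ := fun y hy => by rw [d.range]; exact hy.1.1
  have hsb : s < b := by linarith
  have has : a < s := by linarith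
  have hl1 : γ '' Ioo s b ⊆ fr A X := by
    rintro _ ⟨x, hx, rfl⟩
    by_contra h
    exact hb3 x hx h
  have hl2 : γ '' Ioo a s ⊆ fr A X := by
    rintro _ ⟨x, hx, rfl⟩
    by_contra h
    exact ha3 x hx h
  have hc1 := hC γ d.cont d.per (fr A X) hOr s b hsb hb2 (by rw [hs]; exact hvn) hbN hl1
  have hc2 := hC γ d.cont d.per (fr A X) hOr a s has (by linarith) haN (by rw [hs]; exact hvn) hl2
  obtain ⟨m1, hm1⟩ : (Ioo s b).Nonempty := nonempty_Ioo.2 hsb
  obtain ⟨m2, hm2⟩ : (Ioo a s).Nonempty := nonempty_Ioo.2 has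
  have hdis : ∀ x ∈ Ioo s b, ∀ y ∈ Ioo a s, γ x ≠ γ y := by
    intro x hx y hy
    exact (arc2_ne d.per (x := y) (y := x) (by linarith [hx.1, hy.2])
      (by linarith [hx.2, hy.1])).symm
  obtain ⟨r, hr, hrsub⟩ : ∃ r > 0, frontier X ∩ ball v r ⊆ {v} ∪ γ '' Ioo s b ∪ γ '' Ioo a s := by
    set e' := min (e / 2) (1 / 4) with he'
    have he'0 : 0 < e' := lt_min (by linarith) (by norm_num)
    have he'1 : e' ≤ e / 2 := min_le_left _ _
    have he'2 : e' ≤ 1 / 4 := min_le_right _ _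
    obtain ⟨r, hr, hr'⟩ := CT.InterAux.near_arc d.cont d.per (a := s - e') (b := s + e') (x := s)
      (by linarith) (by linarith) (by linarith)
    refine ⟨r, hr, ?_⟩
    rw [← d.range, ← hs]
    intro y hy
    obtain ⟨x, hx, rfl⟩ := hr' hy
    rcases lt_trichotomy x s with h | h | h
    · right
      exact ⟨x, ⟨by linarith [hx.1], h⟩, rfl⟩
    · left; left
      rw [h]; rfl
    · left; right
      exact ⟨x, ⟨h, by linarith [hx.2]⟩, rfl⟩
  refine ⟨γ '' Ioo s b, ⟨γ m1, hl1 ⟨m1, hm1, rfl⟩, (hc1 m1 hm1).symm⟩,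
    γ '' Ioo a s, ⟨γ m2, hl2 ⟨m2, hm2, rfl⟩, (hc2 m2 hm2).symm⟩, ?_, ?_, ?_, ?_, r, hr, hrsub⟩
  · intro h
    have h1 : γ m1 ∈ γ '' Ioo a s := by rw [← h]; exact ⟨m1, hm1, rfl⟩
    obtain ⟨y, hy, hy'⟩ := h1
    exact hdis m1 hm1 y hy hy'.symm
  · apply image_closure_subset_closure_image d.cont
    rw [closure_Ioo hsb.ne]
    exact ⟨s, ⟨le_rfl, hsb.le⟩, hs⟩
  · apply image_closure_subset_closure_image d.cont
    rw [closure_Ioo has.ne]
    exact ⟨s, ⟨has.le, le_rfl⟩, hs⟩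
  · rintro l ⟨p, hp', rfl⟩ hvl
    obtain ⟨q, hq, hqv⟩ := Metric.mem_closure_iff.1 hvl r hr
    have hqfr : q ∈ fr A X := connectedComponentIn_subset _ _ hq
    have hqv' : q ≠ v := fun h => hvn (h ▸ hqfr)
    have hqb : q ∈ frontier X ∩ ball v r := ⟨hqfr.1.1, by rw [mem_ball, dist_comm]; exact hqv⟩
    have hcc := connectedComponentIn_eq hq
    rcases hrsub hqb with (h | ⟨x, hx, h⟩) | ⟨x, hx, h⟩
    · exact absurd h hqv'
    · left
      rw [hcc, ← h, hc1 x hx]
    · right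
      rw [hcc, ← h, hc2 x hx]

end Pool.Agent.Hsh
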