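import Pool.Agent.Hsh.Stmts

set_option autoImplicit false

/-!
# Module Arc3: the arcs of an inner tile
-/

namespace Pool.Agent.Hsh

open Set Metric MeasureTheory Filter Topology Classical

/-- parameters of a closed curve avoiding a closed periodic set -/
theorem arc3_gap (V : Set ℝ) (hV : IsClosed V) (hper : ∀ s ∈ V, ∀ n : ℤ, s + n ∈ V) {u : ℝ}
    (hu : u ∈ V) {t : ℝ} (ht : t ∉ V) : ∃ a b, a < t ∧ t < b ∧ a ∈ V ∧ b ∈ V ∧
      ∀ s ∈ Ioo a b, s ∉ V := by
  have h1 : (V ∩ Iic t).Nonempty := by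
    refine ⟨u + (⌊t - u⌋ : ℤ), hper u hu _, ?_⟩
    have := Int.floor_le (t - u)
    show u + (⌊t - u⌋ : ℝ) ≤ t
    linarith
  have h2 : (V ∩ Ici t).Nonempty := by
    refine ⟨u + (⌈t - u⌉ : ℤ), hper u hu _, ?_⟩
    have := Int.le_ceil (t - u)
    show t ≤ u + (⌈t - u⌉ : ℝ)
    linarith
  have b1 : BddAbove (V ∩ Iic t) := ⟨t, fun s hs => hs.2⟩
  have b2 : BddBelow (V ∩ Ici t) := ⟨t, fun s hs => hs.2⟩
  have m1 := (hV.inter isClosed_Iic).csSup_mem h1 b1
  have m2 := (hV.inter isClosed_Ici).csInf_mem h2 b2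
  refine ⟨sSup (V ∩ Iic t), sInf (V ∩ Ici t), ?_, ?_, m1.1, m2.1, ?_⟩
  · refine lt_of_le_of_ne m1.2 (fun h => ht ?_)
    rw [← h]; exact m1.1
  · refine lt_of_le_of_ne m2.2 (fun h => ht ?_)
    rw [h]; exact m2.1
  · intro s hs hsV
    rcases le_total s t with h | h
    · have := le_csSup b1 ⟨hsV, h⟩
      exact absurd hs.1 (not_lt.mpr this)
    · have := csInf_le b2 ⟨hsV, h⟩
      exact absurd hs.2 (not_lt.mpr this)

theorem arc3 (hB : Stmt_Bas) (hV : Stmt_VFin) (hT : Stmt_Two) (hC : Stmt_Circ)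
    (hA2 : Stmt_Arc2) : Stmt_Arc3 := by
  intro A hA X hX
  have bas := hB A hA
  have hfin := hV A hA
  obtain ⟨hXA, hXr⟩ := hX
  have hcl : IsClosed X := bas.closed X hXA
  obtain ⟨c, γ, hd⟩ := CT.disc_final X (hA.disk X hXA)
  have hfrX : frontier X ⊆ X := hcl.frontier_subset
  have hfr : fr A X = frontier X \ Vx A := by
    unfold fr
    rw [inter_eq_left.mpr (hfrX.trans hXr)]
  -- vertices of `X` are on the frontier
  have hvf : ∀ v ∈ Vx A, v ∈ X → v ∈ frontier X := by
    intro v hv hvX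
    have h3 : 1 < (at_ A v).card := lt_of_lt_of_le (by norm_num) hv.2
    obtain ⟨t', ht', hne⟩ := Finset.exists_mem_ne h3 X
    have ht'' := Finset.mem_filter.mp ht'
    exact bas.mem_frontier X hXA t' ht''.1 (Ne.symm hne) ⟨hvX, ht''.2⟩
  obtain ⟨u, hu, w, hw, huw, huX, hwX⟩ := hT A hA X ⟨hXA, hXr⟩
  obtain ⟨su, hsu⟩ : ∃ s, γ s = u := by
    have := hvf u hu huX
    rw [← hd.range] at this
    exact this
  obtain ⟨sw, hsw⟩ : ∃ s, γ s = w := by
    have := hvf w hw hwX
    rw [← hd.range] at this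
    exact this
  have hVcl : IsClosed (γ ⁻¹' (Vx A)) := hfin.isClosed.preimage hd.cont
  have hshift : ∀ (s : ℝ) (n : ℤ), γ (s + n) = γ s := by
    intro s n
    exact ((hd.per s (s + n)).mpr ⟨n, rfl⟩).symm
  have hVper : ∀ s ∈ γ ⁻¹' (Vx A), ∀ n : ℤ, s + n ∈ γ ⁻¹' (Vx A) := by
    intro s hs n
    show γ (s + n) ∈ Vx A
    rw [hshift]; exact hs
  have hsuV : su ∈ γ ⁻¹' (Vx A) := by
    show γ su ∈ Vx A
    rw [hsu]; exact hu
  -- description of the arcs
  have repr : ∀ l ∈ arcs A X, ∃ a b, a < b ∧ b < a + 1 ∧ γ a ∈ Vx A ∧ γ b ∈ Vx A ∧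
      l = γ '' Ioo a b ∧ γ '' Ioo a b ⊆ fr A X := by
    rintro l ⟨p, hp, rfl⟩
    have hp' : p ∈ frontier X \ Vx A := by rw [← hfr]; exact hp
    obtain ⟨t, ht⟩ : ∃ t, γ t = p := by
      have := hp'.1
      rw [← hd.range] at this
      exact this
    have htV : t ∉ γ ⁻¹' (Vx A) := by
      show γ t ∉ Vx A
      rw [ht]; exact hp'.2
    obtain ⟨a, b, hat, htb, haV, hbV, hgap⟩ := arc3_gap _ hVcl hVper hsuV htV
    have hba : b < a + 1 := by
      by_contra hcon
      push Not at hcon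
      have key : ∀ s, γ s ∈ Vx A → γ s = γ a := by
        intro s hs
        have h1 : a + Int.fract (s - a) = s + ((-⌊s - a⌋ : ℤ) : ℝ) := by
          have := Int.self_sub_floor (s - a)
          push_cast
          linarith
        have h2 : γ (a + Int.fract (s - a)) ∈ Vx A := by
          rw [h1, hshift]; exact hs
        have h3 : Int.fract (s - a) = 0 := by
          by_contra h0
          have h4 : 0 < Int.fract (s - a) :=
            lt_of_le_of_ne (Int.fract_nonneg _) (Ne.symm h0)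
          have h5 := Int.fract_lt_one (s - a)
          exact hgap (a + Int.fract (s - a)) ⟨by linarith, by linarith⟩ h2
        rw [h3, add_zero] at h1
        rw [h1, hshift]
      have e1 := key su hsuV
      have e2 := key sw (by rw [hsw]; exact hw)
      exact huw (by rw [← hsu, ← hsw, e1, e2])
    have hsub : γ '' Ioo a b ⊆ fr A X := by
      rintro _ ⟨s, hs, rfl⟩
      rw [hfr]
      refine ⟨?_, fun h => hgap s hs h⟩
      rw [← hd.range]
      exact mem_range_self s
    refine ⟨a, b, by linarith, hba, haV, hbV, ?_, hsub⟩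
    rw [← ht]
    refine hC γ hd.cont hd.per (fr A X) ?_ a b (by linarith) hba.le ?_ ?_ hsub t ⟨hat, htb⟩
    · rw [hfr, hd.range]; exact diff_subset
    · rw [hfr]; exact fun h => h.2 haV
    · rw [hfr]; exact fun h => h.2 hbV
  have hclos : ∀ a b : ℝ, closure (γ '' Ioo a b) ⊆ γ '' Ioo a b ∪ {γ a, γ b} := by
    intro a b z hz
    have h1 : closure (γ '' Ioo a b) ⊆ γ '' Icc a b := by
      apply closure_minimal (image_mono Ioo_subset_Icc_self)
      exact (isCompact_Icc.image hd.cont).isClosed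
    obtain ⟨s, hs, rfl⟩ := h1 hz
    rcases eq_or_lt_of_le hs.1 with h2 | h2
    · right; left; rw [← h2]
    · rcases eq_or_lt_of_le hs.2 with h3 | h3
      · right; right; rw [h3]; rfl
      · left; exact ⟨s, ⟨h2, h3⟩, rfl⟩
  have hmem : ∀ a b : ℝ, a < b → γ a ∈ closure (γ '' Ioo a b) ∧ γ b ∈ closure (γ '' Ioo a b) := by
    intro a b hab
    have h1 := image_closure_subset_closure_image (s := Ioo a b) hd.cont
    rw [closure_Ioo hab.ne] at h1
    exact ⟨h1 ⟨a, left_mem_Icc.mpr hab.le, rfl⟩, h1 ⟨b, right_mem_Icc.mpr hab.le, rfl⟩⟩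
  have ends : ∀ l ∈ arcs A X, ∃ u w, u ≠ w ∧ u ∈ Vx A ∧ w ∈ Vx A ∧
      ∀ v ∈ Vx A, v ∈ closure l ↔ (v = u ∨ v = w) := by
    intro l hl
    obtain ⟨a, b, hab, hba, ha, hb, rfl, hsub⟩ := repr l hl
    refine ⟨γ a, γ b, ?_, ha, hb, ?_⟩
    · intro h
      obtain ⟨n, hn⟩ := (hd.per a b).mp h
      have h1 : (0 : ℝ) < n := by linarith
      have h2 : (n : ℝ) < 1 := by linarith
      have h3 : 0 < n := by exact_mod_cast h1
      have h4 : n < 1 := by exact_mod_cast h2
      omega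
    · intro v hv
      constructor
      · intro h
        rcases hclos a b h with h1 | h1
        · have h2 := hsub h1
          rw [hfr] at h2
          exact absurd hv h2.2
        · exact h1
      · rintro (h | h)
        · rw [h]; exact (hmem a b hab).1
        · rw [h]; exact (hmem a b hab).2
  refine ⟨?_, ?_, ?_, ends⟩
  · -- finiteness
    have hsub : arcs A X ⊆ ⋃ v ∈ (Vx A ∩ X), {l | l ∈ arcs A X ∧ v ∈ closure l} := by
      intro l hl
      obtain ⟨u', w', _, hu', _, hiff⟩ := ends l hl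
      have h1 : u' ∈ closure l := (hiff u' hu').mpr (Or.inl rfl)
      have h2 : closure l ⊆ X := by
        apply closure_minimal _ hcl
        obtain ⟨p, hp, rfl⟩ := hl
        refine (connectedComponentIn_subset _ _).trans ?_
        rw [hfr]
        exact diff_subset.trans hfrX
      rw [mem_iUnion₂]
      exact ⟨u', ⟨hu', h2 h1⟩, hl, h1⟩
    refine Set.Finite.subset ?_ hsub
    refine (hfin.inter_of_left X).biUnion ?_
    rintro v ⟨hv, hvX⟩
    obtain ⟨l₁, _, l₂, _, _, _, _, h3, _⟩ := hA2 A hA X hXA v hv hvX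
    refine Set.Finite.subset (Set.toFinite {l₁, l₂}) ?_
    rintro l ⟨h4, h5⟩
    exact h3 l h4 h5
  · -- cover
    rw [← hfr]
    apply Subset.antisymm
    · rintro z ⟨l, ⟨p, hp, rfl⟩, hz⟩
      exact connectedComponentIn_subset _ _ hz
    · intro z hz
      exact ⟨connectedComponentIn (fr A X) z, ⟨z, hz, rfl⟩, mem_connectedComponentIn hz⟩
  · intro l hl z hz
    obtain ⟨a, b, hab, hba, ha, hb, rfl, hsub⟩ := repr l hl
    rcases hclos a b hz with h1 | h1 | h1
    · left; exact h1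
    · right; rw [h1]; exact ha
    · right; rw [h1]; exact hb

end Pool.Agent.Hsh
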