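import Pool.Agent.Hsh.Stmts

set_option autoImplicit false

/-!
# A touching tile is at most at two junctions on the boundary of the hull
-/

namespace Pool.Agent.Hsh

open Set Metric MeasureTheory Filter Topology Classical

theorem atMost_mem_un {A : Finset (Set ℂ)} {X : Set ℂ} (hX : X ∈ A) {p : ℂ} (hp : p ∈ X) :
    p ∈ un A := mem_biUnion hX hp

theorem atMost_mem_VF {A : Finset (Set ℂ)} {v : ℂ} (h : v ∈ VF A) : v ∈ Vx A := by
  unfold VF at h
  split_ifs at h with hf
  · exact hf.mem_toFinset.1 h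
  · exact absurd h (Finset.notMem_empty v)

theorem atMost_mem_at {A : Finset (Set ℂ)} {X : Set ℂ} {p : ℂ} : X ∈ at_ A p ↔ X ∈ A ∧ p ∈ X :=
  Finset.mem_filter

theorem atMost_mem_tch {A S : Finset (Set ℂ)} {X : Set ℂ} :
    X ∈ tch A S ↔ X ∈ A ∧ (X ∩ un S).Nonempty := Finset.mem_filter

theorem atMost (hB : Stmt_Bas) (hPa : Stmt_Path) (hK : Stmt_KDisc) (hO : Stmt_OutPath) :
    Stmt_AtMost := by
  intro A B S hL P hP
  by_contra hcon
  rw [not_le] at hcon
  have hBas := hB A hL.fam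
  have hPt : P ∈ tch A S := (Finset.mem_sdiff.1 hP).1
  have hPS : P ∉ S := (Finset.mem_sdiff.1 hP).2
  have htH : tch A S ⊆ hull A B S := fun X hX =>
    Finset.mem_filter.2 ⟨hL.tch hX, Or.inl hX⟩
  have hSA : S ⊆ A := hL.subS.trans hL.sub
  have hne : ∀ X ∈ A, X.Nonempty := by
    intro X hX
    obtain ⟨c, γ, hd⟩ := CT.disc_final X (hL.fam.disk X hX)
    exact ⟨c, interior_subset hd.center⟩
  have hSt : S ⊆ tch A S := by
    intro X hX
    refine atMost_mem_tch.2 ⟨hSA hX, ?_⟩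
    obtain ⟨x, hx⟩ := hne X (hSA hX)
    exact ⟨x, hx, atMost_mem_un hX hx⟩
  have hHB : hull A B S ⊆ B := Finset.filter_subset _ _
  -- three vertices
  obtain ⟨s, hs, hs3⟩ := Finset.exists_subset_card_eq (show 3 ≤ _ from hcon)
  let e : Fin 3 ≃ s := (s.equivFinOfCardEq hs3).symm
  set v : Fin 3 → ℂ := fun i => (e i : ℂ) with hv
  have hvinj : ∀ i j, i ≠ j → v i ≠ v j := by
    intro i j hij h
    exact hij (e.injective (Subtype.ext h))
  have hvm : ∀ i, v i ∈ Vx A ∧ ¬ at_ A (v i) ⊆ hull A B S ∧ v i ∈ P ∧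
      2 ≤ (at_ (tch A S \ S) (v i)).card := by
    intro i
    have := hs (e i).2
    rw [Finset.mem_filter] at this
    exact ⟨atMost_mem_VF this.1, this.2⟩
  have hvP : ∀ i, v i ∈ P := fun i => (hvm i).2.2.1
  -- the tiles X i
  have hX : ∀ i, ∃ X, X ∈ tch A S ∧ X ∉ S ∧ v i ∈ X ∧ X ≠ P := by
    intro i
    have h1 : 1 < (at_ (tch A S \ S) (v i)).card := (hvm i).2.2.2
    obtain ⟨X, hX1, hX2⟩ := Finset.exists_mem_ne h1 P
    obtain ⟨hX3, hX4⟩ := atMost_mem_at.1 hX1
    obtain ⟨hX5, hX6⟩ := Finset.mem_sdiff.1 hX3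
    exact ⟨X, hX5, hX6, hX4, hX2⟩
  choose X hXt hXS hvX hXP using hX
  -- the tiles outside the hull
  have hZ : ∀ i, ∃ Z, Z ∈ A ∧ Z ∉ hull A B S ∧ v i ∈ Z := by
    intro i
    have h1 := (hvm i).2.1
    rw [Finset.subset_iff] at h1
    push Not at h1
    obtain ⟨Z, hZ1, hZ2⟩ := h1
    obtain ⟨hZ3, hZ4⟩ := atMost_mem_at.1 hZ1
    exact ⟨Z, hZ3, hZ2, hZ4⟩
  choose Z hZA hZH hvZ using hZ
  have hPA : P ∈ A := (atMost_mem_tch.1 hPt).1
  have hXA : ∀ i, X i ∈ A := fun i => (atMost_mem_tch.1 (hXt i)).1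
  have hPB : P ∈ B := hL.tch hPt
  have hXB : ∀ i, X i ∈ B := fun i => hL.tch (hXt i)
  -- v i is not in the union of S
  have hvS : ∀ i, v i ∉ un S := by
    intro i h
    apply (hvm i).2.1
    intro Y hY
    obtain ⟨hY1, hY2⟩ := atMost_mem_at.1 hY
    exact htH (atMost_mem_tch.2 ⟨hY1, ⟨v i, hY2, h⟩⟩)
  have hPH : P ⊆ un (hull A B S) := fun p hp => atMost_mem_un (htH hPt) hp
  have hXH : ∀ i, X i ⊆ un (hull A B S) := fun i p hp => atMost_mem_un (htH (hXt i)) hp
  have hSH : un S ⊆ un (hull A B S) := by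
    intro p hp
    obtain ⟨Y, hY, hpY⟩ := mem_iUnion₂.1 hp
    exact atMost_mem_un (htH (hSt hY)) hpY
  have hSB : un S ⊆ un B := by
    intro p hp
    obtain ⟨Y, hY, hpY⟩ := mem_iUnion₂.1 hp
    exact atMost_mem_un (hL.subS hY) hpY
  have hPBs : P ⊆ un B := fun p hp => atMost_mem_un hPB hp
  have hXBs : ∀ i, X i ⊆ un B := fun i p hp => atMost_mem_un (hXB i) hp
  -- disjointness facts
  have hPX : ∀ i, Disjoint (interior P) (X i) := fun i => hBas.int_disj P hPA (X i) (hXA i) (hXP i).symm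
  have hXPd : ∀ i, Disjoint (interior (X i)) P := fun i => hBas.int_disj (X i) (hXA i) P hPA (hXP i)
  have hPSd : Disjoint (interior P) (un S) := by
    rw [disjoint_left]
    intro p hp hpS
    obtain ⟨Y, hY, hpY⟩ := mem_iUnion₂.1 hpS
    have hne' : P ≠ Y := fun h => hPS (h ▸ hY)
    exact disjoint_left.1 (hBas.int_disj P hPA Y (hSA hY) hne') hp hpY
  -- paths
  obtain ⟨a, γ, hdP⟩ := CT.disc_final P (hL.fam.disk P hPA)
  have hfrP : ∀ i, v i ∈ frontier P := fun i =>
    hBas.mem_frontier P hPA (X i) (hXA i) (hXP i).symm ⟨hvP i, hvX i⟩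
  have path1 : ∀ i, JoinedIn (insert (v i) (interior P)) a (v i) := fun i => (hdP.rad _ (hfrP i)).symm
  obtain ⟨Y0, hY0⟩ := hL.neS
  obtain ⟨c, hcY⟩ := hne Y0 (hSA hY0)
  have hcS : c ∈ un S := atMost_mem_un hY0 hcY
  have path2 : ∀ i, JoinedIn (insert (v i) (un S ∪ interior (X i))) c (v i) := by
    intro i
    obtain ⟨hXA', q, hq1, hq2⟩ := atMost_mem_tch.1 (hXt i)
    obtain ⟨ci, γi, hdi⟩ := CT.disc_final (X i) (hL.fam.disk (X i) (hXA i))
    obtain ⟨Y, hY, hqY⟩ := mem_iUnion₂.1 hq2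
    have hne' : X i ≠ Y := fun h => hXS i (h ▸ hY)
    have hq3 : q ∈ frontier (X i) := hBas.mem_frontier (X i) (hXA i) Y (hSA hY) hne' ⟨hq1, hqY⟩
    have hv3 : v i ∈ frontier (X i) :=
      hBas.mem_frontier (X i) (hXA i) P hPA (hXP i) ⟨hvX i, hvP i⟩
    have j1 : JoinedIn (insert (v i) (un S ∪ interior (X i))) c q :=
      (hPa A S hL.fam hSA hL.con c hcS q hq2).mono fun p hp => Or.inr (Or.inl hp)
    have j2 : JoinedIn (insert (v i) (un S ∪ interior (X i))) q ci := by
      refine (hdi.rad q hq3).mono ?_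
      intro p hp
      rcases hp with rfl | hp
      · exact Or.inr (Or.inl hq2)
      · exact Or.inr (Or.inr hp)
    have j3 : JoinedIn (insert (v i) (un S ∪ interior (X i))) ci (v i) := by
      refine (hdi.rad (v i) hv3).symm.mono ?_
      intro p hp
      rcases hp with rfl | hp
      · exact Or.inl rfl
      · exact Or.inr (Or.inr hp)
    exact (j1.trans j2).trans j3
  have hQ : ∀ i, ∃ y ∈ frontier (un B),
      JoinedIn (insert (v i) (un B \ un (hull A B S))) (v i) y := fun i =>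
    hO A B S hL (v i) (hPBs (hvP i)) (Z i) (hZA i) (hZH i) (hvZ i)
  choose y hyf hyJ using hQ
  refine hK (un B) hL.disk a c v y (fun i => insert (v i) (interior P))
    (fun i => insert (v i) (un S ∪ interior (X i)))
    (fun i => insert (v i) (un B \ un (hull A B S))) ?_ ?_ ?_ path1 path2 hyJ hyf ?_ ?_ ?_
  · intro i p hp
    rcases hp with rfl | hp
    · exact hPBs (hvP i)
    · exact hPBs (interior_subset hp)
  · intro i p hp
    rcases hp with rfl | hp | hp
    · exact hPBs (hvP i)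
    · exact hSB hp
    · exact hXBs i (interior_subset hp)
  · intro i p hp
    rcases hp with rfl | hp
    · exact hPBs (hvP i)
    · exact hp.1
  · intro i j hij
    rw [disjoint_left]
    intro p hp hp'
    rcases hp with rfl | hp
    · rcases hp' with hp' | hp' | hp'
      · exact hvinj i j hij hp'
      · exact hvS i hp'
      · exact disjoint_left.1 (hXPd j) hp' (hvP i)
    · rcases hp' with rfl | hp' | hp'
      · exact disjoint_left.1 (hPX j) hp (hvX j)
      · exact disjoint_left.1 hPSd hp hp'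
      · exact disjoint_left.1 (hPX j) hp (interior_subset hp')
  · intro i j hij
    rw [disjoint_left]
    intro p hp hp'
    rcases hp with rfl | hp
    · rcases hp' with hp' | hp'
      · exact hvinj i j hij hp'
      · exact hp'.2 (hPH (hvP i))
    · rcases hp' with rfl | hp'
      · exact disjoint_left.1 (hPX j) hp (hvX j)
      · exact hp'.2 (hPH (interior_subset hp))
  · intro i j hij
    rw [disjoint_left]
    intro p hp hp'
    rcases hp with rfl | hp | hp
    · rcases hp' with hp' | hp'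
      · exact hvinj i j hij hp'
      · exact hp'.2 (hPH (hvP i))
    · rcases hp' with rfl | hp'
      · exact hvS j hp
      · exact hp'.2 (hSH hp)
    · rcases hp' with rfl | hp'
      · exact disjoint_left.1 (hXPd i) hp (hvP j)
      · exact hp'.2 (hXH i (interior_subset hp))

end Pool.Agent.Hsh
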