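import Pool.Agent.Hsh.Stmts

set_option autoImplicit false

/-! # Components of a subset of a closed curve -/

namespace Pool.Agent.Hsh

open Set Metric MeasureTheory Filter Topology Classical

theorem circ : Stmt_Circ := by
  intro γ hγ hper O hO a b hab hb ha' hb' hsub t ht
  have htO : γ t ∈ O := hsub ⟨t, ht, rfl⟩
  have hL : IsPreconnected (γ '' Ioo a b) := isPreconnected_Ioo.image γ hγ.continuousOn
  refine Subset.antisymm ?_ (hL.subset_connectedComponentIn ⟨t, ht, rfl⟩ hsub)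
  have hC : IsPreconnected (connectedComponentIn O (γ t)) := isPreconnected_connectedComponentIn
  have hCO : connectedComponentIn O (γ t) ⊆ O := connectedComponentIn_subset O (γ t)
  have hmem : γ t ∈ connectedComponentIn O (γ t) := mem_connectedComponentIn htO
  have h1 : IsClosed (γ '' Icc a b) := (isCompact_Icc.image hγ).isClosed
  have h2 : IsClosed (γ '' Icc b (a + 1)) := (isCompact_Icc.image hγ).isClosed
  have hcov : connectedComponentIn O (γ t) ⊆ γ '' Icc a b ∪ γ '' Icc b (a + 1) := by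
    intro z hz
    obtain ⟨s, rfl⟩ := hO (hCO hz)
    have hfl : γ s = γ (s - ⌊s - a⌋) := (hper _ _).2 ⟨-⌊s - a⌋, by push_cast; ring⟩
    have e1 : a ≤ s - ⌊s - a⌋ := by
      have := Int.floor_le (s - a)
      linarith
    have e2 : s - ⌊s - a⌋ ≤ a + 1 := by
      have := Int.lt_floor_add_one (s - a)
      linarith
    rw [hfl]
    rcases le_total (s - ⌊s - a⌋) b with h | h
    · exact Or.inl ⟨_, ⟨e1, h⟩, rfl⟩
    · exact Or.inr ⟨_, ⟨h, e2⟩, rfl⟩
  have hdis : ¬ (connectedComponentIn O (γ t) ∩ (γ '' Icc a b ∩ γ '' Icc b (a + 1))).Nonempty := by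
    rintro ⟨z, hz, ⟨x, hx, rfl⟩, ⟨y, hy, hxy⟩⟩
    obtain ⟨n, hn⟩ := (hper x y).1 hxy.symm
    have hz' := hCO hz
    have n0 : (0 : ℝ) ≤ n := by linarith [hx.2, hy.1]
    have n1 : (n : ℝ) ≤ 1 := by linarith [hx.1, hy.2]
    have n0' : 0 ≤ n := by exact_mod_cast n0
    have n1' : n ≤ 1 := by exact_mod_cast n1
    rcases (by omega : n = 0 ∨ n = 1) with h | h
    · subst h
      rw [Int.cast_zero, add_zero] at hn
      have : x = b := le_antisymm hx.2 (by rw [← hn]; exact hy.1)
      exact hb' (this ▸ hz')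
    · subst h
      rw [Int.cast_one] at hn
      have : x = a := le_antisymm (by have := hy.2; linarith) hx.1
      exact ha' (this ▸ hz')
  have hempty : ¬ (connectedComponentIn O (γ t) ∩ γ '' Icc b (a + 1)).Nonempty := by
    intro h
    exact hdis (isPreconnected_closed_iff.1 hC _ _ h1 h2 hcov
      ⟨γ t, hmem, ⟨t, ⟨ht.1.le, ht.2.le⟩, rfl⟩⟩ h)
  intro z hz
  rcases hcov hz with h | h
  · obtain ⟨x, hx, rfl⟩ := h
    have hz' := hCO hz
    refine ⟨x, ⟨lt_of_le_of_ne hx.1 ?_, lt_of_le_of_ne hx.2 ?_⟩, rfl⟩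
    · rintro rfl
      exact ha' hz'
    · rintro rfl
      exact hb' hz'
  · exact absurd ⟨z, hz, h⟩ hempty

end Pool.Agent.Hsh
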