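import Pool.Agent.Hsh.Stmts

set_option autoImplicit false

/-!
# Module Deg: counting the ends of the arcs
-/

namespace Pool.Agent.Hsh

open Set Metric MeasureTheory Filter Topology Classical

theorem deg_closed {t : Set ℂ} (h : IsDisk t) : IsClosed t := by
  obtain ⟨e⟩ := h
  have h1 : CompactSpace (closedBall (0 : ℂ) 1) :=
    isCompact_iff_compactSpace.1 (isCompact_closedBall 0 1)
  have h2 : CompactSpace t := e.symm.compactSpace
  exact (isCompact_iff_compactSpace.2 h2).isClosed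

theorem deg_sub {A : Finset (Set ℂ)} {X l : Set ℂ} (hX : IsDisk X) (hl : l ∈ arcs A X) :
    l ⊆ X := by
  obtain ⟨p, _, rfl⟩ := hl
  intro q hq
  have h1 := (connectedComponentIn_subset _ _ hq).1.1
  exact (deg_closed hX).frontier_subset h1

theorem deg_mem {A : Finset (Set ℂ)} {X l : Set ℂ} (hX : IsDisk X) (hl : l ∈ arcs A X) {v : ℂ}
    (hv : v ∈ closure l) : v ∈ X :=
  (closure_minimal (deg_sub hX hl) (deg_closed hX)) hv

theorem deg_loc (h1 : Stmt_Arc1) (h2 : Stmt_Arc2) (hP : Stmt_Par) {A S : Finset (Set ℂ)}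
    (hA : Fam A) (hS : S ⊆ A) {v : ℂ} (hv : v ∈ Vx A) (E : Finset (Set ℂ))
    (hE : ∀ l, l ∈ E ↔ ∃ X ∈ S, ∃ Y ∈ S, Sh A X Y l) :
    (E.filter (fun l => v ∈ closure l)).card ≤ (at_ S v).card ∧
    (¬ at_ A v ⊆ S → (∃ X ∈ S, v ∈ X) →
      (E.filter (fun l => v ∈ closure l)).card + 1 ≤ (at_ S v).card) := by
  have hex : ∀ X ∈ at_ S v, ∃ L : Finset (Set ℂ), L.card = 2 ∧
      ∀ l, l ∈ L ↔ l ∈ arcs A X ∧ v ∈ closure l := by
    intro X hX
    rw [at_, Finset.mem_filter] at hX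
    obtain ⟨l₁, hl₁, l₂, hl₂, hne, hc1, hc2, hall, _⟩ := h2 A hA X (hS hX.1) v hv hX.2
    refine ⟨{l₁, l₂}, Finset.card_pair hne, fun l => ?_⟩
    rw [Finset.mem_insert, Finset.mem_singleton]
    constructor
    · rintro (rfl | rfl)
      · exact ⟨hl₁, hc1⟩
      · exact ⟨hl₂, hc2⟩
    · rintro ⟨h3, h4⟩
      exact hall l h3 h4
  choose! L hL2 hLm using hex
  set F := (at_ S v).biUnion L with hF
  set Ev := E.filter (fun l => v ∈ closure l) with hEv
  have hsum : ∑ l ∈ F, ((at_ S v).filter (fun X => l ∈ L X)).card = 2 * (at_ S v).card := by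
    have h3 := Finset.sum_card_bipartiteAbove_eq_sum_card_bipartiteBelow
      (s := at_ S v) (t := F) (fun X l => l ∈ L X)
    simp only [Finset.bipartiteAbove, Finset.bipartiteBelow] at h3
    rw [← h3]
    have h4 : ∀ X ∈ at_ S v, (F.filter (fun l => l ∈ L X)).card = 2 := by
      intro X hX
      rw [← hL2 X hX]
      congr 1
      ext l
      rw [Finset.mem_filter, hF, Finset.mem_biUnion]
      exact ⟨fun h => h.2, fun h => ⟨⟨X, hX, h⟩, h⟩⟩
    rw [Finset.sum_congr rfl h4, Finset.sum_const, smul_eq_mul, mul_comm]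
  have hsubF : Ev ⊆ F := by
    intro l hl
    rw [hEv, Finset.mem_filter, hE] at hl
    obtain ⟨⟨X, hX, Y, hY, hne, hlX, hlY⟩, hc⟩ := hl
    have hX' : X ∈ at_ S v := by
      rw [at_, Finset.mem_filter]
      exact ⟨hX, deg_mem (hA.disk X (hS hX)) hlX hc⟩
    rw [hF, Finset.mem_biUnion]
    exact ⟨X, hX', (hLm X hX' l).2 ⟨hlX, hc⟩⟩
  have hdeg2 : ∀ l ∈ Ev, 2 ≤ ((at_ S v).filter (fun X => l ∈ L X)).card := by
    intro l hl
    rw [hEv, Finset.mem_filter, hE] at hl
    obtain ⟨⟨X, hX, Y, hY, hne, hlX, hlY⟩, hc⟩ := hl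
    have hX' : X ∈ at_ S v := by
      rw [at_, Finset.mem_filter]
      exact ⟨hX, deg_mem (hA.disk X (hS hX)) hlX hc⟩
    have hY' : Y ∈ at_ S v := by
      rw [at_, Finset.mem_filter]
      exact ⟨hY, deg_mem (hA.disk Y (hS hY)) hlY hc⟩
    have h5 : ({X, Y} : Finset (Set ℂ)) ⊆ (at_ S v).filter (fun X => l ∈ L X) := by
      intro Z hZ
      rw [Finset.mem_insert, Finset.mem_singleton] at hZ
      rw [Finset.mem_filter]
      rcases hZ with rfl | rfl
      · exact ⟨hX', (hLm _ hX' l).2 ⟨hlX, hc⟩⟩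
      · exact ⟨hY', (hLm _ hY' l).2 ⟨hlY, hc⟩⟩
    calc 2 = ({X, Y} : Finset (Set ℂ)).card := (Finset.card_pair hne).symm
      _ ≤ _ := Finset.card_le_card h5
  have hdeg1 : ∀ l ∈ F, 1 ≤ ((at_ S v).filter (fun X => l ∈ L X)).card := by
    intro l hl
    rw [hF, Finset.mem_biUnion] at hl
    obtain ⟨X, hX, hlX⟩ := hl
    exact Finset.card_pos.2 ⟨X, Finset.mem_filter.2 ⟨hX, hlX⟩⟩
  have hsplit := Finset.sum_sdiff hsubF (f := fun l => ((at_ S v).filter (fun X => l ∈ L X)).card)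
  have hb1 : 2 * Ev.card ≤ ∑ l ∈ Ev, ((at_ S v).filter (fun X => l ∈ L X)).card := by
    calc 2 * Ev.card = ∑ _l ∈ Ev, 2 := by rw [Finset.sum_const, smul_eq_mul, mul_comm]
      _ ≤ _ := Finset.sum_le_sum hdeg2
  have hb2 : (F \ Ev).card ≤ ∑ l ∈ F \ Ev, ((at_ S v).filter (fun X => l ∈ L X)).card := by
    calc (F \ Ev).card = ∑ _l ∈ F \ Ev, 1 := by rw [Finset.sum_const, smul_eq_mul, mul_one]
      _ ≤ _ := Finset.sum_le_sum (fun l hl => hdeg1 l (Finset.mem_sdiff.1 hl).1)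
  constructor
  · omega
  · intro hn hne
    have hPs : at_ S v ⊆ at_ A v := by
      intro X hX
      rw [at_, Finset.mem_filter] at hX ⊢
      exact ⟨hS hX.1, hX.2⟩
    have hPn : (at_ S v).Nonempty := by
      obtain ⟨X, hX, hvX⟩ := hne
      exact ⟨X, by rw [at_, Finset.mem_filter]; exact ⟨hX, hvX⟩⟩
    have hPne : at_ S v ≠ at_ A v := by
      intro h
      apply hn
      rw [← h]
      exact Finset.filter_subset _ _
    obtain ⟨X, hX, Y, hY, hYP, X', hX', Y', hY', hYP', l, l', hll, hs, hs', hc, hc'⟩ :=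
      hP A hA v hv (at_ S v) hPs hPn hPne
    have key : ∀ X ∈ at_ S v, ∀ Y ∈ at_ A v, Y ∉ at_ S v → ∀ l, Sh A X Y l → v ∈ closure l →
        l ∈ F \ Ev := by
      intro X hX Y hY hYP l hs hc
      have hXA : X ∈ A := (Finset.mem_filter.1 (hPs hX)).1
      have hYA : Y ∈ A := (Finset.mem_filter.1 hY).1
      rw [Finset.mem_sdiff]
      constructor
      · rw [hF, Finset.mem_biUnion]
        exact ⟨X, hX, (hLm X hX l).2 ⟨hs.2.1, hc⟩⟩
      · intro hlE
        rw [hEv, Finset.mem_filter, hE] at hlE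
        obtain ⟨⟨X1, hX1, X2, hX2, hne12, hl1, hl2⟩, _⟩ := hlE
        obtain ⟨Y0, _, _, _, hlne, _, hat⟩ := h1 A hA X hXA l hs.2.1
        obtain ⟨p, hp⟩ := hlne
        have hmem : ∀ Z ∈ A, l ∈ arcs A Z → Z = X ∨ Z = Y0 := by
          intro Z hZ hlZ
          have h6 : Z ∈ at_ A p := by
            rw [at_, Finset.mem_filter]
            exact ⟨hZ, deg_sub (hA.disk Z hZ) hlZ hp⟩
          rw [hat p hp, Finset.mem_insert, Finset.mem_singleton] at h6
          exact h6
        have hYY : Y = Y0 := by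
          rcases hmem Y hYA hs.2.2 with h | h
          · exact absurd h.symm hs.1
          · exact h
        have hYS : Y ∈ S := by
          rcases hmem X1 (hS hX1) hl1 with h | h
          · rcases hmem X2 (hS hX2) hl2 with h' | h'
            · exact absurd (h.trans h'.symm) hne12
            · rw [hYY, ← h']; exact hX2
          · rw [hYY, ← h]; exact hX1
        apply hYP
        rw [at_, Finset.mem_filter]
        exact ⟨hYS, (Finset.mem_filter.1 hY).2⟩
    have h7 : ({l, l'} : Finset (Set ℂ)) ⊆ F \ Ev := by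
      intro z hz
      rw [Finset.mem_insert, Finset.mem_singleton] at hz
      rcases hz with rfl | rfl
      · exact key X hX Y hY hYP _ hs hc
      · exact key X' hX' Y' hY' hYP' _ hs' hc'
    have h8 := Finset.card_le_card h7
    rw [Finset.card_pair hll] at h8
    omega

theorem deg (hV : Stmt_VFin) (h1 : Stmt_Arc1) (h2 : Stmt_Arc2) (h3 : Stmt_Arc3) (hP : Stmt_Par) :
    Stmt_Deg := by
  intro A hA S hS hin
  have hfin : (EE A S).Finite := by
    have h4 : (⋃ X ∈ S, arcs A X).Finite :=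
      Set.Finite.biUnion S.finite_toSet (fun X hX => (h3 A hA X (hin X hX)).fin)
    refine h4.subset ?_
    rintro l ⟨X, hX, Y, hY, hs⟩
    exact Set.mem_biUnion hX hs.2.1
  set E := hfin.toFinset with hEdef
  have hE : ∀ l, l ∈ E ↔ ∃ X ∈ S, ∃ Y ∈ S, Sh A X Y l := by
    intro l
    rw [hEdef, Set.Finite.mem_toFinset]
    exact Iff.rfl
  have hcard : (EE A S).ncard = E.card := Set.ncard_eq_toFinset_card _ hfin
  have hVF : ∀ v, v ∈ VF A ↔ v ∈ Vx A := by
    intro v
    rw [VF, dif_pos (hV A hA), Set.Finite.mem_toFinset]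
  have hends : ∀ l ∈ E, ((VF A).filter (fun v => v ∈ closure l)).card = 2 := by
    intro l hl
    rw [hE] at hl
    obtain ⟨X, hX, Y, hY, hs⟩ := hl
    obtain ⟨u, w, huw, hu, hw, hall⟩ := (h3 A hA X (hin X hX)).ends l hs.2.1
    rw [← Finset.card_pair huw]
    congr 1
    ext v
    rw [Finset.mem_filter, hVF, Finset.mem_insert, Finset.mem_singleton]
    constructor
    · rintro ⟨h5, h6⟩
      exact (hall v h5).1 h6
    · rintro (rfl | rfl)
      · exact ⟨hu, (hall _ hu).2 (Or.inl rfl)⟩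
      · exact ⟨hw, (hall _ hw).2 (Or.inr rfl)⟩
  have hdc : 2 * E.card = ∑ v ∈ VF A, (E.filter (fun l => v ∈ closure l)).card := by
    have h5 := Finset.sum_card_bipartiteAbove_eq_sum_card_bipartiteBelow
      (s := E) (t := VF A) (fun l v => v ∈ closure l)
    simp only [Finset.bipartiteAbove, Finset.bipartiteBelow] at h5
    rw [← h5, Finset.sum_congr rfl hends, Finset.sum_const, smul_eq_mul, mul_comm]
  have hz : ∀ v ∈ VF A, v ∉ (VF A).filter (fun v => ∃ X ∈ S, v ∈ X) →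
      (E.filter (fun l => v ∈ closure l)).card = 0 := by
    intro v hv hv2
    rw [Finset.card_eq_zero, Finset.filter_eq_empty_iff]
    intro l hl hc
    rw [hE] at hl
    obtain ⟨X, hX, Y, hY, hs⟩ := hl
    exact hv2 (Finset.mem_filter.2 ⟨hv, X, hX, deg_mem (hA.disk X (hS hX)) hs.2.1 hc⟩)
  have hdc2 : 2 * E.card = ∑ v ∈ (VF A).filter (fun v => ∃ X ∈ S, v ∈ X),
      (E.filter (fun l => v ∈ closure l)).card := by
    rw [hdc]
    exact (Finset.sum_subset (Finset.filter_subset _ _) hz).symm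
  rw [hcard, hdc2, ← Finset.sum_filter_add_sum_filter_not
    ((VF A).filter (fun v => ∃ X ∈ S, v ∈ X)) (fun v => at_ A v ⊆ S)]
  rw [Finset.filter_filter, Finset.filter_filter]
  have e1 : (VF A).filter (fun v => (∃ X ∈ S, v ∈ X) ∧ at_ A v ⊆ S) =
      (VF A).filter (fun v => at_ A v ⊆ S ∧ ∃ X ∈ S, v ∈ X) := by
    apply Finset.filter_congr
    intro v _
    exact and_comm
  have e2 : (VF A).filter (fun v => (∃ X ∈ S, v ∈ X) ∧ ¬ at_ A v ⊆ S) =
      (VF A).filter (fun v => ¬ at_ A v ⊆ S ∧ ∃ X ∈ S, v ∈ X) := by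
    apply Finset.filter_congr
    intro v _
    exact and_comm
  rw [e1, e2]
  apply add_le_add
  · apply Finset.sum_le_sum
    intro v hv
    rw [Finset.mem_filter, hVF] at hv
    refine ((deg_loc h1 h2 hP hA hS hv.1 E hE).1).trans ?_
    apply Finset.card_le_card
    intro X hX
    rw [at_, Finset.mem_filter] at hX ⊢
    exact ⟨hS hX.1, hX.2⟩
  · apply Finset.sum_le_sum
    intro v hv
    rw [Finset.mem_filter, hVF] at hv
    have h9 := (deg_loc h1 h2 hP hA hS hv.1 E hE).2 hv.2.1 hv.2.2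
    omega

end Pool.Agent.Hsh
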