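import Pool.Agent.Hsh.Stmts

set_option autoImplicit false

/-!
# Module Dens: lower densities
-/

namespace Pool.Agent.Hsh

open Set Metric MeasureTheory Filter Topology Classical

theorem Dens_liminf_le_one (t : Set ℂ) (p : ℂ) :
    liminf (fun ρ : ℝ => volume (interior t ∩ ball p ρ) / volume (ball p ρ)) (𝓝[>] 0) ≤ 1 := by
  have h : liminf (fun ρ : ℝ => volume (interior t ∩ ball p ρ) / volume (ball p ρ)) (𝓝[>] 0) ≤
      liminf (fun _ : ℝ => (1 : ENNReal)) (𝓝[>] 0) := by
    refine liminf_le_liminf (Eventually.of_forall fun ρ => ?_)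
    refine ENNReal.div_le_of_le_mul ?_
    rw [one_mul]
    exact measure_mono inter_subset_right
  rwa [liminf_const] at h

theorem Dens_sum (A : Finset (Set ℂ)) (hA : Fam A) (p : ℂ) : ∑ t ∈ A, lowDens t p ≤ 1 := by
  set L : Set ℂ → ENNReal := fun t =>
    liminf (fun ρ : ℝ => volume (interior t ∩ ball p ρ) / volume (ball p ρ)) (𝓝[>] 0) with hL
  have hL1 : ∀ t, L t ≤ 1 := fun t => Dens_liminf_le_one t p
  have hLt : ∀ t, L t ≠ ⊤ := fun t => ne_top_of_le_ne_top ENNReal.one_ne_top (hL1 t)
  have key : ∑ t ∈ A, L t ≤ 1 := by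
    refine ENNReal.le_of_forall_pos_le_add fun ε hε _ => ?_
    set n : ENNReal := (A.card : ENNReal) + 1 with hn
    have hn0 : n ≠ 0 := by simp [hn]
    have hnt : n ≠ ⊤ := by simp [hn]
    set e : ENNReal := ε / n with he
    have he0 : 0 < e := ENNReal.div_pos (by exact_mod_cast hε.ne') hnt
    have hev : ∀ t ∈ A, ∀ᶠ ρ : ℝ in 𝓝[>] 0,
        L t ≤ volume (interior t ∩ ball p ρ) / volume (ball p ρ) + e := by
      intro t _
      by_cases h0 : L t = 0
      · exact Eventually.of_forall fun ρ => by rw [h0]; exact zero_le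
      · have hlt : L t - e < L t := ENNReal.sub_lt_self (hLt t) h0 he0.ne'
        have h := eventually_lt_of_lt_liminf hlt
        filter_upwards [h] with ρ hρ
        exact tsub_le_iff_right.1 hρ.le
    have hall : ∀ᶠ ρ : ℝ in 𝓝[>] 0, ∀ t ∈ A,
        L t ≤ volume (interior t ∩ ball p ρ) / volume (ball p ρ) + e :=
      (Finset.eventually_all A).2 hev
    obtain ⟨ρ, hρ⟩ := hall.exists
    calc ∑ t ∈ A, L t
        ≤ ∑ t ∈ A, (volume (interior t ∩ ball p ρ) / volume (ball p ρ) + e) :=
          Finset.sum_le_sum hρ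
      _ = (∑ t ∈ A, volume (interior t ∩ ball p ρ)) / volume (ball p ρ) + A.card * e := by
          rw [Finset.sum_add_distrib, Finset.sum_const, nsmul_eq_mul]
          simp only [div_eq_mul_inv, Finset.sum_mul]
      _ ≤ 1 + ε := by
          refine add_le_add ?_ ?_
          · refine ENNReal.div_le_of_le_mul ?_
            rw [one_mul, ← measure_biUnion_finset]
            · refine measure_mono (iUnion₂_subset fun t _ => inter_subset_right)
            · intro t ht t' ht' hne
              exact (hA.disj t ht t' ht' hne).mono inter_subset_left inter_subset_left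
            · intro t _
              exact (isOpen_interior.inter isOpen_ball).measurableSet
          · calc (A.card : ENNReal) * e ≤ n * e := mul_le_mul_left (by simp [hn]) _
              _ = ε := by rw [he]; exact ENNReal.mul_div_cancel hn0 hnt
  have h2 : ∑ t ∈ A, lowDens t p = (∑ t ∈ A, L t).toReal := by
    rw [ENNReal.toReal_sum fun t _ => hLt t]
    rfl
  rw [h2]
  calc (∑ t ∈ A, L t).toReal ≤ (1 : ENNReal).toReal := ENNReal.toReal_mono ENNReal.one_ne_top key
    _ = 1 := ENNReal.toReal_one

theorem Dens_volume_image (g : ℂ ≃ᵢ ℂ) (s : Set ℂ) : volume (g '' s) = volume s := by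
  have h := IsometryEquiv.coeFn_toRealAffineIsometryEquiv g
  set a := g.toRealAffineIsometryEquiv with ha
  have hmp : MeasurePreserving a.linearIsometryEquiv volume volume :=
    a.linearIsometryEquiv.measurePreserving
  have himg : g '' s = (fun z => z + g 0) '' (a.linearIsometryEquiv '' s) := by
    rw [image_image]
    refine image_congr fun z _ => ?_
    have h1 : a (z +ᵥ (0 : ℂ)) = a.linearIsometryEquiv z +ᵥ a 0 := a.map_vadd 0 z
    rw [h] at h1
    simpa using h1
  rw [himg]
  have h3 : volume ((fun z : ℂ => z + g 0) '' (a.linearIsometryEquiv '' s)) =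
      volume (a.linearIsometryEquiv '' s) := by
    rw [image_add_right, measure_preimage_add_right]
  rw [h3]
  have h4 : a.linearIsometryEquiv '' s = a.linearIsometryEquiv.symm ⁻¹' s :=
    a.linearIsometryEquiv.toEquiv.image_eq_preimage_symm s
  rw [h4]
  exact (a.linearIsometryEquiv.symm.measurePreserving).measure_preimage_equiv
    (f := a.linearIsometryEquiv.symm.toMeasurableEquiv) s

theorem dens : Stmt_Dens := by
  refine ⟨Dens_sum, ?_, ?_⟩
  · intro t p
    refine ⟨ENNReal.toReal_nonneg, ?_⟩
    calc lowDens t p ≤ (1 : ENNReal).toReal :=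
        ENNReal.toReal_mono ENNReal.one_ne_top (Dens_liminf_le_one t p)
      _ = 1 := ENNReal.toReal_one
  · intro g t p
    have h : ∀ ρ : ℝ, volume (interior (g '' t) ∩ ball (g p) ρ) / volume (ball (g p) ρ) =
        volume (interior t ∩ ball p ρ) / volume (ball p ρ) := by
      intro ρ
      have h1 : interior (g '' t) = g '' interior t := (g.toHomeomorph.image_interior t).symm
      rw [h1, ← g.image_ball p ρ, ← image_inter g.injective, Dens_volume_image, Dens_volume_image]
    simp only [lowDens, h]

end Pool.Agent.Hsh
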