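import Pool.Agent.Hsh.Stmts

set_option autoImplicit false

/-!
# The Euler inequality for a connected family of inner tiles
-/

namespace Pool.Agent.Hsh

open Set Metric MeasureTheory Filter Topology Classical

theorem euler_conn {t : Set ℂ} (ht : IsDisk t) : IsPreconnected (frontier t) := by
  obtain ⟨c, γ, hd⟩ := CT.disc_final t ht
  rw [← hd.range]
  exact isPreconnected_range hd.cont

theorem euler_ne (h1 : Stmt_Arc1) {A : Finset (Set ℂ)} (hA : Fam A) {X l : Set ℂ} (hX : X ∈ A)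
    (hl : l ∈ arcs A X) : l.Nonempty := by
  obtain ⟨_, _, _, _, h, _, _⟩ := h1 A hA X hX l hl
  exact h

theorem euler_sub (h1 : Stmt_Arc1) {A : Finset (Set ℂ)} (hA : Fam A) {X l : Set ℂ} (hX : X ∈ A)
    (hl : l ∈ arcs A X) : l ⊆ fr A X := by
  obtain ⟨_, _, _, _, _, h, _⟩ := h1 A hA X hX l hl
  exact h

theorem euler_clos (hB : Stmt_Bas) (h1 : Stmt_Arc1) {A : Finset (Set ℂ)} (hA : Fam A)
    {X l : Set ℂ} (hX : X ∈ A) (hl : l ∈ arcs A X) : closure l ⊆ X :=
  closure_minimal (fun _ hp => ((hB A hA).closed X hX).frontier_subset (euler_sub h1 hA hX hl hp).1.1)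
    ((hB A hA).closed X hX)

theorem euler_closF (h1 : Stmt_Arc1) {A : Finset (Set ℂ)} (hA : Fam A)
    {X l : Set ℂ} (hX : X ∈ A) (hl : l ∈ arcs A X) : closure l ⊆ frontier X :=
  closure_minimal (fun _ hp => (euler_sub h1 hA hX hl hp).1.1) isClosed_frontier

theorem euler_two (h1 : Stmt_Arc1) {A : Finset (Set ℂ)} (hA : Fam A) {X Y Z l : Set ℂ}
    (hcl : ∀ t ∈ A, IsClosed t)
    (hX : X ∈ A) (hY : Y ∈ A) (hZ : Z ∈ A) (hne : X ≠ Y) (hlX : l ∈ arcs A X) (hlY : l ∈ arcs A Y)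
    (hlZ : l ∈ arcs A Z) : Z = X ∨ Z = Y := by
  obtain ⟨Y', hY', hne', _, ⟨p, hp⟩, _, hat⟩ := h1 A hA X hX l hlX
  have hmem : ∀ T ∈ A, l ∈ arcs A T → T = X ∨ T = Y' := by
    intro T hT hlT
    have hpT : p ∈ T := (hcl T hT).frontier_subset (euler_sub h1 hA hT hlT hp).1.1
    have : T ∈ at_ A p := Finset.mem_filter.2 ⟨hT, hpT⟩
    rw [hat p hp] at this
    simpa using this
  have hYY : Y = Y' := (hmem Y hY hlY).resolve_left (Ne.symm hne)
  rcases hmem Z hZ hlZ with h | h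
  · exact Or.inl h
  · exact Or.inr (h.trans hYY.symm)

/-- two arcs of a tile with a common point are equal -/
theorem euler_eq {A : Finset (Set ℂ)} {X l l' : Set ℂ} (hl : l ∈ arcs A X) (hl' : l' ∈ arcs A X)
    {p : ℂ} (hp : p ∈ l) (hp' : p ∈ l') : l = l' := by
  obtain ⟨q, hq, rfl⟩ := hl
  obtain ⟨q', hq', rfl⟩ := hl'
  rw [connectedComponentIn_eq hp, connectedComponentIn_eq hp']

theorem euler_vf (hV : Stmt_VFin) {A : Finset (Set ℂ)} (hA : Fam A) {v : ℂ} :
    v ∈ VF A ↔ v ∈ Vx A := by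
  unfold VF
  rw [dif_pos (hV A hA)]
  simp

/-- an arc ending at a vertex all of whose tiles are in `S` is in `EE A S` -/
theorem euler_mem (hB : Stmt_Bas) (h1 : Stmt_Arc1) {A S : Finset (Set ℂ)} (hA : Fam A)
    {X l : Set ℂ} (hX : X ∈ A) (hl : l ∈ arcs A X) {v : ℂ} (hv : v ∈ closure l)
    (hS : at_ A v ⊆ S) : l ∈ EE A S := by
  obtain ⟨Y, hY, hne, hlY, _, _, _⟩ := h1 A hA X hX l hl
  exact ⟨X, hS (Finset.mem_filter.2 ⟨hX, euler_clos hB h1 hA hX hl hv⟩), Y,
    hS (Finset.mem_filter.2 ⟨hY, euler_clos hB h1 hA hY hlY hv⟩), Ne.symm hne, hl, hlY⟩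

theorem euler_fin (h3 : Stmt_Arc3) {A S : Finset (Set ℂ)} (hA : Fam A)
    (hI : ∀ X ∈ S, Inn A X) : (EE A S).Finite := by
  refine Set.Finite.subset (s := ⋃ X ∈ S, arcs A X) ?_ ?_
  · exact S.finite_toSet.biUnion fun X hX => (h3 A hA X (hI X hX)).fin
  · rintro l ⟨X, hX, Y, hY, -, hl, -⟩
    exact Set.mem_biUnion hX hl

/-- all arcs of an inner tile having one vertex in `Q` have an end in `Q` -/
theorem euler_all (hB : Stmt_Bas) (h1 : Stmt_Arc1) (h2 : Stmt_Arc2) (h3 : Stmt_Arc3)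
    {A : Finset (Set ℂ)} (hA : Fam A) {X : Set ℂ} (hX : Inn A X) (Q : Finset ℂ)
    (hQV : ∀ v ∈ Q, v ∈ Vx A)
    (hQ : ∀ l ∈ arcs A X, ∀ v ∈ Q, v ∈ closure l → ∀ w ∈ Vx A, w ∈ closure l → w ∈ Q)
    {v : ℂ} (hv : v ∈ Q) (hvX : v ∈ X) : ∀ l ∈ arcs A X, ∃ w ∈ Q, w ∈ closure l := by
  have a3 := h3 A hA X hX
  by_contra hcon
  push Not at hcon
  obtain ⟨m, hm, hmQ⟩ := hcon
  -- two closed sets
  set L1 : Set (Set ℂ) := {l | l ∈ arcs A X ∧ ∃ w ∈ Q, w ∈ closure l} with hL1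
  set L2 : Set (Set ℂ) := {l | l ∈ arcs A X ∧ ¬ ∃ w ∈ Q, w ∈ closure l} with hL2
  have f1 : L1.Finite := a3.fin.subset fun l hl => hl.1
  have f2 : L2.Finite := a3.fin.subset fun l hl => hl.1
  set F1 : Set ℂ := ⋃ l ∈ L1, closure l with hF1
  set F2 : Set ℂ := ⋃ l ∈ L2, closure l with hF2
  have c1 : IsClosed F1 := f1.isClosed_biUnion fun l _ => isClosed_closure
  have c2 : IsClosed F2 := f2.isClosed_biUnion fun l _ => isClosed_closure
  have hcov : frontier X ⊆ F1 ∪ F2 := by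
    intro p hp
    have hl : ∃ l ∈ arcs A X, p ∈ closure l := by
      by_cases hpV : p ∈ Vx A
      · obtain ⟨l, hl, _, _, _, hpl, _⟩ := h2 A hA X hX.1 p hpV
          (((hB A hA).closed X hX.1).frontier_subset hp)
        exact ⟨l, hl, hpl⟩
      · have : p ∈ ⋃₀ (arcs A X) := by rw [a3.cover]; exact ⟨hp, hpV⟩
        obtain ⟨l, hl, hpl⟩ := this
        exact ⟨l, hl, subset_closure hpl⟩
    obtain ⟨l, hl, hpl⟩ := hl
    by_cases h : ∃ w ∈ Q, w ∈ closure l
    · exact Or.inl (Set.mem_biUnion (show l ∈ L1 from ⟨hl, h⟩) hpl)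
    · exact Or.inr (Set.mem_biUnion (show l ∈ L2 from ⟨hl, h⟩) hpl)
  have hdis : Disjoint F1 F2 := by
    rw [Set.disjoint_left]
    intro p hp1 hp2
    simp only [hF1, hF2, Set.mem_iUnion, exists_prop] at hp1 hp2
    obtain ⟨l, ⟨hl, w, hwQ, hwl⟩, hpl⟩ := hp1
    obtain ⟨l', ⟨hl', hno⟩, hpl'⟩ := hp2
    by_cases hpV : p ∈ Vx A
    · exact hno ⟨p, hQ l hl w hwQ hwl p hpV hpl, hpl'⟩
    · have e1 : p ∈ l := (a3.clos l hl hpl).resolve_right hpV
      have e2 : p ∈ l' := (a3.clos l' hl' hpl').resolve_right hpV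
      have := euler_eq hl hl' e1 e2
      subst this
      exact hno ⟨w, hwQ, hwl⟩
  have hne1 : (frontier X ∩ F1).Nonempty := by
    obtain ⟨l, hl, _, _, _, hvl, _⟩ := h2 A hA X hX.1 v (hQV v hv) hvX
    exact ⟨v, euler_closF h1 hA hX.1 hl hvl, Set.mem_biUnion (show l ∈ L1 from ⟨hl, v, hv, hvl⟩) hvl⟩
  have hne2 : (frontier X ∩ F2).Nonempty := by
    obtain ⟨p, hp⟩ := euler_ne h1 hA hX.1 hm
    exact ⟨p, (euler_sub h1 hA hX.1 hm hp).1.1, Set.mem_biUnion
      (show m ∈ L2 from ⟨hm, fun ⟨w, hw, hwm⟩ => hmQ w hw hwm⟩) (subset_closure hp)⟩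
  obtain ⟨p, -, hp1, hp2⟩ := isPreconnected_closed_iff.1 (euler_conn (hA.disk X hX.1)) F1 F2 c1 c2
    hcov hne1 hne2
  exact Set.disjoint_left.1 hdis hp1 hp2

theorem euler (hB : Stmt_Bas) (hV : Stmt_VFin) (h1 : Stmt_Arc1) (h2 : Stmt_Arc2) (h3 : Stmt_Arc3)
    (hO : Stmt_Open) (hL : Stmt_Lin) : Stmt_Euler := by
  intro A hA S hSA hSne hI hC
  have hfin := euler_fin h3 hA hI
  refine ⟨hfin, ?_⟩
  set W := (VF A).filter (fun v => at_ A v ⊆ S ∧ ∃ X ∈ S, v ∈ X) with hW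
  have hcard : (EE A S).ncard = hfin.toFinset.card := Set.ncard_eq_toFinset_card _ hfin
  rw [hcard]
  refine hL (Set ℂ) (Set ℂ) ℂ S hfin.toFinset W (fun l X => l ∈ arcs A X) (fun v l => v ∈ closure l)
    ?_ ?_ ?_ ?_
  · intro l hl
    rw [Set.Finite.mem_toFinset] at hl
    obtain ⟨X, hX, Y, hY, hne, hlX, hlY⟩ := hl
    refine ⟨X, hX, Y, hY, hne, fun Z hZ => ⟨fun hlZ => ?_, ?_⟩⟩
    · exact euler_two h1 hA (hB A hA).closed (hSA hX) (hSA hY) (hSA hZ) hne hlX hlY hlZ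
    · rintro (rfl | rfl)
      · exact hlX
      · exact hlY
  · intro v hv X hX
    rw [hW, Finset.mem_filter, euler_vf hV hA] at hv
    obtain ⟨hvV, hvS, -⟩ := hv
    by_cases hvX : v ∈ X
    · obtain ⟨l₁, hl₁, l₂, hl₂, hne, hv₁, hv₂, hall, -⟩ := h2 A hA X (hSA hX) v hvV hvX
      have : hfin.toFinset.filter (fun l => l ∈ arcs A X ∧ v ∈ closure l) = {l₁, l₂} := by
        ext l
        simp only [Finset.mem_filter, Set.Finite.mem_toFinset, Finset.mem_insert, Finset.mem_singleton]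
        constructor
        · rintro ⟨-, hl, hvl⟩
          exact hall l hl hvl
        · rintro (rfl | rfl)
          · exact ⟨euler_mem hB h1 hA (hSA hX) hl₁ hv₁ hvS, hl₁, hv₁⟩
          · exact ⟨euler_mem hB h1 hA (hSA hX) hl₂ hv₂ hvS, hl₂, hv₂⟩
      have h2' : Even (hfin.toFinset.filter (fun l => l ∈ arcs A X ∧ v ∈ closure l)).card := by
        rw [this, Finset.card_pair hne]
        exact even_two
      convert h2'
    · have : hfin.toFinset.filter (fun l => l ∈ arcs A X ∧ v ∈ closure l) = ∅ := by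
        rw [Finset.filter_eq_empty_iff]
        rintro l - ⟨hl, hvl⟩
        exact hvX (euler_clos hB h1 hA (hSA hX) hl hvl)
      have h2' : Even (hfin.toFinset.filter (fun l => l ∈ arcs A X ∧ v ∈ closure l)).card := by
        rw [this, Finset.card_empty]
        exact Even.zero
      convert h2'
  · intro P hP hne hcl
    refine hC P hP hne fun X hX Y hY hadj => ?_
    obtain ⟨l, hXY, hlX, hlY⟩ := hadj
    exact hcl X hX Y hY ⟨l, hfin.mem_toFinset.2 ⟨X, hP hX, Y, hY, hXY, hlX, hlY⟩, hlX, hlY⟩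
  · intro Q hQW hQE
    by_contra hQne
    have hQne' : Q.Nonempty := Finset.nonempty_iff_ne_empty.2 hQne
    have hQV : ∀ v ∈ Q, v ∈ Vx A := fun v hv => by
      have := hQW hv
      rw [hW, Finset.mem_filter, euler_vf hV hA] at this
      exact this.1
    have hQS : ∀ v ∈ Q, at_ A v ⊆ S := fun v hv => by
      have := hQW hv
      rw [hW, Finset.mem_filter] at this
      exact this.2.1
    -- ends of the arcs in E
    have key : ∀ X ∈ S, ∀ l ∈ arcs A X, ∀ v ∈ Q, v ∈ closure l → ∀ w ∈ Vx A, w ∈ closure l →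
        w ∈ Q := by
      intro X hX l hl v hv hvl w hw hwl
      have hlE : l ∈ hfin.toFinset :=
        hfin.mem_toFinset.2 (euler_mem hB h1 hA (hSA hX) hl hvl (hQS v hv))
      have hev := hQE l hlE
      by_contra hwQ
      obtain ⟨a, b, hab, ha, hb, hends⟩ := (h3 A hA X (hI X hX)).ends l hl
      have : Q.filter (fun x => x ∈ closure l) = {v} := by
        ext x
        simp only [Finset.mem_filter, Finset.mem_singleton]
        constructor
        · rintro ⟨hx, hxl⟩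
          have ex := (hends x (hQV x hx)).1 hxl
          have ev := (hends v (hQV v hv)).1 hvl
          have ew := (hends w hw).1 hwl
          have hwx : w ≠ x := fun h => hwQ (h ▸ hx)
          have hwv : w ≠ v := fun h => hwQ (h ▸ hv)
          rcases ex with rfl | rfl <;> rcases ev with rfl | rfl
          · rfl
          · rcases ew with rfl | rfl
            · exact absurd rfl hwx
            · exact absurd rfl hwv
          · rcases ew with rfl | rfl
            · exact absurd rfl hwv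
            · exact absurd rfl hwx
          · rfl
        · rintro rfl
          exact ⟨hv, hvl⟩
      have h1' : (Q.filter (fun x => x ∈ closure l)).card = 1 := by rw [this, Finset.card_singleton]
      have h2' : Even 1 := by
        convert hev
        exact h1'.symm
      exact absurd h2' (by decide)
    -- the tiles with a vertex in `Q`
    set C := S.filter (fun X => ∃ v ∈ Q, v ∈ X) with hCdef
    have hCne : C.Nonempty := by
      obtain ⟨v, hv⟩ := hQne'
      have := hQW hv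
      rw [hW, Finset.mem_filter] at this
      obtain ⟨X, hX, hvX⟩ := this.2.2
      exact ⟨X, Finset.mem_filter.2 ⟨hX, v, hv, hvX⟩⟩
    obtain ⟨X, hX, Y, hY, hYC, l, hXY, hlX, hlY⟩ := hO A hA C
      (fun X hX => hSA (Finset.mem_filter.1 hX).1) hCne (fun X hX => hI X (Finset.mem_filter.1 hX).1)
    obtain ⟨hXS, v, hv, hvX⟩ := Finset.mem_filter.1 hX
    obtain ⟨w, hw, hwl⟩ := euler_all hB h1 h2 h3 hA (hI X hXS) Q hQV (key X hXS) hv hvX l hlX
    have hwY : w ∈ Y := euler_clos hB h1 hA hY hlY hwl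
    exact hYC (Finset.mem_filter.2 ⟨hQS w hw (Finset.mem_filter.2 ⟨hY, hwY⟩), w, hw, hwY⟩)

end Pool.Agent.Hsh
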