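import Pool.Agent.Hsh.Stmts

set_option autoImplicit false

/-!
# The end of the proof for MP_51bd69_co
-/

namespace Pool.Agent.Hsh

open Set Metric MeasureTheory Filter Topology Classical

theorem fin_disk_copy {T t : Set ℂ} (hT : IsDisk T) (h : IsCopy T t) : IsDisk t := by
  obtain ⟨g, rfl⟩ := h
  obtain ⟨e⟩ := hT
  exact ⟨(g.toHomeomorph.image T).symm.trans e⟩

theorem fin_fam {T : Set ℂ} {A : Finset (Set ℂ)} (hT : IsDisk T) (h : IsPatch T A) : Fam A :=
  ⟨fun t ht => fin_disk_copy hT (h.copy t ht), h.disj⟩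

theorem fin_un_mono {A B : Finset (Set ℂ)} (h : A ⊆ B) : un A ⊆ un B := by
  intro x hx
  simp only [un, Set.mem_iUnion, exists_prop] at hx ⊢
  obtain ⟨t, ht, hx⟩ := hx
  exact ⟨t, h ht, hx⟩

theorem fin_mem_un {A : Finset (Set ℂ)} {x : ℂ} : x ∈ un A ↔ ∃ t ∈ A, x ∈ t := by
  simp [un]

theorem fin_surr {A B : Finset (Set ℂ)} (h : SurroundedBy A B) : un A ⊆ interior (un B) := by
  intro x hx
  obtain ⟨t, ht, hx⟩ := fin_mem_un.1 hx
  have h1 := Set.disjoint_right.1 (h.2 t ht) hx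
  rwa [closure_compl, Set.mem_compl_iff, not_not] at h1

/-- a tile of the ambient family meeting the inside of a subfamily belongs to it -/
theorem fin_mem {A B : Finset (Set ℂ)} (hA : Fam A) (hb : Stmt_Bas) (hBA : B ⊆ A) {X : Set ℂ}
    (hX : X ∈ A) {p : ℂ} (hp : p ∈ X) (hpi : p ∈ interior (un B)) : X ∈ B := by
  by_contra hXB
  have hbA := hb A hA
  obtain ⟨c, γ, hd⟩ := CT.disc_final X (hA.disk X hX)
  have h1 : p ∈ closure (interior X) := by rw [hd.clos]; exact hp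
  obtain ⟨q, hq1, hq2⟩ := mem_closure_iff.1 h1 _ isOpen_interior hpi
  obtain ⟨Y, hY, hqY⟩ := fin_mem_un.1 (interior_subset hq1)
  have hne : X ≠ Y := fun h => hXB (h ▸ hY)
  exact Set.disjoint_left.1 (hbA.int_disj X hX Y (hBA hY) hne) hq2 hqY

theorem fin_tch_sub {A B C S : Finset (Set ℂ)} (hA : Fam A) (hb : Stmt_Bas) (hBA : B ⊆ A)
    (hSC : S ⊆ C) (hs : SurroundedBy C B) : tch A S ⊆ B := by
  intro X hX
  simp only [tch, Finset.mem_filter] at hX
  obtain ⟨hXA, p, hpX, hpS⟩ := hX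
  exact fin_mem hA hb hBA hXA hpX (fin_surr hs (fin_un_mono hSC hpS))

theorem fin_inn {A B C : Finset (Set ℂ)} (hBA : B ⊆ A) (hs : SurroundedBy C B) (hCA : C ⊆ A) :
    ∀ X ∈ C, Inn A X := by
  intro X hX
  refine ⟨hCA hX, fun x hx => ?_⟩
  exact interior_mono (fin_un_mono hBA) (fin_surr hs (fin_mem_un.2 ⟨X, hX, hx⟩))

/-- The main theorem from the modules. -/
theorem fin_main (hb : Stmt_Bas) (hh : Stmt_Hull) (hr : Stmt_Rec) (h3 : Stmt_Three)
    (hd : Stmt_Dens) (T : Set ℂ) (hT : IsDisk T)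
    (hw : ∀ F : Finset ℂ, (↑F : Set ℂ) ⊆ frontier T → ∑ q ∈ F, ext T q ≤ 1) :
    ¬ CanSurround T 3 := by
  rintro ⟨A, hA0, hP, hS⟩
  have s0 := hS 0 (by norm_num)
  have s1 := hS 1 (by norm_num)
  have s2 := hS 2 (by norm_num)
  have p1 := hP 1 le_rfl (by norm_num)
  have p2 := hP 2 (by norm_num) (by norm_num)
  have p3 := hP 3 (by norm_num) (by norm_num)
  norm_num at s0 s1 s2
  have fam := fin_fam hT p3
  have c23 : A 2 ⊆ A 3 := s2.1
  have c12 : A 1 ⊆ A 2 := s1.1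
  have c01 : A 0 ⊆ A 1 := s0.1
  have c13 : A 1 ⊆ A 3 := c12.trans c23
  have hT0 : ({T} : Finset (Set ℂ)) ⊆ A 1 := hA0 ▸ c01
  -- the first level
  have i1 := fin_inn c23 s1 c13
  have i2 := fin_inn (Finset.Subset.refl (A 3)) s2 c23
  have con0 : Con (A 3) {T} := by
    intro P hP hne _
    exact Finset.Subset.antisymm hP (by
      obtain ⟨X, hX⟩ := hne
      have := Finset.mem_singleton.1 (hP hX)
      intro Y hY
      rw [Finset.mem_singleton.1 hY, ← this]; exact hX)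
  have L1 : Lev (A 3) (A 1) {T} :=
    ⟨fam, c13, p1.disk, i1, hT0, Finset.singleton_nonempty _, con0,
      fin_tch_sub fam hb c13 (le_of_eq hA0.symm) s0⟩
  obtain ⟨h1, h2, h4, h5⟩ := hh _ _ _ L1
  set S1 := hull (A 3) (A 1) {T} with hS1
  have L2 : Lev (A 3) (A 2) S1 :=
    ⟨fam, c23, p2.disk, i2, h2.trans c12, ⟨T, h1 (Finset.mem_singleton_self T)⟩, h5,
      fin_tch_sub fam hb c23 h2 s1⟩
  have hcop : ∀ X ∈ A 3, ∀ F : Finset ℂ, (↑F : Set ℂ) ⊆ frontier X → ∑ q ∈ F, ext X q ≤ 1 := by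
    intro X hX F hF
    obtain ⟨g, rfl⟩ := p3.copy X hX
    have h6 := hw (F.image g.symm) (by
      intro x hx
      simp only [Finset.coe_image, Set.mem_image, Finset.mem_coe] at hx
      obtain ⟨y, hy, rfl⟩ := hx
      have h7 := hF hy
      have h8 : frontier (g '' T) = g '' frontier T := (g.toHomeomorph.image_frontier T).symm
      rw [h8] at h7
      obtain ⟨z, hz, rfl⟩ := h7
      simpa using hz)
    rw [Finset.sum_image (fun x _ y _ h => g.symm.injective h)] at h6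
    refine le_trans (le_of_eq (Finset.sum_congr rfl fun q _ => ?_)) h6
    have h9 := hd.2.2 g T (g.symm q)
    simp only [ext]
    rw [← h9, g.apply_symm_apply]
  have h7 := hr _ _ _ L2 1 hcop
  have h8 : 3 ≤ S1.card := le_trans (h3 _ fam T (i1 T (hT0 (Finset.mem_singleton_self T))))
    (Finset.card_le_card h4)
  have h9 : (3 : ℝ) ≤ (S1.card : ℝ) := by exact_mod_cast h8
  linarith

end Pool.Agent.Hsh
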