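import Pool.Agent.Hsh.Stmts

set_option autoImplicit false

/-!
# The hull is connected
-/

namespace Pool.Agent.Hsh

open Set Metric MeasureTheory Filter Topology Classical

theorem hull_nonempty {t : Set ℂ} (h : IsDisk t) : t.Nonempty := by
  obtain ⟨e⟩ := h
  have h0 : (0 : ℂ) ∈ closedBall (0 : ℂ) 1 := by simp
  exact ⟨(e.symm ⟨0, h0⟩ : ℂ), (e.symm ⟨0, h0⟩).2⟩

theorem hull_adj_symm {A : Finset (Set ℂ)} {X Y : Set ℂ} (h : Adj A X Y) : Adj A Y X := by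
  obtain ⟨l, h1, h2, h3⟩ := h
  exact ⟨l, h1.symm, h3, h2⟩

theorem hull_mem_at {A : Finset (Set ℂ)} {X : Set ℂ} {p : ℂ} :
    X ∈ at_ A p ↔ X ∈ A ∧ p ∈ X := by
  unfold at_; rw [Finset.mem_filter]

theorem hull_mem_tch {A S : Finset (Set ℂ)} {X : Set ℂ} :
    X ∈ tch A S ↔ X ∈ A ∧ (X ∩ un S).Nonempty := by
  unfold tch; rw [Finset.mem_filter]

theorem hull_mem {A B S : Finset (Set ℂ)} {X : Set ℂ} :
    X ∈ hull A B S ↔ X ∈ B ∧ (X ∈ tch A S ∨ ¬ Out A B S X) := by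
  unfold hull; rw [Finset.mem_filter]

theorem hull_mem_un {S : Finset (Set ℂ)} {p : ℂ} : p ∈ un S ↔ ∃ t ∈ S, p ∈ t := by
  unfold un; simp

/-- two tiles meeting at a point of `reg A` which is not a vertex are adjacent -/
theorem hull_adj_of_mem (hB : Stmt_Bas) (h1 : Stmt_Arc1) {A : Finset (Set ℂ)} (hA : Fam A)
    {X Y : Set ℂ} (hX : X ∈ A) (hY : Y ∈ A) (hne : X ≠ Y) {p : ℂ} (hpX : p ∈ X) (hpY : p ∈ Y)
    (hreg : p ∈ reg A) (hv : p ∉ Vx A) : Adj A X Y := by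
  have bas := hB A hA
  have hfr : p ∈ fr A X := ⟨⟨bas.mem_frontier X hX Y hY hne ⟨hpX, hpY⟩, hreg⟩, hv⟩
  have hl : connectedComponentIn (fr A X) p ∈ arcs A X := ⟨p, hfr, rfl⟩
  obtain ⟨Y', hY', hne', hlY', _, _, hat⟩ := h1 A hA X hX _ hl
  have hp := hat p (mem_connectedComponentIn hfr)
  have hYat : Y ∈ at_ A p := hull_mem_at.2 ⟨hY, hpY⟩
  rw [hp, Finset.mem_insert, Finset.mem_singleton] at hYat
  rcases hYat with h | h
  · exact absurd h.symm hne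
  · rw [← h] at hlY'
    exact ⟨_, hne, hl, hlY'⟩

theorem hull_core (hB : Stmt_Bas) (h1 : Stmt_Arc1) (hS : Stmt_Star) (hO : Stmt_Open)
    {A B S : Finset (Set ℂ)} (L : Lev A B S) (hSH : S ⊆ hull A B S)
    (hTH : tch A S ⊆ hull A B S) {R : Finset (Set ℂ)} (hR : R ⊆ hull A B S) (hne : R.Nonempty)
    (hcl : ∀ X ∈ R, ∀ Y ∈ hull A B S, Adj A X Y → Y ∈ R) (hdis : ∀ X ∈ R, X ∉ S) : False := by
  have hHB : hull A B S ⊆ B := Finset.filter_subset _ _
  have hHA : hull A B S ⊆ A := hHB.trans L.sub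
  -- `R` does not touch `S`
  have htch : ∀ X ∈ R, X ∉ tch A S := by
    intro X hXR hXt
    obtain ⟨hXA, p, hpX, hpS⟩ := hull_mem_tch.1 hXt
    obtain ⟨Y, hYS, hpY⟩ := hull_mem_un.1 hpS
    have hYA : Y ∈ A := L.sub (L.subS hYS)
    have hXY : X ≠ Y := fun h => hdis X hXR (h ▸ hYS)
    have hreg : p ∈ reg A := (L.inn Y (L.subS hYS)).2 hpY
    by_cases hv : p ∈ Vx A
    · have hsub : R ∩ at_ A p ⊆ at_ A p := Finset.inter_subset_right
      have hn : (R ∩ at_ A p).Nonempty :=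
        ⟨X, Finset.mem_inter.2 ⟨hXR, hull_mem_at.2 ⟨hXA, hpX⟩⟩⟩
      have hnn : R ∩ at_ A p ≠ at_ A p := by
        intro h
        have hY' : Y ∈ R ∩ at_ A p := by
          rw [h]; exact hull_mem_at.2 ⟨hYA, hpY⟩
        exact hdis Y (Finset.mem_inter.1 hY').1 hYS
      obtain ⟨X', hX', Y', hY', hnY', l, hl, _⟩ := hS A L.fam p hv _ hsub hn hnn
      have hX'R := (Finset.mem_inter.1 hX').1
      obtain ⟨hY'A, hpY'⟩ := hull_mem_at.1 hY'
      have hY't : Y' ∈ tch A S := hull_mem_tch.2 ⟨hY'A, p, hpY', hpS⟩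
      have hY'R := hcl X' hX'R Y' (hTH hY't) ⟨l, hl⟩
      exact hnY' (Finset.mem_inter.2 ⟨hY'R, hY'⟩)
    · have hadj := hull_adj_of_mem hB h1 L.fam hXA hYA hXY hpX hpY hreg hv
      exact hdis Y (hcl X hXR Y (hSH hYS) hadj) hYS
  obtain ⟨X, hXR, Y, hYA, hYR, hadj⟩ := hO A L.fam R (hR.trans hHA) hne
    (fun X hX => L.inn X (hHB (hR hX)))
  have hYH : Y ∉ hull A B S := fun h => hYR (hcl X hXR Y h hadj)
  have hXout : ¬ Out A B S X := by
    rcases (hull_mem.1 (hR hXR)).2 with h | h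
    · exact absurd h (htch X hXR)
    · exact h
  by_cases hYB : Y ∈ B
  · have hY2 : Y ∉ tch A S ∧ Out A B S Y := by
      by_contra hcon
      apply hYH
      rw [hull_mem]
      refine ⟨hYB, ?_⟩
      by_cases ht : Y ∈ tch A S
      · exact Or.inl ht
      · right
        intro hout
        exact hcon ⟨ht, hout⟩
    obtain ⟨ht, Z, hZ, hW⟩ := hY2
    exact hXout ⟨Z, Relation.ReflTransGen.head ⟨hadj, hYB, ht⟩ hZ, hW⟩
  · exact hXout ⟨X, Relation.ReflTransGen.refl, Y, hYA, hYB, hadj⟩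

theorem hullT (hB : Stmt_Bas) (h1 : Stmt_Arc1) (hS : Stmt_Star) (hO : Stmt_Open) :
    Stmt_Hull := by
  intro A B S L
  have hTH : tch A S ⊆ hull A B S := by
    intro X hX
    exact hull_mem.2 ⟨L.tch hX, Or.inl hX⟩
  have hSH : S ⊆ hull A B S := by
    intro X hX
    apply hTH
    have hXA : X ∈ A := L.sub (L.subS hX)
    obtain ⟨x, hx⟩ := hull_nonempty (L.fam.disk X hXA)
    exact hull_mem_tch.2 ⟨hXA, x, hx, hull_mem_un.2 ⟨X, hX, hx⟩⟩
  refine ⟨hSH, Finset.filter_subset _ _, hTH, ?_⟩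
  intro P hP hPne hPcl
  by_contra hne
  by_cases hd : ∀ X ∈ P, X ∉ S
  · exact hull_core hB h1 hS hO L hSH hTH hP hPne hPcl hd
  · push Not at hd
    obtain ⟨X₀, hX₀, hX₀S⟩ := hd
    have hSP : P ∩ S = S := by
      apply L.con (P ∩ S) Finset.inter_subset_right ⟨X₀, Finset.mem_inter.2 ⟨hX₀, hX₀S⟩⟩
      intro X hX Y hY hadj
      exact Finset.mem_inter.2 ⟨hPcl X (Finset.mem_inter.1 hX).1 Y (hSH hY) hadj, hY⟩
    have hSP' : S ⊆ P := by
      intro X hX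
      rw [← hSP] at hX
      exact (Finset.mem_inter.1 hX).1
    refine hull_core hB h1 hS hO L hSH hTH (R := hull A B S \ P) Finset.sdiff_subset ?_ ?_ ?_
    · rw [Finset.sdiff_nonempty]
      intro h
      exact hne (Finset.Subset.antisymm hP h)
    · intro X hX Y hY hadj
      rw [Finset.mem_sdiff] at hX ⊢
      refine ⟨hY, fun hYP => hX.2 ?_⟩
      exact hPcl Y hYP X hX.1 (hull_adj_symm hadj)
    · intro X hX hXS
      exact (Finset.mem_sdiff.1 hX).2 (hSP' hXS)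

end Pool.Agent.Hsh
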