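import Pool.Agent.Hsh.Stmts

set_option autoImplicit false

/-! # Module Junc -/

namespace Pool.Agent.Hsh

open Set Metric MeasureTheory Filter Topology Classical

theorem junc_VF {A : Finset (Set ℂ)} {v : ℂ} (h : v ∈ VF A) : v ∈ Vx A := by
  unfold VF at h
  split_ifs at h with h1
  · exact h1.mem_toFinset.1 h
  · simp at h

theorem junc (hTT : Stmt_TwoT) (hM : Stmt_AtMost) : Stmt_Junc := by
  intro A B S hL
  set J := (VF A).filter (fun v => ¬ at_ A v ⊆ hull A B S ∧ 2 ≤ (at_ (hull A B S) v).card) with hJ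
  have h1 : 2 * J.card ≤ ∑ v ∈ J, (at_ (tch A S \ S) v).card := by
    have : ∑ v ∈ J, 2 ≤ ∑ v ∈ J, (at_ (tch A S \ S) v).card := by
      refine Finset.sum_le_sum fun v hv => ?_
      obtain ⟨hv1, hv2, hv3⟩ := Finset.mem_filter.1 hv
      exact hTT A B S hL v (junc_VF hv1) hv2 hv3
    simpa [Finset.sum_const, mul_comm] using this
  have h2 : ∑ v ∈ J, (at_ (tch A S \ S) v).card =
      ∑ P ∈ tch A S \ S, (J.filter (fun v => v ∈ P)).card := by
    simp only [at_, Finset.card_eq_sum_ones, Finset.sum_filter]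
    exact Finset.sum_comm
  have h3 : ∑ P ∈ tch A S \ S, (J.filter (fun v => v ∈ P)).card ≤ ∑ P ∈ tch A S \ S, 2 := by
    refine Finset.sum_le_sum fun P hP => ?_
    refine le_trans (Finset.card_le_card ?_) (hM A B S hL P hP)
    intro v hv
    obtain ⟨hv0, hvP⟩ := Finset.mem_filter.1 hv
    obtain ⟨hv1, hv2, hv3⟩ := Finset.mem_filter.1 hv0
    exact Finset.mem_filter.2 ⟨hv1, hv2, hvP, hTT A B S hL v (junc_VF hv1) hv2 hv3⟩
  have h4 : ∑ P ∈ tch A S \ S, 2 = 2 * (tch A S \ S).card := by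
    simp [Finset.sum_const, mul_comm]
  omega

end Pool.Agent.Hsh
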