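import Pool.Agent.Hsh.Stmts

set_option autoImplicit false

/-! # Module KDisc: nonplanarity in a disc -/

namespace Pool.Agent.Hsh

open Set Metric MeasureTheory Filter Topology Classical

/-- From a point of norm `1` one can go radially outwards to the outside of the unit disc. -/
theorem kDisc_radial (w : ℂ) (hw : ‖w‖ = 1) (F : Set ℂ) (hF : w ∈ F) :
    JoinedIn (F ∪ {z : ℂ | 1 < ‖z‖}) w (2 * w) := by
  refine JoinedIn.ofLine (f := fun t : ℝ => ((1 + t : ℝ) : ℂ) * w) ?_ ?_ ?_ ?_
  · exact (by fun_prop : Continuous fun t : ℝ => ((1 + t : ℝ) : ℂ) * w).continuousOn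
  · simp
  · norm_num
  · rintro _ ⟨t, ht, rfl⟩
    rcases eq_or_lt_of_le ht.1 with h | h
    · left
      rw [← h]
      simpa using hF
    · right
      show 1 < ‖((1 + t : ℝ) : ℂ) * w‖
      rw [norm_mul, hw, mul_one, Complex.norm_real, Real.norm_eq_abs, abs_of_pos (by linarith)]
      linarith

/-- The outside of the unit disc is path connected. -/
theorem kDisc_outside : IsPathConnected {z : ℂ | 1 < ‖z‖} := by
  refine ⟨2, by simp, ?_⟩
  intro z hz
  have hz' : (1 : ℝ) < ‖z‖ := hz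
  refine JoinedIn.ofLine
    (f := fun t : ℝ => (((1 - t) * 2 + t * ‖z‖ : ℝ) : ℂ) *
      Complex.exp (((t * Complex.arg z : ℝ) : ℂ) * Complex.I)) ?_ ?_ ?_ ?_
  · exact (by fun_prop : Continuous fun t : ℝ => (((1 - t) * 2 + t * ‖z‖ : ℝ) : ℂ) *
      Complex.exp (((t * Complex.arg z : ℝ) : ℂ) * Complex.I)).continuousOn
  · simp
  · simp
  · rintro _ ⟨t, ht, rfl⟩
    show 1 < ‖(((1 - t) * 2 + t * ‖z‖ : ℝ) : ℂ) *
      Complex.exp (((t * Complex.arg z : ℝ) : ℂ) * Complex.I)‖
    rw [norm_mul, Complex.norm_exp_ofReal_mul_I, mul_one, Complex.norm_real, Real.norm_eq_abs]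
    have h1 : (1 : ℝ) < (1 - t) * 2 + t * ‖z‖ := by
      have ht0 := ht.1
      have ht1 := ht.2
      rcases eq_or_lt_of_le ht0 with h | h
      · rw [← h]
        norm_num
      · nlinarith [mul_pos h (sub_pos.mpr hz')]
    rw [abs_of_pos (by linarith)]
    exact h1

theorem kDisc : Stmt_KDisc := by
  intro D hD a c b y Z Z' Q hZ hZ' hQ ja jc jq hy d1 d2 d3
  obtain ⟨e⟩ := hD
  have hDc : IsCompact D := by
    rw [isCompact_iff_compactSpace]
    have : CompactSpace (closedBall (0 : ℂ) 1) :=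
      isCompact_iff_compactSpace.mp (isCompact_closedBall 0 1)
    exact e.symm.compactSpace
  set psi : ℂ → ℂ := fun z => if h : z ∈ D then ((e ⟨z, h⟩ : closedBall (0 : ℂ) 1) : ℂ) else 0
    with hpsi
  have psi_eq : ∀ z (h : z ∈ D), psi z = ((e ⟨z, h⟩ : closedBall (0 : ℂ) 1) : ℂ) := by
    intro z h
    simp [hpsi, h]
  have hcont : ContinuousOn psi D := by
    rw [continuousOn_iff_continuous_domRestrict]
    have : D.domRestrict psi = fun z : D => ((e z : closedBall (0 : ℂ) 1) : ℂ) := by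
      funext z
      exact psi_eq z z.2
    rw [this]
    exact continuous_subtype_val.comp e.continuous
  have hinj : InjOn psi D := by
    intro x hx x' hx' h
    rw [psi_eq x hx, psi_eq x' hx'] at h
    have := e.injective (Subtype.ext h)
    exact congrArg Subtype.val this
  have hnorm : ∀ z ∈ D, ‖psi z‖ ≤ 1 := by
    intro z hz
    rw [psi_eq z hz]
    exact mem_closedBall_zero_iff.mp (e ⟨z, hz⟩).2
  have hone : ∀ z ∈ frontier D, ‖psi z‖ = 1 := by
    intro z hz
    have hzD : z ∈ D := hDc.isClosed.frontier_subset hz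
    rw [psi_eq z hzD]
    have h := (CT.front_final D e.symm (e ⟨z, hzD⟩)).mp (by
      rw [e.symm_apply_apply]
      exact hz)
    exact h
  have dis : ∀ F G : Set ℂ, F ⊆ D → G ⊆ D → Disjoint F G → Disjoint (psi '' F) (psi '' G) := by
    intro F G hF hG h
    exact h.image hinj hF hG
  have disO : ∀ F : Set ℂ, F ⊆ D → Disjoint (psi '' F) {z : ℂ | 1 < ‖z‖} := by
    intro F hF
    rw [Set.disjoint_left]
    rintro _ ⟨z, hz, rfl⟩ h
    exact absurd h (not_lt.mpr (hnorm z (hF hz)))
  let S : Fin 3 → Fin 3 → Set ℂ := fun i j =>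
    ![psi '' Z j, psi '' Z' j, psi '' Q j ∪ {z : ℂ | 1 < ‖z‖}] i
  refine CT.k33_final ![psi a, psi c, 2] (fun j => psi (b j)) S ?_ ?_
  · intro i j
    fin_cases i
    · exact (ja j).map_continuousOn (hcont.mono (hZ j))
    · exact (jc j).map_continuousOn (hcont.mono (hZ' j))
    · show JoinedIn (psi '' Q j ∪ {z : ℂ | 1 < ‖z‖}) 2 (psi (b j))
      have h1 : JoinedIn (psi '' Q j) (psi (b j)) (psi (y j)) :=
        (jq j).map_continuousOn (hcont.mono (hQ j))
      have hyj := hone (y j) (hy j)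
      have h2 := kDisc_radial (psi (y j)) hyj (psi '' Q j) h1.target_mem
      have h3 : JoinedIn {z : ℂ | 1 < ‖z‖} (2 * psi (y j)) 2 := by
        refine kDisc_outside.joinedIn _ ?_ _ ?_
        · show 1 < ‖2 * psi (y j)‖
          rw [norm_mul, hyj]
          norm_num
        · show 1 < ‖(2 : ℂ)‖
          norm_num
      exact (((h1.mono subset_union_left).trans h2).trans (h3.mono subset_union_right)).symm
  · intro i j k l hik hjl
    fin_cases i <;> fin_cases k <;> first
      | exact absurd rfl hik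
      | skip
    · exact dis _ _ (hZ j) (hZ' l) (d1 j l hjl)
    · exact Set.disjoint_union_right.mpr ⟨dis _ _ (hZ j) (hQ l) (d2 j l hjl), disO _ (hZ j)⟩
    · exact (dis _ _ (hZ l) (hZ' j) (d1 l j hjl.symm)).symm
    · exact Set.disjoint_union_right.mpr ⟨dis _ _ (hZ' j) (hQ l) (d3 j l hjl), disO _ (hZ' j)⟩
    · exact (Set.disjoint_union_right.mpr
        ⟨dis _ _ (hZ l) (hQ j) (d2 l j hjl.symm), disO _ (hZ l)⟩).symm
    · exact (Set.disjoint_union_right.mpr
        ⟨dis _ _ (hZ' l) (hQ j) (d3 l j hjl.symm), disO _ (hZ' l)⟩).symm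

end Pool.Agent.Hsh
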