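import Pool.Agent.Hsh.Stmts

set_option autoImplicit false

namespace Pool.Agent.Hsh

open Set Metric MeasureTheory Filter Topology Classical

theorem lin_const {α β : Type} (S : Finset α) (E : Finset β) (a : β → α → Prop)
    (h1 : ∀ l ∈ E, ∃ X ∈ S, ∃ Y ∈ S, X ≠ Y ∧ ∀ Z ∈ S, a l Z ↔ (Z = X ∨ Z = Y))
    (h3 : ∀ P ⊆ S, P.Nonempty → (∀ X ∈ P, ∀ Y ∈ S, (∃ l ∈ E, a l X ∧ a l Y) → Y ∈ P) → P = S)
    (x : S → ZMod 2)
    (hx : ∀ l : E, ∑ X : S, (if a l X then (1 : ZMod 2) else 0) * x X = 0) (X Y : S) :
    x X = x Y := by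
  let P : Finset α := S.filter fun Z => ∃ h : Z ∈ S, x ⟨Z, h⟩ = x X
  have hP : P = S := by
    apply h3 P (Finset.filter_subset _ _) ⟨X.1, Finset.mem_filter.mpr ⟨X.2, X.2, rfl⟩⟩
    rintro U hU V hV ⟨l, hl, haU, haV⟩
    obtain ⟨hUS, hU1, hU2⟩ := Finset.mem_filter.mp hU
    refine Finset.mem_filter.mpr ⟨hV, hV, ?_⟩
    rw [← hU2]
    by_cases hUV : U = V
    · subst hUV
      rfl
    obtain ⟨A, hA, B, hB, hAB, hall⟩ := h1 l hl
    have hs := hx ⟨l, hl⟩
    have hs2 : ∑ Z : S, (if a l Z then (1 : ZMod 2) else 0) * x Z = x ⟨U, hUS⟩ + x ⟨V, hV⟩ := by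
      have hne : (⟨U, hUS⟩ : S) ≠ ⟨V, hV⟩ := fun h => hUV (congrArg Subtype.val h)
      rw [← Finset.sum_pair hne]
      symm
      apply Finset.sum_subset_zero_on_sdiff (Finset.subset_univ _)
      · intro Z hZ
        rw [Finset.mem_sdiff, Finset.mem_insert, Finset.mem_singleton] at hZ
        rw [if_neg, zero_mul]
        intro haZ
        apply hZ.2
        have e1 := (hall Z.1 Z.2).mp haZ
        have e2 := (hall U hUS).mp haU
        have e3 := (hall V hV).mp haV
        have : Z.1 = U ∨ Z.1 = V := by
          rcases e1 with e1 | e1 <;> rcases e2 with e2 | e2 <;> rcases e3 with e3 | e3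
          · exact absurd (e2.trans e3.symm) hUV
          · exact Or.inl (e1.trans e2.symm)
          · exact Or.inr (e1.trans e3.symm)
          · exact absurd (e2.trans e3.symm) hUV
          · exact absurd (e2.trans e3.symm) hUV
          · exact Or.inr (e1.trans e3.symm)
          · exact Or.inl (e1.trans e2.symm)
          · exact absurd (e2.trans e3.symm) hUV
        rcases this with h | h
        · exact Or.inl (Subtype.ext h)
        · exact Or.inr (Subtype.ext h)
      · intro Z hZ
        rw [Finset.mem_insert, Finset.mem_singleton] at hZ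
        have : a l Z := by
          rcases hZ with h | h
          · rw [h]; exact haU
          · rw [h]; exact haV
        rw [if_pos this, one_mul]
    have h5 : x ⟨U, hUS⟩ + x ⟨V, hV⟩ = 0 := by rw [← hs2]; exact hs
    have h6 := eq_neg_of_add_eq_zero_right h5
    rw [h6, ZMod.neg_eq_self_mod_two]
  have hY : Y.1 ∈ P := by rw [hP]; exact Y.2
  obtain ⟨_, h7, h8⟩ := Finset.mem_filter.mp hY
  exact h8.symm

theorem lin_zmod (t : ZMod 2) (h : t ≠ 1) : t = 0 := by
  revert h
  revert t
  decide

theorem lin : Stmt_Lin := by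
  intro α β γ _ _ _ S E W a e h1 h2 h3 h4
  let M : Matrix S E (ZMod 2) := Matrix.of fun X l => if a l X then 1 else 0
  let N : Matrix E W (ZMod 2) := Matrix.of fun l v => if e v l then 1 else 0
  -- the product vanishes
  have hMN : M * N = 0 := by
    ext X v
    rw [Matrix.mul_apply, Matrix.zero_apply]
    have h5 := h2 v v.2 X X.2
    rw [← ZMod.natCast_eq_zero_iff_even, Finset.natCast_card_filter] at h5
    rw [← Finset.sum_coe_sort E] at h5
    rw [← h5]
    refine Finset.sum_congr rfl fun l _ => ?_
    simp only [M, N, Matrix.of_apply]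
    by_cases ha : a l X <;> by_cases he : e v l <;> simp [ha, he]
  -- N is injective
  have hN : LinearMap.ker N.mulVecLin = ⊥ := by
    rw [LinearMap.ker_eq_bot']
    intro q hq
    let Q : Finset γ := W.filter fun v => ∃ h : v ∈ W, q ⟨v, h⟩ = 1
    have hQ : Q = ∅ := by
      apply h4 Q (Finset.filter_subset _ _)
      intro l hl
      rw [← ZMod.natCast_eq_zero_iff_even, Finset.natCast_card_filter, Finset.sum_filter]
      have h6 := congrFun hq ⟨l, hl⟩
      simp only [Matrix.mulVecLin_apply, Matrix.mulVec, dotProduct, N, Matrix.of_apply,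
        Pi.zero_apply] at h6
      refine Eq.trans ?_ h6
      rw [← Finset.sum_coe_sort W]
      refine Finset.sum_congr rfl fun v _ => ?_
      by_cases hv : q v = 1
      · rw [if_pos ⟨v.2, hv⟩, hv, mul_one]
      · have hv0 : q v = 0 := lin_zmod _ hv
        rw [if_neg, hv0, mul_zero]
        rintro ⟨_, h⟩
        exact hv h
    ext v
    by_contra hv
    have hv1 : q v = 1 := by
      by_contra h
      exact hv (lin_zmod _ h)
    have : v.1 ∈ Q := Finset.mem_filter.mpr ⟨v.2, v.2, hv1⟩
    rw [hQ] at this
    exact absurd this (Finset.notMem_empty _)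
  have hrN : N.rank = W.card := by
    have := LinearMap.finrank_range_add_finrank_ker N.mulVecLin
    rw [hN, finrank_bot, add_zero, Module.finrank_fintype_fun_eq_card, Fintype.card_coe] at this
    exact this
  have hle : LinearMap.range N.mulVecLin ≤ LinearMap.ker M.mulVecLin := by
    rintro _ ⟨q, rfl⟩
    rw [LinearMap.mem_ker, Matrix.mulVecLin_apply, Matrix.mulVecLin_apply, Matrix.mulVec_mulVec,
      hMN, Matrix.zero_mulVec]
  have h7 : N.rank ≤ Module.finrank (ZMod 2) (LinearMap.ker M.mulVecLin) :=
    Submodule.finrank_mono hle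
  have h8 := LinearMap.finrank_range_add_finrank_ker M.mulVecLin
  rw [Module.finrank_fintype_fun_eq_card, Fintype.card_coe] at h8
  have h9 : M.rank + W.card ≤ E.card := by
    have : M.rank = Module.finrank (ZMod 2) (LinearMap.range M.mulVecLin) := rfl
    omega
  -- the rank of M
  have h10 : S.card ≤ M.rank + 1 := by
    rw [← Matrix.rank_transpose M]
    have h11 := LinearMap.finrank_range_add_finrank_ker M.transpose.mulVecLin
    rw [Module.finrank_fintype_fun_eq_card, Fintype.card_coe] at h11
    have h12 : Module.finrank (ZMod 2) (LinearMap.ker M.transpose.mulVecLin) ≤ 1 := by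
      have h13 : LinearMap.ker M.transpose.mulVecLin
          ≤ Submodule.span (ZMod 2) {fun _ : S => (1 : ZMod 2)} := by
        intro x hx
        rw [LinearMap.mem_ker] at hx
        rw [Submodule.mem_span_singleton]
        have hx' : ∀ l : E, ∑ X : S, (if a l X then (1 : ZMod 2) else 0) * x X = 0 := by
          intro l
          have := congrFun hx l
          simpa only [Matrix.mulVecLin_apply, Matrix.mulVec, dotProduct, M, Matrix.of_apply,
            Pi.zero_apply, Matrix.transpose_apply] using this
        have hc := lin_const S E a h1 h3 x hx'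
        by_cases hS : Nonempty S
        · obtain ⟨X0⟩ := hS
          refine ⟨x X0, ?_⟩
          ext Y
          rw [Pi.smul_apply, smul_eq_mul, mul_one]
          exact hc X0 Y
        · refine ⟨0, ?_⟩
          ext Y
          exact absurd ⟨Y⟩ hS
      refine (Submodule.finrank_mono h13).trans ?_
      refine (finrank_span_le_card _).trans ?_
      simp
    have : M.transpose.rank = Module.finrank (ZMod 2) (LinearMap.range M.transpose.mulVecLin) := rfl
    omega
  omega

end Pool.Agent.Hsh
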