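import Pool.Agent.Hsh.Stmts

set_option autoImplicit false

/-! # Module NotSub: the frontier of an inner tile is not contained in another tile -/

namespace Pool.Agent.Hsh

open Set Metric MeasureTheory Filter Topology Classical

/-- a tile at `p` has points different from `p` arbitrarily near `p` -/
theorem notSub_exists_ne {t : Set ℂ} (ht : IsDisk t) {p : ℂ} (hp : p ∈ t) {r : ℝ} (hr : 0 < r) :
    ∃ q ∈ t, q ∈ ball p r ∧ q ≠ p := by
  obtain ⟨c, γ, hd⟩ := CT.disc_final t ht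
  have hpc : p ∈ closure (interior t) := by rw [hd.clos]; exact hp
  obtain ⟨z, hz1, hz2⟩ := mem_closure_iff.1 hpc (ball p r) isOpen_ball (mem_ball_self hr)
  have ho : IsOpen (ball p r ∩ interior t) := isOpen_ball.inter isOpen_interior
  have hinf : (ball p r ∩ interior t).Infinite := infinite_of_mem_nhds z (ho.mem_nhds ⟨hz1, hz2⟩)
  obtain ⟨q, hq, hqp⟩ := hinf.exists_notMem_finset {p}
  exact ⟨q, interior_subset hq.2, hq.1, by simpa using hqp⟩

/-- membership in `at_` -/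
theorem notSub_mem_at {A : Finset (Set ℂ)} {p : ℂ} {t : Set ℂ} : t ∈ at_ A p ↔ t ∈ A ∧ p ∈ t := by
  unfold at_
  exact Finset.mem_filter

/-- Around a common point of two tiles with the same frontier there is no third tile. -/
theorem notSub_pt (hV : Stmt_VFin) {A : Finset (Set ℂ)} (hA : Fam A) (K : Bas A) {X Y : Set ℂ}
    (hX : X ∈ A) (hY : Y ∈ A) (hXY : X ≠ Y) (hf : frontier X = frontier Y) {p : ℂ}
    (hp : p ∈ frontier X) (hpr : p ∈ reg A) : at_ A p ⊆ {X, Y} := by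
  by_contra hcon
  obtain ⟨Z, hZ1, hZ2⟩ := Finset.not_subset.1 hcon
  have hXc := K.closed X hX
  have hYc := K.closed Y hY
  have hpX : p ∈ X := hXc.frontier_subset hp
  have hpY : p ∈ Y := hYc.frontier_subset (hf ▸ hp)
  obtain ⟨r₁, hr₁, hb₁, hn⟩ := K.nbhd p hpr
  have hfin : (Vx A \ {p}).Finite := (hV A hA).subset sdiff_subset
  have hnh : (Vx A \ {p})ᶜ ∈ nhds p := hfin.isClosed.isOpen_compl.mem_nhds (by simp)
  obtain ⟨r₂, hr₂, hball⟩ := Metric.mem_nhds_iff.1 hnh
  have hs : 0 < min r₁ r₂ := lt_min hr₁ hr₂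
  have hsr₁ : ball p (min r₁ r₂) ⊆ ball p r₁ := ball_subset_ball (min_le_left _ _)
  have hsr₂ : ball p (min r₁ r₂) ⊆ ball p r₂ := ball_subset_ball (min_le_right _ _)
  have hreg : ball p r₁ ⊆ reg A := interior_maximal hb₁ isOpen_ball
  set B : Finset (Set ℂ) := (at_ A p).filter (fun t => t ≠ X ∧ t ≠ Y) with hB
  have hBm : ∀ t ∈ B, t ∈ A ∧ p ∈ t ∧ t ≠ X ∧ t ≠ Y := by
    intro t ht
    rw [hB, Finset.mem_filter, notSub_mem_at] at ht
    exact ⟨ht.1.1, ht.1.2, ht.2.1, ht.2.2⟩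
  have hZB : Z ∈ B := by
    rw [hB, Finset.mem_filter]
    refine ⟨hZ1, ?_, ?_⟩
    · rintro rfl; exact hZ2 (by simp)
    · rintro rfl; exact hZ2 (by simp)
  have hBc : IsClosed (un B) := by
    unfold un
    exact B.finite_toSet.isClosed_biUnion fun t ht => K.closed t (hBm t ht).1
  have hpre : IsPreconnected (ball p (min r₁ r₂) \ {p}) :=
    CT.connT_ball p _ hs _ (countable_singleton p)
  rw [isPreconnected_closed_iff] at hpre
  have hcov : ball p (min r₁ r₂) \ {p} ⊆ (X ∪ Y) ∪ un B := by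
    intro q hq
    have hqu : q ∈ un A := hb₁ (hsr₁ hq.1)
    unfold un at hqu
    obtain ⟨t, ht, hqt⟩ := mem_iUnion₂.1 hqu
    have hpt : p ∈ t := hn t ht ⟨q, hqt, hsr₁ hq.1⟩
    by_cases h1 : t = X
    · exact Or.inl (Or.inl (h1 ▸ hqt))
    by_cases h2 : t = Y
    · exact Or.inl (Or.inr (h2 ▸ hqt))
    refine Or.inr ?_
    unfold un
    refine mem_iUnion₂.2 ⟨t, ?_, hqt⟩
    rw [hB, Finset.mem_filter, notSub_mem_at]
    exact ⟨⟨ht, hpt⟩, h1, h2⟩
  have hne1 : ((ball p (min r₁ r₂) \ {p}) ∩ (X ∪ Y)).Nonempty := by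
    obtain ⟨q, hq1, hq2, hq3⟩ := notSub_exists_ne (hA.disk X hX) hpX hs
    exact ⟨q, ⟨hq2, hq3⟩, Or.inl hq1⟩
  have hne2 : ((ball p (min r₁ r₂) \ {p}) ∩ un B).Nonempty := by
    obtain ⟨q, hq1, hq2, hq3⟩ := notSub_exists_ne (hA.disk Z (hBm Z hZB).1) (hBm Z hZB).2.1 hs
    refine ⟨q, ⟨hq2, hq3⟩, ?_⟩
    unfold un
    exact mem_iUnion₂.2 ⟨Z, hZB, hq1⟩
  obtain ⟨q, ⟨hq1, hq2⟩, hqXY, hqB⟩ := hpre _ _ (hXc.union hYc) hBc hcov hne1 hne2
  unfold un at hqB
  obtain ⟨t, ht, hqt⟩ := mem_iUnion₂.1 hqB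
  obtain ⟨htA, -, htX, htY⟩ := hBm t ht
  have hboth : q ∈ X ∧ q ∈ Y := by
    rcases hqXY with h | h
    · have := K.mem_frontier X hX t htA htX.symm ⟨h, hqt⟩
      exact ⟨h, hYc.frontier_subset (hf ▸ this)⟩
    · have := K.mem_frontier Y hY t htA htY.symm ⟨h, hqt⟩
      exact ⟨hXc.frontier_subset (hf ▸ this), h⟩
  have hsub : ({X, Y, t} : Finset (Set ℂ)) ⊆ at_ A q := by
    intro s hs'
    simp only [Finset.mem_insert, Finset.mem_singleton] at hs'
    rw [notSub_mem_at]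
    rcases hs' with rfl | rfl | rfl
    · exact ⟨hX, hboth.1⟩
    · exact ⟨hY, hboth.2⟩
    · exact ⟨htA, hqt⟩
  have hcard : ({X, Y, t} : Finset (Set ℂ)).card = 3 := by
    rw [Finset.card_eq_three]
    exact ⟨X, Y, t, hXY, htX.symm, htY.symm, rfl⟩
  have h3 : 3 ≤ (at_ A q).card := by
    rw [← hcard]
    exact Finset.card_le_card hsub
  exact hball (hsr₂ hq1) ⟨⟨hreg (hsr₁ hq1), h3⟩, hq2⟩

/-- B3: the frontier of an inner tile is not contained in another tile. -/
theorem notSub (hB : Stmt_Bas) (hV : Stmt_VFin) : Stmt_NotSub := by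
  intro A hA X hX Y hY hne hsub
  have K := hB A hA
  obtain ⟨c, γ, hγ⟩ := CT.disc_final X (hA.disk X hX.1)
  obtain ⟨c', γ', hγ'⟩ := CT.disc_final Y (hA.disk Y hY)
  have hXc := K.closed X hX.1
  have hYc := K.closed Y hY
  have hfr : frontier X ⊆ frontier Y := fun z hz =>
    K.mem_frontier Y hY X hX.1 hne.symm ⟨hsub hz, hXc.frontier_subset hz⟩
  have heq : frontier X = frontier Y := by
    rw [← hγ.range, ← hγ'.range]
    apply CT.circleMax γ γ' hγ.cont hγ.per hγ'.cont hγ'.per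
    rw [hγ.range, hγ'.range]
    exact hfr
  have hpt : ∀ p ∈ frontier X, at_ A p ⊆ {X, Y} := by
    intro p hp
    exact notSub_pt hV hA K hX.1 hY hne heq hp (hX.2 (hXc.frontier_subset hp))
  have hS : ({X, Y} : Finset (Set ℂ)) ⊆ A := by
    intro s hs
    simp only [Finset.mem_insert, Finset.mem_singleton] at hs
    rcases hs with rfl | rfl
    · exact hX.1
    · exact hY
  have hun : un ({X, Y} : Finset (Set ℂ)) = X ∪ Y := by
    unfold un
    ext z
    simp
  have hinX : ∀ p ∈ X, p ∈ interior (X ∪ Y) := by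
    intro p hp
    rw [← hun]
    apply K.int_of_at _ hS p (hX.2 hp)
    by_cases hpi : p ∈ interior X
    · rw [K.at_int X hX.1 p hpi]
      intro s hs
      rw [Finset.mem_singleton] at hs
      simp [hs]
    · have hpf : p ∈ frontier X := by
        rw [hXc.frontier_eq]
        exact ⟨hp, hpi⟩
      exact hpt p hpf
  have hopen : IsOpen (X ∪ Y) := by
    rw [← subset_interior_iff_isOpen]
    rintro p (hp | hp)
    · exact hinX p hp
    · by_cases hpi : p ∈ interior Y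
      · exact interior_mono subset_union_right hpi
      · have hpf : p ∈ frontier Y := by
          rw [hYc.frontier_eq]
          exact ⟨hp, hpi⟩
        rw [← heq] at hpf
        exact hinX p (hXc.frontier_subset hpf)
  have hcomp : IsCompact (X ∪ Y) := hγ.compact.union hγ'.compact
  have hne' : (X ∪ Y).Nonempty := ⟨c, Or.inl (interior_subset hγ.center)⟩
  have huniv : X ∪ Y = univ := IsClopen.eq_univ ⟨hcomp.isClosed, hopen⟩ hne'
  rw [huniv] at hcomp
  exact noncompact_univ ℂ hcomp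

end Pool.Agent.Hsh
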