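import Pool.Agent.Hsh.Stmts

set_option autoImplicit false

/-!
# A nonempty family of inner tiles is not closed under adjacency
-/

namespace Pool.Agent.Hsh

open Set Metric MeasureTheory Filter Topology Classical

theorem open_at (A : Finset (Set ℂ)) (hA : Fam A) (hB : Bas A) (h1 : Stmt_Arc1) (hS : Stmt_Star)
    (C : Finset (Set ℂ)) (hin : ∀ X ∈ C, Inn A X)
    (hcl : ∀ X ∈ C, ∀ Y ∈ A, Adj A X Y → Y ∈ C) (X : Set ℂ) (hX : X ∈ C) (p : ℂ) (hp : p ∈ X) :
    at_ A p ⊆ C := by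
  have hXA : X ∈ A := (hin X hX).1
  have hpr : p ∈ reg A := (hin X hX).2 hp
  by_cases hpi : p ∈ interior X
  · rw [hB.at_int X hXA p hpi]
    exact Finset.singleton_subset_iff.mpr hX
  have hpf : p ∈ frontier X := ⟨subset_closure hp, hpi⟩
  by_cases hv : p ∈ Vx A
  · by_contra hne
    have hmem : X ∈ (at_ A p).filter (fun t => t ∈ C) := by
      rw [Finset.mem_filter, at_, Finset.mem_filter]
      exact ⟨⟨hXA, hp⟩, hX⟩
    obtain ⟨X', hX', Y, hY, hYP, l, hl, -⟩ := hS A hA p hv ((at_ A p).filter (fun t => t ∈ C))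
      (Finset.filter_subset _ _) ⟨X, hmem⟩ (by
        intro h
        apply hne
        intro t ht
        rw [← h, Finset.mem_filter] at ht
        exact ht.2)
    have hYA : Y ∈ A := by
      rw [at_, Finset.mem_filter] at hY
      exact hY.1
    exact hYP (Finset.mem_filter.mpr ⟨hY, hcl X' (Finset.mem_filter.mp hX').2 Y hYA ⟨l, hl⟩⟩)
  · have hfr : p ∈ fr A X := ⟨⟨hpf, hpr⟩, hv⟩
    obtain ⟨Y, hY, hYX, hlY, -, -, hat⟩ := h1 A hA X hXA (connectedComponentIn (fr A X) p)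
      ⟨p, hfr, rfl⟩
    rw [hat p (mem_connectedComponentIn hfr)]
    intro t ht
    rw [Finset.mem_insert, Finset.mem_singleton] at ht
    rcases ht with rfl | rfl
    · exact hX
    · exact hcl X hX _ hY ⟨_, hYX.symm, ⟨p, hfr, rfl⟩, hlY⟩

theorem openF (hB : Stmt_Bas) (h1 : Stmt_Arc1) (hS : Stmt_Star) : Stmt_Open := by
  intro A hA C hCA hne hin
  by_contra hcon
  have hcl : ∀ X ∈ C, ∀ Y ∈ A, Adj A X Y → Y ∈ C := by
    intro X hX Y hY hadj
    by_contra hYC
    exact hcon ⟨X, hX, Y, hY, hYC, hadj⟩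
  have hb := hB A hA
  have hopen : IsOpen (un C) := by
    rw [← interior_eq_iff_isOpen]
    apply Subset.antisymm interior_subset
    intro p hp
    obtain ⟨X, hX, hpX⟩ := mem_iUnion₂.mp hp
    exact hb.int_of_at C hCA p ((hin X hX).2 hpX)
      (open_at A hA hb h1 hS C hin hcl X hX p hpX)
  have hclosed : IsClosed (un C) := by
    unfold un
    exact isClosed_biUnion_finset fun t ht => hb.closed t (hCA ht)
  have hsub : un C ⊆ un A := by
    intro p hp
    obtain ⟨X, hX, hpX⟩ := mem_iUnion₂.mp hp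
    exact mem_iUnion₂.mpr ⟨X, hCA hX, hpX⟩
  have hcomp : IsCompact (un C) := hb.compact.of_isClosed_subset hclosed hsub
  rcases isClopen_iff.mp ⟨hclosed, hopen⟩ with h | h
  · obtain ⟨X, hX⟩ := hne
    obtain ⟨e⟩ := hA.disk X (hCA hX)
    have hx : ((e.symm ⟨0, mem_closedBall_self zero_le_one⟩ : X) : ℂ) ∈ un C :=
      mem_iUnion₂.mpr ⟨X, hX, (e.symm ⟨0, mem_closedBall_self zero_le_one⟩).2⟩
    rw [h] at hx
    exact hx
  · rw [h] at hcomp
    exact noncompact_univ ℂ hcomp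

end Pool.Agent.Hsh
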