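import Pool.Agent.Hsh.Stmts

set_option autoImplicit false

/-! # Module OutPath: leaving the hull -/

namespace Pool.Agent.Hsh

open Set Metric MeasureTheory Filter Topology Classical

theorem outPath_mem_un {A : Finset (Set ℂ)} {p : ℂ} : p ∈ un A ↔ ∃ t ∈ A, p ∈ t := by
  simp only [un, mem_iUnion, exists_prop]

theorem outPath_center {A : Finset (Set ℂ)} (hA : Fam A) {t : Set ℂ} (ht : t ∈ A) :
    ∃ c ∈ interior t, closure (interior t) = t ∧
      ∀ x ∈ t, JoinedIn (insert x (interior t)) x c := by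
  obtain ⟨c, γ, hD⟩ := CT.disc_final t (hA.disk t ht)
  refine ⟨c, hD.center, hD.clos, ?_⟩
  intro x hx
  by_cases hxi : x ∈ interior t
  · exact (hD.pc.joinedIn x hxi c hD.center).mono (subset_insert _ _)
  · refine hD.rad x ?_
    rw [hD.compact.isClosed.frontier_eq]
    exact ⟨hx, hxi⟩

/-- a point of `un B` in a tile not in `B` is on the frontier of `un B` -/
theorem outPath_frontier {A B : Finset (Set ℂ)} (hA : Fam A) (hb : Bas A) (hBA : B ⊆ A)
    {W : Set ℂ} (hW : W ∈ A) (hWB : W ∉ B) {q : ℂ} (hq : q ∈ W) (hqB : q ∈ un B) :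
    q ∈ frontier (un B) := by
  obtain ⟨c, -, hcl, -⟩ := outPath_center hA hW
  refine ⟨subset_closure hqB, ?_⟩
  intro hint
  have hq' : q ∈ closure (interior W) := by rw [hcl]; exact hq
  obtain ⟨p, hp1, hp2⟩ := mem_closure_iff.mp hq' _ isOpen_interior hint
  obtain ⟨t, ht, hpt⟩ := outPath_mem_un.mp (interior_subset hp1)
  have hne : W ≠ t := by
    rintro rfl
    exact hWB ht
  exact (Set.disjoint_left.mp (hb.int_disj W hW t (hBA ht) hne)) hp2 hpt

/-- the interior of a tile not in `H` misses the tiles of `H` -/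
theorem outPath_int {A H : Finset (Set ℂ)} (hb : Bas A) (hHA : H ⊆ A) {X : Set ℂ} (hX : X ∈ A)
    (hXH : X ∉ H) {p : ℂ} (hp : p ∈ interior X) : p ∉ un H := by
  intro h
  obtain ⟨t, ht, hpt⟩ := outPath_mem_un.mp h
  have hne : X ≠ t := by
    rintro rfl
    exact hXH ht
  exact (Set.disjoint_left.mp (hb.int_disj X hX t (hHA ht) hne)) hp hpt

/-- crossing a tile not in `H` -/
theorem outPath_cross {A B H : Finset (Set ℂ)} (hA : Fam A) (hb : Bas A) (hBA : B ⊆ A)
    (hHA : H ⊆ A) {X : Set ℂ} (hX : X ∈ B) (hXH : X ∉ H) {x q : ℂ} (hx : x ∈ X) (hq : q ∈ X)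
    (hqH : q ∉ un H) : JoinedIn (insert x (un B \ un H)) x q := by
  obtain ⟨c, -, -, hc⟩ := outPath_center hA (hBA hX)
  have hsub : interior X ⊆ un B \ un H := by
    intro p hp
    exact ⟨outPath_mem_un.mpr ⟨X, hX, interior_subset hp⟩, outPath_int hb hHA (hBA hX) hXH hp⟩
  have h1 : JoinedIn (insert x (un B \ un H)) x c :=
    (hc x hx).mono (insert_subset_insert hsub)
  have h2 : JoinedIn (insert x (un B \ un H)) q c := by
    refine (hc q hq).mono ?_
    intro p hp
    rcases mem_insert_iff.mp hp with rfl | hp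
    · exact mem_insert_of_mem _ ⟨outPath_mem_un.mpr ⟨X, hX, hq⟩, hqH⟩
    · exact mem_insert_of_mem _ (hsub hp)
  exact h1.trans h2.symm

/-- points of a common arc of two tiles not in `H` -/
theorem outPath_arc {A H : Finset (Set ℂ)} (hA : Fam A) (hb : Bas A) (h1 : Stmt_Arc1)
    {X Y : Set ℂ} (hX : X ∈ A) (hY : Y ∈ A) (hXH : X ∉ H) (hYH : Y ∉ H) (hHA : H ⊆ A)
    (hadj : Adj A X Y) : ∃ q, q ∈ X ∧ q ∈ Y ∧ q ∉ un H := by
  obtain ⟨l, hne, hlX, hlY⟩ := hadj
  obtain ⟨Z, -, hZX, -, hlne, hlfr, hat⟩ := h1 A hA X hX l hlX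
  obtain ⟨q, hq⟩ := hlne
  have hqX : q ∈ X := (hb.closed X hX).frontier_subset (hlfr hq).1.1
  have hqY : q ∈ Y := by
    obtain ⟨p, -, hlp⟩ := hlY
    have h2 : q ∈ fr A Y := connectedComponentIn_subset _ _ (hlp ▸ hq)
    exact (hb.closed Y hY).frontier_subset h2.1.1
  have hYZ : Y = Z := by
    have h3 : Y ∈ at_ A q := Finset.mem_filter.mpr ⟨hY, hqY⟩
    rw [hat q hq, Finset.mem_insert, Finset.mem_singleton] at h3
    rcases h3 with h3 | h3
    · exact absurd h3.symm hne
    · exact h3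
  refine ⟨q, hqX, hqY, ?_⟩
  intro hun
  obtain ⟨t, ht, hqt⟩ := outPath_mem_un.mp hun
  have h4 : t ∈ at_ A q := Finset.mem_filter.mpr ⟨hHA ht, hqt⟩
  rw [hat q hq, Finset.mem_insert, Finset.mem_singleton] at h4
  rcases h4 with rfl | h4
  · exact hXH ht
  · rw [← hYZ] at h4
    subst h4
    exact hYH ht

theorem outPath (hB : Stmt_Bas) (h1 : Stmt_Arc1) : Stmt_OutPath := by
  intro A B S hL v hv Z hZ hZH hvZ
  have hA := hL.fam
  have hb := hB A hA
  have hBA := hL.sub
  have hHB : hull A B S ⊆ B := Finset.filter_subset _ _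
  have hHA : hull A B S ⊆ A := hHB.trans hBA
  by_cases hZB : Z ∈ B
  · have hZ2 : Z ∉ tch A S ∧ Out A B S Z := by
      constructor
      · intro h
        exact hZH (Finset.mem_filter.mpr ⟨hZB, Or.inl h⟩)
      · by_contra h
        exact hZH (Finset.mem_filter.mpr ⟨hZB, Or.inr h⟩)
    obtain ⟨hZt, Z', hch, W, hW, hWB, hadj⟩ := hZ2
    have hnot : ∀ X, X ∈ B → X ∉ tch A S →
        Relation.ReflTransGen (fun P Q => Adj A P Q ∧ (Q ∈ B ∧ Q ∉ tch A S)) X Z' →
        X ∉ hull A B S := by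
      intro X hX hXt hXch h
      rcases (Finset.mem_filter.mp h).2 with h2 | h2
      · exact hXt h2
      · exact h2 ⟨Z', hXch, W, hW, hWB, hadj⟩
    have key : ∀ X, Relation.ReflTransGen (fun P Q => Adj A P Q ∧ (Q ∈ B ∧ Q ∉ tch A S)) X Z' →
        X ∈ B → X ∉ tch A S → ∀ x ∈ X, ∃ y ∈ frontier (un B),
          JoinedIn (insert x (un B \ un (hull A B S))) x y := by
      intro X hch
      induction hch using Relation.ReflTransGen.head_induction_on with
      | refl =>
        intro hXB hXt x hx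
        have hXH := hnot Z' hXB hXt Relation.ReflTransGen.refl
        have hWH : W ∉ hull A B S := fun h => hWB (hHB h)
        obtain ⟨q, hqX, hqW, hqH⟩ := outPath_arc hA hb h1 (hBA hXB) hW hXH hWH hHA hadj
        exact ⟨q, outPath_frontier hA hb hBA hW hWB hqW (outPath_mem_un.mpr ⟨Z', hXB, hqX⟩),
          outPath_cross hA hb hBA hHA hXB hXH hx hqX hqH⟩
      | head hab hbc ih =>
        rename_i a c
        intro hXB hXt x hx
        obtain ⟨hac, hcB, hct⟩ := hab
        have haH := hnot a hXB hXt (Relation.ReflTransGen.head ⟨hac, hcB, hct⟩ hbc)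
        have hcH := hnot c hcB hct hbc
        obtain ⟨q, hqa, hqc, hqH⟩ := outPath_arc hA hb h1 (hBA hXB) (hBA hcB) haH hcH hHA hac
        obtain ⟨y, hy, hj⟩ := ih hcB hct q hqc
        refine ⟨y, hy, (outPath_cross hA hb hBA hHA hXB haH hx hqa hqH).trans (hj.mono ?_)⟩
        intro p hp
        rcases mem_insert_iff.mp hp with rfl | hp
        · exact mem_insert_of_mem _ ⟨outPath_mem_un.mpr ⟨a, hXB, hqa⟩, hqH⟩
        · exact mem_insert_of_mem _ hp
    exact key Z hch hZB hZt v hvZ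
  · exact ⟨v, outPath_frontier hA hb hBA hZ hZB hvZ hv, JoinedIn.refl (mem_insert _ _)⟩

end Pool.Agent.Hsh
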