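import Pool.Agent.Hsh.Stmts

set_option autoImplicit false

/-!
# Parity of the arcs around a vertex
-/

namespace Pool.Agent.Hsh

open Set Metric MeasureTheory Filter Topology Classical

/-- an arc of `X` lies in `X` -/
theorem par_sub (hB : Stmt_Bas) (h1 : Stmt_Arc1) {A : Finset (Set ℂ)} (hA : Fam A) {X : Set ℂ}
    (hX : X ∈ A) {l : Set ℂ} (hl : l ∈ arcs A X) : l ⊆ X := by
  obtain ⟨Y, -, -, -, -, hf, -⟩ := h1 A hA X hX l hl
  intro p hp
  have h2 : p ∈ frontier X := (hf hp).1.1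
  exact ((hB A hA).closed X hX).frontier_subset h2

/-- the two arcs of a tile at a vertex, as a finite set -/
theorem par_two (h2 : Stmt_Arc2) {A : Finset (Set ℂ)} (hA : Fam A) {v : ℂ} (hv : v ∈ Vx A)
    {X : Set ℂ} (hX : X ∈ at_ A v) : ∃ F : Finset (Set ℂ), F.card = 2 ∧
      ∀ l, l ∈ F ↔ (l ∈ arcs A X ∧ v ∈ closure l) := by
  obtain ⟨hXA, hvX⟩ := Finset.mem_filter.1 hX
  obtain ⟨l₁, hl₁, l₂, hl₂, hne, hc₁, hc₂, hall, -⟩ := h2 A hA X hXA v hv hvX
  refine ⟨{l₁, l₂}, Finset.card_pair hne, fun l => ?_⟩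
  rw [Finset.mem_insert, Finset.mem_singleton]
  constructor
  · rintro (rfl | rfl)
    · exact ⟨hl₁, hc₁⟩
    · exact ⟨hl₂, hc₂⟩
  · rintro ⟨h, h'⟩
    exact hall l h h'

theorem par (hB : Stmt_Bas) (h1 : Stmt_Arc1) (h2 : Stmt_Arc2) (hS : Stmt_Star) : Stmt_Par := by
  intro A hA v hv P hP hPne hPn
  have hF : ∀ X : Set ℂ, ∃ F : Finset (Set ℂ), X ∈ at_ A v → (F.card = 2 ∧
      ∀ l, l ∈ F ↔ (l ∈ arcs A X ∧ v ∈ closure l)) := by
    intro X
    by_cases hX : X ∈ at_ A v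
    · obtain ⟨F, hF⟩ := par_two h2 hA hv hX
      exact ⟨F, fun _ => hF⟩
    · exact ⟨∅, fun h => absurd h hX⟩
  choose F hF using hF
  have hPA : ∀ X ∈ P, X ∈ A := fun X hX => (Finset.mem_filter.1 (hP hX)).1
  have key : Even (((P.biUnion F).filter
      (fun l => Odd (P.filter (fun X => l ∈ F X)).card)).card) := by
    rw [← Finset.even_sum_iff_even_card_odd]
    have h3 : ∑ l ∈ P.biUnion F, (P.filter (fun X => l ∈ F X)).card = ∑ X ∈ P, (F X).card := by
      simp only [Finset.card_eq_sum_ones]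
      rw [Finset.sum_comm' (t' := P) (s' := F)]
      intro l X
      simp only [Finset.mem_biUnion, Finset.mem_filter]
      constructor
      · rintro ⟨-, h4, h5⟩
        exact ⟨h5, h4⟩
      · rintro ⟨h5, h4⟩
        exact ⟨⟨X, h4, h5⟩, h4, h5⟩
    rw [h3]
    apply Finset.even_sum
    intro X hX
    rw [(hF X (hP hX)).1]
    exact even_two
  obtain ⟨X, hX, Y, hY, hYP, l, hl, hvl⟩ := hS A hA v hv P hP hPne hPn
  have hYA : Y ∈ A := (Finset.mem_filter.1 hY).1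
  have hlF : l ∈ F X := ((hF X (hP hX)).2 l).2 ⟨hl.2.1, hvl⟩
  have hone : P.filter (fun X => l ∈ F X) = {X} := by
    obtain ⟨Y₀, -, -, -, ⟨p, hp⟩, -, hat⟩ := h1 A hA X (hPA X hX) l hl.2.1
    have hYp : Y ∈ at_ A p :=
      Finset.mem_filter.2 ⟨hYA, par_sub hB h1 hA hYA hl.2.2 hp⟩
    rw [hat p hp, Finset.mem_insert, Finset.mem_singleton] at hYp
    have hYY : Y = Y₀ := by
      rcases hYp with h | h
      · exact absurd h.symm hl.1
      · exact h
    ext Z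
    rw [Finset.mem_filter, Finset.mem_singleton]
    constructor
    · rintro ⟨hZ, hlZ⟩
      have hlZ' := (((hF Z (hP hZ)).2 l).1 hlZ).1
      have hZp : Z ∈ at_ A p :=
        Finset.mem_filter.2 ⟨hPA Z hZ, par_sub hB h1 hA (hPA Z hZ) hlZ' hp⟩
      rw [hat p hp, Finset.mem_insert, Finset.mem_singleton] at hZp
      rcases hZp with h | h
      · exact h
      · exfalso
        apply hYP
        rw [hYY, ← h]
        exact hZ
    · rintro rfl
      exact ⟨hX, hlF⟩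
  have hmem : l ∈ (P.biUnion F).filter (fun l => Odd (P.filter (fun X => l ∈ F X)).card) := by
    rw [Finset.mem_filter]
    refine ⟨Finset.mem_biUnion.2 ⟨X, hX, hlF⟩, ?_⟩
    rw [hone, Finset.card_singleton]
    exact odd_one
  have hcard : 1 < ((P.biUnion F).filter
      (fun l => Odd (P.filter (fun X => l ∈ F X)).card)).card := by
    have h3 := Finset.card_pos.2 ⟨l, hmem⟩
    obtain ⟨k, hk⟩ := key
    omega
  obtain ⟨l', hl', hne⟩ := Finset.exists_mem_ne hcard l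
  obtain ⟨h3, hodd⟩ := Finset.mem_filter.1 hl'
  obtain ⟨X', hX', hlX'⟩ := Finset.mem_biUnion.1 h3
  obtain ⟨hlX'', hvl'⟩ := ((hF X' (hP hX')).2 l').1 hlX'
  obtain ⟨Y', hY'A, hY'ne, hY'l, ⟨p, hp⟩, -, hat⟩ := h1 A hA X' (hPA X' hX') l' hlX''
  have hY'v : Y' ∈ at_ A v := by
    refine Finset.mem_filter.2 ⟨hY'A, ?_⟩
    exact closure_minimal (par_sub hB h1 hA hY'A hY'l) ((hB A hA).closed Y' hY'A) hvl'
  have hY'P : Y' ∉ P := by
    intro hY'P
    have h4 : P.filter (fun X => l' ∈ F X) = {X', Y'} := by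
      ext Z
      rw [Finset.mem_filter, Finset.mem_insert, Finset.mem_singleton]
      constructor
      · rintro ⟨hZ, hlZ⟩
        have hlZ' := (((hF Z (hP hZ)).2 l').1 hlZ).1
        have hZp : Z ∈ at_ A p :=
          Finset.mem_filter.2 ⟨hPA Z hZ, par_sub hB h1 hA (hPA Z hZ) hlZ' hp⟩
        rw [hat p hp, Finset.mem_insert, Finset.mem_singleton] at hZp
        exact hZp
      · rintro (rfl | rfl)
        · exact ⟨hX', hlX'⟩
        · exact ⟨hY'P, ((hF _ (hP hY'P)).2 l').2 ⟨hY'l, hvl'⟩⟩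
    rw [h4, Finset.card_pair hY'ne.symm] at hodd
    exact (Nat.not_odd_iff_even.2 even_two) hodd
  exact ⟨X, hX, Y, hY, hYP, X', hX', Y', hY'v, hY'P, l, l', hne.symm, hl,
    ⟨hY'ne.symm, hlX'', hY'l⟩, hvl, hvl'⟩

end Pool.Agent.Hsh
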