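import Pool.Agent.Hsh.Stmts

set_option autoImplicit false

/-! # Module Rec -/

namespace Pool.Agent.Hsh

open Set Metric MeasureTheory Filter Topology Classical

theorem rec_VF {A : Finset (Set ℂ)} {v : ℂ} (h : v ∈ VF A) : v ∈ Vx A := by
  unfold VF at h
  split_ifs at h with h1
  · exact h1.mem_toFinset.1 h
  · simp at h

theorem rec_other {A : Finset (Set ℂ)} {v : ℂ} (h : v ∈ Vx A) (X : Set ℂ) :
    ∃ Y ∈ A, Y ≠ X ∧ v ∈ Y := by
  have h3 : 1 < (at_ A v).card := lt_of_lt_of_le (by norm_num) h.2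
  obtain ⟨Y, hY, hne⟩ := Finset.exists_mem_ne h3 X
  exact ⟨Y, (Finset.mem_filter.1 hY).1, hne, (Finset.mem_filter.1 hY).2⟩

theorem recT (hB : Stmt_Bas) (hV : Stmt_VFin) (hH : Stmt_Hull) (hW : Stmt_Wt) (hJ : Stmt_Junc) :
    Stmt_Rec := by
  intro A B S hL w hw
  obtain ⟨h1, h2, h3, h4⟩ := hH A B S hL
  have hb := hB A hL.fam
  have hHA : hull A B S ⊆ A := h2.trans hL.sub
  have hne : (hull A B S).Nonempty := hL.neS.mono h1
  have hwt := hW A hL.fam (hull A B S) hHA hne (fun X hX => hL.inn X (h2 hX)) h4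
  have hsum : ∑ X ∈ hull A B S, ∑ v ∈ (VF A).filter (fun v => v ∈ X), ext X v ≤
      ∑ X ∈ hull A B S, w := by
    refine Finset.sum_le_sum fun X hX => hw X (hHA hX) _ ?_
    intro v hv
    obtain ⟨hv1, hvX⟩ := Finset.mem_filter.1 (Finset.mem_coe.1 hv)
    obtain ⟨Y, hY, hne, hvY⟩ := rec_other (rec_VF hv1) X
    exact hb.mem_frontier X (hHA hX) Y hY hne.symm ⟨hvX, hvY⟩
  have hj := hJ A B S hL
  have hj' : (((VF A).filter (fun v => ¬ at_ A v ⊆ hull A B S ∧
      2 ≤ (at_ (hull A B S) v).card)).card : ℝ) ≤ ((tch A S \ S).card : ℝ) := by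
    exact_mod_cast hj
  have hc : (tch A S \ S).card + S.card ≤ (hull A B S).card := by
    rw [← Finset.card_union_of_disjoint Finset.sdiff_disjoint]
    refine Finset.card_le_card (Finset.union_subset ?_ h1)
    exact Finset.sdiff_subset.trans h3
  have hc' : ((tch A S \ S).card : ℝ) + (S.card : ℝ) ≤ ((hull A B S).card : ℝ) := by
    exact_mod_cast hc
  rw [Finset.sum_const, nsmul_eq_mul] at hsum
  linarith

end Pool.Agent.Hsh
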