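import Pool.Agent.Hsh.Stmts

set_option autoImplicit false

/-!
# Around a vertex the tiles are connected through arcs ending at the vertex
-/

namespace Pool.Agent.Hsh

open Set Metric MeasureTheory Filter Topology Classical

theorem star_open_ne {U : Set ℂ} (hU : IsOpen U) (hne : U.Nonempty) (v : ℂ) :
    ∃ q ∈ U, q ≠ v := by
  by_contra hcon
  push Not at hcon
  obtain ⟨q, hq⟩ := hne
  have hq' := hcon q hq
  subst hq'
  have h1 : U = {q} := Set.Subset.antisymm (fun x hx => hcon x hx)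
    (Set.singleton_subset_iff.mpr hq)
  rw [h1] at hU
  exact not_isOpen_singleton q hU

theorem star (hB : Stmt_Bas) (hV : Stmt_VFin) (h1 : Stmt_Arc1) (h2 : Stmt_Arc2) : Stmt_Star := by
  intro A hA v hv P hP hPne hPall
  have bas := hB A hA
  -- a radius for every tile
  have hrad : ∀ X : Set ℂ, ∃ r > 0, X ∈ at_ A v → ∀ q ∈ frontier X ∩ ball v r, q ≠ v →
      ∃ l ∈ arcs A X, v ∈ closure l ∧ q ∈ l := by
    intro X
    by_cases hX : X ∈ at_ A v
    · rw [at_, Finset.mem_filter] at hX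
      obtain ⟨l1, hl1, l2, hl2, -, hc1, hc2, -, r, hr, hsub⟩ := h2 A hA X hX.1 v hv hX.2
      refine ⟨r, hr, fun _ q hq hqv => ?_⟩
      rcases hsub hq with (h | h) | h
      · exact absurd h hqv
      · exact ⟨l1, hl1, hc1, h⟩
      · exact ⟨l2, hl2, hc2, h⟩
    · exact ⟨1, one_pos, fun h => absurd h hX⟩
  choose R hR0 hR using hrad
  obtain ⟨r0, hr0, hr0A, hr0t⟩ := bas.nbhd v hv.1
  obtain ⟨r, hr, hrr0, hrR⟩ : ∃ r > 0, r ≤ r0 ∧ ∀ X ∈ at_ A v, r ≤ R X := by
    have hne : (insert r0 ((at_ A v).image R)).Nonempty := Finset.insert_nonempty _ _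
    refine ⟨(insert r0 ((at_ A v).image R)).min' hne, ?_, ?_, ?_⟩
    · rw [gt_iff_lt, Finset.lt_min'_iff]
      intro y hy
      rw [Finset.mem_insert] at hy
      rcases hy with rfl | hy
      · exact hr0
      · obtain ⟨X, -, rfl⟩ := Finset.mem_image.mp hy
        exact hR0 X
    · exact Finset.min'_le _ _ (Finset.mem_insert_self _ _)
    · intro X hX
      exact Finset.min'_le _ _ (Finset.mem_insert_of_mem (Finset.mem_image_of_mem R hX))
  have hcon : IsPreconnected (ball v r \ {v}) :=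
    CT.compl (ball v r) {v} isOpen_ball (convex_ball v r).isPreconnected (countable_singleton v)
  have hpc := isPreconnected_closed_iff.mp hcon (un P) (un (at_ A v \ P))
  have hclosed : ∀ S ⊆ A, IsClosed (un S) := by
    intro S hS
    exact isClosed_biUnion_finset fun t ht => bas.closed t (hS ht)
  have hatA : at_ A v ⊆ A := Finset.filter_subset _ _
  have hmeet : ∀ t ∈ at_ A v, ((ball v r \ {v}) ∩ t).Nonempty := by
    intro t ht
    rw [at_, Finset.mem_filter] at ht
    obtain ⟨c, γ, hd⟩ := CT.disc_final t (hA.disk t ht.1)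
    have hvc : v ∈ closure (interior t) := by rw [hd.clos]; exact ht.2
    have hne : (ball v r ∩ interior t).Nonempty :=
      mem_closure_iff.mp hvc (ball v r) isOpen_ball (mem_ball_self hr)
    obtain ⟨q, hq, hqv⟩ := star_open_ne (isOpen_ball.inter isOpen_interior) hne v
    exact ⟨q, ⟨hq.1, hqv⟩, interior_subset hq.2⟩
  have hcover : ball v r \ {v} ⊆ un P ∪ un (at_ A v \ P) := by
    intro q hq
    have hqr0 : q ∈ ball v r0 := ball_subset_ball hrr0 hq.1
    have hqA := hr0A hqr0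
    simp only [un, mem_iUnion, exists_prop] at hqA
    obtain ⟨t, ht, hqt⟩ := hqA
    have hvt : v ∈ t := hr0t t ht ⟨q, hqt, hqr0⟩
    have hat : t ∈ at_ A v := by rw [at_, Finset.mem_filter]; exact ⟨ht, hvt⟩
    by_cases htP : t ∈ P
    · left
      simp only [un, mem_iUnion, exists_prop]
      exact ⟨t, htP, hqt⟩
    · right
      simp only [un, mem_iUnion, exists_prop]
      exact ⟨t, Finset.mem_sdiff.mpr ⟨hat, htP⟩, hqt⟩
  have hm1 : ((ball v r \ {v}) ∩ un P).Nonempty := by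
    obtain ⟨t, ht⟩ := hPne
    obtain ⟨q, hq, hqt⟩ := hmeet t (hP ht)
    refine ⟨q, hq, ?_⟩
    simp only [un, mem_iUnion, exists_prop]
    exact ⟨t, ht, hqt⟩
  have hm2 : ((ball v r \ {v}) ∩ un (at_ A v \ P)).Nonempty := by
    have hne : (at_ A v \ P).Nonempty := by
      rw [Finset.sdiff_nonempty]
      intro hsub
      exact hPall (Finset.Subset.antisymm hP hsub)
    obtain ⟨t, ht⟩ := hne
    obtain ⟨q, hq, hqt⟩ := hmeet t (Finset.mem_sdiff.mp ht).1
    refine ⟨q, hq, ?_⟩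
    simp only [un, mem_iUnion, exists_prop]
    exact ⟨t, ht, hqt⟩
  obtain ⟨q, hq, hq1, hq2⟩ := hpc (hclosed P (hP.trans hatA))
    (hclosed _ (Finset.sdiff_subset.trans hatA)) hcover hm1 hm2
  simp only [un, mem_iUnion, exists_prop] at hq1 hq2
  obtain ⟨X, hX, hqX⟩ := hq1
  obtain ⟨Y, hY, hqY⟩ := hq2
  rw [Finset.mem_sdiff] at hY
  have hXat := hP hX
  have hXA := hatA hXat
  have hYA := hatA hY.1
  have hXY : X ≠ Y := fun h => hY.2 (h ▸ hX)
  have hqfr : q ∈ frontier X := bas.mem_frontier X hXA Y hYA hXY ⟨hqX, hqY⟩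
  obtain ⟨l, hl, hvl, hql⟩ := hR X hXat q
    ⟨hqfr, ball_subset_ball (hrR X hXat) hq.1⟩ hq.2
  obtain ⟨Y', hY', hY'X, hlY', -, -, hat⟩ := h1 A hA X hXA l hl
  have hYY' : Y = Y' := by
    have h3 : Y ∈ at_ A q := by rw [at_, Finset.mem_filter]; exact ⟨hYA, hqY⟩
    rw [hat q hql, Finset.mem_insert, Finset.mem_singleton] at h3
    rcases h3 with h3 | h3
    · exact absurd h3.symm hXY
    · exact h3
  subst hYY'
  exact ⟨X, hX, Y, hY.1, hY.2, l, ⟨hXY, hl, hlY'⟩, hvl⟩

end Pool.Agent.Hsh
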