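import Pool.Agent.Hsh.Stmts

set_option autoImplicit false

/-!
# A tile of a family which is inner touches at least two other tiles
-/

namespace Pool.Agent.Hsh

open Set Metric MeasureTheory Filter Topology Classical

theorem threeT_frontier {A : Finset (Set ℂ)} (hF : Fam A) (hB : Bas A) {X : Set ℂ} (hX : X ∈ A) :
    (frontier X).Nonempty := by
  obtain ⟨φ⟩ := hF.disk X hX
  have hne : X.Nonempty := ⟨_, (φ.symm ⟨0, by simp⟩).2⟩
  have hcpt : IsCompact X := by
    refine hB.compact.of_isClosed_subset (hB.closed X hX) ?_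
    intro p hp
    exact mem_iUnion₂.2 ⟨X, hX, hp⟩
  refine nonempty_frontier_iff.2 ⟨hne, ?_⟩
  intro h
  rw [h] at hcpt
  exact noncompact_univ ℂ hcpt

theorem threeT (hB : Stmt_Bas) (hN : Stmt_NotSub) : Stmt_Three := by
  intro A hF X hX
  have hb := hB A hF
  have hun : un {X} = X := by simp [un]
  obtain ⟨p, hp⟩ := threeT_frontier hF hb hX.1
  have hcl : IsClosed X := hb.closed X hX.1
  have hfr : ∀ q ∈ frontier X, ∃ Y ∈ tch A {X}, Y ≠ X ∧ q ∈ Y := by
    intro q hq
    have hqX : q ∈ X := hcl.frontier_subset hq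
    obtain ⟨Y, hY, hYX, hqY⟩ := hb.other X hX.1 q hq (hX.2 hqX)
    refine ⟨Y, ?_, hYX, hqY⟩
    simp only [tch, Finset.mem_filter]
    exact ⟨hY, q, hqY, by rw [hun]; exact hqX⟩
  obtain ⟨Y, hY, hYX, hpY⟩ := hfr p hp
  have hXt : X ∈ tch A {X} := by
    simp only [tch, Finset.mem_filter]
    refine ⟨hX.1, p, hcl.frontier_subset hp, ?_⟩
    rw [hun]
    exact hcl.frontier_subset hp
  by_contra hlt
  have hYA : Y ∈ A := by
    simp only [tch, Finset.mem_filter] at hY
    exact hY.1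
  refine hN A hF X hX Y hYA (Ne.symm hYX) fun q hq => ?_
  obtain ⟨Z, hZ, hZX, hqZ⟩ := hfr q hq
  by_cases hZY : Z = Y
  · rw [← hZY]; exact hqZ
  · exfalso
    apply hlt
    rw [← Nat.lt_iff_add_one_le, Finset.two_lt_card]
    exact ⟨X, hXt, Y, hY, Z, hZ, Ne.symm hYX, Ne.symm hZX, Ne.symm hZY⟩

end Pool.Agent.Hsh
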