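import Pool.Agent.Hsh.Stmts

set_option autoImplicit false

/-!
# Module Two: an inner tile has at least two vertices
-/

namespace Pool.Agent.Hsh

open Set Metric MeasureTheory Filter Topology Classical

/-- a point in three different tiles, in the covered region, is a vertex -/
private theorem two_vx {A : Finset (Set ℂ)} {X t t' : Set ℂ} {p : ℂ} (hX : X ∈ A) (ht : t ∈ A)
    (ht' : t' ∈ A) (h1 : t ≠ X) (h2 : t' ≠ X) (h3 : t ≠ t') (hp : p ∈ reg A) (hpX : p ∈ X)
    (hpt : p ∈ t) (hpt' : p ∈ t') : p ∈ Vx A := by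
  refine ⟨hp, ?_⟩
  have hsub : ({X, t, t'} : Finset (Set ℂ)) ⊆ at_ A p := by
    intro s hs
    simp only [Finset.mem_insert, Finset.mem_singleton] at hs
    rw [at_, Finset.mem_filter]
    rcases hs with rfl | rfl | rfl
    · exact ⟨hX, hpX⟩
    · exact ⟨ht, hpt⟩
    · exact ⟨ht', hpt'⟩
  have hcard : ({X, t, t'} : Finset (Set ℂ)).card = 3 := by
    rw [Finset.card_eq_three]
    exact ⟨X, t, t', h1.symm, h2.symm, h3, rfl⟩
  rw [← hcard]
  exact Finset.card_le_card hsub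

theorem two (hB : Stmt_Bas) (hV : Stmt_VFin) (hN : Stmt_NotSub) : Stmt_Two := by
  have _ := hV
  intro A hA X hX
  have B := hB A hA
  obtain ⟨c, γ, hd⟩ := CT.disc_final X (hA.disk X hX.1)
  by_contra hcon
  push Not at hcon
  -- a vertex of `X` is on the frontier
  have hfr : ∀ u ∈ Vx A, u ∈ X → u ∈ frontier X := by
    intro u hu huX
    have h3 : 3 ≤ (at_ A u).card := hu.2
    obtain ⟨t, ht, htX⟩ : ∃ t ∈ at_ A u, t ≠ X :=
      Finset.exists_mem_ne (by omega) X
    rw [at_, Finset.mem_filter] at ht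
    exact B.mem_frontier X hX.1 t ht.1 htX.symm ⟨huX, ht.2⟩
  obtain ⟨x0, hx0⟩ : ∃ x0 : ℝ, ∀ u ∈ Vx A, u ∈ X → u = γ x0 := by
    by_cases he : ∃ u ∈ Vx A, u ∈ X
    · obtain ⟨u, hu, huX⟩ := he
      have h1 : u ∈ range γ := by
        rw [hd.range]
        exact hfr u hu huX
      obtain ⟨x0, hx0⟩ := h1
      refine ⟨x0, fun w hw hwX => ?_⟩
      rw [hx0]
      by_contra hne
      exact hcon u hu w hw (fun h => hne h.symm) huX hwX
    · exact ⟨0, fun u hu huX => absurd ⟨u, hu, huX⟩ he⟩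
  have hXcl : IsClosed X := B.closed X hX.1
  set C : Set ℂ := γ '' Ioo x0 (x0 + 1) with hC
  have hCconn : IsPreconnected C := (isPreconnected_Ioo).image _ hd.cont.continuousOn
  have hCfr : C ⊆ frontier X := by
    rw [← hd.range]
    exact image_subset_range _ _
  have hCX : C ⊆ X := hCfr.trans hXcl.frontier_subset
  have hCreg : C ⊆ reg A := hCX.trans hX.2
  have hCV : ∀ p ∈ C, p ∉ Vx A := by
    intro p hp hpV
    have h1 := hx0 p hpV (hCX hp)
    obtain ⟨y, hy, rfl⟩ := hp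
    rw [hd.per] at h1
    obtain ⟨n, hn⟩ := h1
    have h2 : (-1 : ℝ) < (n : ℝ) := by linarith [hy.2]
    have h3 : (n : ℝ) < 0 := by linarith [hy.1]
    have h4 : (-1 : ℤ) < n := by exact_mod_cast h2
    have h5 : n < (0 : ℤ) := by exact_mod_cast h3
    omega
  -- the other tile at a point
  have hp0 : γ (x0 + 1 / 2) ∈ C := ⟨x0 + 1 / 2, ⟨by linarith, by linarith⟩, rfl⟩
  obtain ⟨t, ht, htX, hpt⟩ := B.other X hX.1 _ (hCfr hp0) (hCreg hp0)
  have htcl : IsClosed t := B.closed t ht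
  have hvcl : IsClosed (⋃ s ∈ (A.erase X).erase t, s) := by
    apply isClosed_biUnion_finset
    intro s hs
    exact B.closed s (Finset.mem_of_mem_erase (Finset.mem_of_mem_erase hs))
  have key1 : C ⊆ t ∪ ⋃ s ∈ (A.erase X).erase t, s := by
    intro p hp
    obtain ⟨s, hs, hsX, hps⟩ := B.other X hX.1 p (hCfr hp) (hCreg hp)
    by_cases hst : s = t
    · left
      rw [← hst]
      exact hps
    · right
      rw [mem_iUnion₂]
      exact ⟨s, Finset.mem_erase.mpr ⟨hst, Finset.mem_erase.mpr ⟨hsX, hs⟩⟩, hps⟩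
  have key2 : C ∩ (t ∩ ⋃ s ∈ (A.erase X).erase t, s) = ∅ := by
    rw [eq_empty_iff_forall_notMem]
    rintro p ⟨hp, hp1, hp2⟩
    rw [mem_iUnion₂] at hp2
    obtain ⟨s, hs, hps⟩ := hp2
    rw [Finset.mem_erase, Finset.mem_erase] at hs
    exact hCV _ hp (two_vx hX.1 ht hs.2.2 htX hs.2.1 (Ne.symm hs.1) (hCreg hp) (hCX hp)
      hp1 hps)
  have hCt : C ⊆ t := by
    rw [isPreconnected_iff_subset_of_disjoint_closed] at hCconn
    rcases hCconn t (⋃ s ∈ (A.erase X).erase t, s) htcl hvcl key1 key2 with h | h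
    · exact h
    · exfalso
      have h1 := h hp0
      rw [mem_iUnion₂] at h1
      obtain ⟨s, hs, hps⟩ := h1
      rw [Finset.mem_erase, Finset.mem_erase] at hs
      exact hCV _ hp0 (two_vx hX.1 ht hs.2.2 htX hs.2.1 (Ne.symm hs.1) (hCreg hp0) (hCX hp0)
        hpt hps)
  apply hN A hA X hX t ht htX.symm
  rw [← hd.range]
  rintro q ⟨y, rfl⟩
  have hcl : closure C ⊆ t := htcl.closure_subset_iff.mpr hCt
  apply hcl
  have h1 : γ '' Icc x0 (x0 + 1) ⊆ closure C := by
    have h2 : closure (Ioo x0 (x0 + 1)) = Icc x0 (x0 + 1) := closure_Ioo (by linarith)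
    rw [← h2]
    exact image_closure_subset_closure_image hd.cont
  apply h1
  refine ⟨y - ⌊y - x0⌋, ⟨?_, ?_⟩, ?_⟩
  · linarith [Int.floor_le (y - x0)]
  · linarith [Int.lt_floor_add_one (y - x0)]
  · rw [hd.per]
    exact ⟨⌊y - x0⌋, by ring⟩

end Pool.Agent.Hsh
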