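import Pool.Agent.Hsh.Final

set_option autoImplicit false

/-!
# Prototiles with at most two convex corners, none of them a cusp
-/

namespace Pool.Agent.Hsh

open Set Metric MeasureTheory Filter Topology Classical

theorem twoC_VF {A : Finset (Set ℂ)} (hV : Stmt_VFin) (hA : Fam A) {v : ℂ} :
    v ∈ VF A ↔ v ∈ Vx A := by
  unfold VF
  rw [dif_pos (hV A hA)]
  exact (hV A hA).mem_toFinset

/-- the tiles of `P` with lower density less than `1/2` at `v` -/
noncomputable def twoC_c (P : Finset (Set ℂ)) (v : ℂ) : ℕ :=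
  (P.filter (fun X => lowDens X v < 1 / 2)).card

/-- at a point where every tile has positive lower density, at most one tile has lower density at
least `1/2`, unless there are only two tiles -/
theorem twoC_one (hN : Stmt_Dens) {A : Finset (Set ℂ)} (hA : Fam A) {v : ℂ} {P : Finset (Set ℂ)}
    (hP : P ⊆ at_ A v) (h3 : P.card + 1 ≤ (at_ A v).card ∨ 3 ≤ P.card)
    (hpos : ∀ X ∈ at_ A v, 0 < lowDens X v) : P.card ≤ twoC_c P v + 1 := by
  by_contra hcon
  push Not at hcon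
  unfold twoC_c at hcon
  have h1 := Finset.card_filter_add_card_filter_not (s := P) (fun X => lowDens X v < 1 / 2)
  have h2 : 1 < (P.filter (fun X => ¬ lowDens X v < 1 / 2)).card := by omega
  obtain ⟨X, hX, Y, hY, hne⟩ := Finset.one_lt_card.1 h2
  obtain ⟨hXP, hX2⟩ := Finset.mem_filter.1 hX
  obtain ⟨hYP, hY2⟩ := Finset.mem_filter.1 hY
  push Not at hX2 hY2
  -- a third tile
  have h4 : 2 < (at_ A v).card := by
    have h5 : 2 ≤ P.card := by
      have : ({X, Y} : Finset (Set ℂ)) ⊆ P := by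
        intro z hz
        simp only [Finset.mem_insert, Finset.mem_singleton] at hz
        rcases hz with rfl | rfl
        · exact hXP
        · exact hYP
      have h6 := Finset.card_le_card this
      rwa [Finset.card_pair hne] at h6
    rcases h3 with h3 | h3
    · omega
    · exact lt_of_lt_of_le h3 (Finset.card_le_card hP)
  obtain ⟨Z, hZ, hZX, hZY⟩ : ∃ Z ∈ at_ A v, Z ≠ X ∧ Z ≠ Y := by
    by_contra hno
    push Not at hno
    have : at_ A v ⊆ {X, Y} := by
      intro Z hZ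
      by_cases h : Z = X
      · simp [h]
      · simp [hno Z hZ h]
    have h6 := Finset.card_le_card this
    rw [Finset.card_pair hne] at h6
    omega
  have hsum := hN.1 A hA v
  have hsub : ({X, Y, Z} : Finset (Set ℂ)) ⊆ A := by
    intro W hW
    simp only [Finset.mem_insert, Finset.mem_singleton] at hW
    rcases hW with rfl | rfl | rfl
    · exact (Finset.mem_filter.1 (hP hXP)).1
    · exact (Finset.mem_filter.1 (hP hYP)).1
    · exact (Finset.mem_filter.1 hZ).1
  have h7 := Finset.sum_le_sum_of_subset_of_nonneg hsub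
    (fun t _ _ => (hN.2.1 t v).1) (f := fun t => lowDens t v)
  have h8 : ∑ t ∈ ({X, Y, Z} : Finset (Set ℂ)), lowDens t v =
      lowDens X v + (lowDens Y v + lowDens Z v) := by
    rw [Finset.sum_insert (by simp [hne, Ne.symm hZX]),
      Finset.sum_insert (by simp [Ne.symm hZY]), Finset.sum_singleton]
  rw [h8] at h7
  have h9 := hpos Z hZ
  linarith

/-- number of inner vertices of a connected family -/
theorem twoC_count (hV : Stmt_VFin) (hB : Stmt_Bas) (hE : Stmt_Euler) (hD : Stmt_Deg)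
    (hN : Stmt_Dens) {A : Finset (Set ℂ)} (hA : Fam A)
    (hpos : ∀ X ∈ A, ∀ q ∈ frontier X, 0 < lowDens X q)
    (htwo : ∀ X ∈ A, ∀ F : Finset ℂ, (↑F : Set ℂ) ⊆ frontier X →
      (∀ q ∈ F, lowDens X q < 1 / 2) → F.card ≤ 2)
    {S : Finset (Set ℂ)} (hSA : S ⊆ A) (hne : S.Nonempty) (hin : ∀ X ∈ S, Inn A X)
    (hcon : Con A S) :
    ((VF A).filter (fun v => at_ A v ⊆ S ∧ ∃ X ∈ S, v ∈ X)).card ≤ 2 := by
  obtain ⟨-, he⟩ := hE A hA S hSA hne hin hcon
  have hd := hD A hA S hSA hin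
  have hb := hB A hA
  set Vi := (VF A).filter (fun v => at_ A v ⊆ S ∧ ∃ X ∈ S, v ∈ X) with hVi
  set Vb := (VF A).filter (fun v => ¬ at_ A v ⊆ S ∧ ∃ X ∈ S, v ∈ X) with hVb
  have hfr : ∀ v ∈ VF A, ∀ X ∈ A, v ∈ X → v ∈ frontier X := by
    intro v hv X hX hvX
    have h3 : 1 < (at_ A v).card := lt_of_lt_of_le (by norm_num) ((twoC_VF hV hA).1 hv).2
    obtain ⟨Y, hY, hYX⟩ := Finset.exists_mem_ne h3 X
    exact hb.mem_frontier X hX Y (Finset.mem_filter.1 hY).1 hYX.symm
      ⟨hvX, (Finset.mem_filter.1 hY).2⟩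
  have hpos' : ∀ v ∈ VF A, ∀ X ∈ at_ A v, 0 < lowDens X v := fun v hv X hX =>
    hpos X (Finset.mem_filter.1 hX).1 v
      (hfr v hv X (Finset.mem_filter.1 hX).1 (Finset.mem_filter.1 hX).2)
  have h1 : ∀ v ∈ Vi, (at_ A v).card ≤ twoC_c (at_ S v) v + 1 := by
    intro v hv
    obtain ⟨hv1, hv2, hv3⟩ := Finset.mem_filter.1 hv
    have heq : at_ S v = at_ A v := by
      apply Finset.Subset.antisymm
      · exact Finset.filter_subset_filter _ hSA
      · intro X hX
        exact Finset.mem_filter.2 ⟨hv2 hX, (Finset.mem_filter.1 hX).2⟩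
    rw [heq]
    exact twoC_one hN hA (Finset.Subset.refl _) (Or.inr ((twoC_VF hV hA).1 hv1).2) (hpos' v hv1)
  have h2 : ∀ v ∈ Vb, (at_ S v).card - 1 ≤ twoC_c (at_ S v) v := by
    intro v hv
    obtain ⟨hv1, hv2, hv3⟩ := Finset.mem_filter.1 hv
    have hsub : at_ S v ⊆ at_ A v := Finset.filter_subset_filter _ hSA
    have hlt : (at_ S v).card + 1 ≤ (at_ A v).card := by
      apply Finset.card_lt_card
      refine ⟨hsub, fun h => hv2 (fun X hX => (Finset.mem_filter.1 (h hX)).1)⟩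
    have := twoC_one hN hA hsub (Or.inl hlt) (hpos' v hv1)
    omega
  -- total number of convex corners
  have h3 : ∑ v ∈ VF A, twoC_c (at_ S v) v ≤ ∑ X ∈ S, 2 := by
    have h4 : ∑ v ∈ VF A, twoC_c (at_ S v) v =
        ∑ X ∈ S, ((VF A).filter (fun v => v ∈ X ∧ lowDens X v < 1 / 2)).card := by
      simp only [twoC_c, at_, Finset.card_eq_sum_ones, Finset.sum_filter, Finset.filter_filter]
      exact Finset.sum_comm
    rw [h4]
    refine Finset.sum_le_sum fun X hX => htwo X (hSA hX) _ ?_ ?_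
    · intro v hv
      obtain ⟨hv1, hv2, hv3⟩ := Finset.mem_filter.1 (Finset.mem_coe.1 hv)
      exact hfr v hv1 X (hSA hX) hv2
    · intro v hv
      exact (Finset.mem_filter.1 hv).2.2
  have hdisj : Disjoint Vi Vb := by
    rw [Finset.disjoint_left]
    intro v hv hv'
    exact (Finset.mem_filter.1 hv').2.1 (Finset.mem_filter.1 hv).2.1
  have h5 : ∑ v ∈ Vi, twoC_c (at_ S v) v + ∑ v ∈ Vb, twoC_c (at_ S v) v ≤
      ∑ v ∈ VF A, twoC_c (at_ S v) v := by
    rw [← Finset.sum_union hdisj]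
    exact Finset.sum_le_sum_of_subset
      (Finset.union_subset (Finset.filter_subset _ _) (Finset.filter_subset _ _))
  have h6 : ∑ v ∈ Vi, (at_ A v).card ≤ ∑ v ∈ Vi, twoC_c (at_ S v) v + Vi.card := by
    have := Finset.sum_le_sum h1
    rw [Finset.sum_add_distrib, Finset.sum_const, smul_eq_mul, mul_one] at this
    exact this
  have h7 : ∑ v ∈ Vb, ((at_ S v).card - 1) ≤ ∑ v ∈ Vb, twoC_c (at_ S v) v :=
    Finset.sum_le_sum h2
  rw [Finset.sum_const, smul_eq_mul] at h3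
  omega

/-- Second theorem: at most two convex corners, no cusp. -/
theorem twoC_main (hb : Stmt_Bas) (hV : Stmt_VFin) (hT2 : Stmt_Two) (h1 : Stmt_Arc1)
    (h3 : Stmt_Arc3) (hO : Stmt_Open) (hh : Stmt_Hull) (hE : Stmt_Euler) (hD : Stmt_Deg)
    (hd : Stmt_Dens) (T : Set ℂ) (hT : IsDisk T)
    (hpos0 : ∀ q ∈ frontier T, 0 < lowDens T q)
    (htwo0 : ∀ F : Finset ℂ, (↑F : Set ℂ) ⊆ frontier T →
      (∀ q ∈ F, lowDens T q < 1 / 2) → F.card ≤ 2) :
    ¬ CanSurround T 3 := by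
  rintro ⟨A, hA0, hP, hS⟩
  have s0 := hS 0 (by norm_num)
  have s1 := hS 1 (by norm_num)
  have s2 := hS 2 (by norm_num)
  have p1 := hP 1 le_rfl (by norm_num)
  have p2 := hP 2 (by norm_num) (by norm_num)
  have p3 := hP 3 (by norm_num) (by norm_num)
  norm_num at s0 s1 s2
  have fam := fin_fam hT p3
  have c23 : A 2 ⊆ A 3 := s2.1
  have c12 : A 1 ⊆ A 2 := s1.1
  have c01 : A 0 ⊆ A 1 := s0.1
  have c13 : A 1 ⊆ A 3 := c12.trans c23
  have hT0 : ({T} : Finset (Set ℂ)) ⊆ A 1 := hA0 ▸ c01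
  have i1 := fin_inn c23 s1 c13
  have i2 := fin_inn (Finset.Subset.refl (A 3)) s2 c23
  have con0 : Con (A 3) {T} := by
    intro P hP hne _
    exact Finset.Subset.antisymm hP (by
      obtain ⟨X, hX⟩ := hne
      have := Finset.mem_singleton.1 (hP hX)
      intro Y hY
      rw [Finset.mem_singleton.1 hY, ← this]; exact hX)
  have L1 : Lev (A 3) (A 1) {T} :=
    ⟨fam, c13, p1.disk, i1, hT0, Finset.singleton_nonempty _, con0,
      fin_tch_sub fam hb c13 (le_of_eq hA0.symm) s0⟩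
  obtain ⟨k1, k2, k4, k5⟩ := hh _ _ _ L1
  set S1 := hull (A 3) (A 1) {T} with hS1
  have L2 : Lev (A 3) (A 2) S1 :=
    ⟨fam, c23, p2.disk, i2, k2.trans c12, ⟨T, k1 (Finset.mem_singleton_self T)⟩, k5,
      fin_tch_sub fam hb c23 k2 s1⟩
  obtain ⟨m1, m2, m4, m5⟩ := hh _ _ _ L2
  set S2 := hull (A 3) (A 2) S1 with hS2
  have hcop : ∀ X ∈ A 3, (∀ q ∈ frontier X, 0 < lowDens X q) ∧
      ∀ F : Finset ℂ, (↑F : Set ℂ) ⊆ frontier X → (∀ q ∈ F, lowDens X q < 1 / 2) → F.card ≤ 2 := by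
    intro X hX
    obtain ⟨g, rfl⟩ := p3.copy X hX
    have h8 : frontier (g '' T) = g '' frontier T := (g.toHomeomorph.image_frontier T).symm
    constructor
    · intro q hq
      rw [h8] at hq
      obtain ⟨z, hz, rfl⟩ := hq
      rw [hd.2.2]
      exact hpos0 z hz
    · intro F hF hlt
      have h9 := htwo0 (F.image g.symm) (by
        intro x hx
        simp only [Finset.coe_image, Set.mem_image, Finset.mem_coe] at hx
        obtain ⟨y, hy, rfl⟩ := hx
        have h7 := hF hy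
        rw [h8] at h7
        obtain ⟨z, hz, rfl⟩ := h7
        simpa using hz) (by
        intro x hx
        obtain ⟨y, hy, rfl⟩ := Finset.mem_image.1 hx
        have := hd.2.2 g T (g.symm y)
        rw [g.apply_symm_apply] at this
        rw [← this]
        exact hlt y hy)
      rwa [Finset.card_image_of_injective _ g.symm.injective] at h9
  have hcount := twoC_count hV hb hE hD hd fam (fun X hX => (hcop X hX).1)
    (fun X hX => (hcop X hX).2) (m2.trans c23) ⟨T, m1 (k1 (Finset.mem_singleton_self T))⟩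
    (fun X hX => i2 X (m2 hX)) m5
  -- all vertices of tiles of `S1` are inner vertices of `S2`
  have hvi : ∀ v ∈ Vx (A 3), (∃ X ∈ S1, v ∈ X) →
      v ∈ (VF (A 3)).filter (fun v => at_ (A 3) v ⊆ S2 ∧ ∃ X ∈ S2, v ∈ X) := by
    rintro v hv ⟨X, hX, hvX⟩
    refine Finset.mem_filter.2 ⟨(twoC_VF hV fam).2 hv, ?_, X, m1 hX, hvX⟩
    intro Y hY
    obtain ⟨hYA, hvY⟩ := Finset.mem_filter.1 hY
    exact m4 (Finset.mem_filter.2 ⟨hYA, v, hvY, fin_mem_un.2 ⟨X, hX, hvX⟩⟩)
  have hTA : T ∈ A 1 := hT0 (Finset.mem_singleton_self T)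
  obtain ⟨u, hu, w, hw, huw, huT, hwT⟩ := hT2 _ fam T (i1 T hTA)
  have hTS1 : T ∈ S1 := k1 (Finset.mem_singleton_self T)
  have huV := hvi u hu ⟨T, hTS1, huT⟩
  have hwV := hvi w hw ⟨T, hTS1, hwT⟩
  -- there is no other vertex on tiles of `S1`
  have hno : ∀ v ∈ Vx (A 3), (∃ X ∈ S1, v ∈ X) → v = u ∨ v = w := by
    intro v hv hvX
    by_contra hcon
    push Not at hcon
    have hsub : ({u, w, v} : Finset ℂ) ⊆
        (VF (A 3)).filter (fun v => at_ (A 3) v ⊆ S2 ∧ ∃ X ∈ S2, v ∈ X) := by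
      intro z hz
      simp only [Finset.mem_insert, Finset.mem_singleton] at hz
      rcases hz with rfl | rfl | rfl
      · exact huV
      · exact hwV
      · exact hvi _ hv hvX
    have h9 := Finset.card_le_card hsub
    have h10 : ({u, w, v} : Finset ℂ).card = 3 :=
      Finset.card_eq_three.2 ⟨u, w, v, huw, Ne.symm hcon.1, Ne.symm hcon.2, rfl⟩
    omega
  -- the family of tiles touching `T`
  have hC1 : tch (A 3) {T} ⊆ S1 := k4
  have hTt : T ∈ tch (A 3) {T} :=
    Finset.mem_filter.2 ⟨c13 hTA, u, huT, fin_mem_un.2 ⟨T, Finset.mem_singleton_self T, huT⟩⟩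
  obtain ⟨X, hX, Y, hY, hYn, l, hne, hlX, hlY⟩ := hO _ fam (tch (A 3) {T})
    (Finset.filter_subset _ _) ⟨T, hTt⟩ (fun X hX => i1 X (k2 (k4 hX)))
  have a3 := h3 _ fam X (i1 X (k2 (k4 hX)))
  obtain ⟨p, q, hpq, hp, hq, hends⟩ := a3.ends l hlX
  have hpl : p ∈ closure l := (hends p hp).2 (Or.inl rfl)
  obtain ⟨Y', hY', -, -, -, hsubl, hat⟩ := h1 _ fam Y hY l hlY
  have hlYs : l ⊆ Y := by
    intro z hz
    have : Y ∈ at_ (A 3) z := by rw [hat z hz]; simp
    exact (Finset.mem_filter.1 this).2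
  obtain ⟨X', hX', -, -, -, hsubl', hat'⟩ := h1 _ fam X (Finset.mem_filter.1 hX).1 l hlX
  have hlXs : l ⊆ X := by
    intro z hz
    have : X ∈ at_ (A 3) z := by rw [hat' z hz]; simp
    exact (Finset.mem_filter.1 this).2
  have hpX : p ∈ X := closure_minimal hlXs ((hb _ fam).closed X (Finset.mem_filter.1 hX).1) hpl
  have hpY : p ∈ Y := closure_minimal hlYs ((hb _ fam).closed Y hY) hpl
  have hpT : p ∈ T := by
    rcases hno p hp ⟨X, k4 hX, hpX⟩ with rfl | rfl
    · exact huT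
    · exact hwT
  exact hYn (Finset.mem_filter.2 ⟨hY, p, hpY, fin_mem_un.2 ⟨T, Finset.mem_singleton_self T, hpT⟩⟩)

end Pool.Agent.Hsh
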