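import Pool.Agent.Hsh.Stmts

set_option autoImplicit false

/-!
# Two touching tiles at a boundary vertex of the hull
-/

namespace Pool.Agent.Hsh

open Set Metric MeasureTheory Filter Topology Classical

theorem TwoT_mem_at {A : Finset (Set ℂ)} {p : ℂ} {t : Set ℂ} : t ∈ at_ A p ↔ t ∈ A ∧ p ∈ t := by
  unfold at_
  exact Finset.mem_filter

theorem TwoT_mem_hull {A B S : Finset (Set ℂ)} {X : Set ℂ} :
    X ∈ hull A B S ↔ X ∈ B ∧ (X ∈ tch A S ∨ ¬ Out A B S X) := by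
  unfold hull
  exact Finset.mem_filter

/-- a tile of the hull at `v` with a neighbour not in the hull touches `S` -/
theorem TwoT_touch {A B S : Finset (Set ℂ)} (hL : Lev A B S) {v : ℂ}
    (hv : ¬ at_ A v ⊆ hull A B S) {X Y : Set ℂ} (hX : X ∈ hull A B S) (hvX : v ∈ X)
    (hY : Y ∈ A) (hYH : Y ∉ hull A B S) (hadj : Adj A X Y) : X ∈ at_ (tch A S \ S) v := by
  have hXB := (TwoT_mem_hull.1 hX).1
  refine TwoT_mem_at.2 ⟨Finset.mem_sdiff.2 ⟨?_, ?_⟩, hvX⟩
  · by_contra hXt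
    have hno : ¬ Out A B S X := by
      rcases (TwoT_mem_hull.1 hX).2 with h | h
      · exact absurd h hXt
      · exact h
    by_cases hYB : Y ∈ B
    · have h1 : ¬ (Y ∈ tch A S ∨ ¬ Out A B S Y) := fun h => hYH (TwoT_mem_hull.2 ⟨hYB, h⟩)
      push Not at h1
      obtain ⟨hYt, Z, hZ, W, hW⟩ := h1
      exact hno ⟨Z, Relation.ReflTransGen.head ⟨hadj, hYB, hYt⟩ hZ, W, hW⟩
    · exact hno ⟨X, Relation.ReflTransGen.refl, Y, hY, hYB, hadj⟩
  · intro hXS
    apply hv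
    intro t ht
    obtain ⟨htA, hvt⟩ := TwoT_mem_at.1 ht
    have htt : t ∈ tch A S := by
      unfold tch
      refine Finset.mem_filter.2 ⟨htA, v, hvt, ?_⟩
      unfold un
      exact mem_biUnion hXS hvX
    exact TwoT_mem_hull.2 ⟨hL.tch htt, Or.inl htt⟩

/-- the two tiles of an arc are unique -/
theorem TwoT_uniq {A : Finset (Set ℂ)} (hb : Bas A) (h1 : Stmt_Arc1) (hA : Fam A)
    {X Y Z l : Set ℂ} (hX : X ∈ A) (hY : Y ∈ A) (hZ : Z ∈ A) (hXY : Y ≠ X) (hXZ : Z ≠ X)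
    (hlX : l ∈ arcs A X) (hlY : l ∈ arcs A Y) (hlZ : l ∈ arcs A Z) : Y = Z := by
  obtain ⟨W, hW, hWX, -, ⟨p, hp⟩, -, hat⟩ := h1 A hA X hX l hlX
  have key : ∀ T : Set ℂ, T ∈ A → T ≠ X → l ∈ arcs A T → T = W := by
    intro T hT hTX hlT
    obtain ⟨-, -, -, -, -, hsub, -⟩ := h1 A hA T hT l hlT
    have hpT : p ∈ T := (hb.closed T hT).frontier_subset (hsub hp).1.1
    have : T ∈ at_ A p := TwoT_mem_at.2 ⟨hT, hpT⟩
    rw [hat p hp, Finset.mem_insert, Finset.mem_singleton] at this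
    rcases this with h | h
    · exact absurd h hTX
    · exact h
  rw [key Y hY hXY hlY, key Z hZ hXZ hlZ]

theorem twoT (hB : Stmt_Bas) (h1 : Stmt_Arc1) (h2 : Stmt_Arc2) (hS : Stmt_Star) (hP : Stmt_Par) :
    Stmt_TwoT := by
  intro A B S hL v hv hvH hcard
  have hA := hL.fam
  have hb := hB A hA
  set H := hull A B S with hH
  have hHA : H ⊆ A := fun t ht => hL.sub (TwoT_mem_hull.1 ht).1
  set P := at_ H v with hPdef
  have hPA : P ⊆ at_ A v := by
    intro t ht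
    obtain ⟨h3, h4⟩ := TwoT_mem_at.1 ht
    exact TwoT_mem_at.2 ⟨hHA h3, h4⟩
  have hPne : P.Nonempty := Finset.card_pos.1 (by omega)
  have hPnA : P ≠ at_ A v := by
    intro h
    apply hvH
    rw [← h]
    intro t ht
    exact (TwoT_mem_at.1 ht).1
  have hnotH : ∀ Y ∈ at_ A v, Y ∉ P → Y ∈ A ∧ Y ∉ H := by
    intro Y hY hYP
    obtain ⟨h3, h4⟩ := TwoT_mem_at.1 hY
    exact ⟨h3, fun h => hYP (TwoT_mem_at.2 ⟨h, h4⟩)⟩
  -- two different tiles of `P` with neighbours outside the hull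
  have key : ∃ X ∈ P, ∃ X' ∈ P, X ≠ X' ∧ (∃ Y ∈ A, Y ∉ H ∧ Adj A X Y) ∧
      ∃ Y ∈ A, Y ∉ H ∧ Adj A X' Y := by
    obtain ⟨X, hX, Y, hY, hYP, X', hX', Y', hY', hYP', l, l', hll, hs, hs', hvl, hvl'⟩ :=
      hP A hA v hv P hPA hPne hPnA
    by_cases hXX : X = X'
    · subst hXX
      have hXA : X ∈ A := hHA (TwoT_mem_at.1 hX).1
      have hvX : v ∈ X := (TwoT_mem_at.1 hX).2
      have hQne : (P.erase X).Nonempty := by
        rw [← Finset.card_pos, Finset.card_erase_of_mem hX]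
        omega
      have hQsub : P.erase X ⊆ at_ A v := (Finset.erase_subset _ _).trans hPA
      have hQnA : P.erase X ≠ at_ A v := by
        intro h
        have : X ∈ P.erase X := by rw [h]; exact hPA hX
        exact Finset.notMem_erase X P this
      obtain ⟨X2, hX2, Y2, hY2, hYQ2, l2, hs2, hvl2⟩ := hS A hA v hv (P.erase X) hQsub hQne hQnA
      have hX2P : X2 ∈ P := Finset.mem_of_mem_erase hX2
      have hX2X : X2 ≠ X := (Finset.mem_erase.1 hX2).1
      have hX2A : X2 ∈ A := hHA (TwoT_mem_at.1 hX2P).1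
      refine ⟨X, hX, X2, hX2P, hX2X.symm, ⟨Y, (hnotH Y hY hYP).1, (hnotH Y hY hYP).2, l, hs⟩, ?_⟩
      have hY2P : Y2 ∉ P := by
        intro hY2P
        have hY2X : Y2 = X := by
          by_contra h
          exact hYQ2 (Finset.mem_erase.2 ⟨h, hY2P⟩)
        subst hY2X
        obtain ⟨l₁, -, l₂, -, -, -, -, huniq, -⟩ := h2 A hA Y2 hXA v hv hvX
        have e1 := huniq l hs.2.1 hvl
        have e2 := huniq l' hs'.2.1 hvl'
        have e3 := huniq l2 hs2.2.2 hvl2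
        have e4 : l2 = l ∨ l2 = l' := by
          rcases e1 with e1 | e1 <;> rcases e2 with e2 | e2 <;> rcases e3 with e3 | e3
          · exact Or.inl (e3.trans e1.symm)
          · exact absurd (e1.trans e2.symm) hll
          · exact Or.inl (e3.trans e1.symm)
          · exact Or.inr (e3.trans e2.symm)
          · exact Or.inr (e3.trans e2.symm)
          · exact Or.inl (e3.trans e1.symm)
          · exact absurd (e1.trans e2.symm) hll
          · exact Or.inl (e3.trans e1.symm)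
        rcases e4 with e4 | e4
        · have h5 : X2 = Y := TwoT_uniq hb h1 hA hXA hX2A (hnotH Y hY hYP).1 hX2X hs.1.symm
            hs2.2.2 hs2.2.1 (e4 ▸ hs.2.2)
          exact hYP (h5 ▸ hX2P)
        · have h5 : X2 = Y' := TwoT_uniq hb h1 hA hXA hX2A (hnotH Y' hY' hYP').1 hX2X hs'.1.symm
            hs2.2.2 hs2.2.1 (e4 ▸ hs'.2.2)
          exact hYP' (h5 ▸ hX2P)
      exact ⟨Y2, (hnotH Y2 hY2 hY2P).1, (hnotH Y2 hY2 hY2P).2, l2, hs2⟩
    · exact ⟨X, hX, X', hX', hXX, ⟨Y, (hnotH Y hY hYP).1, (hnotH Y hY hYP).2, l, hs⟩,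
        Y', (hnotH Y' hY' hYP').1, (hnotH Y' hY' hYP').2, l', hs'⟩
  obtain ⟨X, hX, X', hX', hXX, ⟨Y, hY, hYH, hXY⟩, Y', hY', hYH', hXY'⟩ := key
  have m1 := TwoT_touch hL hvH (TwoT_mem_at.1 hX).1 (TwoT_mem_at.1 hX).2 hY hYH hXY
  have m2 := TwoT_touch hL hvH (TwoT_mem_at.1 hX').1 (TwoT_mem_at.1 hX').2 hY' hYH' hXY'
  exact Finset.one_lt_card.2 ⟨X, m1, X', m2, hXX⟩

end Pool.Agent.Hsh
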