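import Pool.Agent.Hsh.Stmts

set_option autoImplicit false

/-! # Module VFin: three tiles have at most two common points, so there are finitely many vertices -/

namespace Pool.Agent.Hsh

open Set Metric Classical

theorem vFin_three {A : Finset (Set ℂ)} (hA : Fam A) (hB : Bas A) (t : Fin 3 → Set ℂ)
    (x : Fin 3 → ℂ) (ht : ∀ i, t i ∈ A) (hti : Function.Injective t) (hxi : Function.Injective x)
    (hx : ∀ i j, x i ∈ t j) : False := by
  have hne : ∀ j : Fin 3, ∃ j' : Fin 3, j ≠ j' := by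
    intro j
    fin_cases j
    · exact ⟨1, by decide⟩
    · exact ⟨0, by decide⟩
    · exact ⟨0, by decide⟩
  have hfr : ∀ i j, x i ∈ frontier (t j) := by
    intro i j
    obtain ⟨j', hj'⟩ := hne j
    exact hB.mem_frontier (t j) (ht j) (t j') (ht j') (fun h => hj' (hti h)) ⟨hx i j, hx i j'⟩
  have hni : ∀ i j, x i ∉ interior (t j) := by
    intro i j
    exact (hfr i j).2
  have hdata : ∀ j, ∃ (c : ℂ) (γ : ℝ → ℂ), CT.DiscData (t j) c γ :=
    fun j => CT.disc_final (t j) (hA.disk (t j) (ht j))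
  choose c γ hd using hdata
  refine CT.k33_final x c (fun i j => insert (x i) (interior (t j))) ?_ ?_
  · intro i j
    exact (hd j).rad (x i) (hfr i j)
  · intro i j k l hik hjl
    rw [Set.disjoint_left]
    intro z hz hz'
    have htt : t j ≠ t l := fun h => hjl (hti h)
    rcases hz with hz | hz
    · rcases hz' with hz' | hz'
      · exact hik (hxi (hz.symm.trans hz'))
      · rw [hz] at hz'
        exact hni i l hz'
    · rcases hz' with hz' | hz'
      · rw [hz'] at hz
        exact hni k j hz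
      · exact Set.disjoint_left.1 (hB.int_disj (t j) (ht j) (t l) (ht l) htt) hz
          (interior_subset hz')

theorem vFin_triple {A : Finset (Set ℂ)} (hA : Fam A) (hB : Bas A) :
    ∀ t₁ ∈ A, ∀ t₂ ∈ A, ∀ t₃ ∈ A, t₁ ≠ t₂ → t₁ ≠ t₃ → t₂ ≠ t₃ → (t₁ ∩ t₂ ∩ t₃).Finite := by
  intro t₁ h1 t₂ h2 t₃ h3' h12 h13 h23
  by_contra hinf
  obtain ⟨s, hs, hcard⟩ := (show (t₁ ∩ t₂ ∩ t₃).Infinite from hinf).exists_subset_card_eq 3
  obtain ⟨x, y, z, hxy, hxz, hyz, hsxyz⟩ := Finset.card_eq_three.1 hcard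
  have hmem : ∀ w ∈ s, w ∈ t₁ ∧ w ∈ t₂ ∧ w ∈ t₃ := by
    intro w hw
    have := hs (Finset.mem_coe.2 hw)
    exact ⟨this.1.1, this.1.2, this.2⟩
  have hx := hmem x (by rw [hsxyz]; simp)
  have hy := hmem y (by rw [hsxyz]; simp)
  have hz := hmem z (by rw [hsxyz]; simp)
  refine vFin_three hA hB ![t₁, t₂, t₃] ![x, y, z] ?_ ?_ ?_ ?_
  · intro i
    fin_cases i
    · exact h1
    · exact h2
    · exact h3'
  · intro i j hij
    fin_cases i <;> fin_cases j
    · rfl
    · exact absurd hij h12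
    · exact absurd hij h13
    · exact absurd hij h12.symm
    · rfl
    · exact absurd hij h23
    · exact absurd hij h13.symm
    · exact absurd hij h23.symm
    · rfl
  · intro i j hij
    fin_cases i <;> fin_cases j
    · rfl
    · exact absurd hij hxy
    · exact absurd hij hxz
    · exact absurd hij hxy.symm
    · rfl
    · exact absurd hij hyz
    · exact absurd hij hxz.symm
    · exact absurd hij hyz.symm
    · rfl
  · intro i j
    fin_cases i <;> fin_cases j
    · exact hx.1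
    · exact hx.2.1
    · exact hx.2.2
    · exact hy.1
    · exact hy.2.1
    · exact hy.2.2
    · exact hz.1
    · exact hz.2.1
    · exact hz.2.2

theorem vFin (hB : Stmt_Bas) : Stmt_VFin := by
  intro A hA
  have hBA := hB A hA
  have P1 := vFin_triple hA hBA
  have hfin : (⋃ t ∈ A, ⋃ a ∈ A, ⋃ b ∈ A,
      {p : ℂ | p ∈ t ∩ a ∩ b ∧ t ≠ a ∧ t ≠ b ∧ a ≠ b}).Finite := by
    refine A.finite_toSet.biUnion (fun t ht => A.finite_toSet.biUnion (fun a ha =>
      A.finite_toSet.biUnion (fun b hb => ?_)))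
    by_cases hh : t ≠ a ∧ t ≠ b ∧ a ≠ b
    · exact (P1 t (Finset.mem_coe.1 ht) a (Finset.mem_coe.1 ha) b (Finset.mem_coe.1 hb)
        hh.1 hh.2.1 hh.2.2).subset (fun p hp => hp.1)
    · exact (Set.finite_empty).subset (fun p hp => hh hp.2)
  refine hfin.subset ?_
  rintro p ⟨-, hp3⟩
  obtain ⟨s, hs, hcard⟩ := Finset.exists_subset_card_eq hp3
  obtain ⟨x, y, z, hxy, hxz, hyz, hsxyz⟩ := Finset.card_eq_three.1 hcard
  have hmem : ∀ w ∈ s, w ∈ A ∧ p ∈ w := by
    intro w hw
    have := hs hw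
    unfold at_ at this
    exact Finset.mem_filter.1 this
  have hx := hmem x (by rw [hsxyz]; simp)
  have hy := hmem y (by rw [hsxyz]; simp)
  have hz := hmem z (by rw [hsxyz]; simp)
  simp only [mem_iUnion]
  exact ⟨x, hx.1, y, hy.1, z, hz.1, ⟨⟨hx.2, hy.2⟩, hz.2⟩, hxy, hxz, hyz⟩

end Pool.Agent.Hsh
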