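import Pool.Agent.Hsh.Stmts

set_option autoImplicit false

/-!
# The weighted inequality (module Wt)
-/

namespace Pool.Agent.Hsh

open Set Metric MeasureTheory Filter Topology Classical

theorem wt_ext_nonneg (t : Set ℂ) (p : ℂ) : 0 ≤ ext t p := le_max_left _ _

theorem wt_ext_ge (t : Set ℂ) (p : ℂ) : 1 - 2 * lowDens t p ≤ ext t p := le_max_right _ _

/-- sums of exterior angles at a point -/
theorem wt_sum_ge (hN : Stmt_Dens) {A S : Finset (Set ℂ)} (hA : Fam A) (hS : S ⊆ A) (v : ℂ) :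
    ((at_ S v).card : ℝ) - 2 ≤ ∑ X ∈ at_ S v, ext X v := by
  have h1 : ∑ X ∈ at_ S v, lowDens X v ≤ 1 := by
    refine le_trans ?_ (hN.1 A hA v)
    refine Finset.sum_le_sum_of_subset_of_nonneg ?_ ?_
    · intro X hX
      exact hS (Finset.mem_filter.1 hX).1
    · intro X _ _
      exact (hN.2.1 X v).1
  have h2 : ∑ X ∈ at_ S v, (1 - 2 * lowDens X v) ≤ ∑ X ∈ at_ S v, ext X v :=
    Finset.sum_le_sum fun X _ => wt_ext_ge X v
  rw [Finset.sum_sub_distrib, Finset.sum_const, nsmul_eq_mul, mul_one, ← Finset.mul_sum] at h2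
  linarith

theorem wt (hV : Stmt_VFin) (hE : Stmt_Euler) (hD : Stmt_Deg) (hN : Stmt_Dens) : Stmt_Wt := by
  intro A hA S hS hne hin hcon
  have hE' := (hE A hA S hS hne hin hcon).2
  have hD' := hD A hA S hS hin
  set W1 := (VF A).filter (fun v => at_ A v ⊆ S ∧ ∃ X ∈ S, v ∈ X) with hW1
  set W2 := (VF A).filter (fun v => ¬ at_ A v ⊆ S ∧ ∃ X ∈ S, v ∈ X) with hW2
  set J := (VF A).filter (fun v => ¬ at_ A v ⊆ S ∧ 2 ≤ (at_ S v).card) with hJ
  have hE'' : (S.card : ℝ) + W1.card ≤ (EE A S).ncard + 1 := by exact_mod_cast hE'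
  have hD'' : 2 * ((EE A S).ncard : ℝ) ≤ ∑ v ∈ W1, ((at_ A v).card : ℝ) +
      ∑ v ∈ W2, (((at_ S v).card - 1 : ℕ) : ℝ) := by exact_mod_cast hD'
  have h1 : ∑ v ∈ W1, ((at_ A v).card : ℝ) - 2 * W1.card ≤
      ∑ v ∈ W1, ∑ X ∈ at_ S v, ext X v := by
    have h2 : ∑ v ∈ W1, (((at_ A v).card : ℝ) - 2) ≤ ∑ v ∈ W1, ∑ X ∈ at_ S v, ext X v := by
      refine Finset.sum_le_sum fun v hv => ?_
      have h3 : at_ A v = at_ S v := by
        apply Finset.Subset.antisymm
        · intro X hX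
          exact Finset.mem_filter.2 ⟨(Finset.mem_filter.1 hv).2.1 hX, (Finset.mem_filter.1 hX).2⟩
        · intro X hX
          exact Finset.mem_filter.2 ⟨hS (Finset.mem_filter.1 hX).1, (Finset.mem_filter.1 hX).2⟩
      rw [h3]
      exact wt_sum_ge hN hA hS v
    rw [Finset.sum_sub_distrib, Finset.sum_const, nsmul_eq_mul] at h2
    linarith
  have h2 : ∑ v ∈ W2, (((at_ S v).card - 1 : ℕ) : ℝ) ≤
      ∑ v ∈ W2, ∑ X ∈ at_ S v, ext X v + J.card := by
    have h3 : ∀ v ∈ W2, (((at_ S v).card - 1 : ℕ) : ℝ) ≤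
        ∑ X ∈ at_ S v, ext X v + if 2 ≤ (at_ S v).card then 1 else 0 := by
      intro v _
      by_cases h4 : 2 ≤ (at_ S v).card
      · rw [if_pos h4, Nat.cast_sub (by omega)]
        have := wt_sum_ge hN hA hS v
        push_cast
        linarith
      · rw [if_neg h4]
        have h5 : (at_ S v).card - 1 = 0 := by omega
        rw [h5, Nat.cast_zero, add_zero]
        exact Finset.sum_nonneg fun X _ => wt_ext_nonneg X v
    have h4 := Finset.sum_le_sum h3
    rw [Finset.sum_add_distrib] at h4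
    have h5 : ∑ v ∈ W2, (if 2 ≤ (at_ S v).card then (1 : ℝ) else 0) ≤ J.card := by
      rw [← Finset.sum_filter, Finset.sum_const, nsmul_eq_mul, mul_one]
      have h6 : W2.filter (fun v => 2 ≤ (at_ S v).card) ⊆ J := by
        intro v hv
        rw [Finset.mem_filter, hW2, Finset.mem_filter] at hv
        rw [hJ, Finset.mem_filter]
        exact ⟨hv.1.1, hv.1.2.1, hv.2⟩
      exact_mod_cast Finset.card_le_card h6
    linarith
  have h3 : ∑ v ∈ W1, ∑ X ∈ at_ S v, ext X v + ∑ v ∈ W2, ∑ X ∈ at_ S v, ext X v ≤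
      ∑ X ∈ S, ∑ v ∈ (VF A).filter (fun v => v ∈ X), ext X v := by
    have hdis : Disjoint W1 W2 := by
      rw [Finset.disjoint_left]
      intro v hv1 hv2
      exact (Finset.mem_filter.1 hv2).2.1 (Finset.mem_filter.1 hv1).2.1
    rw [← Finset.sum_union hdis]
    have h4 : ∑ v ∈ W1 ∪ W2, ∑ X ∈ at_ S v, ext X v ≤ ∑ v ∈ VF A, ∑ X ∈ at_ S v, ext X v := by
      refine Finset.sum_le_sum_of_subset_of_nonneg ?_ ?_
      · exact Finset.union_subset (Finset.filter_subset _ _) (Finset.filter_subset _ _)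
      · intro v _ _
        exact Finset.sum_nonneg fun X _ => wt_ext_nonneg X v
    refine h4.trans (le_of_eq ?_)
    unfold at_
    simp_rw [Finset.sum_filter]
    exact Finset.sum_comm
  linarith

end Pool.Agent.Hsh
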