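import Pool.Agent.Hsh.Bas
import Pool.Agent.Hsh.VFin
import Pool.Agent.Hsh.NotSub
import Pool.Agent.Hsh.Two
import Pool.Agent.Hsh.Circ
import Pool.Agent.Hsh.Arc1
import Pool.Agent.Hsh.Arc2
import Pool.Agent.Hsh.Arc3
import Pool.Agent.Hsh.Star
import Pool.Agent.Hsh.Par
import Pool.Agent.Hsh.Open
import Pool.Agent.Hsh.Lin
import Pool.Agent.Hsh.Euler
import Pool.Agent.Hsh.Deg
import Pool.Agent.Hsh.Dens
import Pool.Agent.Hsh.Wt
import Pool.Agent.Hsh.Hull
import Pool.Agent.Hsh.TwoT
import Pool.Agent.Hsh.KDisc
import Pool.Agent.Hsh.Path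
import Pool.Agent.Hsh.OutPath
import Pool.Agent.Hsh.AtMost
import Pool.Agent.Hsh.Junc
import Pool.Agent.Hsh.Rec
import Pool.Agent.Hsh.ThreeT
import Pool.Agent.Hsh.Final
import Pool.Agent.Hsh.TwoC

set_option autoImplicit false

/-!
# All modules put together
-/

namespace Pool.Agent.Hsh

theorem all_bas : Stmt_Bas := bas
theorem all_vFin : Stmt_VFin := vFin all_bas
theorem all_notSub : Stmt_NotSub := notSub all_bas all_vFin
theorem all_two : Stmt_Two := two all_bas all_vFin all_notSub
theorem all_arc1 : Stmt_Arc1 := arc1 all_bas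
theorem all_arc2 : Stmt_Arc2 := arc2 all_bas all_vFin all_two circ
theorem all_arc3 : Stmt_Arc3 := arc3 all_bas all_vFin all_two circ all_arc2
theorem all_star : Stmt_Star := star all_bas all_vFin all_arc1 all_arc2
theorem all_par : Stmt_Par := par all_bas all_arc1 all_arc2 all_star
theorem all_open : Stmt_Open := openF all_bas all_arc1 all_star
theorem all_euler : Stmt_Euler :=
  euler all_bas all_vFin all_arc1 all_arc2 all_arc3 all_open lin
theorem all_deg : Stmt_Deg := deg all_vFin all_arc1 all_arc2 all_arc3 all_par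
theorem all_dens : Stmt_Dens := dens
theorem all_wt : Stmt_Wt := wt all_vFin all_euler all_deg all_dens
theorem all_hull : Stmt_Hull := hullT all_bas all_arc1 all_star all_open
theorem all_twoT : Stmt_TwoT := twoT all_bas all_arc1 all_arc2 all_star all_par
theorem all_path : Stmt_Path := pathT all_bas all_arc1
theorem all_outPath : Stmt_OutPath := outPath all_bas all_arc1
theorem all_atMost : Stmt_AtMost := atMost all_bas all_path kDisc all_outPath
theorem all_junc : Stmt_Junc := junc all_twoT all_atMost
theorem all_rec : Stmt_Rec := recT all_bas all_vFin all_hull all_wt all_junc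
theorem all_three : Stmt_Three := threeT all_bas all_notSub

end Pool.Agent.Hsh
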