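import Pool.Agent.Hsh.StmtsC
import Pool.Agent.Hsh.Final
import Pool.Agent.Hsh.Rec

set_option autoImplicit false

/-!
# The sharp theorem: not twice
-/

namespace Pool.Agent.Hsh

open Set Metric MeasureTheory Filter Topology Classical

/-- Prototiles with total exterior angle at most `π` at convex corners cannot be surrounded
twice. -/
theorem finC_main (hb : Stmt_Bas) (hh : Stmt_Hull) (hW : Stmt_WtB)
    (h3 : Stmt_Three) (hd : Stmt_Dens) (T : Set ℂ) (hT : IsDisk T)
    (hw : ∀ F : Finset ℂ, (↑F : Set ℂ) ⊆ frontier T → ∑ q ∈ F, ext T q ≤ 1) :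
    ¬ CanSurround T 2 := by
  rintro ⟨A, hA0, hP, hS⟩
  have s0 := hS 0 (by norm_num)
  have s1 := hS 1 (by norm_num)
  have p1 := hP 1 le_rfl (by norm_num)
  have p2 := hP 2 (by norm_num) (by norm_num)
  norm_num at s0 s1
  have fam := fin_fam hT p2
  have c12 : A 1 ⊆ A 2 := s1.1
  have c01 : A 0 ⊆ A 1 := s0.1
  have hT0 : ({T} : Finset (Set ℂ)) ⊆ A 1 := hA0 ▸ c01
  have i1 := fin_inn (Finset.Subset.refl (A 2)) s1 c12
  have con0 : Con (A 2) {T} := by
    intro P hP hne _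
    exact Finset.Subset.antisymm hP (by
      obtain ⟨X, hX⟩ := hne
      have := Finset.mem_singleton.1 (hP hX)
      intro Y hY
      rw [Finset.mem_singleton.1 hY, ← this]; exact hX)
  have L1 : Lev (A 2) (A 1) {T} :=
    ⟨fam, c12, p1.disk, i1, hT0, Finset.singleton_nonempty _, con0,
      fin_tch_sub fam hb c12 (le_of_eq hA0.symm) s0⟩
  obtain ⟨h1, h2, h4, h5⟩ := hh _ _ _ L1
  have h6 := hW _ _ _ L1
  set H := hull (A 2) (A 1) {T} with hH
  have hcop : ∀ X ∈ A 2, ∀ F : Finset ℂ, (↑F : Set ℂ) ⊆ frontier X → ∑ q ∈ F, ext X q ≤ 1 := by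
    intro X hX F hF
    obtain ⟨g, rfl⟩ := p2.copy X hX
    have h6 := hw (F.image g.symm) (by
      intro x hx
      simp only [Finset.coe_image, Set.mem_image, Finset.mem_coe] at hx
      obtain ⟨y, hy, rfl⟩ := hx
      have h7 := hF hy
      have h8 : frontier (g '' T) = g '' frontier T := (g.toHomeomorph.image_frontier T).symm
      rw [h8] at h7
      obtain ⟨z, hz, rfl⟩ := h7
      simpa using hz)
    rw [Finset.sum_image (fun x _ y _ h => g.symm.injective h)] at h6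
    refine le_trans (le_of_eq (Finset.sum_congr rfl fun q _ => ?_)) h6
    have h9 := hd.2.2 g T (g.symm q)
    simp only [ext]
    rw [← h9, g.apply_symm_apply]
  have h7 : ∑ X ∈ tch (A 2) H, ∑ v ∈ (VF (A 2)).filter (fun v => v ∈ X), ext X v ≤
      ((tch (A 2) H).card : ℝ) := by
    rw [← nsmul_one, ← Finset.sum_const]
    refine Finset.sum_le_sum fun X hX => ?_
    have hXA : X ∈ A 2 := (Finset.mem_filter.1 hX).1
    refine hcop X hXA _ ?_
    intro v hv
    obtain ⟨hv1, hv2⟩ := Finset.mem_filter.1 (Finset.mem_coe.1 hv)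
    obtain ⟨Z, hZ, hZX, hvZ⟩ := rec_other (rec_VF hv1) X
    exact (hb _ fam).mem_frontier X hXA Z hZ (Ne.symm hZX) ⟨hv2, hvZ⟩
  have h8 : 3 ≤ H.card := le_trans (h3 _ fam T (i1 T (hT0 (Finset.mem_singleton_self T))))
    (Finset.card_le_card h4)
  have h9 : H ⊆ tch (A 2) H := by
    intro X hX
    obtain ⟨e⟩ := fam.disk X (c12 (h2 hX))
    refine Finset.mem_filter.2 ⟨c12 (h2 hX), (e.symm ⟨0, by simp⟩ : X).1, (e.symm ⟨0, by simp⟩ : X).2,
      fin_mem_un.2 ⟨X, hX, (e.symm ⟨0, by simp⟩ : X).2⟩⟩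
  have h10 : (tch (A 2) H \ H).card + H.card = (tch (A 2) H).card :=
    Finset.card_sdiff_add_card_eq_card h9
  have h11 : ((tch (A 2) H \ H).card : ℝ) + (H.card : ℝ) = ((tch (A 2) H).card : ℝ) := by
    exact_mod_cast h10
  have h12 : (3 : ℝ) ≤ (H.card : ℝ) := by exact_mod_cast h8
  linarith

end Pool.Agent.Hsh
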