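import Pool.Agent.Hsh.StmtsC
import Pool.Agent.Hsh.TwoT

set_option autoImplicit false

/-!
# Two neighbours, outside a set of tiles at a vertex
-/

namespace Pool.Agent.Hsh

open Set Metric MeasureTheory Filter Topology Classical

theorem outAdj (hB : Stmt_Bas) (h1 : Stmt_Arc1) (h2 : Stmt_Arc2) (hS : Stmt_Star)
    (hP : Stmt_Par) : Stmt_OutAdj := by
  intro A hA v hv P hPA hPne hcard Y₀
  have hb := hB A hA
  have hPnA : P ≠ at_ A v := by
    intro h
    rw [h, Finset.sdiff_self, Finset.card_empty] at hcard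
    omega
  by_cases hY₀ : Y₀ ∈ at_ A v \ P
  · obtain ⟨hY₀A, hY₀P⟩ := Finset.mem_sdiff.1 hY₀
    obtain ⟨X, hX, Y, hY, hYP, X', hX', Y', hY', hYP', l, l', hll, hs, hs', hvl, hvl'⟩ :=
      hP A hA v hv P hPA hPne hPnA
    by_cases hYY : Y = Y₀
    · by_cases hYY' : Y' = Y₀
      · subst hYY
        subst hYY'
        obtain ⟨hYA, hvY⟩ := TwoT_mem_at.1 hY₀A
        have hQsub : insert Y' P ⊆ at_ A v := Finset.insert_subset hY₀A hPA
        have hQnA : insert Y' P ≠ at_ A v := by
          intro h
          rw [← h] at hcard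
          have h3 : insert Y' P \ P ⊆ {Y'} := by
            intro t ht
            obtain ⟨h4, h5⟩ := Finset.mem_sdiff.1 ht
            rcases Finset.mem_insert.1 h4 with h6 | h6
            · exact Finset.mem_singleton.2 h6
            · exact absurd h6 h5
          have h4 := Finset.card_le_card h3
          rw [Finset.card_singleton] at h4
          omega
        obtain ⟨X2, hX2, Y2, hY2, hYQ2, l2, hs2, hvl2⟩ :=
          hS A hA v hv (insert Y' P) hQsub (Finset.insert_nonempty _ _) hQnA
        have hY2P : Y2 ∉ P := fun h => hYQ2 (Finset.mem_insert_of_mem h)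
        have hY2Y : Y2 ≠ Y' := fun h => hYQ2 (h ▸ Finset.mem_insert_self _ _)
        have hY2A : Y2 ∈ A := (TwoT_mem_at.1 hY2).1
        rcases Finset.mem_insert.1 hX2 with hXY | hX2P
        · exfalso
          subst hXY
          obtain ⟨l₁, -, l₂, -, -, -, -, huniq, -⟩ := h2 A hA X2 hYA v hv hvY
          have e1 := huniq l hs.2.2 hvl
          have e2 := huniq l' hs'.2.2 hvl'
          have e3 := huniq l2 hs2.2.1 hvl2
          have e4 : l2 = l ∨ l2 = l' := by
            rcases e1 with e1 | e1 <;> rcases e2 with e2 | e2 <;> rcases e3 with e3 | e3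
            · exact Or.inl (e3.trans e1.symm)
            · exact absurd (e1.trans e2.symm) hll
            · exact Or.inl (e3.trans e1.symm)
            · exact Or.inr (e3.trans e2.symm)
            · exact Or.inr (e3.trans e2.symm)
            · exact Or.inl (e3.trans e1.symm)
            · exact absurd (e1.trans e2.symm) hll
            · exact Or.inl (e3.trans e1.symm)
          rcases e4 with e4 | e4
          · have hXA : X ∈ A := (TwoT_mem_at.1 (hPA hX)).1
            have h5 : Y2 = X := TwoT_uniq hb h1 hA hYA hY2A hXA hs2.1.symm hs.1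
              hs2.2.1 hs2.2.2 (e4 ▸ hs.2.1)
            exact hY2P (h5 ▸ hX)
          · have hXA' : X' ∈ A := (TwoT_mem_at.1 (hPA hX')).1
            have h5 : Y2 = X' := TwoT_uniq hb h1 hA hYA hY2A hXA' hs2.1.symm hs'.1
              hs2.2.1 hs2.2.2 (e4 ▸ hs'.2.1)
            exact hY2P (h5 ▸ hX')
        · exact ⟨Y2, hY2, hY2P, hY2Y, X2, hX2P, l2, hs2⟩
      · exact ⟨Y', hY', hYP', hYY', X', hX', l', hs'⟩
    · exact ⟨Y, hY, hYP, hYY, X, hX, l, hs⟩
  · obtain ⟨X, hX, Y, hY, hYP, l, hs, -⟩ := hS A hA v hv P hPA hPne hPnA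
    refine ⟨Y, hY, hYP, ?_, X, hX, l, hs⟩
    rintro rfl
    exact hY₀ (Finset.mem_sdiff.2 ⟨hY, hYP⟩)

end Pool.Agent.Hsh
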