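import Pool.Agent.Hsh.StmtsC
import Pool.Agent.Hsh.Hull

set_option autoImplicit false

/-!
# Counting the tiles touching the hull from outside
-/

namespace Pool.Agent.Hsh

open Set Metric MeasureTheory Filter Topology Classical

theorem outCount_mem_VF (hV : Stmt_VFin) {A : Finset (Set ℂ)} (hA : Fam A) {p : ℂ} :
    p ∈ VF A ↔ p ∈ Vx A := by
  unfold VF
  rw [dif_pos (hV A hA), Set.Finite.mem_toFinset]

/-- the combinatorial part -/
theorem outCount_comb {W : Finset ℂ} {N1 N2 : Finset (Set ℂ)} (out : ℂ → Finset (Set ℂ))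
    (hdis : Disjoint N1 N2)
    (hout : ∀ v ∈ W, out v ⊆ N1 ∪ N2)
    (hN1 : ∀ Y ∈ N1, ∃ v ∈ W, Y ∈ out v)
    (hone : ∀ v ∈ W, 1 ≤ (out v ∩ N2).card)
    (htwo : ∀ v ∈ W, 2 ≤ (out v).card → 2 ≤ (out v ∩ N2).card)
    (hN2 : ∀ Y ∈ N2, 2 ≤ (W.filter (fun v => 2 ≤ (out v).card ∧ Y ∈ out v)).card) :
    (N1 ∪ N2).card ≤ ∑ v ∈ W, ((out v).card - 1) := by
  have hsplit : ∀ v ∈ W, (out v).card = (out v ∩ N1).card + (out v ∩ N2).card := by
    intro v hv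
    rw [← Finset.card_union_of_disjoint, ← Finset.inter_union_distrib_left,
      Finset.inter_eq_left.2 (hout v hv)]
    exact Finset.disjoint_of_subset_left Finset.inter_subset_right
      (Finset.disjoint_of_subset_right Finset.inter_subset_right hdis)
  have hpt : ∀ v ∈ W, 2 * (out v ∩ N1).card +
      (if 2 ≤ (out v).card then (out v ∩ N2).card else 0) ≤ 2 * ((out v).card - 1) := by
    intro v hv
    have h1 := hsplit v hv
    have h2 := hone v hv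
    have h3 := htwo v hv
    split_ifs with h
    · have := h3 h
      omega
    · omega
  have h1 : N1.card ≤ ∑ v ∈ W, (out v ∩ N1).card := by
    calc N1.card ≤ (W.biUnion (fun v => out v ∩ N1)).card := by
          apply Finset.card_le_card
          intro Y hY
          obtain ⟨v, hv, hYv⟩ := hN1 Y hY
          exact Finset.mem_biUnion.2 ⟨v, hv, Finset.mem_inter.2 ⟨hYv, hY⟩⟩
      _ ≤ _ := Finset.card_biUnion_le
  have h2 : 2 * N2.card ≤ ∑ v ∈ W, (if 2 ≤ (out v).card then (out v ∩ N2).card else 0) := by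
    have e1 : ∀ v ∈ W, (if 2 ≤ (out v).card then (out v ∩ N2).card else 0) =
        ∑ Y ∈ N2, (if 2 ≤ (out v).card ∧ Y ∈ out v then 1 else 0) := by
      intro v _
      by_cases h : 2 ≤ (out v).card
      · simp only [h, if_true, true_and]
        rw [Finset.inter_comm, ← Finset.filter_mem_eq_inter, Finset.card_filter]
      · simp [h]
    rw [Finset.sum_congr rfl e1, Finset.sum_comm]
    have e2 : ∀ Y ∈ N2, 2 ≤ ∑ v ∈ W, (if 2 ≤ (out v).card ∧ Y ∈ out v then 1 else 0) := by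
      intro Y hY
      rw [← Finset.card_filter]
      exact hN2 Y hY
    calc 2 * N2.card = ∑ Y ∈ N2, 2 := by rw [Finset.sum_const, smul_eq_mul, mul_comm]
      _ ≤ _ := Finset.sum_le_sum e2
  have h3 := Finset.sum_le_sum hpt
  rw [Finset.sum_add_distrib, ← Finset.mul_sum, ← Finset.mul_sum] at h3
  have h4 : (N1 ∪ N2).card ≤ N1.card + N2.card := Finset.card_union_le _ _
  omega

theorem outCount (hB : Stmt_Bas) (hV : Stmt_VFin) (h1 : Stmt_Arc1) (hS : Stmt_Star)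
    (hT : Stmt_OutTwo) (hA : Stmt_OutAdj) : Stmt_OutCount := by
  intro A B S L
  have hHB : hull A B S ⊆ B := Finset.filter_subset _ _
  have hHA : hull A B S ⊆ A := hHB.trans L.sub
  have hadj := fun Y hY hYH hX => hT A B S L Y hY hYH hX
  generalize hull A B S = H at *
  set W := (VF A).filter (fun v => ¬ at_ A v ⊆ H ∧ ∃ X ∈ H, v ∈ X) with hW
  have hWm : ∀ v, v ∈ W ↔ v ∈ Vx A ∧ ¬ at_ A v ⊆ H ∧ ∃ X ∈ H, v ∈ X := by
    intro v
    rw [hW, Finset.mem_filter, outCount_mem_VF hV L.fam]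
  set N2 := (tch A H \ H).filter (fun Y => ∃ X ∈ H, Adj A X Y) with hN2
  set N1 := (tch A H \ H).filter (fun Y => ¬ ∃ X ∈ H, Adj A X Y) with hN1
  have hN : tch A H \ H = N1 ∪ N2 := by
    rw [hN1, hN2, Finset.union_comm]
    exact (Finset.filter_union_filter_not_eq _ _).symm
  have hmemN : ∀ v ∈ W, ∀ Y ∈ at_ A v, Y ∉ H → Y ∈ tch A H \ H := by
    intro v hv Y hY hYH
    obtain ⟨_, _, X, hX, hvX⟩ := (hWm v).1 hv
    obtain ⟨hYA, hvY⟩ := hull_mem_at.1 hY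
    exact Finset.mem_sdiff.2 ⟨hull_mem_tch.2 ⟨hYA, v, hvY, hull_mem_un.2 ⟨X, hX, hvX⟩⟩, hYH⟩
  rw [hN]
  apply outCount_comb (fun v => at_ A v \ H)
  · rw [hN1, hN2]
    exact (Finset.disjoint_filter_filter_not _ _ _).symm
  · intro v hv Y hY
    rw [← hN]
    exact hmemN v hv Y (Finset.mem_sdiff.1 hY).1 (Finset.mem_sdiff.1 hY).2
  · intro Y hY
    rw [hN1, Finset.mem_filter, Finset.mem_sdiff] at hY
    obtain ⟨⟨hYt, hYH⟩, hYn⟩ := hY
    obtain ⟨hYA, p, hpY, hpH⟩ := hull_mem_tch.1 hYt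
    obtain ⟨X, hXH, hpX⟩ := hull_mem_un.1 hpH
    have hXY : X ≠ Y := fun h => hYH (h ▸ hXH)
    have hreg : p ∈ reg A := (L.inn X (hHB hXH)).2 hpX
    have hv : p ∈ Vx A := by
      by_contra hv
      exact hYn ⟨X, hXH, hull_adj_of_mem hB h1 L.fam (hHA hXH) hYA hXY hpX hpY hreg hv⟩
    have hYp : Y ∈ at_ A p := hull_mem_at.2 ⟨hYA, hpY⟩
    exact ⟨p, (hWm p).2 ⟨hv, fun h => hYH (h hYp), X, hXH, hpX⟩, Finset.mem_sdiff.2 ⟨hYp, hYH⟩⟩
  · intro v hv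
    obtain ⟨hvV, hvn, X₀, hX₀, hvX₀⟩ := (hWm v).1 hv
    have hX₀' : X₀ ∈ at_ A v ∩ H := Finset.mem_inter.2 ⟨hull_mem_at.2 ⟨hHA hX₀, hvX₀⟩, hX₀⟩
    obtain ⟨X, hX, Y, hY, hYn, l, hl, _⟩ := hS A L.fam v hvV (at_ A v ∩ H)
      Finset.inter_subset_left ⟨X₀, hX₀'⟩
      (fun h => hvn (fun Z hZ => by rw [← h] at hZ; exact (Finset.mem_inter.1 hZ).2))
    have hYH : Y ∉ H := fun h => hYn (Finset.mem_inter.2 ⟨hY, h⟩)
    apply Finset.card_pos.2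
    refine ⟨Y, Finset.mem_inter.2 ⟨Finset.mem_sdiff.2 ⟨hY, hYH⟩, ?_⟩⟩
    rw [hN2, Finset.mem_filter]
    exact ⟨hmemN v hv Y hY hYH, X, (Finset.mem_inter.1 hX).2, l, hl⟩
  · intro v hv hc
    obtain ⟨hvV, hvn, X₀, hX₀, hvX₀⟩ := (hWm v).1 hv
    have hX₀' : X₀ ∈ at_ A v ∩ H := Finset.mem_inter.2 ⟨hull_mem_at.2 ⟨hHA hX₀, hvX₀⟩, hX₀⟩
    have hc' : 2 ≤ (at_ A v \ (at_ A v ∩ H)).card := by
      rw [Finset.sdiff_inter_self_left]
      exact hc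
    have key : ∀ Y₀ : Set ℂ, ∃ Y ∈ (at_ A v \ H) ∩ N2, Y ≠ Y₀ := by
      intro Y₀
      obtain ⟨Y, hY, hYn, hne, X, hX, hadj⟩ := hA A L.fam v hvV (at_ A v ∩ H)
        Finset.inter_subset_left ⟨X₀, hX₀'⟩ hc' Y₀
      have hYH : Y ∉ H := fun h => hYn (Finset.mem_inter.2 ⟨hY, h⟩)
      refine ⟨Y, Finset.mem_inter.2 ⟨Finset.mem_sdiff.2 ⟨hY, hYH⟩, ?_⟩, hne⟩
      rw [hN2, Finset.mem_filter]
      exact ⟨hmemN v hv Y hY hYH, X, (Finset.mem_inter.1 hX).2, hadj⟩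
    obtain ⟨Y, hY, _⟩ := key ∅
    obtain ⟨Y', hY', hne⟩ := key Y
    exact Finset.one_lt_card.2 ⟨Y', hY', Y, hY, hne⟩
  · intro Y hY
    rw [hN2, Finset.mem_filter, Finset.mem_sdiff] at hY
    obtain ⟨⟨hYt, hYH⟩, hYn⟩ := hY
    have hYA : Y ∈ A := (hull_mem_tch.1 hYt).1
    have key : ∀ v₀ : ℂ, ∃ u ∈ W.filter (fun v => 2 ≤ (at_ A v \ H).card ∧ Y ∈ at_ A v \ H),
        u ≠ v₀ := by
      intro v₀
      obtain ⟨u, huV, hne, huY, ⟨X, hX, huX⟩, Z, hZ, hZH, hZY, huZ⟩ := hadj Y hYA hYH hYn v₀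
      have hYu : Y ∈ at_ A u := hull_mem_at.2 ⟨hYA, huY⟩
      have hZu : Z ∈ at_ A u := hull_mem_at.2 ⟨hZ, huZ⟩
      have hYs : Y ∈ at_ A u \ H := Finset.mem_sdiff.2 ⟨hYu, hYH⟩
      refine ⟨u, Finset.mem_filter.2 ⟨(hWm u).2 ⟨huV, fun h => hYH (h hYu), X, hX, huX⟩, ?_, hYs⟩,
        hne⟩
      exact Finset.one_lt_card.2 ⟨Z, Finset.mem_sdiff.2 ⟨hZu, hZH⟩, Y, hYs, hZY⟩
    obtain ⟨u, hu, _⟩ := key 0
    obtain ⟨u', hu', hne⟩ := key u
    exact Finset.one_lt_card.2 ⟨u', hu', u, hu, hne⟩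

end Pool.Agent.Hsh
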