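import Pool.Agent.Hsh.StmtsC
import Pool.Agent.Hsh.Euler
import Pool.Agent.Hsh.OutPath

set_option autoImplicit false

/-!
# Module OutTwo: a tile adjacent to the hull from outside has two junctions on the hull
-/

namespace Pool.Agent.Hsh

open Set Metric MeasureTheory Filter Topology Classical

/-- near a point of an arc of `Y` the frontier of `Y` is in the arc -/
theorem outTwo_near (hV : Stmt_VFin) {A : Finset (Set ℂ)} (hA : Fam A) {Y l : Set ℂ} (hY : Y ∈ A)
    (hl : l ∈ arcs A Y) {p : ℂ} (hp : p ∈ l) : ∃ r > 0, frontier Y ∩ ball p r ⊆ l := by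
  obtain ⟨c, γ, hd⟩ := CT.disc_final Y (hA.disk Y hY)
  obtain ⟨q, hq, rfl⟩ := hl
  have hpfr : p ∈ fr A Y := connectedComponentIn_subset _ _ hp
  obtain ⟨s, hs⟩ : ∃ s, γ s = p := by
    have := hpfr.1.1
    rw [← hd.range] at this
    exact this
  have hopen : IsOpen (reg A \ Vx A) := isOpen_interior.sdiff (hV A hA).isClosed
  have hpre : IsOpen (γ ⁻¹' (reg A \ Vx A)) := hopen.preimage hd.cont
  have hsm : s ∈ γ ⁻¹' (reg A \ Vx A) := by
    show γ s ∈ reg A \ Vx A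
    rw [hs]
    exact ⟨hpfr.1.2, hpfr.2⟩
  obtain ⟨e, he, hball⟩ := Metric.isOpen_iff.1 hpre s hsm
  set d : ℝ := min (e / 2) (1 / 4) with hd_def
  have hd0 : 0 < d := lt_min (by linarith) (by norm_num)
  have hde : d ≤ e / 2 := min_le_left _ _
  have hd4 : d ≤ 1 / 4 := min_le_right _ _
  have hsub : γ '' Icc (s - d) (s + d) ⊆ fr A Y := by
    rintro _ ⟨t, ht, rfl⟩
    have ht' : t ∈ ball s e := by
      rw [Real.ball_eq_Ioo]
      exact ⟨by linarith [ht.1], by linarith [ht.2]⟩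
    have h3 := hball ht'
    refine ⟨⟨?_, h3.1⟩, h3.2⟩
    rw [← hd.range]
    exact mem_range_self t
  have hconn : IsPreconnected (γ '' Icc (s - d) (s + d)) :=
    isPreconnected_Icc.image γ hd.cont.continuousOn
  have hpm : p ∈ γ '' Icc (s - d) (s + d) := ⟨s, ⟨by linarith, by linarith⟩, hs⟩
  have hin : γ '' Icc (s - d) (s + d) ⊆ connectedComponentIn (fr A Y) q := by
    rw [connectedComponentIn_eq hp]
    exact hconn.subset_connectedComponentIn hpm hsub
  obtain ⟨r, hr, hr'⟩ := CT.InterAux.near_arc hd.cont hd.per (a := s - d) (b := s + d) (x := s)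
    (by linarith) (by linarith) (by linarith)
  refine ⟨r, hr, ?_⟩
  rw [← hd.range, ← hs]
  exact hr'.trans hin

/-- the frontier of a tile minus a point is connected -/
theorem outTwo_conn {Y : Set ℂ} (hY : IsDisk Y) (v₀ : ℂ) :
    IsPreconnected (frontier Y \ {v₀}) := by
  by_cases hv : v₀ ∈ frontier Y
  · obtain ⟨c, γ, hd⟩ := CT.disc_final Y hY
    rw [← hd.range] at hv ⊢
    obtain ⟨s, rfl⟩ := hv
    have he : range γ \ {γ s} = γ '' Ioo s (s + 1) := by
      apply Subset.antisymm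
      · rintro z ⟨hz, hne⟩
        rw [CT.InterAux.range_Icc hd.per s] at hz
        obtain ⟨t, ⟨ht1, ht2⟩, rfl⟩ := hz
        refine ⟨t, ⟨lt_of_le_of_ne ht1 ?_, lt_of_le_of_ne ht2 ?_⟩, rfl⟩
        · rintro rfl
          exact hne rfl
        · rintro rfl
          exact hne ((hd.per s (s + 1)).2 ⟨1, by norm_num⟩).symm
      · rintro _ ⟨t, ht, rfl⟩
        refine ⟨mem_range_self t, ?_⟩
        intro h
        exact CT.InterAux.ne_of_lt hd.per ht.1 ht.2 (Eq.symm h)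
    rw [he]
    exact isPreconnected_Ioo.image γ hd.cont.continuousOn
  · rw [sdiff_singleton_eq_self hv]
    exact euler_conn hY

/-- a closed set containing the frontier of a tile up to a point contains the frontier -/
theorem outTwo_clos {Y F : Set ℂ} (hY : IsDisk Y) (hF : IsClosed F) {v₀ : ℂ}
    (h : frontier Y \ {v₀} ⊆ F) : frontier Y ⊆ F := by
  intro z hz
  by_cases hzv : z = v₀
  · subst hzv
    obtain ⟨c, γ, hd⟩ := CT.disc_final Y hY
    rw [← hd.range] at hz h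
    obtain ⟨s, rfl⟩ := hz
    have h1 : γ '' Ioo s (s + 1) ⊆ F := by
      rintro _ ⟨t, ht, rfl⟩
      refine h ⟨mem_range_self t, ?_⟩
      intro h2
      exact CT.InterAux.ne_of_lt hd.per ht.1 ht.2 (Eq.symm h2)
    have h2 := image_closure_subset_closure_image (s := Ioo s (s + 1)) hd.cont
    rw [closure_Ioo (by linarith)] at h2
    have h3 : γ s ∈ closure (γ '' Ioo s (s + 1)) :=
      h2 ⟨s, left_mem_Icc.mpr (by linarith), rfl⟩
    exact (closure_minimal h1 hF) h3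
  · exact h ⟨hz, hzv⟩

/-- if a tile `Y` outside the hull has its frontier in the hull we get a contradiction -/
theorem outTwo_end (hB : Stmt_Bas) (h1 : Stmt_Arc1) (hO : Stmt_Open) {A B S : Finset (Set ℂ)}
    (hL : Lev A B S) {Y : Set ℂ} (hY : Y ∈ A) (hYH : Y ∉ hull A B S)
    (hfr : frontier Y ⊆ un (hull A B S)) : False := by
  have hA := hL.fam
  have hb := hB A hA
  have hBA := hL.sub
  have hHB : hull A B S ⊆ B := Finset.filter_subset _ _
  have hHA : hull A B S ⊆ A := hHB.trans hBA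
  -- neighbours of `Y` are in the hull
  have key : ∀ Z ∈ A, Adj A Y Z → Z ∈ hull A B S := by
    rintro Z hZ ⟨l, hne, hlY, hlZ⟩
    obtain ⟨Z', -, -, -, ⟨q, hq⟩, hlfr, hat⟩ := h1 A hA Y hY l hlY
    obtain ⟨X, hX, hqX⟩ := outPath_mem_un.1 (hfr (hlfr hq).1.1)
    have hqZ : q ∈ Z := (hb.closed Z hZ).frontier_subset (euler_sub h1 hA hZ hlZ hq).1.1
    have e1 : X ∈ at_ A q := Finset.mem_filter.2 ⟨hHA hX, hqX⟩
    have e2 : Z ∈ at_ A q := Finset.mem_filter.2 ⟨hZ, hqZ⟩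
    rw [hat q hq, Finset.mem_insert, Finset.mem_singleton] at e1 e2
    have e1' : X = Z' := e1.resolve_left (fun h => hYH (h ▸ hX))
    have e2' : Z = Z' := e2.resolve_left (fun h => hne h.symm)
    rw [e2', ← e1']
    exact hX
  by_cases hYB : Y ∈ B
  · have hYt : Y ∉ tch A S := fun h => hYH (Finset.mem_filter.mpr ⟨hYB, Or.inl h⟩)
    have hYO : Out A B S Y := by
      by_contra h
      exact hYH (Finset.mem_filter.mpr ⟨hYB, Or.inr h⟩)
    obtain ⟨Z, hch, W, hW, hWB, hadj⟩ := hYO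
    rcases Relation.ReflTransGen.cases_head hch with h | ⟨Q, ⟨hYQ, hQB, hQt⟩, hch'⟩
    · subst h
      exact hWB (hHB (key W hW hadj))
    · have hQH := key Q (hBA hQB) hYQ
      rcases (Finset.mem_filter.mp hQH).2 with h2 | h2
      · exact hQt h2
      · exact h2 ⟨Z, hch', W, hW, hWB, hadj⟩
  · have hYc := hb.closed Y hY
    have hfrB : frontier Y ⊆ un B := by
      intro z hz
      obtain ⟨X, hX, hzX⟩ := outPath_mem_un.1 (hfr hz)
      exact outPath_mem_un.2 ⟨X, hHB hX, hzX⟩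
    have hBreg : un B ⊆ reg A := by
      intro z hz
      obtain ⟨X, hX, hzX⟩ := outPath_mem_un.1 hz
      exact (hL.inn X hX).2 hzX
    have hYun : Y ⊆ un A := fun z hz => outPath_mem_un.2 ⟨Y, hY, hz⟩
    have hYinn : Inn A Y := by
      refine ⟨hY, ?_⟩
      intro z hz
      by_cases hzi : z ∈ interior Y
      · exact interior_mono hYun hzi
      · refine hBreg (hfrB ?_)
        rw [hYc.frontier_eq]
        exact ⟨hz, hzi⟩
    have hsub : frontier Y ⊆ frontier (un B) := fun z hz =>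
      outPath_frontier hA hb hBA hY hYB (hYc.frontier_subset hz) (hfrB hz)
    obtain ⟨c, γ, hγ⟩ := CT.disc_final Y (hA.disk Y hY)
    obtain ⟨c', γ', hγ'⟩ := CT.disc_final (un B) hL.disk
    have heq : frontier Y = frontier (un B) := by
      rw [← hγ.range, ← hγ'.range]
      apply CT.circleMax γ γ' hγ.cont hγ.per hγ'.cont hγ'.per
      rw [hγ.range, hγ'.range]
      exact hsub
    obtain ⟨X, hX, Z, hZ, hZC, hadj⟩ := hO A hA (insert Y B) (Finset.insert_subset hY hBA)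
      (Finset.insert_nonempty _ _) (by
        intro X hX
        rcases Finset.mem_insert.1 hX with rfl | h
        · exact hYinn
        · exact hL.inn X h)
    have hZY : Z ≠ Y := fun h => hZC (h ▸ Finset.mem_insert_self _ _)
    have hZB : Z ∉ B := fun h => hZC (Finset.mem_insert_of_mem h)
    rcases Finset.mem_insert.1 hX with hXY | hXB
    · subst hXY
      exact hZB (hHB (key Z hZ hadj))
    · obtain ⟨l, hne, hlX, hlZ⟩ := hadj
      obtain ⟨Z', -, -, -, ⟨q, hq⟩, hlfr, hat⟩ := h1 A hA X (hBA hXB) l hlX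
      have hqX : q ∈ X := (hb.closed X (hBA hXB)).frontier_subset (hlfr hq).1.1
      have hqZ : q ∈ Z := (hb.closed Z hZ).frontier_subset (euler_sub h1 hA hZ hlZ hq).1.1
      have e2 : Z ∈ at_ A q := Finset.mem_filter.2 ⟨hZ, hqZ⟩
      have hqF : q ∈ frontier (un B) :=
        outPath_frontier hA hb hBA hZ hZB hqZ (outPath_mem_un.2 ⟨X, hXB, hqX⟩)
      have hqY : q ∈ Y := hYc.frontier_subset (heq ▸ hqF)
      have e1 : Y ∈ at_ A q := Finset.mem_filter.2 ⟨hY, hqY⟩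
      rw [hat q hq, Finset.mem_insert, Finset.mem_singleton] at e1 e2
      have e1' : Y = Z' := e1.resolve_left (fun h => hYB (h ▸ hXB))
      have e2' : Z = Z' := e2.resolve_left (fun h => hne h.symm)
      exact hZY (e2'.trans e1'.symm)

theorem outTwo (hB : Stmt_Bas) (hV : Stmt_VFin) (h1 : Stmt_Arc1) (h2 : Stmt_Arc2)
    (h3 : Stmt_Arc3) (hO : Stmt_Open) : Stmt_OutTwo := by
  intro A B S hL Y hY hYH hAdj v₀
  by_contra hcon
  have hA := hL.fam
  have hb := hB A hA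
  have hBA := hL.sub
  have hHB : hull A B S ⊆ B := Finset.filter_subset _ _
  have hHA : hull A B S ⊆ A := hHB.trans hBA
  have hstar : ∀ u ∈ Vx A, u ≠ v₀ → u ∈ Y → (∃ X ∈ hull A B S, u ∈ X) → ∀ Z ∈ A, Z ≠ Y →
      u ∈ Z → Z ∈ hull A B S := by
    intro u hu hne huY hX Z hZ hZY huZ
    by_contra hZH
    exact hcon ⟨u, hu, hne, huY, hX, Z, hZ, hZH, hZY, huZ⟩
  set L : Set (Set ℂ) := {l | l ∈ arcs A Y ∧ ∃ X ∈ hull A B S, l ∈ arcs A X} with hLdef
  have hLfin : L.Finite := by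
    refine Set.Finite.subset (s := ⋃ X ∈ hull A B S, arcs A X) ?_ ?_
    · exact (hull A B S).finite_toSet.biUnion fun X hX => (h3 A hA X (hL.inn X (hHB hX))).fin
    · rintro l ⟨-, X, hX, hl⟩
      exact Set.mem_biUnion hX hl
  set F : Set ℂ := ⋃ l ∈ L, closure l with hFdef
  have hFc : IsClosed F := hLfin.isClosed_biUnion fun l _ => isClosed_closure
  have hFm : ∀ p, p ∈ F ↔ ∃ l ∈ L, p ∈ closure l := by
    intro p
    simp only [hFdef, mem_iUnion, exists_prop]
  have hFfr : F ⊆ frontier Y := by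
    intro p hp
    obtain ⟨l, hl, hpl⟩ := (hFm p).1 hp
    exact euler_closF h1 hA hY hl.1 hpl
  have hFun : F ⊆ un (hull A B S) := by
    intro p hp
    obtain ⟨l, ⟨-, X, hX, hlX⟩, hpl⟩ := (hFm p).1 hp
    exact outPath_mem_un.2 ⟨X, hX, euler_clos hB h1 hA (hHA hX) hlX hpl⟩
  have hYc := hb.closed Y hY
  -- `F` is open in the frontier of `Y`, away from `v₀`
  have hop : ∀ p ∈ F, p ≠ v₀ → ∃ r > 0, frontier Y ∩ ball p r ⊆ F := by
    intro p hp hpv
    obtain ⟨l, hl, hpl⟩ := (hFm p).1 hp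
    by_cases hpl' : p ∈ l
    · obtain ⟨r, hr, hr'⟩ := outTwo_near hV hA hY hl.1 hpl'
      refine ⟨r, hr, fun z hz => (hFm z).2 ⟨l, hl, subset_closure (hr' hz)⟩⟩
    · obtain ⟨hlY, X, hX, hlX⟩ := hl
      have hpV : p ∈ Vx A :=
        ((h3 A hA X (hL.inn X (hHB hX))).clos l hlX hpl).resolve_left hpl'
      have hpX : p ∈ X := euler_clos hB h1 hA (hHA hX) hlX hpl
      have hpY : p ∈ Y := euler_clos hB h1 hA hY hlY hpl
      obtain ⟨l₁, hl₁, l₂, hl₂, -, hc₁, hc₂, -, r, hr, hr'⟩ := h2 A hA Y hY p hpV hpY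
      have hin : ∀ l ∈ arcs A Y, p ∈ closure l → l ∈ L := by
        intro m hm hpm
        obtain ⟨Z, hZ, hZY, hmZ, -, -, -⟩ := h1 A hA Y hY m hm
        refine ⟨hm, Z, ?_, hmZ⟩
        exact hstar p hpV hpv hpY ⟨X, hX, hpX⟩ Z hZ hZY (euler_clos hB h1 hA hZ hmZ hpm)
      refine ⟨r, hr, ?_⟩
      intro z hz
      rcases hr' hz with (h | h) | h
      · rw [mem_singleton_iff.1 h]
        exact hp
      · exact (hFm z).2 ⟨l₁, hin l₁ hl₁ hc₁, subset_closure h⟩
      · exact (hFm z).2 ⟨l₂, hin l₂ hl₂ hc₂, subset_closure h⟩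
  -- a point of `F` different from `v₀`
  obtain ⟨w₀, hw₀F, hw₀⟩ : ∃ w ∈ F, w ≠ v₀ := by
    obtain ⟨X, hX, l, hne, hlX, hlY⟩ := hAdj
    have hlL : l ∈ L := ⟨hlY, X, hX, hlX⟩
    obtain ⟨u, w, huw, hu, hw, hends⟩ := (h3 A hA X (hL.inn X (hHB hX))).ends l hlX
    have hul : u ∈ closure l := (hends u hu).2 (Or.inl rfl)
    have hwl : w ∈ closure l := (hends w hw).2 (Or.inr rfl)
    by_cases hu0 : u = v₀
    · exact ⟨w, (hFm w).2 ⟨l, hlL, hwl⟩, fun h => huw (hu0.trans h.symm)⟩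
    · exact ⟨u, (hFm u).2 ⟨l, hlL, hul⟩, hu0⟩
  -- connectedness
  have hsub : frontier Y \ {v₀} ⊆ F := by
    have hpre := outTwo_conn (hA.disk Y hY) v₀
    set U : Set ℂ := ⋃ p : ℂ, ⋃ r : ℝ, ⋃ (_ : frontier Y ∩ ball p r ⊆ F), ball p r with hU
    have hUo : IsOpen U := by
      refine isOpen_iUnion fun p => isOpen_iUnion fun r => isOpen_iUnion fun _ => isOpen_ball
    have hUm : ∀ z ∈ U, z ∈ frontier Y → z ∈ F := by
      intro z hz hzY
      simp only [hU, mem_iUnion, exists_prop] at hz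
      obtain ⟨p, r, hr, hz'⟩ := hz
      exact hr ⟨hzY, hz'⟩
    have hFU : ∀ p ∈ F, p ≠ v₀ → p ∈ U := by
      intro p hp hpv
      obtain ⟨r, hr, hr'⟩ := hop p hp hpv
      simp only [hU, mem_iUnion, exists_prop]
      exact ⟨p, r, hr', mem_ball_self hr⟩
    by_contra hns
    obtain ⟨z, hz, hzF⟩ := Set.not_subset.1 hns
    have hcov : frontier Y \ {v₀} ⊆ U ∪ Fᶜ := by
      rintro p ⟨hp, hpv⟩
      by_cases hpF : p ∈ F
      · exact Or.inl (hFU p hpF hpv)
      · exact Or.inr hpF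
    obtain ⟨q, hq1, hq2, hq3⟩ := hpre U Fᶜ hUo hFc.isOpen_compl hcov
      ⟨w₀, ⟨hFfr hw₀F, hw₀⟩, hFU w₀ hw₀F hw₀⟩ ⟨z, hz, hzF⟩
    exact hq3 (hUm q hq2 hq1.1)
  exact outTwo_end hB h1 hO hL hY hYH ((outTwo_clos (hA.disk Y hY) hFc hsub).trans hFun)

end Pool.Agent.Hsh
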