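import Pool.Agent.Hsh.StmtsC

set_option autoImplicit false

/-!
# The weighted inequality for the hull and the tiles touching it (module WtB)
-/

namespace Pool.Agent.Hsh

open Set Metric MeasureTheory Filter Topology Classical

theorem wtB_ext_nonneg (t : Set ℂ) (p : ℂ) : 0 ≤ ext t p := le_max_left _ _

theorem wtB_ext_ge (t : Set ℂ) (p : ℂ) : 1 - 2 * lowDens t p ≤ ext t p := le_max_right _ _

/-- sums of exterior angles at a point -/
theorem wtB_sum_ge (hN : Stmt_Dens) {A : Finset (Set ℂ)} (hA : Fam A) (v : ℂ) :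
    ((at_ A v).card : ℝ) - 2 ≤ ∑ X ∈ at_ A v, ext X v := by
  have h1 : ∑ X ∈ at_ A v, lowDens X v ≤ 1 := by
    refine le_trans ?_ (hN.1 A hA v)
    refine Finset.sum_le_sum_of_subset_of_nonneg ?_ ?_
    · intro X hX
      exact (Finset.mem_filter.1 hX).1
    · intro X _ _
      exact (hN.2.1 X v).1
  have h2 : ∑ X ∈ at_ A v, (1 - 2 * lowDens X v) ≤ ∑ X ∈ at_ A v, ext X v :=
    Finset.sum_le_sum fun X _ => wtB_ext_ge X v
  rw [Finset.sum_sub_distrib, Finset.sum_const, nsmul_eq_mul, mul_one, ← Finset.mul_sum] at h2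
  linarith

theorem wtB (_hV : Stmt_VFin) (hH : Stmt_Hull) (hE : Stmt_Euler) (hD : Stmt_Deg)
    (hN : Stmt_Dens) (hO : Stmt_OutCount) : Stmt_WtB := by
  intro A B S hL
  obtain ⟨hSH, hHB, -, hcon⟩ := hH A B S hL
  have hO' := hO A B S hL
  set H := hull A B S with hHdef
  have hA : Fam A := hL.fam
  have hHA : H ⊆ A := hHB.trans hL.sub
  have hne : H.Nonempty := hL.neS.mono hSH
  have hin : ∀ X ∈ H, Inn A X := fun X hX => hL.inn X (hHB hX)
  have hE' := (hE A hA H hHA hne hin hcon).2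
  have hD' := hD A hA H hHA hin
  set W1 := (VF A).filter (fun v => at_ A v ⊆ H ∧ ∃ X ∈ H, v ∈ X) with hW1
  set W2 := (VF A).filter (fun v => ¬ at_ A v ⊆ H ∧ ∃ X ∈ H, v ∈ X) with hW2
  have hE'' : (H.card : ℝ) + W1.card ≤ (EE A H).ncard + 1 := by exact_mod_cast hE'
  have hD'' : 2 * ((EE A H).ncard : ℝ) ≤ ∑ v ∈ W1, ((at_ A v).card : ℝ) +
      ∑ v ∈ W2, (((at_ H v).card - 1 : ℕ) : ℝ) := by exact_mod_cast hD'
  have hO'' : ((tch A H \ H).card : ℝ) ≤ ∑ v ∈ W2, (((at_ A v \ H).card - 1 : ℕ) : ℝ) := by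
    exact_mod_cast hO'
  have h1 : ∑ v ∈ W1, ((at_ A v).card : ℝ) - 2 * W1.card ≤
      ∑ v ∈ W1, ∑ X ∈ at_ A v, ext X v := by
    have h2 : ∑ v ∈ W1, (((at_ A v).card : ℝ) - 2) ≤ ∑ v ∈ W1, ∑ X ∈ at_ A v, ext X v :=
      Finset.sum_le_sum fun v _ => wtB_sum_ge hN hA v
    rw [Finset.sum_sub_distrib, Finset.sum_const, nsmul_eq_mul] at h2
    linarith
  have h2 : ∑ v ∈ W2, (((at_ H v).card - 1 : ℕ) : ℝ) +
      ∑ v ∈ W2, (((at_ A v \ H).card - 1 : ℕ) : ℝ) ≤
      ∑ v ∈ W2, ∑ X ∈ at_ A v, ext X v := by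
    rw [← Finset.sum_add_distrib]
    refine Finset.sum_le_sum fun v hv => ?_
    obtain ⟨-, hv1, X, hX, hvX⟩ := Finset.mem_filter.1 hv
    have h3 : (at_ A v ∩ H) = at_ H v := by
      ext Y
      simp only [at_, Finset.mem_inter, Finset.mem_filter]
      constructor
      · rintro ⟨⟨_, h4⟩, h5⟩
        exact ⟨h5, h4⟩
      · rintro ⟨h4, h5⟩
        exact ⟨⟨hHA h4, h5⟩, h4⟩
    have h4 : (at_ A v).card = (at_ H v).card + (at_ A v \ H).card := by
      rw [← h3]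
      exact (Finset.card_inter_add_card_sdiff (at_ A v) H).symm
    have h5 : 1 ≤ (at_ H v).card := Finset.card_pos.2 ⟨X, Finset.mem_filter.2 ⟨hX, hvX⟩⟩
    have h6 : 1 ≤ (at_ A v \ H).card := by
      rw [Nat.one_le_iff_ne_zero, Ne, Finset.card_eq_zero, Finset.sdiff_eq_empty_iff_subset]
      exact hv1
    have h7 := wtB_sum_ge hN hA v
    have h8 : ((at_ A v).card : ℝ) = (at_ H v).card + (at_ A v \ H).card := by exact_mod_cast h4
    rw [Nat.cast_sub h5, Nat.cast_sub h6]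
    push_cast
    linarith
  have h3 : ∑ v ∈ W1, ∑ X ∈ at_ A v, ext X v + ∑ v ∈ W2, ∑ X ∈ at_ A v, ext X v ≤
      ∑ X ∈ tch A H, ∑ v ∈ (VF A).filter (fun v => v ∈ X), ext X v := by
    have hdis : Disjoint W1 W2 := by
      rw [Finset.disjoint_left]
      intro v hv1 hv2
      exact (Finset.mem_filter.1 hv2).2.1 (Finset.mem_filter.1 hv1).2.1
    rw [← Finset.sum_union hdis]
    have h4 : ∑ v ∈ W1 ∪ W2, ∑ X ∈ at_ A v, ext X v ≤
        ∑ v ∈ W1 ∪ W2, ∑ X ∈ (tch A H).filter (fun X => v ∈ X), ext X v := by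
      refine Finset.sum_le_sum fun v hv => ?_
      refine Finset.sum_le_sum_of_subset_of_nonneg ?_ ?_
      · intro X hX
        obtain ⟨hXA, hvX⟩ := Finset.mem_filter.1 hX
        obtain ⟨Y, hY, hvY⟩ : ∃ Y ∈ H, v ∈ Y := by
          rcases Finset.mem_union.1 hv with hv | hv
          · exact (Finset.mem_filter.1 hv).2.2
          · exact (Finset.mem_filter.1 hv).2.2
        refine Finset.mem_filter.2 ⟨Finset.mem_filter.2 ⟨hXA, v, hvX, ?_⟩, hvX⟩
        exact mem_iUnion₂.2 ⟨Y, hY, hvY⟩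
      · intro X _ _
        exact wtB_ext_nonneg X v
    have h5 : ∑ v ∈ W1 ∪ W2, ∑ X ∈ (tch A H).filter (fun X => v ∈ X), ext X v ≤
        ∑ v ∈ VF A, ∑ X ∈ (tch A H).filter (fun X => v ∈ X), ext X v := by
      refine Finset.sum_le_sum_of_subset_of_nonneg ?_ ?_
      · exact Finset.union_subset (Finset.filter_subset _ _) (Finset.filter_subset _ _)
      · intro v _ _
        exact Finset.sum_nonneg fun X _ => wtB_ext_nonneg X v
    refine (h4.trans h5).trans (le_of_eq ?_)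
    simp_rw [Finset.sum_filter]
    exact Finset.sum_comm
  linarith

end Pool.Agent.Hsh
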