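import Pool.Agent.Hsh.All
import Pool.Agent.Hsh.FinalC
import Pool.Agent.Hsh.OutTwo
import Pool.Agent.Hsh.OutAdj
import Pool.Agent.Hsh.OutCount
import Pool.Agent.Hsh.WtB

set_option autoImplicit false

/-!
# The modules of the sharp theorem put together
-/

namespace Pool.Agent.Hsh

theorem all_outTwo : Stmt_OutTwo := outTwo all_bas all_vFin all_arc1 all_arc2 all_arc3 all_open
theorem all_outAdj : Stmt_OutAdj := outAdj all_bas all_arc1 all_arc2 all_star all_par
theorem all_outCount : Stmt_OutCount :=
  outCount all_bas all_vFin all_arc1 all_star all_outTwo all_outAdj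
theorem all_wtB : Stmt_WtB := wtB all_vFin all_hull all_euler all_deg all_dens all_outCount

end Pool.Agent.Hsh
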