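import Pool.Agent.Hsh.StmtsD
import Pool.Agent.Hsh.TwoC

set_option autoImplicit false

/-!
# The counting argument, with equality (for the theorem on two convex corners)
-/

namespace Pool.Agent.Hsh

open Set Metric MeasureTheory Filter Topology Classical

/-- the properties of the tile, for the copies -/
theorem cfgM_copy (hd : Stmt_Dens) {T : Set ℂ} (hpos0 : ∀ q ∈ frontier T, 0 < lowDens T q)
    (htwo0 : ∀ F : Finset ℂ, (↑F : Set ℂ) ⊆ frontier T →
      (∀ q ∈ F, lowDens T q < 1 / 2) → F.card ≤ 2) {X : Set ℂ} (hX : IsCopy T X) :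
    (∀ q ∈ frontier X, 0 < lowDens X q) ∧
      ∀ F : Finset ℂ, (↑F : Set ℂ) ⊆ frontier X → (∀ q ∈ F, lowDens X q < 1 / 2) →
        F.card ≤ 2 := by
  obtain ⟨g, rfl⟩ := hX
  have h8 : frontier (g '' T) = g '' frontier T := (g.toHomeomorph.image_frontier T).symm
  constructor
  · intro q hq
    rw [h8] at hq
    obtain ⟨z, hz, rfl⟩ := hq
    rw [hd.2.2]
    exact hpos0 z hz
  · intro F hF hlt
    have h9 := htwo0 (F.image g.symm) (by
      intro x hx
      simp only [Finset.coe_image, Set.mem_image, Finset.mem_coe] at hx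
      obtain ⟨y, hy, rfl⟩ := hx
      have h7 := hF hy
      rw [h8] at h7
      obtain ⟨z, hz, rfl⟩ := h7
      simpa using hz) (by
      intro x hx
      obtain ⟨y, hy, rfl⟩ := Finset.mem_image.1 hx
      have := hd.2.2 g T (g.symm y)
      rw [g.apply_symm_apply] at this
      rw [← this]
      exact hlt y hy)
    rwa [Finset.card_image_of_injective _ g.symm.injective] at h9

theorem cfgM_fr {A : Finset (Set ℂ)} (hB : Stmt_Bas) (hA : Fam A) {v : ℂ} (hv : v ∈ Vx A)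
    {X : Set ℂ} (hX : X ∈ A) (hvX : v ∈ X) : v ∈ frontier X := by
  have h3 : 1 < (at_ A v).card := lt_of_lt_of_le (by norm_num) hv.2
  obtain ⟨Y, hY, hYX⟩ := Finset.exists_mem_ne h3 X
  exact (hB A hA).mem_frontier X hX Y (Finset.mem_filter.1 hY).1 hYX.symm
    ⟨hvX, (Finset.mem_filter.1 hY).2⟩

/-- M1 -/
theorem cfgM (hB : Stmt_Bas) (hV : Stmt_VFin) (hT2 : Stmt_Two) (hE : Stmt_Euler) (hD : Stmt_Deg)
    (hN : Stmt_Dens) (hH : Stmt_Hull) : Stmt_Cfg := by
  intro A B T hL hcopy hpos0 htwo0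
  obtain ⟨k1, k2, k4, k5⟩ := hH _ _ _ hL
  set H := hull A B {T} with hHdef
  have fam := hL.fam
  have hb := hB A fam
  have hTH : T ∈ H := k1 (Finset.mem_singleton_self T)
  have hHA : H ⊆ A := k2.trans hL.sub
  have hinn : ∀ X ∈ H, Inn A X := fun X hX => hL.inn X (k2 hX)
  have hcop : ∀ X ∈ A, (∀ q ∈ frontier X, 0 < lowDens X q) ∧
      ∀ F : Finset ℂ, (↑F : Set ℂ) ⊆ frontier X → (∀ q ∈ F, lowDens X q < 1 / 2) → F.card ≤ 2 :=
    fun X hX => cfgM_copy hN hpos0 htwo0 (hcopy X hX)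
  have htouch : ∀ X ∈ A, (X ∩ T).Nonempty → X ∈ H := by
    rintro X hX ⟨y, hyX, hyT⟩
    exact k4 (Finset.mem_filter.2 ⟨hX, y, hyX, fin_mem_un.2 ⟨T, Finset.mem_singleton_self T, hyT⟩⟩)
  obtain ⟨-, he⟩ := hE A fam H hHA ⟨T, hTH⟩ hinn k5
  have hd := hD A fam H hHA hinn
  set Vi := (VF A).filter (fun v => at_ A v ⊆ H ∧ ∃ X ∈ H, v ∈ X) with hVi
  set Vb := (VF A).filter (fun v => ¬ at_ A v ⊆ H ∧ ∃ X ∈ H, v ∈ X) with hVb
  have hfr : ∀ v ∈ VF A, ∀ X ∈ A, v ∈ X → v ∈ frontier X := fun v hv X hX hvX =>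
    cfgM_fr hB fam ((twoC_VF hV fam).1 hv) hX hvX
  have hpos' : ∀ v ∈ VF A, ∀ X ∈ at_ A v, 0 < lowDens X v := fun v hv X hX =>
    (hcop X (Finset.mem_filter.1 hX).1).1 v
      (hfr v hv X (Finset.mem_filter.1 hX).1 (Finset.mem_filter.1 hX).2)
  have hone : ∀ v ∈ VF A, (at_ A v).card ≤ twoC_c (at_ A v) v + 1 := fun v hv =>
    twoC_one hN fam (Finset.Subset.refl _) (Or.inr ((twoC_VF hV fam).1 hv).2) (hpos' v hv)
  have heqi : ∀ v ∈ Vi, at_ H v = at_ A v := by
    intro v hv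
    obtain ⟨hv1, hv2, hv3⟩ := Finset.mem_filter.1 hv
    apply Finset.Subset.antisymm
    · exact Finset.filter_subset_filter _ hHA
    · intro X hX
      exact Finset.mem_filter.2 ⟨hv2 hX, (Finset.mem_filter.1 hX).2⟩
  have h1 : ∀ v ∈ Vi, (at_ A v).card ≤ twoC_c (at_ H v) v + 1 := by
    intro v hv
    rw [heqi v hv]
    exact hone v (Finset.mem_filter.1 hv).1
  have h2 : ∀ v ∈ Vb, (at_ H v).card - 1 ≤ twoC_c (at_ H v) v := by
    intro v hv
    obtain ⟨hv1, hv2, hv3⟩ := Finset.mem_filter.1 hv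
    have hsub : at_ H v ⊆ at_ A v := Finset.filter_subset_filter _ hHA
    have hlt : (at_ H v).card + 1 ≤ (at_ A v).card := by
      apply Finset.card_lt_card
      refine ⟨hsub, fun h => hv2 (fun X hX => (Finset.mem_filter.1 (h hX)).1)⟩
    have := twoC_one hN fam hsub (Or.inl hlt) (hpos' v hv1)
    omega
  -- the number of convex corners at vertices
  set n : Set ℂ → ℕ := fun X => ((VF A).filter (fun v => v ∈ X ∧ lowDens X v < 1 / 2)).card
    with hn
  have h3 : ∑ v ∈ VF A, twoC_c (at_ H v) v = ∑ X ∈ H, n X := by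
    simp only [hn, twoC_c, at_, Finset.card_eq_sum_ones, Finset.sum_filter, Finset.filter_filter]
    exact Finset.sum_comm
  have h3' : ∀ X ∈ H, n X ≤ 2 := by
    intro X hX
    refine (hcop X (hHA hX)).2 _ ?_ ?_
    · intro v hv
      obtain ⟨hv1, hv2, hv3⟩ := Finset.mem_filter.1 (Finset.mem_coe.1 hv)
      exact hfr v hv1 X (hHA hX) hv2
    · intro v hv
      exact (Finset.mem_filter.1 hv).2.2
  have h3s : ∑ X ∈ H, n X ≤ ∑ X ∈ H, 2 := Finset.sum_le_sum h3'
  have h3c : ∑ X ∈ H, 2 = 2 * H.card := by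
    rw [Finset.sum_const, smul_eq_mul, mul_comm]
  have hdisj : Disjoint Vi Vb := by
    rw [Finset.disjoint_left]
    intro v hv hv'
    exact (Finset.mem_filter.1 hv').2.1 (Finset.mem_filter.1 hv).2.1
  have h5 : ∑ v ∈ Vi, twoC_c (at_ H v) v + ∑ v ∈ Vb, twoC_c (at_ H v) v ≤
      ∑ v ∈ VF A, twoC_c (at_ H v) v := by
    rw [← Finset.sum_union hdisj]
    exact Finset.sum_le_sum_of_subset
      (Finset.union_subset (Finset.filter_subset _ _) (Finset.filter_subset _ _))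
  have h6 : ∑ v ∈ Vi, (at_ A v).card ≤ ∑ v ∈ Vi, (twoC_c (at_ H v) v + 1) :=
    Finset.sum_le_sum h1
  have h6' : ∑ v ∈ Vi, (twoC_c (at_ H v) v + 1) = ∑ v ∈ Vi, twoC_c (at_ H v) v + Vi.card := by
    rw [Finset.sum_add_distrib, Finset.sum_const, smul_eq_mul, mul_one]
  have h7 : ∑ v ∈ Vb, ((at_ H v).card - 1) ≤ ∑ v ∈ Vb, twoC_c (at_ H v) v :=
    Finset.sum_le_sum h2
  -- the vertices of `T`
  have hvi : ∀ v ∈ Vx A, v ∈ T → v ∈ Vi := by
    intro v hv hvT
    refine Finset.mem_filter.2 ⟨(twoC_VF hV fam).2 hv, ?_, T, hTH, hvT⟩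
    intro Y hY
    obtain ⟨hYA, hvY⟩ := Finset.mem_filter.1 hY
    exact htouch Y hYA ⟨v, hvY, hvT⟩
  obtain ⟨u, hu, w, hw, huw, huT, hwT⟩ := hT2 _ fam T (hinn T hTH)
  have huwV : ({u, w} : Finset ℂ) ⊆ Vi := by
    intro z hz
    simp only [Finset.mem_insert, Finset.mem_singleton] at hz
    rcases hz with rfl | rfl
    · exact hvi _ hu huT
    · exact hvi _ hw hwT
  have h8 : 2 ≤ Vi.card := by
    have := Finset.card_le_card huwV
    rwa [Finset.card_pair huw] at this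
  have e1 : Vi.card = 2 := by omega
  have e2 : ∑ X ∈ H, n X = ∑ X ∈ H, 2 := by omega
  have e3 : ∑ v ∈ Vi, (at_ A v).card = ∑ v ∈ Vi, (twoC_c (at_ H v) v + 1) := by omega
  have e4 : ∑ v ∈ Vb, ((at_ H v).card - 1) = ∑ v ∈ Vb, twoC_c (at_ H v) v := by omega
  have f2 := (Finset.sum_eq_sum_iff_of_le h3').1 e2
  have f3 := (Finset.sum_eq_sum_iff_of_le h1).1 e3
  have f4 := (Finset.sum_eq_sum_iff_of_le h2).1 e4
  have hVieq : Vi = {u, w} :=
    (Finset.eq_of_subset_of_card_le huwV (by rw [e1, Finset.card_pair huw])).symm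
  have hcn : ∀ X ∈ H, Cn X ⊆ Vx A := by
    intro X hX q hq
    by_contra hcon
    have hqn : q ∉ (VF A).filter (fun v => v ∈ X ∧ lowDens X v < 1 / 2) := fun h =>
      hcon ((twoC_VF hV fam).1 (Finset.mem_filter.1 h).1)
    have h9 := (hcop X (hHA hX)).2
      (insert q ((VF A).filter (fun v => v ∈ X ∧ lowDens X v < 1 / 2))) (by
        intro z hz
        rcases Finset.mem_insert.1 (Finset.mem_coe.1 hz) with rfl | hz
        · exact hq.1
        · obtain ⟨hz1, hz2, hz3⟩ := Finset.mem_filter.1 hz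
          exact hfr z hz1 X (hHA hX) hz2) (by
        intro z hz
        rcases Finset.mem_insert.1 hz with rfl | hz
        · exact hq.2
        · exact (Finset.mem_filter.1 hz).2.2)
    rw [Finset.card_insert_of_notMem hqn] at h9
    have := f2 X hX
    simp only [hn] at this
    omega
  have hvT : ∀ v ∈ Vx A, v ∈ T → v = u ∨ v = w := by
    intro v hv hvT
    have := hvi v hv hvT
    rw [hVieq] at this
    simpa using this
  have hclT : IsClosed T := hb.closed T (hHA hTH)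
  refine ⟨u, w, ⟨fam, hHA, hinn, hTH, hcopy, huw, ?_, hvT, htouch, hcn, ?_⟩⟩
  · -- the convex corners of `T`
    have hsub : (VF A).filter (fun v => v ∈ T ∧ lowDens T v < 1 / 2) ⊆ {u, w} := by
      intro z hz
      obtain ⟨hz1, hz2, hz3⟩ := Finset.mem_filter.1 hz
      rcases hvT z ((twoC_VF hV fam).1 hz1) hz2 with rfl | rfl <;> simp
    have heq := Finset.eq_of_subset_of_card_le hsub (by
      rw [Finset.card_pair huw]
      exact (f2 T hTH).ge)
    ext q
    constructor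
    · intro hq
      have hqT : q ∈ T := hclT.frontier_subset hq.1
      exact hvT q (hcn T hTH hq) hqT
    · intro hq
      have hq' : q ∈ ({u, w} : Finset ℂ) := by
        rcases hq with rfl | rfl <;> simp
      rw [← heq] at hq'
      obtain ⟨hz1, hz2, hz3⟩ := Finset.mem_filter.1 hq'
      exact ⟨hfr q hz1 T (hHA hTH) hz2, hz3⟩
  · rintro v hv ⟨X0, hX0, hvX0⟩
    have hvF := (twoC_VF hV fam).2 hv
    have hex : (at_ H v).card = twoC_c (at_ H v) v + 1 := by
      by_cases hin : at_ A v ⊆ H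
      · have hvi' : v ∈ Vi := Finset.mem_filter.2 ⟨hvF, hin, X0, hX0, hvX0⟩
        rw [← f3 v hvi', heqi v hvi']
      · have hvb : v ∈ Vb := Finset.mem_filter.2 ⟨hvF, hin, X0, hX0, hvX0⟩
        have h9 := f4 v hvb
        have h10 : 0 < (at_ H v).card :=
          Finset.card_pos.2 ⟨X0, Finset.mem_filter.2 ⟨hX0, hvX0⟩⟩
        omega
    have hnp : ∀ P : Finset (Set ℂ), P.card = twoC_c P v +
        (P.filter (fun X => ¬ lowDens X v < 1 / 2)).card := by
      intro P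
      unfold twoC_c
      exact (Finset.card_filter_add_card_filter_not (s := P) (fun X => lowDens X v < 1 / 2)).symm
    have h11 : 0 < ((at_ H v).filter (fun X => ¬ lowDens X v < 1 / 2)).card := by
      have := hnp (at_ H v)
      omega
    obtain ⟨N, hNm⟩ := Finset.card_pos.1 h11
    obtain ⟨hN1, hN2⟩ := Finset.mem_filter.1 hNm
    obtain ⟨hNH, hvN⟩ := Finset.mem_filter.1 hN1
    refine ⟨N, hNH, hvN, fun h => hN2 h.2, ?_⟩
    intro X hX hvX hXn
    have h12 : ((at_ A v).filter (fun X => ¬ lowDens X v < 1 / 2)).card ≤ 1 := by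
      have h13 := hnp (at_ A v)
      have h14 := hone v hvF
      omega
    refine Finset.card_le_one.1 h12 X ?_ N ?_
    · refine Finset.mem_filter.2 ⟨Finset.mem_filter.2 ⟨hX, hvX⟩, fun h => hXn ⟨?_, h⟩⟩
      exact hfr v hvF X hX hvX
    · exact Finset.mem_filter.2 ⟨Finset.mem_filter.2 ⟨hHA hNH, hvN⟩, hN2⟩

end Pool.Agent.Hsh
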