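import Pool.Agent.Hsh.StmtsD

set_option autoImplicit false

/-!
# Comparison of the sides (module CmpM)
-/

namespace Pool.Agent.Hsh

open Set Metric MeasureTheory Filter Topology Classical

theorem cmpM_eq (hNC : Stmt_NC) {T : Set ℂ} {u w : ℂ} {s : Set ℂ} (hc : IsCompact T)
    (hs : SideOK T u w s) (g h : ℂ ≃ᵢ ℂ) (hgh : g '' s ⊆ h '' s) : g '' s = h '' s := by
  have hu : u ∉ s := fun hu => (hs.sub hu).2 (by simp)
  have hw : w ∉ s := fun hw => (hs.sub hw).2 (by simp)
  have hbd : Bornology.IsBounded s :=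
    hc.isBounded.subset (fun z hz => hc.isClosed.frontier_subset (hs.sub hz).1)
  have key := hNC.2 (g.trans h.symm) s u w hbd hs.clos hu hw (by
    rintro _ ⟨z, hz, rfl⟩
    obtain ⟨y, hy, hyz⟩ := hgh ⟨z, hz, rfl⟩
    have : (g.trans h.symm) z = y := by
      rw [IsometryEquiv.trans_apply, ← hyz, IsometryEquiv.symm_apply_apply]
    rw [this]
    exact hy)
  apply Subset.antisymm hgh
  rintro _ ⟨z, hz, rfl⟩
  rw [← key] at hz
  obtain ⟨y, hy, rfl⟩ := hz
  refine ⟨y, hy, ?_⟩
  rw [IsometryEquiv.trans_apply, IsometryEquiv.apply_symm_apply]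

theorem cmpM_hf_seg (u w : ℂ) : hf u w '' (openSegment ℝ u w) = openSegment ℝ u w := by
  have key : ∀ z ∈ openSegment ℝ u w, hf u w z ∈ openSegment ℝ u w := by
    rintro z ⟨s, t, hs, ht, hst, rfl⟩
    refine ⟨t, s, ht, hs, by linarith, ?_⟩
    have : hf u w (s • u + t • w) = (u + w) - (s • u + t • w) := rfl
    rw [this]
    have h1 : (t : ℝ) = 1 - s := by linarith
    subst h1
    simp only [Complex.real_smul]
    push_cast
    ring
  have inv : ∀ z, hf u w (hf u w z) = z := by
    intro z
    have : hf u w (hf u w z) = (u + w) - ((u + w) - z) := rfl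
    rw [this]; ring
  apply Subset.antisymm
  · rintro _ ⟨z, hz, rfl⟩
    exact key z hz
  · intro z hz
    exact ⟨hf u w z, key z hz, inv z⟩

/-- the half turn does not preserve the short side -/
theorem cmpM_hf (hB : Stmt_Bas) (hNS : Stmt_NotSub) {A H : Finset (Set ℂ)} {T : Set ℂ} {u w : ℂ}
    {a b : Set ℂ} (D : Dat A H T u w a b) (ha : hf u w '' a = a) : False := by
  have hTA : T ∈ A := D.cfg.sub D.cfg.memT
  have hcl : IsClosed T := (hB A D.cfg.fam).closed T hTA
  have hfr : frontier T ⊆ T := hcl.frontier_subset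
  have hsub : ∀ z ∈ frontier T, z ∈ T := fun z hz => hfr hz
  apply hNS A D.cfg.fam T (D.cfg.inn T D.cfg.memT) (hf u w '' T) D.memT' (Ne.symm D.neT')
  intro z hz
  have hcov := D.ts.cover
  have haT : a ⊆ frontier T := by rw [hcov]; intro x hx; left; left; exact hx
  have hbT : b ⊆ frontier T := by rw [hcov]; intro x hx; left; right; exact hx
  have hu : u ∈ frontier T := by rw [hcov]; right; simp
  have hw : w ∈ frontier T := by rw [hcov]; right; simp
  rw [hcov] at hz
  rcases hz with (hz | hz) | hz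
  · rw [← ha] at hz
    exact image_mono (haT.trans hfr) hz
  · rw [← D.symb] at hz
    exact image_mono (hbT.trans hfr) hz
  · rcases hz with rfl | hz
    · refine ⟨w, hfr hw, ?_⟩
      have : hf z w w = (z + w) - w := rfl
      rw [this]; ring
    · have hz' : z = w := hz
      subst hz'
      refine ⟨u, hfr hu, ?_⟩
      have : hf u z u = (u + z) - u := rfl
      rw [this]; ring

/-- an isometry mapping the side to itself permutes the corners -/
theorem cmpM_corners {T : Set ℂ} {u w : ℂ} {s : Set ℂ} (hs : SideOK T u w s) (ω : ℂ ≃ᵢ ℂ)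
    (h : ω '' s = s) : ω '' {u, w} = {u, w} := by
  have hu : u ∉ s := fun hu => (hs.sub hu).2 (by simp)
  have hw : w ∉ s := fun hw => (hs.sub hw).2 (by simp)
  have hcl : ω '' (s ∪ {u, w}) = s ∪ {u, w} := by
    rw [← hs.clos]
    have : ω '' closure s = closure (ω '' s) := ω.toHomeomorph.image_closure s
    rw [this, h]
  have hd : (s ∪ {u, w}) \ s = {u, w} := by
    ext z
    constructor
    · rintro ⟨hz | hz, hz'⟩
      · exact absurd hz hz'
      · exact hz
    · intro hz
      refine ⟨Or.inr hz, ?_⟩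
      rcases hz with rfl | hz
      · exact hu
      · have hz' : z = w := hz
        subst hz'
        exact hw
  calc ω '' {u, w} = ω '' ((s ∪ {u, w}) \ s) := by rw [hd]
    _ = ω '' (s ∪ {u, w}) \ ω '' s := image_sdiff ω.injective _ _
    _ = (s ∪ {u, w}) \ s := by rw [hcl, h]
    _ = {u, w} := hd

theorem cmpM (hB : Stmt_Bas) (hNS : Stmt_NotSub) (hSi : Stmt_Side) (hCo : Stmt_Copy)
    (hNC : Stmt_NC) (h4 : Stmt_Four) (hR : Stmt_Rf) (hVA : Stmt_VfA) : Stmt_Cmp := by
  intro A H T u w a b D
  have hTA : T ∈ A := D.cfg.sub D.cfg.memT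
  have hdisk : IsDisk T := D.cfg.fam.disk T hTA
  have hcl : IsClosed T := (hB A D.cfg.fam).closed T hTA
  have hcomp : IsCompact T :=
    (hB A D.cfg.fam).compact.of_isClosed_subset hcl (by
      intro z hz
      exact mem_iUnion₂.mpr ⟨T, hTA, hz⟩)
  have hside := (hSi T hdisk u w D.cfg.ne D.cfg.cnT).2
  have ha : SideOK T u w a := hside a D.ts.sa
  have hb : SideOK T u w b := hside b D.ts.sb
  have aa : ∀ g h : ℂ ≃ᵢ ℂ, g '' a ⊆ h '' a → g '' a = h '' a :=
    fun g h hgh => cmpM_eq hNC hcomp ha g h hgh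
  have bb : ∀ g h : ℂ ≃ᵢ ℂ, g '' b ⊆ h '' b → g '' b = h '' b :=
    fun g h hgh => cmpM_eq hNC hcomp hb g h hgh
  have ba : ∀ g h : ℂ ≃ᵢ ℂ, ¬ g '' b ⊆ h '' a := by
    intro g h hgh
    obtain ⟨φ, hφ, hne⟩ := D.prec
    have e : (φ.trans h) '' b = h '' (φ '' b) := by
      rw [← image_comp]; rfl
    have h1 : g '' b ⊆ (φ.trans h) '' b := by
      rw [e]
      exact hgh.trans (image_mono hφ)
    have h2 := bb g (φ.trans h) h1
    apply hne
    apply Subset.antisymm hφ
    have h3 : h '' (φ '' b) ⊆ h '' a := by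
      rw [← e, ← h2]
      exact hgh
    exact (image_subset_image_iff h.injective).mp h3
  have sides : ∀ g : ℂ ≃ᵢ ℂ, ∀ s, IsSide (g '' T) s → s = g '' a ∨ s = g '' b := by
    intro g s hs
    obtain ⟨t, ht, rfl⟩ := ((hCo g T).2 s).mp hs
    rcases D.ts.only t ht with rfl | rfl
    · left; rfl
    · right; rfl
  have sg : ∀ X ∈ A, ∀ s, Sg a X s → ∀ g : ℂ ≃ᵢ ℂ, X = g '' T → s = g '' a := by
    rintro X hX s ⟨hs, h, hh⟩ g rfl
    rcases sides g s hs with h1 | h1
    · exact h1
    · exfalso
      apply ba g h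
      rw [← h1, ← hh]
  have two : ∀ X ∈ A, ∃ p q : ℂ, p ≠ q ∧ Cn X = {p, q} := by
    intro X hX
    obtain ⟨g, rfl⟩ := D.cfg.copy X hX
    refine ⟨g u, g w, fun h => D.cfg.ne (g.injective h), ?_⟩
    rw [(hCo g T).1, D.cfg.cnT, image_pair]
  refine ⟨aa, bb, ba, ?_, sg, two, ?_⟩
  · intro X hX s hs
    obtain ⟨g, rfl⟩ := D.cfg.copy X hX
    rcases sides g s hs with h1 | h1
    · left
      exact ⟨hs, g, h1⟩
    · right
      exact ⟨g, rfl, h1⟩
  · intro X hX Y hY hXY s hsX hsY
    obtain ⟨g, hg⟩ := D.cfg.copy X hX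
    obtain ⟨h, hh⟩ := D.cfg.copy Y hY
    have h1 := sg X hX s hsX g hg
    have h2 := sg Y hY s hsY h hh
    have hω : (h.trans g.symm) '' a = a := by
      have : (h.trans g.symm) '' a = g.symm '' (h '' a) := by
        rw [← image_comp]; rfl
      rw [this, ← h2, h1, ← image_comp]
      have e : (g.symm ∘ g : ℂ → ℂ) = id := by
        funext z; simp
      rw [e, image_id]
    have hc := cmpM_corners ha _ hω
    rcases h4 u w D.cfg.ne _ hc with hid | hhf | hrf | hvf
    · apply hXY
      rw [hg, hh]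
      apply image_congr
      intro z _
      have := hid z
      rw [IsometryEquiv.trans_apply] at this
      calc g z = g (g.symm (h z)) := by rw [this]
        _ = h z := by simp
    · apply cmpM_hf hB hNS D
      have : (hf u w : ℂ → ℂ) '' a = (h.trans g.symm) '' a :=
        image_congr (fun z _ => (hhf z).symm)
      rw [this, hω]
    · have hr : rf u w '' a = a := by
        have : rf u w '' a = (h.trans g.symm) '' a :=
          image_congr (fun z _ => (hrf z).symm)
        rw [this, hω]
      have hseg := hR T hdisk u w D.cfg.ne D.cfg.cnT a D.ts.sa hr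
      apply cmpM_hf hB hNS D
      rw [hseg, cmpM_hf_seg]
    · have huT : u ∈ T := by
        have : u ∈ Cn T := by rw [D.cfg.cnT]; simp
        exact hcl.frontier_subset this.1
      have hwT : w ∈ T := by
        have : w ∈ Cn T := by rw [D.cfg.cnT]; simp
        exact hcl.frontier_subset this.1
      obtain ⟨y, hy, hyy⟩ := hVA T hdisk u w D.cfg.ne huT hwT
      have e1 : h y = g y := by
        have := hvf y
        rw [hyy, IsometryEquiv.trans_apply] at this
        calc h y = g (g.symm (h y)) := by simp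
          _ = g y := by rw [this]
      have i1 : g y ∈ interior X := by
        rw [hg]
        have : interior (g '' T) = g '' interior T := (g.toHomeomorph.image_interior T).symm
        rw [this]
        exact ⟨y, hy, rfl⟩
      have i2 : g y ∈ interior Y := by
        rw [hh, ← e1]
        have : interior (h '' T) = h '' interior T := (h.toHomeomorph.image_interior T).symm
        rw [this]
        exact ⟨y, hy, rfl⟩
      exact (D.cfg.fam.disj X hX Y hY hXY).le_bot ⟨i1, i2⟩

end Pool.Agent.Hsh
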