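import Pool.Agent.Hsh.StmtsD

set_option autoImplicit false

/-!
# Corners and sides of a copy
-/

namespace Pool.Agent.Hsh

open Set Metric MeasureTheory Filter Topology Classical

theorem copy_frontier (g : ℂ ≃ᵢ ℂ) (X : Set ℂ) : frontier (g '' X) = g '' frontier X :=
  (g.toHomeomorph.image_frontier X).symm

theorem copy_cn (hD : Stmt_Dens) (g : ℂ ≃ᵢ ℂ) (X : Set ℂ) : Cn (g '' X) = g '' Cn X := by
  ext y
  constructor
  · rintro ⟨h1, h2⟩
    rw [copy_frontier] at h1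
    obtain ⟨x, hx, rfl⟩ := h1
    rw [hD.2.2] at h2
    exact ⟨x, ⟨hx, h2⟩, rfl⟩
  · rintro ⟨x, ⟨h1, h2⟩, rfl⟩
    refine ⟨?_, ?_⟩
    · rw [copy_frontier]
      exact ⟨x, h1, rfl⟩
    · rw [hD.2.2]
      exact h2

theorem copyT (hD : Stmt_Dens) : Stmt_Copy := by
  intro g X
  have hF : frontier (g '' X) \ Cn (g '' X) = g '' (frontier X \ Cn X) := by
    rw [copy_frontier, copy_cn hD, Set.image_sdiff g.injective]
  have hcomp : ∀ z ∈ frontier X \ Cn X, g '' connectedComponentIn (frontier X \ Cn X) z =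
      connectedComponentIn (g '' (frontier X \ Cn X)) (g z) :=
    fun z hz => g.toHomeomorph.image_connectedComponentIn hz
  refine ⟨copy_cn hD g X, fun s => ?_⟩
  unfold IsSide
  rw [hF]
  constructor
  · rintro ⟨_, ⟨z, hz, rfl⟩, rfl⟩
    exact ⟨_, ⟨z, hz, rfl⟩, (hcomp z hz).symm⟩
  · rintro ⟨_, ⟨z, hz, rfl⟩, rfl⟩
    exact ⟨g z, ⟨z, hz, rfl⟩, hcomp z hz⟩

end Pool.Agent.Hsh
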