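import Pool.Agent.Hsh.StmtsD

set_option autoImplicit false

/-!
# Module DatM: the short and the long side of the tile
-/

namespace Pool.Agent.Hsh

open Set Metric MeasureTheory Filter Topology Classical

theorem datM_fr (hB : Stmt_Bas) {A H : Finset (Set ℂ)} {T : Set ℂ} {u w : ℂ}
    (hc : Cfg A H T u w) : fr A T = frontier T \ Cn T := by
  have hT := hc.inn T hc.memT
  have hcl := (hB A hc.fam).closed T hT.1
  ext z
  constructor
  · rintro ⟨⟨hz, _⟩, hzV⟩
    exact ⟨hz, fun h => hzV (hc.cn T hc.memT h)⟩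
  · rintro ⟨hz, hzC⟩
    have hzT : z ∈ T := hcl.frontier_subset hz
    refine ⟨⟨hz, hT.2 hzT⟩, fun hzV => hzC ?_⟩
    rw [hc.cnT]
    exact hc.vT z hzV hzT

theorem datM_side (hB : Stmt_Bas) {A H : Finset (Set ℂ)} {T : Set ℂ} {u w : ℂ}
    (hc : Cfg A H T u w) (s : Set ℂ) : IsSide T s ↔ s ∈ arcs A T := by
  unfold IsSide arcs
  rw [datM_fr hB hc]
  exact Iff.rfl

theorem datM_swap {X : Set ℂ} {p q : ℂ} {a b : Set ℂ} (h : TwoSides X p q a b) :
    TwoSides X p q b a :=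
  ⟨h.sb, h.sa, h.ne.symm, fun s hs => (h.only s hs).symm, h.disj.symm, by
    rw [h.cover, union_comm a b]⟩

/-- corners of a copy -/
theorem datM_cn (hCo : Stmt_Copy) {T : Set ℂ} {u w : ℂ} (hcT : Cn T = {u, w}) (g : ℂ ≃ᵢ ℂ) :
    Cn (g '' T) = {g u, g w} := by
  rw [(hCo g T).1, hcT, image_pair]

/-- the other tile at a side -/
theorem datM_other (hB : Stmt_Bas) (h1 : Stmt_Arc1) {A H : Finset (Set ℂ)} {T : Set ℂ} {u w : ℂ}
    (hc : Cfg A H T u w) {s : Set ℂ} (hs : IsSide T s) :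
    ∃ X ∈ A, X ∈ H ∧ X ≠ T ∧ s ∈ arcs A X ∧ s ⊆ frontier X ∧ s.Nonempty := by
  have hT := hc.inn T hc.memT
  obtain ⟨X, hX, hXT, hsX, hne, hsub, hat⟩ := h1 A hc.fam T hT.1 s ((datM_side hB hc s).1 hs)
  obtain ⟨p, hp⟩ := hne
  have h2 : X ∈ at_ A p := by rw [hat p hp]; simp
  have h3 : T ∈ at_ A p := by rw [hat p hp]; simp
  refine ⟨X, hX, hc.touch X hX ⟨p, (Finset.mem_filter.1 h2).2, (Finset.mem_filter.1 h3).2⟩, hXT,
    hsX, ?_, ⟨p, hp⟩⟩
  obtain ⟨z, _, rfl⟩ := hsX
  intro y hy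
  exact (connectedComponentIn_subset _ _ hy).1.1

/-- a tile different from `T` does not contain both sides -/
theorem datM_both (hB : Stmt_Bas) (hNS : Stmt_NotSub) (hSi : Stmt_Side) {A H : Finset (Set ℂ)}
    {T : Set ℂ} {u w : ℂ} (hc : Cfg A H T u w) {a b : Set ℂ} (ht : TwoSides T u w a b) {X : Set ℂ}
    (hX : X ∈ A) (hXT : X ≠ T) (ha : a ⊆ X) (hb : b ⊆ X) : False := by
  have hT := hc.inn T hc.memT
  refine hNS A hc.fam T hT X hX hXT.symm ?_
  have hcl := (hB A hc.fam).closed X hX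
  have hso := (hSi T (hc.fam.disk T hT.1) u w hc.ne hc.cnT).2 a ht.sa
  have h1 : closure a ⊆ X := closure_minimal ha hcl
  rw [hso.clos] at h1
  rw [ht.cover]
  rintro z ((hz | hz) | hz)
  · exact ha hz
  · exact hb hz
  · exact h1 (Or.inr hz)

theorem datM_hf (u w z : ℂ) : hf u w z = u + w - z := rfl

theorem datM_hf_inv (u w z : ℂ) : hf u w (hf u w z) = z := by
  rw [datM_hf, datM_hf]; ring

theorem datM_rf_inv {u w : ℂ} (huw : u ≠ w) (z : ℂ) : rf u w (rf u w z) = z := by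
  have h1 : w - u ≠ 0 := sub_ne_zero.2 huw.symm
  have h2 : (starRingEnd ℂ) (w - u) ≠ 0 := by
    rwa [Ne, map_eq_zero]
  have h3 : (starRingEnd ℂ) (w - u) = (starRingEnd ℂ) w - (starRingEnd ℂ) u := map_sub _ _ _
  unfold rf
  simp only [map_add, map_sub, map_mul, map_div₀, Complex.conj_conj, map_ofNat]
  rw [h3] at h2
  field_simp
  ring

/-- the isometry of a tile having a side of `T` as a side -/
theorem datM_key (hB : Stmt_Bas) (hNS : Stmt_NotSub) (hSi : Stmt_Side) (hCo : Stmt_Copy)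
    (h4 : Stmt_Four) (hVA : Stmt_VfA) {A H : Finset (Set ℂ)} {T : Set ℂ} {u w : ℂ}
    (hc : Cfg A H T u w) {a b : Set ℂ} (ht : TwoSides T u w a b) (φ : ℂ ≃ᵢ ℂ)
    (hX : φ '' T ∈ A) (hXT : φ '' T ≠ T) (hs : IsSide (φ '' T) a) :
    ((∀ z, φ z = hf u w z) ∨ (∀ z, φ z = rf u w z)) ∧ φ '' a = a := by
  have hT := hc.inn T hc.memT
  have hTd := hc.fam.disk T hT.1
  have hso := (hSi T hTd u w hc.ne hc.cnT).2 a ht.sa
  have hcX := datM_cn hCo hc.cnT φ
  have hne : φ u ≠ φ w := fun h => hc.ne (φ.injective h)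
  have hso' := (hSi (φ '' T) (hc.fam.disk _ hX) (φ u) (φ w) hne hcX).2 a hs
  have hpair : φ '' {u, w} = {u, w} := by
    rw [image_pair]
    have e1 : ({u, w} : Set ℂ) = closure a \ a := by
      rw [hso.clos]
      ext z
      constructor
      · intro hz
        exact ⟨Or.inr hz, fun h => (hso.sub h).2 hz⟩
      · rintro ⟨h | h, h'⟩
        · exact absurd h h'
        · exact h
    have e2 : ({φ u, φ w} : Set ℂ) = closure a \ a := by
      rw [hso'.clos]
      ext z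
      constructor
      · intro hz
        exact ⟨Or.inr hz, fun h => (hso'.sub h).2 hz⟩
      · rintro ⟨h | h, h'⟩
        · exact absurd h h'
        · exact h
    rw [e1, e2]
  have hcl := (hB A hc.fam).closed T hT.1
  have huT : u ∈ T := by
    have : u ∈ Cn T := by rw [hc.cnT]; simp
    exact hcl.frontier_subset this.1
  have hwT : w ∈ T := by
    have : w ∈ Cn T := by rw [hc.cnT]; simp
    exact hcl.frontier_subset this.1
  have hcase : (∀ z, φ z = hf u w z) ∨ (∀ z, φ z = rf u w z) := by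
    rcases h4 u w hc.ne φ hpair with h | h | h | h
    · exfalso
      apply hXT
      have : ∀ z ∈ T, φ z = z := fun z _ => h z
      rw [image_congr this, image_id']
    · exact Or.inl h
    · exact Or.inr h
    · exfalso
      obtain ⟨y, hy, hyv⟩ := hVA T hTd u w hc.ne huT hwT
      have h5 : y ∈ interior (φ '' T) := by
        have h6 : φ '' interior T = interior (φ '' T) :=
          φ.toHomeomorph.image_interior T
        rw [← h6]
        exact ⟨y, hy, by rw [h y, hyv]⟩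
      exact Set.disjoint_left.1 (hc.fam.disj T hT.1 _ hX (Ne.symm hXT)) hy h5
  refine ⟨hcase, ?_⟩
  have hinv : ∀ z, φ (φ z) = z := by
    intro z
    rcases hcase with h | h
    · rw [h, h, datM_hf_inv]
    · rw [h, h, datM_rf_inv hc.ne]
  obtain ⟨t, ht1, ht2⟩ := ((hCo φ T).2 a).1 hs
  rcases ht.only t ht1 with h | h
  · rw [← h]; rw [h] at ht2 ⊢; exact ht2.symm
  · exfalso
    -- a = φ '' b, b = φ '' a
    have hb : b = φ '' a := by
      rw [ht2, h, image_image]
      simp only [hinv, image_id']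
    refine datM_both hB hNS hSi hc ht hX hXT ?_ ?_
    · exact hso'.sub.trans (sdiff_subset.trans
        ((hB A hc.fam).closed _ hX).frontier_subset)
    · rw [hb]
      exact image_mono (hso.sub.trans (sdiff_subset.trans hcl.frontier_subset))

/-- points of a segment at maximal distance -/
theorem datM_seg {u w x y : ℂ} (huw : u ≠ w) (hx : x ∈ segment ℝ u w) (hy : y ∈ segment ℝ u w)
    (hd : dist x y = dist u w) : (x = u ∧ y = w) ∨ (x = w ∧ y = u) := by
  rw [segment_eq_image'] at hx hy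
  obtain ⟨α, ⟨ha0, ha1⟩, rfl⟩ := hx
  obtain ⟨β, ⟨hb0, hb1⟩, rfl⟩ := hy
  simp only at hd
  have h1 : u + α • (w - u) - (u + β • (w - u)) = (α - β) • (w - u) := by
    rw [sub_smul]; ring
  rw [dist_eq_norm, h1, norm_smul, dist_comm u w, dist_eq_norm] at hd
  have h2 : ‖w - u‖ ≠ 0 := norm_ne_zero_iff.2 (sub_ne_zero.2 huw.symm)
  have h3 : ‖α - β‖ = 1 := by
    have : ‖α - β‖ * ‖w - u‖ = 1 * ‖w - u‖ := by rw [hd, one_mul]
    exact mul_right_cancel₀ h2 this
  rw [Real.norm_eq_abs] at h3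
  rcases (abs_eq (by norm_num : (0:ℝ) ≤ 1)).1 h3 with h4 | h4
  · have e1 : α = 1 := by linarith
    have e2 : β = 0 := by linarith
    subst e1; subst e2
    right
    simp
  · have e1 : α = 0 := by linarith
    have e2 : β = 1 := by linarith
    subst e1; subst e2
    left
    simp

theorem datM_mem_seg {u w z : ℂ} (h : dist u z + dist z w = dist u w) : z ∈ segment ℝ u w := by
  rw [mem_segment_iff_wbtw]
  exact dist_add_dist_eq_iff.1 h

/-- the isometry preserving the segment preserves a side which is the segment -/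
theorem datM_hf_seg (u w : ℂ) : hf u w '' openSegment ℝ u w = openSegment ℝ u w := by
  have h1 : ∀ z ∈ openSegment ℝ u w, hf u w z ∈ openSegment ℝ u w := by
    rintro z ⟨α, β, h1, h2, h3, rfl⟩
    refine ⟨β, α, h2, h1, by linarith, ?_⟩
    rw [datM_hf]
    have h4 : α = 1 - β := by linarith
    subst h4
    simp only [Complex.real_smul]
    push_cast
    ring
  apply Subset.antisymm
  · rintro _ ⟨z, hz, rfl⟩
    exact h1 z hz
  · intro z hz
    exact ⟨hf u w z, h1 z hz, datM_hf_inv u w z⟩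

/-- (A): not both sides of `T` are sides of the other tiles -/
theorem datM_A (hB : Stmt_Bas) (hNS : Stmt_NotSub) (hSi : Stmt_Side) (hCo : Stmt_Copy)
    (h4 : Stmt_Four) (hR : Stmt_Rf) (hVA : Stmt_VfA) {A H : Finset (Set ℂ)} {T : Set ℂ} {u w : ℂ}
    (hc : Cfg A H T u w) {a b : Set ℂ} (ht : TwoSides T u w a b) (φ ψ : ℂ ≃ᵢ ℂ)
    (hX : φ '' T ∈ A) (hXT : φ '' T ≠ T) (hs : IsSide (φ '' T) a)
    (hY : ψ '' T ∈ A) (hYT : ψ '' T ≠ T) (hs' : IsSide (ψ '' T) b) : False := by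
  have hT := hc.inn T hc.memT
  have hTd := hc.fam.disk T hT.1
  have hsub : ∀ X ∈ A, ∀ s, IsSide X s → s ⊆ X := by
    intro X hXA s hs
    obtain ⟨z, _, rfl⟩ := hs
    intro y hy
    exact ((hB A hc.fam).closed _ hXA).frontier_subset (connectedComponentIn_subset _ _ hy).1
  obtain ⟨h1, h2⟩ := datM_key hB hNS hSi hCo h4 hVA hc ht φ hX hXT hs
  obtain ⟨h3, h5⟩ := datM_key hB hNS hSi hCo h4 hVA hc (datM_swap ht) ψ hY hYT hs'
  have same : (∀ z, φ z = ψ z) → False := by
    intro h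
    have h6 : φ '' T = ψ '' T := image_congr fun z _ => h z
    refine datM_both hB hNS hSi hc ht hX hXT (hsub _ hX a hs) ?_
    rw [h6]
    exact hsub _ hY b hs'
  rcases h1 with h1 | h1 <;> rcases h3 with h3 | h3
  · exact same fun z => by rw [h1, h3]
  · -- φ = hf, ψ = rf
    have e1 : rf u w '' b = b := by
      have : ψ '' b = rf u w '' b := image_congr fun z _ => h3 z
      rw [← this, h5]
    have e2 := hR T hTd u w hc.ne hc.cnT b ht.sb e1
    have e3 : φ '' b = b := by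
      have : φ '' b = hf u w '' b := image_congr fun z _ => h1 z
      rw [this, e2, datM_hf_seg]
    have e4 : IsSide (φ '' T) b := ((hCo φ T).2 b).2 ⟨b, ht.sb, e3.symm⟩
    exact datM_both hB hNS hSi hc ht hX hXT (hsub _ hX a hs) (hsub _ hX b e4)
  · -- φ = rf, ψ = hf
    have e1 : rf u w '' a = a := by
      have : φ '' a = rf u w '' a := image_congr fun z _ => h1 z
      rw [← this, h2]
    have e2 := hR T hTd u w hc.ne hc.cnT a ht.sa e1
    have e3 : ψ '' a = a := by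
      have : ψ '' a = hf u w '' a := image_congr fun z _ => h3 z
      rw [this, e2, datM_hf_seg]
    have e4 : IsSide (ψ '' T) a := ((hCo ψ T).2 a).2 ⟨a, ht.sa, e3.symm⟩
    exact datM_both hB hNS hSi hc ht hY hYT (hsub _ hY a e4) (hsub _ hY b hs')
  · exact same fun z => by rw [h1, h3]

/-- NC part 2 for a side -/
theorem datM_nc (hNC : Stmt_NC) {T a : Set ℂ} {u w : ℂ} (hTd : IsDisk T)
    (hso : SideOK T u w a) (φ : ℂ ≃ᵢ ℂ) (h : a ⊆ φ '' a) : a = φ '' a := by
  have hbd : Bornology.IsBounded a := by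
    have : IsCompact (closure a) ∨ True := Or.inr trivial
    obtain ⟨γ, hγ, _, _, _, hs⟩ := hso.par
    rw [hs]
    exact (isCompact_Icc.image_of_continuousOn hγ).isBounded.subset (image_mono Ioo_subset_Icc_self)
  have hu : u ∉ a := fun h => (hso.sub h).2 (by simp)
  have hw : w ∉ a := fun h => (hso.sub h).2 (by simp)
  have h1 : φ.symm '' a ⊆ a := by
    rintro _ ⟨z, hz, rfl⟩
    obtain ⟨y, hy, rfl⟩ := h hz
    rwa [φ.symm_apply_apply]
  have h2 := hNC.2 φ.symm a u w hbd hso.clos hu hw h1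
  rw [← h2, image_image]
  simp only [IsometryEquiv.apply_symm_apply, image_id']
  exact h2

/-- (B), (C) -/
theorem datM_BC (hB : Stmt_Bas) (h1 : Stmt_Arc1) (hNS : Stmt_NotSub) (hSi : Stmt_Side)
    (hCo : Stmt_Copy) (hNC : Stmt_NC) (hSA : Stmt_SArc) (h4 : Stmt_Four) (hR : Stmt_Rf)
    (hVA : Stmt_VfA) {A H : Finset (Set ℂ)} {T : Set ℂ} {u w : ℂ} (hc : Cfg A H T u w)
    {a b : Set ℂ} (ht : TwoSides T u w a b) (φ : ℂ ≃ᵢ ℂ) (hX : φ '' T ∈ A) (hXH : φ '' T ∈ H)
    (ha : a ∈ arcs A (φ '' T)) (hna : ¬ IsSide (φ '' T) a) : Dat A H T u w a b := by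
  have hT := hc.inn T hc.memT
  have hTd := hc.fam.disk T hT.1
  have hsoA := (hSi T hTd u w hc.ne hc.cnT).2 a ht.sa
  have hsoB := (hSi T hTd u w hc.ne hc.cnT).2 b ht.sb
  -- the side of a tile of H containing an arc
  have hin : ∀ χ : ℂ ≃ᵢ ℂ, χ '' T ∈ H → ∀ l ∈ arcs A (χ '' T), ∃ t, IsSide T t ∧ l ⊆ χ '' t := by
    intro χ hχ l hl
    have hcX := datM_cn hCo hc.cnT χ
    have hne : χ u ≠ χ w := fun h => hc.ne (χ.injective h)
    have hu : χ u ∈ Vx A := hc.cn _ hχ (by rw [hcX]; simp)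
    have hw : χ w ∈ Vx A := hc.cn _ hχ (by rw [hcX]; simp)
    obtain ⟨s, hs, hls⟩ := (hSA A hc.fam _ (hc.inn _ hχ) (χ u) (χ w) hne hcX hu hw).side l hl
    obtain ⟨t, ht1, rfl⟩ := ((hCo χ T).2 s).1 hs
    exact ⟨t, ht1, hls⟩
  -- (B)
  have hprec : a ⊆ φ '' b ∧ a ≠ φ '' b := by
    obtain ⟨t, ht1, hat⟩ := hin φ hXH a ha
    rcases ht.only t ht1 with h | h
    · exfalso
      rw [h] at hat
      have h2 := datM_nc hNC hTd hsoA φ hat
      exact hna (((hCo φ T).2 a).2 ⟨a, ht.sa, h2⟩)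
    · rw [h] at hat
      refine ⟨hat, fun h2 => hna (((hCo φ T).2 a).2 ⟨b, ht.sb, h2⟩)⟩
  -- consequence
  have hcons : ∀ ψ : ℂ ≃ᵢ ℂ, ¬ b ⊆ ψ '' a := by
    intro ψ hψ
    have h2 : b ⊆ (φ.trans ψ) '' b := by
      intro z hz
      obtain ⟨x, hx, rfl⟩ := hψ hz
      obtain ⟨y, hy, rfl⟩ := hprec.1 hx
      exact ⟨y, hy, rfl⟩
    have h3 := datM_nc hNC hTd hsoB (φ.trans ψ) h2
    apply hprec.2
    apply Subset.antisymm hprec.1
    rintro _ ⟨y, hy, rfl⟩
    have h5 : ψ (φ y) ∈ b := by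
      rw [h3]
      exact ⟨y, hy, rfl⟩
    obtain ⟨x, hx, hxy⟩ := hψ h5
    rwa [← ψ.injective hxy]
  -- (C)
  obtain ⟨Y, hY, hYH, hYT, hbY, hbf, -⟩ := datM_other hB h1 hc ht.sb
  obtain ⟨ψ, rfl⟩ := hc.copy Y hY
  have hbψ : b = ψ '' b := by
    obtain ⟨t, ht1, hbt⟩ := hin ψ hYH b hbY
    rcases ht.only t ht1 with h | h
    · exfalso
      rw [h] at hbt
      exact hcons ψ hbt
    · rw [h] at hbt
      exact datM_nc hNC hTd hsoB ψ hbt
  have hbs : IsSide (ψ '' T) b := ((hCo ψ T).2 b).2 ⟨b, ht.sb, hbψ⟩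
  obtain ⟨h5, h6⟩ := datM_key hB hNS hSi hCo h4 hVA hc (datM_swap ht) ψ hY hYT hbs
  rcases h5 with h5 | h5
  · -- ψ = hf
    have e1 : hf u w '' T = ψ '' T := image_congr fun z _ => (h5 z).symm
    have e2 : hf u w '' b = ψ '' b := image_congr fun z _ => (h5 z).symm
    refine ⟨hc, ht, ⟨φ, hprec⟩, ?_, ?_, ?_, ?_⟩
    · rw [e1]; exact hY
    · rw [e1]; exact hYT
    · rw [e2, h6]
    · rw [e1]; exact hbY
  · -- ψ = rf
    exfalso
    have e1 : rf u w '' b = b := by
      have : ψ '' b = rf u w '' b := image_congr fun z _ => h5 z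
      rw [← this, h6]
    have e2 := hR T hTd u w hc.ne hc.cnT b ht.sb e1
    have hbseg : ∀ z ∈ b ∪ {u, w}, z ∈ segment ℝ u w := by
      rintro z (hz | hz | hz)
      · rw [e2] at hz
        exact openSegment_subset_segment ℝ u w hz
      · rw [hz]; exact left_mem_segment ℝ u w
      · rw [mem_singleton_iff.1 hz]; exact right_mem_segment ℝ u w
    have hca : closure a ⊆ φ '' (b ∪ {u, w}) := by
      have h7 : φ '' closure b = closure (φ '' b) := φ.toHomeomorph.image_closure b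
      rw [← hsoB.clos, h7]
      exact closure_mono hprec.1
    rw [hsoA.clos] at hca
    obtain ⟨x, hx, hxu⟩ := hca (Or.inr (by simp : u ∈ ({u, w} : Set ℂ)))
    obtain ⟨y, hy, hyw⟩ := hca (Or.inr (by simp : w ∈ ({u, w} : Set ℂ)))
    have hd : dist x y = dist u w := by
      rw [← hxu, ← hyw, φ.dist_eq]
    have hcase := datM_seg hc.ne (hbseg x hx) (hbseg y hy) hd
    obtain ⟨z, hz⟩ := hsoA.conn.nonempty
    obtain ⟨v, hv, hvz⟩ := hprec.1 hz
    have hv' : v ∈ segment ℝ u w := hbseg v (Or.inl hv)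
    rw [mem_segment_iff_wbtw, ← dist_add_dist_eq_iff] at hv'
    have hzs : z ∈ segment ℝ u w := by
      apply datM_mem_seg
      rcases hcase with ⟨h7, h8⟩ | ⟨h7, h8⟩
      · rw [h7] at hxu
        rw [h8] at hyw
        have e3 : dist u z = dist u v := by
          have := φ.dist_eq u v
          rwa [hxu, hvz] at this
        have e4 : dist z w = dist v w := by
          have := φ.dist_eq v w
          rwa [hyw, hvz] at this
        rw [e3, e4]
        exact hv'
      · rw [h7] at hxu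
        rw [h8] at hyw
        have e3 : dist u z = dist v w := by
          have := φ.dist_eq w v
          rw [hxu, hvz] at this
          rw [this, dist_comm]
        have e4 : dist z w = dist u v := by
          have := φ.dist_eq v u
          rw [hyw, hvz] at this
          rw [this, dist_comm]
        rw [e3, e4]
        linarith
    have hzb : z ∈ b ∪ {u, w} := by
      rw [← hsoB.clos, e2]
      have : closure (openSegment ℝ u w) = segment ℝ u w := closure_openSegment u w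
      rw [this]
      exact hzs
    rcases hzb with h7 | h7
    · exact Set.disjoint_left.1 ht.disj hz h7
    · exact (hsoA.sub hz).2 h7

/-- M2 -/
theorem datM (hB : Stmt_Bas) (h1 : Stmt_Arc1) (hNS : Stmt_NotSub) (hSi : Stmt_Side)
    (hCo : Stmt_Copy) (hNC : Stmt_NC) (hSA : Stmt_SArc) (h4 : Stmt_Four) (hR : Stmt_Rf)
    (hVA : Stmt_VfA) : Stmt_Dat := by
  intro A H T u w hc
  have hT := hc.inn T hc.memT
  have hTd := hc.fam.disk T hT.1
  obtain ⟨s1, s2, ht⟩ := (hSi T hTd u w hc.ne hc.cnT).1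
  obtain ⟨X, hX, hXH, hXT, hsX, -, -⟩ := datM_other hB h1 hc ht.sa
  obtain ⟨Y, hY, hYH, hYT, hsY, -, -⟩ := datM_other hB h1 hc ht.sb
  obtain ⟨φ, rfl⟩ := hc.copy X hX
  obtain ⟨ψ, rfl⟩ := hc.copy Y hY
  by_cases h2 : IsSide (φ '' T) s1
  · by_cases h3 : IsSide (ψ '' T) s2
    · exact (datM_A hB hNS hSi hCo h4 hR hVA hc ht φ ψ hX hXT h2 hY hYT h3).elim
    · exact ⟨s2, s1, datM_BC hB h1 hNS hSi hCo hNC hSA h4 hR hVA hc (datM_swap ht) ψ hY hYH hsY h3⟩
  · exact ⟨s1, s2, datM_BC hB h1 hNS hSi hCo hNC hSA h4 hR hVA hc ht φ hX hXH hsX h2⟩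

end Pool.Agent.Hsh
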