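import Pool.Agent.Hsh.StmtsD
import Pool.Agent.Hsh.Final

set_option autoImplicit false

/-!
# The sharp theorem for two convex corners: not twice
-/

namespace Pool.Agent.Hsh

open Set Metric MeasureTheory Filter Topology Classical

/-- Prototiles with at most two convex corners, none of them a cusp, cannot be surrounded twice. -/
theorem finD_main (hb : Stmt_Bas) (hC : Stmt_Cfg) (hD : Stmt_Dat) (hL : Stmt_Local) (T : Set ℂ)
    (hT : IsDisk T) (hpos : ∀ q ∈ frontier T, 0 < lowDens T q)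
    (htwo : ∀ F : Finset ℂ, (↑F : Set ℂ) ⊆ frontier T →
      (∀ q ∈ F, lowDens T q < 1 / 2) → F.card ≤ 2) :
    ¬ CanSurround T 2 := by
  rintro ⟨A, hA0, hP, hS⟩
  have s0 := hS 0 (by norm_num)
  have s1 := hS 1 (by norm_num)
  have p1 := hP 1 le_rfl (by norm_num)
  have p2 := hP 2 (by norm_num) (by norm_num)
  norm_num at s0 s1
  have fam := fin_fam hT p2
  have c12 : A 1 ⊆ A 2 := s1.1
  have c01 : A 0 ⊆ A 1 := s0.1
  have hT0 : ({T} : Finset (Set ℂ)) ⊆ A 1 := hA0 ▸ c01
  have i1 := fin_inn (Finset.Subset.refl (A 2)) s1 c12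
  have con0 : Con (A 2) {T} := by
    intro P hP hne _
    exact Finset.Subset.antisymm hP (by
      obtain ⟨X, hX⟩ := hne
      have := Finset.mem_singleton.1 (hP hX)
      intro Y hY
      rw [Finset.mem_singleton.1 hY, ← this]; exact hX)
  have L1 : Lev (A 2) (A 1) {T} :=
    ⟨fam, c12, p1.disk, i1, hT0, Finset.singleton_nonempty _, con0,
      fin_tch_sub fam hb c12 (le_of_eq hA0.symm) s0⟩
  obtain ⟨u, w, h1⟩ := hC (A 2) (A 1) T L1 p2.copy hpos htwo
  obtain ⟨a, b, h2⟩ := hD _ _ _ _ _ h1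
  exact hL _ _ _ _ _ _ _ h2

end Pool.Agent.Hsh
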