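import Pool.Agent.Hsh.StmtsD

set_option autoImplicit false

/-!
# MP_51bd69_co: the isometries preserving a pair of points
-/

namespace Pool.Agent.Hsh

open Set Metric MeasureTheory Filter Topology Classical

/-- Form of the isometries of the plane. -/
theorem four_form (φ : ℂ ≃ᵢ ℂ) (u : ℂ) : ∃ a : ℂ, (∀ z, φ z = a * (z - u) + φ u) ∨
    ∀ z, φ z = a * (starRingEnd ℂ) (z - u) + φ u := by
  have hA : ∀ z, φ.toRealAffineIsometryEquiv z = φ z := fun z => rfl
  have h1 : ∀ z, φ z = φ.toRealAffineIsometryEquiv.linearIsometryEquiv (z - u) + φ u := by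
    intro z
    have h := φ.toRealAffineIsometryEquiv.map_vadd u (z - u)
    simp only [vadd_eq_add, sub_add_cancel, hA] at h
    exact h
  obtain ⟨a, ha | ha⟩ := linear_isometry_complex φ.toRealAffineIsometryEquiv.linearIsometryEquiv
  · refine ⟨a, Or.inl fun z => ?_⟩
    rw [h1 z, ha]
    rfl
  · refine ⟨a, Or.inr fun z => ?_⟩
    rw [h1 z, ha]
    rfl

theorem four : Stmt_Four := by
  intro u w huw φ hφ
  have hd : w - u ≠ 0 := sub_ne_zero.2 (Ne.symm huw)
  have hc : (starRingEnd ℂ) (w - u) ≠ 0 := (map_ne_zero _).2 hd
  have hinj : φ u ≠ φ w := fun h => huw (φ.injective h)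
  have hu : φ u = u ∨ φ u = w := by
    have : φ u ∈ φ '' {u, w} := ⟨u, by simp, rfl⟩
    rw [hφ] at this
    simpa using this
  have hw : φ w = u ∨ φ w = w := by
    have : φ w ∈ φ '' {u, w} := ⟨w, by simp, rfl⟩
    rw [hφ] at this
    simpa using this
  have hcz : ∀ z : ℂ, (starRingEnd ℂ) (z - (u + w) / 2) =
      (starRingEnd ℂ) (z - u) - (starRingEnd ℂ) (w - u) / 2 := by
    intro z
    simp only [map_sub, map_add, map_div₀, map_ofNat]
    ring
  obtain ⟨a, ha | ha⟩ := four_form φ u
  · have h2 := ha w
    rcases hu with hu | hu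
    · have hw' : φ w = w := hw.resolve_left fun h => hinj (hu.trans h.symm)
      rw [hu, hw'] at h2
      have ha1 : a = 1 := by
        have : (a - 1) * (w - u) = 0 := by linear_combination -h2
        rcases mul_eq_zero.1 this with h | h
        · linear_combination h
        · exact absurd h hd
      refine Or.inl fun z => ?_
      rw [ha z, hu, ha1]
      ring
    · have hw' : φ w = u := hw.resolve_right fun h => hinj (hu.trans h.symm)
      rw [hu, hw'] at h2
      have ha1 : a = -1 := by
        have : (a + 1) * (w - u) = 0 := by linear_combination -h2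
        rcases mul_eq_zero.1 this with h | h
        · linear_combination h
        · exact absurd h hd
      refine Or.inr (Or.inl fun z => ?_)
      rw [ha z, hu, ha1]
      change -1 * (z - u) + w = u + w - z
      ring
  · have h2 := ha w
    rcases hu with hu | hu
    · have hw' : φ w = w := hw.resolve_left fun h => hinj (hu.trans h.symm)
      rw [hu, hw'] at h2
      have ha1 : a = (w - u) / (starRingEnd ℂ) (w - u) := by
        rw [eq_div_iff hc]
        linear_combination -h2
      refine Or.inr (Or.inr (Or.inl fun z => ?_))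
      rw [ha z, hu, rf, hcz, ← ha1]
      have h3 : a * (starRingEnd ℂ) (w - u) = w - u := by linear_combination -h2
      linear_combination (1 / 2 : ℂ) * h3
    · have hw' : φ w = u := hw.resolve_right fun h => hinj (hu.trans h.symm)
      rw [hu, hw'] at h2
      have ha1 : (w - u) / (starRingEnd ℂ) (w - u) = -a := by
        rw [div_eq_iff hc]
        linear_combination -h2
      refine Or.inr (Or.inr (Or.inr fun z => ?_))
      rw [ha z, hu, vf, hcz, ha1]
      have h3 : a * (starRingEnd ℂ) (w - u) = u - w := by linear_combination -h2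
      linear_combination (1 / 2 : ℂ) * h3

end Pool.Agent.Hsh
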