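import Pool.Agent.Hsh.StmtsD
import Pool.Agent.Hsh.OutTwo

set_option autoImplicit false

/-!
# Module Full: a common arc whose ends are the two convex corners is a side
-/

namespace Pool.Agent.Hsh

open Set Metric MeasureTheory Filter Topology Classical

theorem full (_hB : Stmt_Bas) (hV : Stmt_VFin) (_h1 : Stmt_Arc1) (h3 : Stmt_Arc3) :
    Stmt_Full := by
  intro A hA X hX Y hY l hl f g hfg hf hg hfl hgl hCn
  obtain ⟨-, hlX, hlY⟩ := hl
  have ha3 := h3 A hA X hX
  obtain ⟨p, hp, hlp⟩ := id hlY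
  have hpl : p ∈ l := by
    rw [hlp]
    exact mem_connectedComponentIn hp
  have hlfr : l ⊆ fr A Y := by
    rw [hlp]
    exact connectedComponentIn_subset _ _
  have hlsub : l ⊆ frontier Y \ Cn Y := by
    intro x hx
    refine ⟨(hlfr hx).1.1, ?_⟩
    rw [hCn]
    rintro (h | h)
    · exact (hlfr hx).2 (h ▸ hf)
    · exact (hlfr hx).2 ((mem_singleton_iff.1 h) ▸ hg)
  have hlpre : IsPreconnected l := by
    rw [hlp]
    exact isPreconnected_connectedComponentIn
  refine ⟨p, hlsub hpl, ?_⟩
  apply Subset.antisymm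
  · exact hlpre.subset_connectedComponentIn hpl hlsub
  -- the ends
  obtain ⟨u, w, -, -, -, huw⟩ := ha3.ends l hlX
  have hends : ∀ v ∈ Vx A, v ∈ closure l → v ∈ ({f, g} : Set ℂ) := by
    intro v hv hvl
    have e1 := (huw v hv).1 hvl
    have e2 := (huw f hf).1 hfl
    have e3 := (huw g hg).1 hgl
    rcases e1 with rfl | rfl
    · rcases e2 with rfl | rfl
      · exact Or.inl rfl
      · rcases e3 with rfl | rfl
        · exact Or.inr rfl
        · exact absurd rfl hfg
    · rcases e2 with rfl | rfl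
      · rcases e3 with rfl | rfl
        · exact absurd rfl hfg
        · exact Or.inr rfl
      · exact Or.inl rfl
  have hclos : ∀ x ∈ closure l, x ∈ frontier Y \ Cn Y → x ∈ l := by
    intro x hx hxY
    rcases ha3.clos l hlX hx with h | h
    · exact h
    · exfalso
      apply hxY.2
      rw [hCn]
      exact hends x h hx
  choose! r hr hrl using fun x (hx : x ∈ l) => outTwo_near hV hA hY hlY hx
  let U : Set ℂ := ⋃ x ∈ l, ball x (r x)
  have hU : IsOpen U := isOpen_biUnion fun x _ => isOpen_ball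
  have hUl : ∀ x ∈ U, x ∈ frontier Y → x ∈ l := by
    intro x hx hxY
    obtain ⟨y, hy, hxy⟩ := mem_iUnion₂.1 hx
    exact hrl y hy ⟨hxY, hxy⟩
  have hlU : l ⊆ U := fun x hx => mem_iUnion₂.2 ⟨x, hx, mem_ball_self (hr x hx)⟩
  have hsubC := connectedComponentIn_subset (frontier Y \ Cn Y) p
  intro x hx
  by_contra hxl
  have hpre : IsPreconnected (connectedComponentIn (frontier Y \ Cn Y) p) :=
    isPreconnected_connectedComponentIn
  have hcov : connectedComponentIn (frontier Y \ Cn Y) p ⊆ U ∪ (closure l)ᶜ := by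
    intro y hy
    by_cases hyl : y ∈ closure l
    · exact Or.inl (hlU (hclos y hyl (hsubC hy)))
    · exact Or.inr hyl
  obtain ⟨y, hy, hyU, hyl⟩ := hpre U (closure l)ᶜ hU isClosed_closure.isOpen_compl hcov
    ⟨p, mem_connectedComponentIn (hlsub hpl), hlU hpl⟩
    ⟨x, hx, fun h => hxl (hclos x h (hsubC hx))⟩
  exact hyl (subset_closure (hUl y hyU (hsubC hy).1))

end Pool.Agent.Hsh
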