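import Pool.Agent.Hsh.StmtsD

set_option autoImplicit false

/-!
# Modules LemF and LemE (MP_51bd69_co): arcs in sides
-/

namespace Pool.Agent.Hsh

open Set Metric MeasureTheory Filter Topology Classical

/-- The closure of an arc of `X` is contained in `X`. -/
theorem lemEF_closure_subset {A : Finset (Set ℂ)} (hB : Bas A) {X l : Set ℂ} (hX : X ∈ A)
    (hl : l ∈ arcs A X) : closure l ⊆ X := by
  obtain ⟨p, -, rfl⟩ := hl
  refine closure_minimal ?_ (hB.closed X hX)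
  refine (connectedComponentIn_subset _ _).trans ?_
  intro z hz
  exact (hB.closed X hX).frontier_subset hz.1.1

/-- An end of a common arc which is not a corner of `Q` is a corner of `X`. -/
theorem lemEF_corner {A H : Finset (Set ℂ)} {T : Set ℂ} {u w : ℂ} {a b : Set ℂ}
    (hB : Stmt_Bas) (D : Dat A H T u w a b) {X : Set ℂ} (hX : X ∈ H) {l : Set ℂ}
    (hl : l ∈ arcs A X) {Q : Set ℂ} (hQ : Q ∈ A) (hne : Q ≠ X) (hlQ : l ∈ arcs A Q) {f : ℂ}
    (hf : f ∈ Vx A) (hfc : f ∈ closure l) (hfQ : f ∉ Cn Q) : f ∈ Cn X := by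
  have hBA := hB A D.cfg.fam
  have hXA : X ∈ A := D.cfg.sub hX
  have hfX : f ∈ X := lemEF_closure_subset hBA hXA hl hfc
  have hfQ' : f ∈ Q := lemEF_closure_subset hBA hQ hlQ hfc
  obtain ⟨N, -, -, -, huniq⟩ := D.cfg.nc f hf ⟨X, hX, hfX⟩
  by_contra hfX'
  exact hne ((huniq Q hQ hfQ' hfQ).trans (huniq X hXA hfX hfX').symm)

/-- If both ends of a common arc are corners of `Q`, the arc is a side of `Q`. -/
theorem lemEF_side {A H : Finset (Set ℂ)} {T : Set ℂ} {u w : ℂ} {a b : Set ℂ}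
    (hFu : Stmt_Full) (hC : Stmt_Cmp) (D : Dat A H T u w a b) {X : Set ℂ} (hX : X ∈ H)
    {l : Set ℂ} (hl : l ∈ arcs A X) {Q : Set ℂ} (hQ : Q ∈ A) (hne : Q ≠ X)
    (hlQ : l ∈ arcs A Q) {f g : ℂ} (hfg : f ≠ g) (hf : f ∈ Vx A) (hg : g ∈ Vx A)
    (hfc : f ∈ closure l) (hgc : g ∈ closure l) (hfQ : f ∈ Cn Q) (hgQ : g ∈ Cn Q) :
    IsSide Q l := by
  obtain ⟨p, q, hpq, hCn⟩ := (hC A H T u w a b D).two Q hQ
  have hCn' : Cn Q = {f, g} := by
    rw [hCn] at hfQ hgQ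
    rw [hCn]
    rcases hfQ with h1 | h1 <;> rcases hgQ with h2 | h2
    · exact absurd (h1.trans h2.symm) hfg
    · rw [h1, mem_singleton_iff.mp h2]
    · rw [mem_singleton_iff.mp h1, h2, pair_comm]
    · exact absurd ((mem_singleton_iff.mp h1).trans (mem_singleton_iff.mp h2).symm) hfg
  exact hFu A D.cfg.fam X (D.cfg.inn X hX) Q hQ l ⟨fun h => hne h.symm, hl, hlQ⟩ f g hfg hf hg
    hfc hgc hCn'

/-- M5 -/
theorem lemF (hB : Stmt_Bas) (_h1 : Stmt_Arc1) (h3 : Stmt_Arc3) (_hSi : Stmt_Side)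
    (hFu : Stmt_Full) (hC : Stmt_Cmp) : Stmt_LemF := by
  intro A H T u w a b D X hX s hs l hl hls hlne Q hQ hne hlQ
  have hCm := hC A H T u w a b D
  obtain ⟨f, g, hfg, hf, hg, hends⟩ := (h3 A D.cfg.fam X (D.cfg.inn X hX)).ends l hl
  have hfc : f ∈ closure l := (hends f hf).mpr (Or.inl rfl)
  have hgc : g ∈ closure l := (hends g hg).mpr (Or.inr rfl)
  by_cases hfQ : f ∈ Cn Q
  · by_cases hgQ : g ∈ Cn Q
    · left
      have hside := lemEF_side hFu hC D hX hl hQ hne hlQ hfg hf hg hfc hgc hfQ hgQ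
      rcases hCm.cases Q hQ l hside with h | ⟨h, -, hlb⟩
      · exact h
      · exfalso
        rcases hCm.cases X (D.cfg.sub hX) s hs with ⟨-, k, hk⟩ | ⟨k, -, hk⟩
        · exact hCm.ba h k (by rw [← hlb, ← hk]; exact hls)
        · refine hlne ?_
          rw [hlb, hk]
          exact hCm.bb h k (by rw [← hlb, ← hk]; exact hls)
    · exact Or.inr ⟨g, lemEF_corner hB D hX hl hQ hne hlQ hg hgc hgQ, hgc, hgQ⟩
  · exact Or.inr ⟨f, lemEF_corner hB D hX hl hQ hne hlQ hf hfc hfQ, hfc, hfQ⟩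

/-- M6 -/
theorem lemE (hB : Stmt_Bas) (h1 : Stmt_Arc1) (h3 : Stmt_Arc3) (hSi : Stmt_Side)
    (hFu : Stmt_Full) (hC : Stmt_Cmp) : Stmt_LemE := by
  intro A H T u w a b D X hX s hs l hl hls Q hQ hne hlQ
  have hCm := hC A H T u w a b D
  obtain ⟨hsX, k, hk⟩ := hs
  by_cases hlne : l = s
  · obtain ⟨f, g, hfg, hf, hg, hends⟩ := (h3 A D.cfg.fam X (D.cfg.inn X hX)).ends l hl
    have hfc : f ∈ closure l := (hends f hf).mpr (Or.inl rfl)
    have hgc : g ∈ closure l := (hends g hg).mpr (Or.inr rfl)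
    by_cases hfQ : f ∈ Cn Q
    · by_cases hgQ : g ∈ Cn Q
      · exfalso
        have hside := lemEF_side hFu hC D hX hl hQ hne hlQ hfg hf hg hfc hgc hfQ hgQ
        rcases hCm.cases Q hQ l hside with h | ⟨h, -, hlb⟩
        · refine hCm.diff X (D.cfg.sub hX) Q hQ (fun h => hne h.symm) s ⟨hsX, k, hk⟩ ?_
          rw [← hlne]
          exact h
        · exact hCm.ba h k (by rw [← hlb, ← hk]; exact hls)
      · exact ⟨g, lemEF_corner hB D hX hl hQ hne hlQ hg hgc hgQ, hgc, hgQ⟩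
    · exact ⟨f, lemEF_corner hB D hX hl hQ hne hlQ hf hfc hfQ, hfc, hfQ⟩
  · rcases lemF hB h1 h3 hSi hFu hC A H T u w a b D X hX s hsX l hl hls hlne Q hQ hne hlQ with
      ⟨-, h, hh⟩ | ⟨f, hf1, hf2, hf3⟩
    · exfalso
      refine hlne ?_
      rw [hh, hk]
      exact hCm.aa h k (by rw [← hh, ← hk]; exact hls)
    · exact ⟨f, hf1, hf2, hf3⟩

end Pool.Agent.Hsh
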