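import Pool.Agent.Hsh.StmtsD

set_option autoImplicit false

/-! # Module LemN: not all arcs in a long side are short sides of their other tiles -/

namespace Pool.Agent.Hsh

open Set Metric MeasureTheory Filter Topology Classical

/-- a tile is the closure of its interior -/
theorem lemN_clos {T : Set ℂ} (h : IsDisk T) : closure (interior T) = T := by
  obtain ⟨c, γ, hd⟩ := CT.disc_final T h
  exact hd.clos

/-- an open set meeting a tile meets its interior -/
theorem lemN_meet {T U : Set ℂ} (h : IsDisk T) (hU : IsOpen U) {x : ℂ} (hx : x ∈ U) (hxT : x ∈ T) :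
    ∃ y ∈ U, y ∈ interior T := by
  rw [← lemN_clos h] at hxT
  obtain ⟨y, h1, h2⟩ := mem_closure_iff.1 hxT U hU hx
  exact ⟨y, h1, h2⟩

/-- images of discs under isometries -/
theorem lemN_isDisk {T : Set ℂ} (h : IsDisk T) (g : ℂ ≃ᵢ ℂ) : IsDisk (g '' T) := by
  obtain ⟨e⟩ := h
  exact ⟨(g.toHomeomorph.image T).symm.trans e⟩

theorem lemN_int (g : ℂ ≃ᵢ ℂ) (T : Set ℂ) : interior (g '' T) = g '' interior T :=
  (g.toHomeomorph.image_interior T).symm

theorem lemN_clo (g : ℂ ≃ᵢ ℂ) (T : Set ℂ) : closure (g '' T) = g '' closure T :=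
  (g.toHomeomorph.image_closure T).symm

/-- two connected subsets of an arc whose closures contain the initial point -/
theorem lemN_comp {γ : ℝ → ℂ} (hc : ContinuousOn γ (Icc 0 1)) (hi : InjOn γ (Icc 0 1))
    {c d : Set ℂ} (hcs : c ⊆ γ '' Ioo 0 1) (hds : d ⊆ γ '' Ioo 0 1) (hcc : IsPreconnected c)
    (hdc : IsPreconnected d) (hc0 : γ 0 ∈ closure c) (hd0 : γ 0 ∈ closure d) :
    c ⊆ d ∨ d ⊆ c := by
  set f : Icc (0 : ℝ) 1 → ℂ := fun t => γ t with hf
  have hfc : Continuous f := continuousOn_iff_continuous_domRestrict.1 hc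
  have hfi : Function.Injective f := fun s t hst => Subtype.ext (hi s.2 t.2 hst)
  have hemb : IsClosedEmbedding f := hfc.isClosedEmbedding hfi
  have key : ∀ c : Set ℂ, c ⊆ γ '' Ioo 0 1 → IsPreconnected c → γ 0 ∈ closure c →
      (f '' (f ⁻¹' c) = c) ∧ ∀ t ∈ f ⁻¹' c, ∀ r : Icc (0 : ℝ) 1, 0 < r → r < t → r ∈ f ⁻¹' c := by
    intro c hcs hcc hc0
    have h1 : f '' (f ⁻¹' c) = c := by
      rw [image_preimage_eq_iff]
      intro y hy
      obtain ⟨t, ht, rfl⟩ := hcs hy
      exact ⟨⟨t, ht.1.le, ht.2.le⟩, rfl⟩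
    refine ⟨h1, ?_⟩
    have h2 : IsPreconnected (f ⁻¹' c) := by
      rw [← hemb.isInducing.isPreconnected_image, h1]
      exact hcc
    have h3 : (0 : Icc (0 : ℝ) 1) ∈ closure (f ⁻¹' c) := by
      rw [hemb.isInducing.closure_eq_preimage_closure_image, h1]
      exact hc0
    intro t ht r hr0 hrt
    obtain ⟨s, hs1, hs2⟩ := mem_closure_iff.1 h3 (Iio r) isOpen_Iio hr0
    exact h2.ordConnected.out hs2 ht ⟨le_of_lt hs1, hrt.le⟩
  obtain ⟨h1, h2⟩ := key c hcs hcc hc0
  obtain ⟨h3, h4⟩ := key d hds hdc hd0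
  have hpos : ∀ c : Set ℂ, c ⊆ γ '' Ioo 0 1 → ∀ t ∈ f ⁻¹' c, (0 : Icc (0 : ℝ) 1) < t := by
    intro c hcs t ht
    obtain ⟨s, hs, hst⟩ := hcs ht
    have h5 : s = t := hi ⟨hs.1.le, hs.2.le⟩ t.2 hst
    rw [← Subtype.coe_lt_coe, ← h5]
    exact hs.1
  have h6 : f ⁻¹' c ⊆ f ⁻¹' d ∨ f ⁻¹' d ⊆ f ⁻¹' c := by
    by_contra hcon
    rw [not_or, not_subset, not_subset] at hcon
    obtain ⟨⟨s, hs1, hs2⟩, ⟨t, ht1, ht2⟩⟩ := hcon
    rcases lt_trichotomy s t with h | h | h
    · exact hs2 (h4 t ht1 s (hpos c hcs s hs1) h)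
    · rw [h] at hs2
      exact hs2 ht1
    · exact ht2 (h2 s hs1 t (hpos d hds t ht1) h)
  rcases h6 with h | h
  · left
    rw [← h1, ← h3]
    exact image_mono h
  · right
    rw [← h1, ← h3]
    exact image_mono h

/-- the half turn maps the open segment onto itself -/
theorem lemN_hf_seg (u w : ℂ) : hf u w '' openSegment ℝ u w = openSegment ℝ u w := by
  have h : ∀ x ∈ openSegment ℝ u w, hf u w x ∈ openSegment ℝ u w := by
    rintro x ⟨a, b, ha, hb, hab, rfl⟩
    refine ⟨b, a, hb, ha, by rw [add_comm]; exact hab, ?_⟩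
    show b • u + a • w = (u + w) - (a • u + b • w)
    have h1 : u = (a + b) • u := by rw [hab, one_smul]
    have h2 : w = (a + b) • w := by rw [hab, one_smul]
    have h3 : u + w = (a + b) • u + (a + b) • w := by rw [← h1, ← h2]
    rw [h3, add_smul, add_smul]
    abel
  apply Subset.antisymm
  · rintro _ ⟨x, hx, rfl⟩
    exact h x hx
  · intro x hx
    refine ⟨hf u w x, h x hx, ?_⟩
    show (u + w) - ((u + w) - x) = x
    abel

theorem lemN (hB : Stmt_Bas) (h1 : Stmt_Arc1) (hNS : Stmt_NotSub) (hSi : Stmt_Side)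
    (hCo : Stmt_Copy) (hSA : Stmt_SArc) (hC : Stmt_Cmp) (h4 : Stmt_Four) (hR : Stmt_Rf)
    (hVB : Stmt_VfB) : Stmt_LemN := by
  intro A H T u w a b D X hX s hs hns
  by_contra hcon
  push Not at hcon
  have hF := D.cfg.fam
  have C := hC A H T u w a b D
  have K := hB A hF
  have hTin : Inn A T := D.cfg.inn T D.cfg.memT
  have hTA : T ∈ A := hTin.1
  have hXin : Inn A X := D.cfg.inn X hX
  have hXA : X ∈ A := hXin.1
  have hTd : IsDisk T := hF.disk T hTA
  have hne := D.cfg.ne
  have hSa := (hSi T hTd u w hne D.cfg.cnT).2 a D.ts.sa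
  have hSb := (hSi T hTd u w hne D.cfg.cnT).2 b D.ts.sb
  -- the tile `X`
  rcases C.cases X hXA s hs with hsg | ⟨g, hgX, hgs⟩
  · exact hns hsg
  have hCn : Cn X = {g u, g w} := by
    rw [hgX, (hCo g T).1, D.cfg.cnT, image_pair]
  have hpq : g u ≠ g w := fun h => hne (g.injective h)
  have hpV : g u ∈ Vx A := D.cfg.cn X hX (by rw [hCn]; simp)
  have hqV : g w ∈ Vx A := D.cfg.cn X hX (by rw [hCn]; simp)
  have S := hSA A hF X hXin (g u) (g w) hpq hCn hpV hqV
  obtain ⟨l, hl, hls, hlp, -⟩ := S.first s hs (g u) (Or.inl rfl)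
  obtain ⟨l', hl', hls', hlq, -⟩ := S.first s hs (g w) (Or.inr rfl)
  obtain ⟨Q, hQA, hQX, hlQ, hQs⟩ := hcon l hl hls
  obtain ⟨Q', hQA', hQX', hlQ', hQs'⟩ := hcon l' hl' hls'
  obtain ⟨h, hhQ⟩ := D.cfg.copy Q hQA
  obtain ⟨h', hhQ'⟩ := D.cfg.copy Q' hQA'
  have hla : l = h '' a := C.sg Q hQA l hQs h hhQ
  have hla' : l' = h' '' a := C.sg Q' hQA' l' hQs' h' hhQ'
  -- the isometries
  set k : ℂ ≃ᵢ ℂ := h.trans g.symm with hk
  set K' : ℂ ≃ᵢ ℂ := (h'.trans g.symm).trans (hf u w) with hK'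
  have hka : k '' a = g.symm '' l := by
    rw [hla, ← image_comp]
    rfl
  have hKa : K' '' a = hf u w '' (g.symm '' l') := by
    rw [hla', ← image_comp, ← image_comp]
    rfl
  have hgsymm : ∀ Y : Set ℂ, g.symm '' (g '' Y) = Y := by
    intro Y
    rw [← image_comp]
    have : (g.symm ∘ g : ℂ → ℂ) = id := by
      funext z
      exact g.symm_apply_apply z
    rw [this, image_id]
  have hcb : k '' a ⊆ b := by
    rw [hka, ← hgsymm b, ← hgs]
    exact image_mono hls
  have hdb : K' '' a ⊆ b := by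
    rw [hKa, ← D.symb]
    apply image_mono
    rw [← hgsymm b, ← hgs]
    exact image_mono hls'
  have huc : u ∈ closure (k '' a) := by
    rw [hka, lemN_clo]
    exact ⟨g u, hlp, g.symm_apply_apply u⟩
  have hud : u ∈ closure (K' '' a) := by
    rw [hKa, lemN_clo, lemN_clo]
    refine ⟨w, ⟨g w, hlq, g.symm_apply_apply w⟩, ?_⟩
    show (u + w) - w = u
    abel
  have haconn : IsPreconnected a := hSa.conn.isPreconnected
  have hkconn : IsPreconnected (k '' a) := haconn.image _ k.continuous.continuousOn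
  have hKconn : IsPreconnected (K' '' a) := haconn.image _ K'.continuous.continuousOn
  obtain ⟨γ, hγc, hγi, hγ0, hγ1, hγb⟩ := hSb.par
  have heq : k '' a = K' '' a := by
    rw [hγb] at hcb hdb
    rw [← hγ0] at huc hud
    rcases lemN_comp hγc hγi hcb hdb hkconn hKconn huc hud with h5 | h5
    · exact C.aa k K' h5
    · exact (C.aa K' k h5).symm
  -- `omega`
  set ω : ℂ ≃ᵢ ℂ := K'.trans k.symm with hω
  have hkω : ∀ z, k (ω z) = K' z := fun z => k.apply_symm_apply (K' z)
  have hωa : ω '' a = a := by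
    have h5 : ω '' a = k.symm '' (K' '' a) := by
      rw [← image_comp]
      rfl
    rw [h5, ← heq, ← image_comp]
    have : (k.symm ∘ k : ℂ → ℂ) = id := by
      funext z
      exact k.symm_apply_apply z
    rw [this, image_id]
  have hωcl : ω '' (a ∪ {u, w}) = a ∪ {u, w} := by
    rw [← hSa.clos, ← lemN_clo, hωa]
  have hua : u ∉ a := fun h5 => (hSa.sub h5).2 (by simp)
  have hwa : w ∉ a := fun h5 => (hSa.sub h5).2 (by simp)
  have hωuw : ω '' {u, w} = {u, w} := by
    have h5 : ({u, w} : Set ℂ) = (a ∪ {u, w}) \ a := by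
      rw [union_sdiff_left]
      symm
      rw [sdiff_eq_left]
      rw [Set.disjoint_left]
      rintro x (rfl | hx)
      · exact hua
      · rw [mem_singleton_iff] at hx
        rw [hx]
        exact hwa
    rw [h5, image_sdiff ω.injective, hωcl, hωa]
  -- interiors
  have hintX : interior X = g '' interior T := by rw [hgX, lemN_int]
  have hdis : ∀ (Y : Set ℂ) (f : ℂ ≃ᵢ ℂ), Y ∈ A → Y ≠ X → Y = f '' T → ∀ z ∈ interior T,
      ∀ z' ∈ interior T, g.symm (f z) ≠ z' := by
    intro Y f hY hYX hYf z hz z' hz' h5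
    have h6 : f z = g z' := by rw [← h5, g.apply_symm_apply]
    have h7 := hF.disj Y hY X hXA hYX
    rw [hYf, hintX, lemN_int] at h7
    exact Set.disjoint_left.1 h7 ⟨z, hz, rfl⟩ ⟨z', hz', h6.symm⟩
  have hd1 : ∀ z ∈ interior T, ∀ z' ∈ interior T, k z ≠ z' :=
    fun z hz z' hz' => hdis Q h hQA hQX hhQ z hz z' hz'
  have hd2 : ∀ z ∈ interior T, ∀ z' ∈ interior T, K' z ≠ hf u w z' := by
    intro z hz z' hz' h5
    have h6 : g.symm (h' z) = z' := (hf u w).injective h5
    exact hdis Q' h' hQA' hQX' hhQ' z hz z' hz' h6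
  -- the points of `b`
  have hbint : ∀ y ∈ b, y ∈ interior (T ∪ hf u w '' T) := by
    intro y hy
    obtain ⟨Y, hYA, hYne, hbY, -, hbfr, hat⟩ := h1 A hF (hf u w '' T) D.memT' b D.arcb
    have h5 := hat y hy
    have hyT : y ∈ T := by
      have h6 : y ∈ frontier T := by
        rw [D.ts.cover]
        exact Or.inl (Or.inr hy)
      exact (K.closed T hTA).frontier_subset h6
    have h6 : T ∈ at_ A y := by
      unfold at_
      rw [Finset.mem_filter]
      exact ⟨hTA, hyT⟩
    rw [h5] at h6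
    have h7 : T = Y := by
      rcases Finset.mem_insert.1 h6 with h8 | h8
      · exact absurd h8.symm D.neT'
      · exact Finset.mem_singleton.1 h8
    subst h7
    have h8 : y ∈ interior (un {hf u w '' T, T}) := by
      apply K.int_of_at
      · intro Z hZ
        rcases Finset.mem_insert.1 hZ with h9 | h9
        · rw [h9]; exact D.memT'
        · rw [Finset.mem_singleton.1 h9]; exact hTA
      · exact (hbfr hy).1.2
      · rw [h5]
    have h9 : un {hf u w '' T, T} = T ∪ hf u w '' T := by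
      unfold un
      ext z
      simp [or_comm]
    rw [h9] at h8
    exact h8
  -- the contradiction from a common interior point
  have hend : ∀ z ∈ a, ∀ r > 0, (∃ y ∈ interior T, y ∈ ball z r ∧ ω y = y) →
      ¬ ball (k z) r ⊆ T ∪ hf u w '' T := by
    rintro z hz r hr ⟨y, hy, hyr, hyω⟩ h5
    have h6 : k y ∈ ball (k z) r := by
      rw [mem_ball, k.isometry.dist_eq]
      exact hyr
    have h7 : k y = K' y := by rw [← hkω, hyω]
    rcases h5 h6 with h8 | h8
    · obtain ⟨x, hx1, hx2⟩ := lemN_meet hTd (U := k '' interior T)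
        (k.toHomeomorph.isOpenMap _ isOpen_interior) ⟨y, hy, rfl⟩ h8
      obtain ⟨t, ht, rfl⟩ := hx1
      exact hd1 t ht _ hx2 rfl
    · rw [h7] at h8
      obtain ⟨x, hx1, hx2⟩ := lemN_meet (lemN_isDisk hTd (hf u w)) (U := K' '' interior T)
        (K'.toHomeomorph.isOpenMap _ isOpen_interior) ⟨y, hy, rfl⟩ h8
      obtain ⟨t, ht, rfl⟩ := hx1
      rw [lemN_int] at hx2
      obtain ⟨t', ht', h9⟩ := hx2
      exact hd2 t ht t' ht' h9.symm
  have hball : ∀ z ∈ a, ∃ r > 0, ball (k z) r ⊆ T ∪ hf u w '' T := by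
    intro z hz
    have h5 : k z ∈ interior (T ∪ hf u w '' T) := hbint _ (hcb ⟨z, hz, rfl⟩)
    rw [mem_interior_iff_mem_nhds, Metric.mem_nhds_iff] at h5
    obtain ⟨r, hr, h6⟩ := h5
    exact ⟨r, hr, h6⟩
  have haT : a ⊆ T := by
    intro z hz
    have h6 : z ∈ frontier T := by
      rw [D.ts.cover]
      exact Or.inl (Or.inl hz)
    exact (K.closed T hTA).frontier_subset h6
  -- the half turn does not preserve `a`
  have hhfa : hf u w '' a ≠ a := by
    intro h5
    apply hNS A hF T hTin _ D.memT' D.neT'.symm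
    have h6 : frontier T = hf u w '' frontier T := by
      have h7 : hf u w '' {u, w} = {u, w} := by
        rw [image_pair]
        have h8 : hf u w u = w := by
          show (u + w) - u = w
          abel
        have h9 : hf u w w = u := by
          show (u + w) - w = u
          abel
        rw [h8, h9, pair_comm]
      rw [D.ts.cover, image_union, image_union, h5, D.symb, h7]
    rw [h6]
    exact image_mono (K.closed T hTA).frontier_subset
  obtain ⟨z0, hz0⟩ := hSa.conn.nonempty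
  rcases h4 u w hne ω hωuw with h5 | h5 | h5 | h5
  · obtain ⟨r, hr, h6⟩ := hball z0 hz0
    obtain ⟨y, hy1, hy2⟩ := lemN_meet hTd isOpen_ball (mem_ball_self hr) (haT hz0)
    exact hend z0 hz0 r hr ⟨y, hy2, hy1, h5 y⟩ h6
  · apply hhfa
    have h6 : hf u w '' a = ω '' a := image_congr fun z _ => (h5 z).symm
    rw [h6, hωa]
  · have h6 : rf u w '' a = a := by
      have h7 : rf u w '' a = ω '' a := image_congr fun z _ => (h5 z).symm
      rw [h7, hωa]
    have h7 := hR T hTd u w hne D.cfg.cnT a D.ts.sa h6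
    apply hhfa
    rw [h7]
    exact lemN_hf_seg u w
  · have h6 : vf u w '' a = a := by
      have h7 : vf u w '' a = ω '' a := image_congr fun z _ => (h5 z).symm
      rw [h7, hωa]
    obtain ⟨z, hz, h7⟩ := hVB T hTd u w hne D.cfg.cnT a D.ts.sa h6
    obtain ⟨r, hr, h8⟩ := hball z hz
    obtain ⟨y, hy1, hy2, hy3⟩ := h7 r hr
    exact hend z hz r hr ⟨y, hy1, hy2, by rw [h5 y, hy3]⟩ h8

end Pool.Agent.Hsh
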