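import Pool.Agent.Hsh.StmtsD
import Pool.Agent.Hsh.Euler

set_option autoImplicit false

/-!
# Lenses and chains of arcs of an inner tile (MP_51bd69_co)
-/

namespace Pool.Agent.Hsh

open Set Metric MeasureTheory Filter Topology Classical

/-- a nonempty set of arcs closed under common vertices is the set of all arcs -/
theorem lens_all (hB : Stmt_Bas) (h1 : Stmt_Arc1) (h2 : Stmt_Arc2) (h3 : Stmt_Arc3)
    {A : Finset (Set ℂ)} (hA : Fam A) {X : Set ℂ} (hX : Inn A X) (L : Set (Set ℂ))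
    (hL : ∀ l ∈ arcs A X, l ∈ L → ∀ v ∈ Vx A, v ∈ closure l → ∀ l' ∈ arcs A X,
      v ∈ closure l' → l' ∈ L) {l0 : Set ℂ} (hl0 : l0 ∈ arcs A X) (hl0L : l0 ∈ L) :
    ∀ l ∈ arcs A X, l ∈ L := by
  have a3 := h3 A hA X hX
  by_contra hcon
  push Not at hcon
  obtain ⟨m, hm, hmL⟩ := hcon
  set L1 : Set (Set ℂ) := {l | l ∈ arcs A X ∧ l ∈ L} with hL1
  set L2 : Set (Set ℂ) := {l | l ∈ arcs A X ∧ l ∉ L} with hL2
  have f1 : L1.Finite := a3.fin.subset fun l hl => hl.1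
  have f2 : L2.Finite := a3.fin.subset fun l hl => hl.1
  set F1 : Set ℂ := ⋃ l ∈ L1, closure l with hF1
  set F2 : Set ℂ := ⋃ l ∈ L2, closure l with hF2
  have c1 : IsClosed F1 := f1.isClosed_biUnion fun l _ => isClosed_closure
  have c2 : IsClosed F2 := f2.isClosed_biUnion fun l _ => isClosed_closure
  have hcov : frontier X ⊆ F1 ∪ F2 := by
    intro p hp
    have hl : ∃ l ∈ arcs A X, p ∈ closure l := by
      by_cases hpV : p ∈ Vx A
      · obtain ⟨l, hl, _, _, _, hpl, _⟩ := h2 A hA X hX.1 p hpV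
          (((hB A hA).closed X hX.1).frontier_subset hp)
        exact ⟨l, hl, hpl⟩
      · have : p ∈ ⋃₀ (arcs A X) := by rw [a3.cover]; exact ⟨hp, hpV⟩
        obtain ⟨l, hl, hpl⟩ := this
        exact ⟨l, hl, subset_closure hpl⟩
    obtain ⟨l, hl, hpl⟩ := hl
    by_cases h : l ∈ L
    · exact Or.inl (Set.mem_biUnion (show l ∈ L1 from ⟨hl, h⟩) hpl)
    · exact Or.inr (Set.mem_biUnion (show l ∈ L2 from ⟨hl, h⟩) hpl)
  have hdis : Disjoint F1 F2 := by
    rw [Set.disjoint_left]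
    intro p hp1 hp2
    simp only [hF1, hF2, Set.mem_iUnion, exists_prop] at hp1 hp2
    obtain ⟨l, ⟨hl, hlL⟩, hpl⟩ := hp1
    obtain ⟨l', ⟨hl', hno⟩, hpl'⟩ := hp2
    by_cases hpV : p ∈ Vx A
    · exact hno (hL l hl hlL p hpV hpl l' hl' hpl')
    · have e1 : p ∈ l := (a3.clos l hl hpl).resolve_right hpV
      have e2 : p ∈ l' := (a3.clos l' hl' hpl').resolve_right hpV
      have := euler_eq hl hl' e1 e2
      subst this
      exact hno hlL
  have hne1 : (frontier X ∩ F1).Nonempty := by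
    obtain ⟨p, hp⟩ := euler_ne h1 hA hX.1 hl0
    exact ⟨p, (euler_sub h1 hA hX.1 hl0 hp).1.1, Set.mem_biUnion
      (show l0 ∈ L1 from ⟨hl0, hl0L⟩) (subset_closure hp)⟩
  have hne2 : (frontier X ∩ F2).Nonempty := by
    obtain ⟨p, hp⟩ := euler_ne h1 hA hX.1 hm
    exact ⟨p, (euler_sub h1 hA hX.1 hm hp).1.1, Set.mem_biUnion
      (show m ∈ L2 from ⟨hm, hmL⟩) (subset_closure hp)⟩
  obtain ⟨p, -, hp1, hp2⟩ := isPreconnected_closed_iff.1 (euler_conn (hA.disk X hX.1)) F1 F2 c1 c2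
    hcov hne1 hne2
  exact Set.disjoint_left.1 hdis hp1 hp2

/-- the vertices in the closure of an arc with the two different ends `f`, `g` -/
theorem lens_ends (h3 : Stmt_Arc3) {A : Finset (Set ℂ)} (hA : Fam A) {X : Set ℂ} (hX : Inn A X)
    {l : Set ℂ} (hl : l ∈ arcs A X) {f g v : ℂ} (hfg : f ≠ g) (hf : f ∈ Vx A) (hg : g ∈ Vx A)
    (hfl : f ∈ closure l) (hgl : g ∈ closure l) (hv : v ∈ Vx A) (hvl : v ∈ closure l) :
    v = f ∨ v = g := by
  obtain ⟨u, w, -, -, -, hends⟩ := (h3 A hA X hX).ends l hl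
  have e1 := (hends f hf).1 hfl
  have e2 := (hends g hg).1 hgl
  have e3 := (hends v hv).1 hvl
  rcases e1 with rfl | rfl <;> rcases e2 with rfl | rfl
  · exact absurd rfl hfg
  · exact e3
  · exact e3.symm
  · exact absurd rfl hfg

/-- the arcs at a vertex which is in the closure of two different arcs -/
theorem lens_at (h2 : Stmt_Arc2) {A : Finset (Set ℂ)} (hA : Fam A) {X : Set ℂ} (hX : X ∈ A)
    {l l' m : Set ℂ} (hl : l ∈ arcs A X) (hl' : l' ∈ arcs A X) (hne : l ≠ l') {v : ℂ}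
    (hv : v ∈ Vx A) (hvX : v ∈ X) (hvl : v ∈ closure l) (hvl' : v ∈ closure l')
    (hm : m ∈ arcs A X) (hvm : v ∈ closure m) : m = l ∨ m = l' := by
  obtain ⟨l₁, -, l₂, -, -, -, -, hall, -⟩ := h2 A hA X hX v hv hvX
  have e1 := hall l hl hvl
  have e2 := hall l' hl' hvl'
  have e3 := hall m hm hvm
  rcases e1 with rfl | rfl <;> rcases e2 with rfl | rfl
  · exact absurd rfl hne
  · exact e3
  · exact e3.symm
  · exact absurd rfl hne

theorem lens (hB : Stmt_Bas) (h1 : Stmt_Arc1) (h2 : Stmt_Arc2) (h3 : Stmt_Arc3) : Stmt_Lens := by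
  intro A hA X hX l hl l' hl' hne f g hfg hf hg hfl hgl hfl' hgl' v hv hvX
  have hfX : f ∈ X := euler_clos hB h1 hA hX.1 hl hfl
  have hgX : g ∈ X := euler_clos hB h1 hA hX.1 hl hgl
  have hall := lens_all hB h1 h2 h3 hA hX {m | m = l ∨ m = l'} (by
    intro m hm hmL u hu hum n hn hun
    have huf : u = f ∨ u = g := by
      rcases hmL with rfl | rfl
      · exact lens_ends h3 hA hX hl hfg hf hg hfl hgl hu hum
      · exact lens_ends h3 hA hX hl' hfg hf hg hfl' hgl' hu hum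
    rcases huf with rfl | rfl
    · exact lens_at h2 hA hX.1 hl hl' hne hu hfX hfl hfl' hn hun
    · exact lens_at h2 hA hX.1 hl hl' hne hu hgX hgl hgl' hn hun) hl (Or.inl rfl)
  obtain ⟨m, hm, -, -, -, hvm, -⟩ := h2 A hA X hX.1 v hv hvX
  rcases hall m hm with rfl | rfl
  · exact lens_ends h3 hA hX hl hfg hf hg hfl hgl hv hvm
  · exact lens_ends h3 hA hX hl' hfg hf hg hfl' hgl' hv hvm

theorem chain (hB : Stmt_Bas) (h1 : Stmt_Arc1) (h2 : Stmt_Arc2) (h3 : Stmt_Arc3)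
    (hS : Stmt_Side) (hA : Stmt_SArc) : Stmt_Chain := by
  intro A hF X hX p q hpq hCn hp hq s hs l₁ hl₁ l₂ hl₂ hs₁ hs₂ v hv hvp hvq hp₁ hv₁ hv₂ hq₂
  have sa := hA A hF X hX p q hpq hCn hp hq
  have so := (hS X (hF.disk X hX.1) p q hpq hCn).2 s hs
  have hvX : v ∈ X := euler_clos hB h1 hF hX.1 hl₁ hv₁
  have hne : l₁ ≠ l₂ := by
    rintro rfl
    rcases lens_ends h3 hF hX hl₁ hpq hp hq hp₁ hq₂ hv hv₁ with h | h
    · exact hvp h
    · exact hvq h
  -- the arcs of the side at the corners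
  have hcp : ∀ m ∈ arcs A X, m ⊆ s → p ∈ closure m → m = l₁ := by
    obtain ⟨l, -, -, -, huni⟩ := sa.first s hs p (Or.inl rfl)
    intro m hm hms hpm
    rw [huni m hm hms hpm, huni l₁ hl₁ hs₁ hp₁]
  have hcq : ∀ m ∈ arcs A X, m ⊆ s → q ∈ closure m → m = l₂ := by
    obtain ⟨l, -, -, -, huni⟩ := sa.first s hs q (Or.inr rfl)
    intro m hm hms hqm
    rw [huni m hm hms hqm, huni l₂ hl₂ hs₂ hq₂]
  have hall := lens_all hB h1 h2 h3 hF hX {m | m ⊆ s → m = l₁ ∨ m = l₂} (by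
    intro m hm hmL u hu hum n hn hun hns
    by_cases hms : m ⊆ s
    · rcases hmL hms with rfl | rfl
      · rcases lens_ends h3 hF hX hl₁ (Ne.symm hvp) hp hv hp₁ hv₁ hu hum with rfl | rfl
        · exact Or.inl (hcp n hn hns hun)
        · exact lens_at h2 hF hX.1 hl₁ hl₂ hne hu hvX hv₁ hv₂ hn hun
      · rcases lens_ends h3 hF hX hl₂ hvq hv hq hv₂ hq₂ hu hum with rfl | rfl
        · exact lens_at h2 hF hX.1 hl₁ hl₂ hne hu hvX hv₁ hv₂ hn hun
        · exact Or.inr (hcq n hn hns hun)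
    · have hus : u ∈ closure s := closure_mono hns hun
      rw [so.clos] at hus
      rcases hus with hus | rfl | hus
      · exact absurd (sa.inner s hs u hus m hm hum) hms
      · exact Or.inl (hcp n hn hns hun)
      · rw [Set.mem_singleton_iff] at hus
        subst hus
        exact Or.inr (hcq n hn hns hun)) hl₁ (fun _ => Or.inl rfl)
  intro l hl hls
  exact hall l hl hls

end Pool.Agent.Hsh
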