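import Pool.Agent.Hsh.StmtsD
import Pool.Agent.Hsh.Euler
import Pool.Agent.Hsh.Arc2

set_option autoImplicit false

/-! # Module Local: the configuration of two convex corners is impossible -/

namespace Pool.Agent.Hsh

open Set Metric MeasureTheory Filter Topology Classical

theorem local_id (a : Set ℂ) : (IsometryEquiv.refl ℂ) '' a = a := by
  rw [show (⇑(IsometryEquiv.refl ℂ) : ℂ → ℂ) = id from rfl, image_id]

theorem local_hf (u w : ℂ) : hf u w = hf w u := by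
  unfold hf
  rw [add_comm]

theorem local_hfu (u w : ℂ) : hf u w u = w := by
  simp [hf]

theorem local_hfw (u w : ℂ) : hf u w w = u := by
  simp [hf]

theorem local_cfg {A H : Finset (Set ℂ)} {T : Set ℂ} {u w : ℂ} (h : Cfg A H T u w) :
    Cfg A H T w u where
  fam := h.fam
  sub := h.sub
  inn := h.inn
  memT := h.memT
  copy := h.copy
  ne := h.ne.symm
  cnT := by rw [h.cnT, pair_comm]
  vT := fun v hv hvT => (h.vT v hv hvT).symm
  touch := h.touch
  cn := h.cn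
  nc := h.nc

theorem local_symm {A H : Finset (Set ℂ)} {T : Set ℂ} {u w : ℂ} {a b : Set ℂ}
    (D : Dat A H T u w a b) : Dat A H T w u a b where
  cfg := local_cfg D.cfg
  ts := ⟨D.ts.sa, D.ts.sb, D.ts.ne, D.ts.only, D.ts.disj, by
    rw [pair_comm w u]; exact D.ts.cover⟩
  prec := D.prec
  memT' := by rw [local_hf]; exact D.memT'
  neT' := by rw [local_hf]; exact D.neT'
  symb := by rw [local_hf]; exact D.symb
  arcb := by rw [local_hf]; exact D.arcb

theorem local_pair {S : Set ℂ} {p q x y : ℂ} (h : S = {p, q}) (hx : x ∈ S) (hy : y ∈ S)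
    (hxy : x ≠ y) : S = {x, y} := by
  subst h
  simp only [mem_insert_iff, mem_singleton_iff] at hx hy
  rcases hx with rfl | rfl <;> rcases hy with rfl | rfl
  · exact absurd rfl hxy
  · rfl
  · exact pair_comm _ _
  · exact absurd rfl hxy

theorem local_disj {X s t : Set ℂ} (hs : IsSide X s) (ht : IsSide X t) (hne : s ≠ t) :
    ∀ z ∈ s, z ∉ t := by
  intro z hz hz'
  obtain ⟨p, hp, rfl⟩ := hs
  obtain ⟨q, hq, rfl⟩ := ht
  exact hne (by rw [connectedComponentIn_eq hz, connectedComponentIn_eq hz'])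

theorem local_other (h1 : Stmt_Arc1) {A : Finset (Set ℂ)} (hA : Fam A) {X l : Set ℂ}
    (hX : X ∈ A) (hl : l ∈ arcs A X) : ∃ Q ∈ A, Q ≠ X ∧ l ∈ arcs A Q := by
  obtain ⟨Y, hY, hne, hlY, -, -, -⟩ := h1 A hA X hX l hl
  exact ⟨Y, hY, hne, hlY⟩

theorem local_end (h3 : Stmt_Arc3) {A : Finset (Set ℂ)} (hA : Fam A) {X l : Set ℂ}
    (hX : Inn A X) (hl : l ∈ arcs A X) {v : ℂ} (hv : v ∈ Vx A) (hvl : v ∈ closure l) :
    ∃ f ∈ Vx A, f ≠ v ∧ f ∈ closure l := by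
  obtain ⟨e, f, hef, he, hf, hends⟩ := (h3 A hA X hX).ends l hl
  rcases (hends v hv).1 hvl with rfl | rfl
  · exact ⟨f, hf, hef.symm, (hends f hf).2 (Or.inr rfl)⟩
  · exact ⟨e, he, hef, (hends e he).2 (Or.inl rfl)⟩

theorem local_N {A H : Finset (Set ℂ)} {T : Set ℂ} {u w : ℂ} (C : Cfg A H T u w) {v : ℂ}
    (hv : v ∈ Vx A) {Z : Set ℂ} (hZ : Z ∈ H) (hvZ : v ∈ Z) {X Y : Set ℂ} (hX : X ∈ A)
    (hY : Y ∈ A) (hvX : v ∈ X) (hvY : v ∈ Y) (hcX : v ∉ Cn X) (hcY : v ∉ Cn Y) : X = Y := by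
  obtain ⟨N, -, -, -, hN⟩ := C.nc v hv ⟨Z, hZ, hvZ⟩
  rw [hN X hX hvX hcX, hN Y hY hvY hcY]

theorem local_T (hB : Stmt_Bas) (h1 : Stmt_Arc1) (h3 : Stmt_Arc3) (hSA : Stmt_SArc)
    {A H : Finset (Set ℂ)} {T : Set ℂ} {u w : ℂ} {a b : Set ℂ} (D : Dat A H T u w a b) :
    a ∈ arcs A T := by
  have C := D.cfg
  have hTA : T ∈ A := C.sub C.memT
  have huC : u ∈ Cn T := by rw [C.cnT]; simp
  have hwC : w ∈ Cn T := by rw [C.cnT]; simp
  have huV : u ∈ Vx A := C.cn T C.memT huC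
  have hwV : w ∈ Vx A := C.cn T C.memT hwC
  have S := hSA A C.fam T (C.inn T C.memT) u w C.ne C.cnT huV hwV
  obtain ⟨l, hl, hla, hul, -⟩ := S.first a D.ts.sa u (Or.inl rfl)
  obtain ⟨f, hfV, hfu, hfl⟩ := local_end h3 C.fam (C.inn T C.memT) hl huV hul
  have hfT : f ∈ T := euler_clos hB h1 C.fam hTA hl hfl
  have hfw : f = w := (C.vT f hfV hfT).resolve_left hfu
  subst hfw
  rw [← S.whole a D.ts.sa l hl hla hul hfl]
  exact hl

/-- the situation of a tile with a long side containing the arc `a` -/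
theorem local_long (hSi : Stmt_Side) (hCo : Stmt_Copy)
    (hC : Stmt_Cmp)
    {A H : Finset (Set ℂ)} {T : Set ℂ} {u w : ℂ} {a b : Set ℂ} (D : Dat A H T u w a b)
    {X : Set ℂ} (hX : X ∈ A) {p q : ℂ} (hpq : p ≠ q) (hcn : Cn X = {p, q}) {s : Set ℂ}
    (hs : IsSide X s) (h : ℂ ≃ᵢ ℂ) (has : h '' a ⊆ s) (hq : q ∉ closure (h '' a)) :
    ¬ Sg a X s ∧ ∃ g : ℂ ≃ᵢ ℂ, X = g '' T ∧ s = g '' b ∧ IsSide X (g '' a) ∧
      Sg a X (g '' a) ∧ s ≠ g '' a := by
  have K := hC A H T u w a b D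
  have hns : ¬ Sg a X s := by
    rintro ⟨-, k, hk⟩
    have h2 : h '' a = k '' a := K.aa h k (hk ▸ has)
    have h3 : q ∈ closure s := by
      rw [((hSi X (D.cfg.fam.disk X hX) p q hpq hcn).2 s hs).clos]
      right; simp
    rw [hk, ← h2] at h3
    exact hq h3
  refine ⟨hns, ?_⟩
  rcases K.cases X hX s hs with h4 | ⟨g, hg, hsg⟩
  · exact absurd h4 hns
  · have h5 : IsSide X (g '' a) := by
      rw [hg]
      exact ((hCo g T).2 (g '' a)).2 ⟨a, D.ts.sa, rfl⟩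
    refine ⟨g, hg, hsg, h5, ⟨h5, g, rfl⟩, ?_⟩
    intro h6
    exact hns ⟨hs, g, h6⟩

theorem local_main (hB : Stmt_Bas) (h1 : Stmt_Arc1) (h2 : Stmt_Arc2) (h3 : Stmt_Arc3)
    (hSi : Stmt_Side) (hCo : Stmt_Copy) (hSA : Stmt_SArc) (hLe : Stmt_Lens) (hCh : Stmt_Chain)
    (hN2 : Stmt_NoTwo) (hC : Stmt_Cmp) (hN : Stmt_LemN) (hF : Stmt_LemF) (hE : Stmt_LemE)
    {A H : Finset (Set ℂ)} {T : Set ℂ} {u w : ℂ} {a b : Set ℂ} (D : Dat A H T u w a b)
    {X1 : Set ℂ} (hX1 : X1 ∈ A) (hX1T : X1 ≠ T) (haX1 : a ∈ arcs A X1) (haT : a ∈ arcs A T)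
    (huX1 : u ∉ Cn X1) : False := by
  have C := D.cfg
  have K := hC A H T u w a b D
  have hfam := C.fam
  have hb := hB A hfam
  have hcl := hb.closed
  have hTA : T ∈ A := C.sub C.memT
  have huC : u ∈ Cn T := by rw [C.cnT]; simp
  have hwC : w ∈ Cn T := by rw [C.cnT]; simp
  have huV : u ∈ Vx A := C.cn T C.memT huC
  have hwV : w ∈ Vx A := C.cn T C.memT hwC
  have hmemF : ∀ {X : Set ℂ}, X ∈ A → ∀ {v : ℂ}, v ∈ Cn X → v ∈ X :=
    fun {X} hX {v} hv => (hcl X hX).frontier_subset hv.1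
  have huT : u ∈ T := hmemF hTA huC
  have hwT : w ∈ T := hmemF hTA hwC
  obtain ⟨T', hT'def⟩ : ∃ T', T' = hf u w '' T := ⟨_, rfl⟩
  obtain ⟨a', ha'def⟩ : ∃ a', a' = hf u w '' a := ⟨_, rfl⟩
  have hT'A : T' ∈ A := hT'def ▸ D.memT'
  have hT'T : T' ≠ T := hT'def ▸ D.neT'
  have cnT' : Cn T' = {u, w} := by
    rw [hT'def, (hCo (hf u w) T).1, C.cnT, image_pair, local_hfu, local_hfw, pair_comm]
  have huT' : u ∈ T' := hmemF hT'A (by rw [cnT']; simp)
  have hwT' : w ∈ T' := hmemF hT'A (by rw [cnT']; simp)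
  have hT'H : T' ∈ H := C.touch T' hT'A ⟨u, huT', huT⟩
  have sideT : ∀ s, IsSide T s → SideOK T u w s :=
    (hSi T (hfam.disk T hTA) u w C.ne C.cnT).2
  have sideT' : ∀ s, IsSide T' s → SideOK T' u w s :=
    (hSi T' (hfam.disk T' hT'A) u w C.ne cnT').2
  have ha's : IsSide T' a' := by
    rw [hT'def, ha'def]
    exact ((hCo (hf u w) T).2 _).2 ⟨a, D.ts.sa, rfl⟩
  have clA : closure a = a ∪ {u, w} := (sideT a D.ts.sa).clos
  have clA' : closure a' = a' ∪ {u, w} := (sideT' a' ha's).clos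
  have hid : (IsometryEquiv.refl ℂ) '' a = a := local_id a
  have hSgT : Sg a T a := ⟨D.ts.sa, IsometryEquiv.refl ℂ, hid.symm⟩
  have hSgT' : Sg a T' a' := ⟨ha's, hf u w, ha'def⟩
  have nV : ∀ {X l : Set ℂ}, X ∈ A → l ∈ arcs A X → ∀ v ∈ Vx A, v ∉ l :=
    fun {X l} hX hl v hv hvl => (euler_sub h1 hfam hX hl hvl).2 hv
  have hua : u ∈ closure a := by rw [clA]; right; simp
  have hwa : w ∈ closure a := by rw [clA]; right; simp
  have huX : u ∈ X1 := euler_clos hB h1 hfam hX1 haX1 hua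
  have hwX : w ∈ X1 := euler_clos hB h1 hfam hX1 haX1 hwa
  have hX1H : X1 ∈ H := C.touch X1 hX1 ⟨u, huX, huT⟩
  have hX1T' : X1 ≠ T' := by
    rintro rfl
    rw [cnT'] at huX1
    exact huX1 (by simp)
  have S' := hSA A hfam T' (C.inn T' hT'H) u w C.ne cnT' huV hwV
  obtain ⟨mu, hmu, hmua, humu, hmuU⟩ := S'.first a' ha's u (Or.inl rfl)
  obtain ⟨mw, hmw, hmwa, hwmw, hmwU⟩ := S'.first a' ha's w (Or.inr rfl)
  obtain ⟨Qu, hQu, hQuT', hmuQu⟩ := local_other h1 hfam hT'A hmu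
  obtain ⟨Qw, hQw, hQwT', hmwQw⟩ := local_other h1 hfam hT'A hmw
  have huQu : u ∈ Qu := euler_clos hB h1 hfam hQu hmuQu humu
  have hwQw : w ∈ Qw := euler_clos hB h1 hfam hQw hmwQw hwmw
  have hQuH : Qu ∈ H := C.touch Qu hQu ⟨u, huQu, huT⟩
  have hQwH : Qw ∈ H := C.touch Qw hQw ⟨w, hwQw, hwT⟩
  by_cases hα : Qu = X1
  · -- case (alpha)
    have hmuX1 : mu ∈ arcs A X1 := hα ▸ hmuQu
    have hamu : a ≠ mu := by
      intro h
      have hmT : mu ∈ arcs A T := h ▸ haT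
      rcases euler_two h1 hfam hcl hT'A hX1 hTA hX1T'.symm hmu hmuX1 hmT with h | h
      · exact hT'T h.symm
      · exact hX1T h.symm
    have hmune : mu ≠ a' := by
      intro h
      have hwmu : w ∈ closure mu := by rw [h, clA']; right; simp
      have hl := hLe A hfam X1 (C.inn X1 hX1H) a haX1 mu hmuX1 hamu u w C.ne huV hwV hua hwa
        humu hwmu
      obtain ⟨p, q, hpq, hcn⟩ := K.two X1 hX1
      have hp : p ∈ Cn X1 := by rw [hcn]; simp
      have hq : q ∈ Cn X1 := by rw [hcn]; simp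
      have hpw : p = w := (hl p (C.cn X1 hX1H hp) (hmemF hX1 hp)).resolve_left
        (fun h => huX1 (h ▸ hp))
      have hqw : q = w := (hl q (C.cn X1 hX1H hq) (hmemF hX1 hq)).resolve_left
        (fun h => huX1 (h ▸ hq))
      exact hpq (hpw.trans hqw.symm)
    have hwmu : w ∉ closure mu := fun h => hmune (S'.whole a' ha's mu hmu hmua humu h)
    obtain ⟨f, hfV, hfu, hfmu⟩ := local_end h3 hfam (C.inn T' hT'H) hmu huV humu
    have hfw : f ≠ w := fun h => hwmu (h ▸ hfmu)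
    have hfa' : f ∈ a' := by
      have h : f ∈ closure a' := closure_mono hmua hfmu
      rw [clA'] at h
      rcases h with h | h
      · exact h
      · simp only [mem_insert_iff, mem_singleton_iff] at h
        rcases h with h | h
        · exact absurd h hfu
        · exact absurd h hfw
    have hfT' : f ∈ T' := euler_clos hB h1 hfam hT'A hmu hfmu
    have hfX1 : f ∈ X1 := euler_clos hB h1 hfam hX1 hmuX1 hfmu
    have hfcT' : f ∉ Cn T' := by
      rw [cnT']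
      simp only [mem_insert_iff, mem_singleton_iff, not_or]
      exact ⟨hfu, hfw⟩
    have hfcX1 : f ∈ Cn X1 := by
      by_contra h
      exact hX1T' (local_N C hfV hX1H hfX1 hX1 hT'A hfX1 hfT' h hfcT')
    have hmwmu : mw ≠ mu := fun h => hwmu (h ▸ hwmw)
    have humw : u ∉ closure mw := fun h => hmwmu (hmuU mw hmw hmwa h)
    have hwcQw : w ∉ Cn Qw := by
      obtain ⟨p, hp, hpm, hpQ⟩ := hE A H T u w a b D T' hT'H a' hSgT' mw hmw hmwa Qw hQw hQwT'
        hmwQw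
      rw [cnT'] at hp
      simp only [mem_insert_iff, mem_singleton_iff] at hp
      rcases hp with rfl | rfl
      · exact absurd hpm humw
      · exact hpQ
    -- the arcs of T' at f
    have harcs : ∀ l ∈ arcs A T', f ∈ closure l → l = mu ∨ l = mw := by
      intro l hl hfl
      have hla : l ⊆ a' := S'.inner a' ha's f hfa' l hl hfl
      obtain ⟨Q, hQ, hQne, hlQ⟩ := local_other h1 hfam hT'A hl
      obtain ⟨p, hp, hpl, -⟩ := hE A H T u w a b D T' hT'H a' hSgT' l hl hla Q hQ hQne hlQ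
      rw [cnT'] at hp
      simp only [mem_insert_iff, mem_singleton_iff] at hp
      rcases hp with rfl | rfl
      · exact Or.inl (hmuU l hl hla hpl)
      · exact Or.inr (hmwU l hl hla hpl)
    have hfmw : f ∈ closure mw := by
      obtain ⟨l₁, hl₁, l₂, hl₂, hne, hf1, hf2, -, -⟩ := h2 A hfam T' hT'A f hfV hfT'
      rcases harcs l₁ hl₁ hf1 with h | h
      · rcases harcs l₂ hl₂ hf2 with h' | h'
        · exact absurd (h.trans h'.symm) hne
        · rw [← h']; exact hf2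
      · rw [← h]; exact hf1
    have hmwX1 : mw ∉ arcs A X1 := fun h =>
      hN2 A hfam f hfV T' X1 mu mw hT'A hX1 hmwmu.symm ⟨hX1T'.symm, hmu, hmuX1⟩
        ⟨hX1T'.symm, hmw, h⟩ hfmu hfmw
    have hQwX1 : Qw ≠ X1 := fun h => hmwX1 (h ▸ hmwQw)
    have hwcX1 : w ∈ Cn X1 := by
      by_contra h
      exact hQwX1 (local_N C hwV hX1H hwX hQw hX1 hwQw hwX hwcQw h)
    obtain ⟨p, q, hpq, hcn⟩ := K.two X1 hX1
    have cnX1 : Cn X1 = {w, f} := local_pair hcn hwcX1 hfcX1 hfw.symm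
    have S1 := hSA A hfam X1 (C.inn X1 hX1H) w f hfw.symm cnX1 hwV hfV
    have huF : u ∈ frontier X1 \ Cn X1 := ⟨arc2_front hb hX1 huV huX, huX1⟩
    obtain ⟨s1, hs1def⟩ : ∃ s1, s1 = connectedComponentIn (frontier X1 \ Cn X1) u := ⟨_, rfl⟩
    have hs1 : IsSide X1 s1 := ⟨u, huF, hs1def⟩
    have hus1 : u ∈ s1 := by rw [hs1def]; exact mem_connectedComponentIn huF
    have has1 : a ⊆ s1 := S1.inner s1 hs1 u hus1 a haX1 hua
    have hmus1 : mu ⊆ s1 := S1.inner s1 hs1 u hus1 mu hmuX1 humu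
    have hfa : f ∉ closure a := by
      rw [clA]
      simp only [mem_union, mem_insert_iff, mem_singleton_iff, not_or]
      exact ⟨nV hX1 haX1 f hfV, hfu, hfw⟩
    obtain ⟨hns, g, hg, hsg, hr1, hSr1, hsr⟩ := local_long hSi hCo hC D hX1 hfw.symm cnX1
      hs1 (IsometryEquiv.refl ℂ) (by rw [hid]; exact has1) (by rw [hid]; exact hfa)
    obtain ⟨m, hm, hmr, hfm, -⟩ := S1.first (g '' a) hr1 f (Or.inr rfl)
    obtain ⟨Q, hQ, hQne, hmQ⟩ := local_other h1 hfam hX1 hm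
    obtain ⟨c, hc, hcm, hcQ⟩ := hE A H T u w a b D X1 hX1H (g '' a) hSr1 m hm hmr Q hQ hQne hmQ
    obtain ⟨z, hz⟩ := euler_ne h1 hfam hX1 hm
    rw [cnX1] at hc
    simp only [mem_insert_iff, mem_singleton_iff] at hc
    rcases hc with rfl | rfl
    · -- the corner w
      have hwQ : c ∈ Q := euler_clos hB h1 hfam hQ hmQ hcm
      have hQQ : Q = Qw := local_N C hwV hX1H hwX hQ hQw hwQ hwQw hcQ hwcQw
      have hmmw : m ≠ mw := fun h => hmwX1 (h ▸ hm)
      have hmQw : m ∈ arcs A Qw := hQQ ▸ hmQ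
      have hl := hLe A hfam Qw (C.inn Qw hQwH) m hmQw mw hmwQw hmmw f c hfw hfV hwV hfm hcm
        hfmw hwmw
      obtain ⟨p', q', hpq', hcn'⟩ := K.two Qw hQw
      have hp : p' ∈ Cn Qw := by rw [hcn']; simp
      have hq : q' ∈ Cn Qw := by rw [hcn']; simp
      have hpf : p' = f := (hl p' (C.cn Qw hQwH hp) (hmemF hQw hp)).resolve_right
        (fun h => hwcQw (h ▸ hp))
      have hqf : q' = f := (hl q' (C.cn Qw hQwH hq) (hmemF hQw hq)).resolve_right
        (fun h => hwcQw (h ▸ hq))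
      exact hpq' (hpf.trans hqf.symm)
    · -- the corner f
      have hfQ : c ∈ Q := euler_clos hB h1 hfam hQ hmQ hcm
      have hQT' : Q = T' := local_N C hfV hX1H hfX1 hQ hT'A hfQ hfT' hcQ hfcT'
      have hmT' : m ∈ arcs A T' := hQT' ▸ hmQ
      rcases harcs m hmT' hcm with h | h
      · have hz1 : z ∈ s1 := hmus1 (h ▸ hz)
        exact local_disj hs1 hr1 hsr z hz1 (hmr hz)
      · exact hmwX1 (h ▸ hm)
  · -- case (beta)
    obtain ⟨p, hp, hpm, hpQ⟩ := hE A H T u w a b D T' hT'H a' hSgT' mu hmu hmua Qu hQu hQuT'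
      hmuQu
    rw [cnT'] at hp
    simp only [mem_insert_iff, mem_singleton_iff] at hp
    rcases hp with rfl | rfl
    · exact hα (local_N C huV hX1H huX hQu hX1 huQu huX hpQ huX1)
    have hmua' : mu = a' := S'.whole a' ha's mu hmu hmua humu hpm
    have ha'T' : a' ∈ arcs A T' := hmua' ▸ hmu
    have ha'Q : a' ∈ arcs A Qu := hmua' ▸ hmuQu
    have hua' : u ∈ closure a' := hmua' ▸ humu
    have hwa' : p ∈ closure a' := hmua' ▸ hpm
    have hwQu : p ∈ Qu := euler_clos hB h1 hfam hQu ha'Q hwa'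
    have hwcX1 : p ∈ Cn X1 := by
      by_contra h
      exact hα (local_N C hwV hX1H hwX hQu hX1 hwQu hwX hpQ h)
    have hucQu : u ∈ Cn Qu := by
      by_contra h
      exact hα (local_N C huV hX1H huX hQu hX1 huQu huX h huX1)
    obtain ⟨c, hcw, cnX1⟩ : ∃ c, p ≠ c ∧ Cn X1 = {p, c} := by
      obtain ⟨p', q', hpq', hcn'⟩ := K.two X1 hX1
      have hp' : p' ∈ Cn X1 := by rw [hcn']; simp
      have hq' : q' ∈ Cn X1 := by rw [hcn']; simp
      by_cases h : p = p'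
      · exact ⟨q', h ▸ hpq', local_pair hcn' hwcX1 hq' (h ▸ hpq')⟩
      · exact ⟨p', h, local_pair hcn' hwcX1 hp' h⟩
    have hcC : c ∈ Cn X1 := by rw [cnX1]; simp
    have hcu : c ≠ u := fun h => huX1 (h ▸ hcC)
    have hcV : c ∈ Vx A := C.cn X1 hX1H hcC
    have hcX1 : c ∈ X1 := hmemF hX1 hcC
    have S1 := hSA A hfam X1 (C.inn X1 hX1H) p c hcw cnX1 hwV hcV
    obtain ⟨s1, hs1, has1⟩ := S1.side a haX1
    have hca : c ∉ closure a := by
      rw [clA]
      simp only [mem_union, mem_insert_iff, mem_singleton_iff, not_or]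
      exact ⟨nV hX1 haX1 c hcV, hcu, hcw.symm⟩
    obtain ⟨hns, g, hg, hsg, hr1, hSr1, hsr⟩ := local_long hSi hCo hC D hX1 hcw cnX1
      hs1 (IsometryEquiv.refl ℂ) (by rw [hid]; exact has1) (by rw [hid]; exact hca)
    obtain ⟨l, hl, hls, hlQ⟩ := hN A H T u p a b D X1 hX1H s1 hs1 hns
    have hla : l ≠ a := by
      intro h
      exact hlQ T hTA hX1T.symm (h ▸ haT) (h ▸ hSgT)
    obtain ⟨y, hy⟩ := euler_ne h1 hfam hX1 haX1
    have hlne : l ≠ s1 := by
      intro h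
      exact hla (euler_eq hl haX1 (h ▸ has1 hy) hy)
    obtain ⟨Q, hQ, hQne, hlQ'⟩ := local_other h1 hfam hX1 hl
    have hcl' : c ∈ closure l ∧ c ∉ Cn Q := by
      rcases hF A H T u p a b D X1 hX1H s1 hs1 l hl hls hlne Q hQ hQne hlQ' with h | h
      · exact absurd h (hlQ Q hQ hQne hlQ')
      · obtain ⟨f, hf, hfl, hfQ⟩ := h
        rw [cnX1] at hf
        simp only [mem_insert_iff, mem_singleton_iff] at hf
        rcases hf with rfl | rfl
        · obtain ⟨l0, -, -, -, hU⟩ := S1.first s1 hs1 f (Or.inl rfl)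
          exact absurd ((hU l hl hls hfl).trans (hU a haX1 has1 hwa).symm) hla
        · exact ⟨hfl, hfQ⟩
    obtain ⟨m, hm, hmr, hcm, -⟩ := S1.first (g '' a) hr1 c (Or.inr rfl)
    obtain ⟨Q', hQ', hQ'ne, hmQ'⟩ := local_other h1 hfam hX1 hm
    have hlm : l ≠ m := by
      intro h
      obtain ⟨z, hz⟩ := euler_ne h1 hfam hX1 hm
      exact local_disj hs1 hr1 hsr z (hls (h ▸ hz)) (hmr hz)
    have hcQ : c ∈ Q := euler_clos hB h1 hfam hQ hlQ' hcl'.1
    have hcQ' : c ∈ Q' := euler_clos hB h1 hfam hQ' hmQ' hcm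
    have hno : Q' ≠ Q := fun h =>
      hN2 A hfam c hcV X1 Q l m hX1 hQ hlm ⟨hQne.symm, hl, hlQ'⟩ ⟨hQne.symm, hm, h ▸ hmQ'⟩
        hcl'.1 hcm
    obtain ⟨d, hd, hdm, hdQ⟩ := hE A H T u p a b D X1 hX1H (g '' a) hSr1 m hm hmr Q' hQ' hQ'ne
      hmQ'
    rw [cnX1] at hd
    simp only [mem_insert_iff, mem_singleton_iff] at hd
    rcases hd with rfl | rfl
    swap
    · exact hno (local_N C hcV hX1H hcX1 hQ' hQ hcQ' hcQ hdQ hcl'.2)
    have hwQ' : d ∈ Q' := euler_clos hB h1 hfam hQ' hmQ' hdm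
    have hQQu : Q' = Qu := local_N C hwV hX1H hwX hQ' hQu hwQ' hwQu hdQ hpQ
    subst hQQu
    have hccQ' : c ∈ Cn Q' := by
      by_contra h
      exact hno (local_N C hcV hX1H hcX1 hQ' hQ hcQ' hcQ h hcl'.2)
    have hmr1 : m = g '' a := S1.whole (g '' a) hr1 m hm hmr hdm hcm
    obtain ⟨p', q', hpq', hcn'⟩ := K.two Q' hQ'
    have cnQ' : Cn Q' = {u, c} := local_pair hcn' hucQu hccQ' hcu.symm
    have S2 := hSA A hfam Q' (C.inn Q' hQuH) u c hcu.symm cnQ' huV hcV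
    have hwF : d ∈ frontier Q' \ Cn Q' := ⟨arc2_front hb hQ' hwV hwQ', hdQ⟩
    obtain ⟨t, htdef⟩ : ∃ t, t = connectedComponentIn (frontier Q' \ Cn Q') d := ⟨_, rfl⟩
    have ht : IsSide Q' t := ⟨d, hwF, htdef⟩
    have hwt : d ∈ t := by rw [htdef]; exact mem_connectedComponentIn hwF
    have ha't : a' ⊆ t := S2.inner t ht d hwt a' ha'Q hwa'
    have hmt : m ⊆ t := S2.inner t ht d hwt m hmQ' hdm
    have hca' : c ∉ closure a' := by
      rw [clA']
      simp only [mem_union, mem_insert_iff, mem_singleton_iff, not_or]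
      exact ⟨nV hT'A ha'T' c hcV, hcu, hcw.symm⟩
    obtain ⟨hns', -⟩ := local_long hSi hCo hC D hQ' hcu.symm cnQ' ht (hf u d)
      (by rw [← ha'def]; exact ha't) (by rw [← ha'def]; exact hca')
    obtain ⟨l', hl', hl't, hl'Q⟩ := hN A H T u d a b D Q' hQuH t ht hns'
    rcases hCh A hfam Q' (C.inn Q' hQuH) u c hcu.symm cnQ' huV hcV t ht a' ha'Q m hmQ' ha't hmt
      d hwV C.ne.symm hcw hua' hwa' hdm hcm l' hl' hl't with h | h
    · subst h
      exact hl'Q T' hT'A hQuT'.symm ha'T' hSgT'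
    · subst h
      exact hl'Q X1 hX1 hQ'ne.symm hm (hmr1 ▸ hSr1)

theorem locT (hB : Stmt_Bas) (h1 : Stmt_Arc1) (h2 : Stmt_Arc2) (h3 : Stmt_Arc3)
    (hSi : Stmt_Side) (hCo : Stmt_Copy) (hSA : Stmt_SArc) (hLe : Stmt_Lens) (hCh : Stmt_Chain)
    (hN2 : Stmt_NoTwo) (hC : Stmt_Cmp) (hN : Stmt_LemN) (hF : Stmt_LemF) (hE : Stmt_LemE) :
    Stmt_Local := by
  intro A H T u w a b D
  have C := D.cfg
  have haT := local_T hB h1 h3 hSA D
  have hTA : T ∈ A := C.sub C.memT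
  obtain ⟨X1, hX1, hX1T, haX1⟩ := local_other h1 C.fam hTA haT
  have hSgT : Sg a T a := ⟨D.ts.sa, IsometryEquiv.refl ℂ, (local_id a).symm⟩
  obtain ⟨p, hp, -, hpX⟩ := hE A H T u w a b D T C.memT a hSgT a haT (Subset.refl a) X1 hX1
    hX1T haX1
  rw [C.cnT] at hp
  simp only [mem_insert_iff, mem_singleton_iff] at hp
  rcases hp with rfl | rfl
  · exact local_main hB h1 h2 h3 hSi hCo hSA hLe hCh hN2 hC hN hF hE D hX1 hX1T haX1 haT hpX
  · exact local_main hB h1 h2 h3 hSi hCo hSA hLe hCh hN2 hC hN hF hE (local_symm D) hX1 hX1T haX1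
      haT hpX

end Pool.Agent.Hsh
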