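import Pool.Agent.Hsh.StmtsD

set_option autoImplicit false

/-!
# An isometry mapping a compact set into itself maps it onto itself (MP_51bd69_co)
-/

namespace Pool.Agent.Hsh

open Set Metric MeasureTheory Filter Topology Classical

lemma nC_iter_dist (φ : ℂ ≃ᵢ ℂ) (n : ℕ) (a b : ℂ) : dist (φ^[n] a) (φ^[n] b) = dist a b := by
  induction n generalizing a b with
  | zero => rfl
  | succ n ih => rw [Function.iterate_succ_apply, Function.iterate_succ_apply, ih, φ.dist_eq]

lemma nC_iter_mem (φ : ℂ ≃ᵢ ℂ) (K : Set ℂ) (hs : φ '' K ⊆ K) (x : ℂ) (hx : x ∈ K) (n : ℕ) :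
    φ^[n] x ∈ K := by
  induction n with
  | zero => exact hx
  | succ n ih => rw [Function.iterate_succ_apply']; exact hs ⟨_, ih, rfl⟩

lemma nC_one (φ : ℂ ≃ᵢ ℂ) (K : Set ℂ) (hK : IsCompact K) (hs : φ '' K ⊆ K) : φ '' K = K := by
  refine Subset.antisymm hs ?_
  intro x hx
  by_contra hxn
  have hcl : IsClosed (φ '' K) := (hK.image φ.continuous).isClosed
  have hopen : IsOpen (φ '' K)ᶜ := hcl.isOpen_compl
  obtain ⟨d, hd, hball⟩ := Metric.isOpen_iff.1 hopen x hxn
  obtain ⟨a, -, ψ, hψ, hlim⟩ := hK.tendsto_subseq (nC_iter_mem φ K hs x hx)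
  have hC : CauchySeq ((fun n => φ^[n] x) ∘ ψ) := hlim.cauchySeq
  obtain ⟨N, hN⟩ := Metric.cauchySeq_iff.1 hC d hd
  have h1 := hN (N + 1) (by omega) N le_rfl
  simp only [Function.comp] at h1
  have hlt : ψ N < ψ (N + 1) := hψ (Nat.lt_succ_self N)
  obtain ⟨k, hk⟩ : ∃ k, ψ (N + 1) = ψ N + (k + 1) := ⟨ψ (N + 1) - ψ N - 1, by omega⟩
  rw [hk, Function.iterate_add_apply, nC_iter_dist] at h1
  have h2 : φ^[k + 1] x ∈ φ '' K := by
    rw [Function.iterate_succ_apply']
    exact ⟨_, nC_iter_mem φ K hs x hx k, rfl⟩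
  exact hball (mem_ball.2 h1) h2

lemma nC_two (φ : ℂ ≃ᵢ ℂ) (s : Set ℂ) (p q : ℂ) (hb : Bornology.IsBounded s)
    (hcl : closure s = s ∪ {p, q}) (hp : p ∉ s) (hq : q ∉ s) (hs : φ '' s ⊆ s) : φ '' s = s := by
  have hKc : IsCompact (closure s) := hb.isCompact_closure
  have himg : φ '' closure s = closure (φ '' s) := φ.toHomeomorph.image_closure s
  have hsub : φ '' closure s ⊆ closure s := by
    rw [himg]; exact closure_mono hs
  have hEq : φ '' closure s = closure s := nC_one φ _ hKc hsub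
  rw [hcl, image_union, image_pair] at hEq
  have hfp : φ p ∉ φ '' s := by
    rintro ⟨x, hx, h⟩
    exact hp (φ.injective h ▸ hx)
  have hfq : φ q ∉ φ '' s := by
    rintro ⟨x, hx, h⟩
    exact hq (φ.injective h ▸ hx)
  have hpm : p ∈ φ '' s ∪ {φ p, φ q} := by rw [hEq]; simp
  have hqm : q ∈ φ '' s ∪ {φ p, φ q} := by rw [hEq]; simp
  have hp1 : p = φ p ∨ p = φ q := by
    rcases hpm with h | h
    · exact absurd (hs h) hp
    · simpa using h
  have hq1 : q = φ p ∨ q = φ q := by
    rcases hqm with h | h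
    · exact absurd (hs h) hq
    · simpa using h
  refine Subset.antisymm hs ?_
  intro x hx
  have hxm : x ∈ φ '' s ∪ {φ p, φ q} := by rw [hEq]; exact Or.inl hx
  rcases hxm with h | h
  · exact h
  · exfalso
    have hxpq : x = φ p ∨ x = φ q := by simpa using h
    have hxp : x ≠ p := fun h => hp (h ▸ hx)
    have hxq : x ≠ q := fun h => hq (h ▸ hx)
    rcases hxpq with h | h
    · -- x = φ p
      rcases hp1 with h1 | h1
      · exact hxp (h.trans h1.symm)
      · rcases hq1 with h2 | h2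
        · exact hxq (h.trans h2.symm)
        · -- p = φ q = q
          have hpq : p = q := h1.trans h2.symm
          rw [hpq, ← h2] at h
          exact hxq h
    · rcases hq1 with h1 | h1
      · rcases hp1 with h2 | h2
        · have hpq : p = q := h2.trans h1.symm
          rw [← hpq, ← h2] at h
          exact hxp h
        · exact hxp (h.trans h2.symm)
      · exact hxq (h.trans h1.symm)

theorem nC : Stmt_NC :=
  ⟨fun φ K hK hs => nC_one φ K hK hs, fun φ s p q hb hcl hp hq hs => nC_two φ s p q hb hcl hp hq hs⟩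

end Pool.Agent.Hsh
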