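import Pool.Agent.Hsh.StmtsD
import Pool.Agent.Hsh.TwoT

set_option autoImplicit false

/-!
# Module NoTwo: two tiles cannot have two common arcs at a vertex
-/

namespace Pool.Agent.Hsh

open Set Metric MeasureTheory Filter Topology Classical

theorem noTwo_arc (h2 : Stmt_Arc2) {A : Finset (Set ℂ)} (hA : Fam A) {X l l' k : Set ℂ}
    (hX : X ∈ A) {v : ℂ} (hv : v ∈ Vx A) (hvX : v ∈ X) (hne : l ≠ l') (hl : l ∈ arcs A X)
    (hl' : l' ∈ arcs A X) (hk : k ∈ arcs A X) (hvl : v ∈ closure l) (hvl' : v ∈ closure l')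
    (hvk : v ∈ closure k) : k = l ∨ k = l' := by
  obtain ⟨l₁, -, l₂, -, -, -, -, huniq, -⟩ := h2 A hA X hX v hv hvX
  have e1 := huniq l hl hvl
  have e2 := huniq l' hl' hvl'
  have e3 := huniq k hk hvk
  rcases e1 with e1 | e1 <;> rcases e2 with e2 | e2 <;> rcases e3 with e3 | e3
  · exact Or.inl (e3.trans e1.symm)
  · exact absurd (e1.trans e2.symm) hne
  · exact Or.inl (e3.trans e1.symm)
  · exact Or.inr (e3.trans e2.symm)
  · exact Or.inr (e3.trans e2.symm)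
  · exact Or.inl (e3.trans e1.symm)
  · exact absurd (e1.trans e2.symm) hne
  · exact Or.inl (e3.trans e1.symm)

theorem noTwo (hB : Stmt_Bas) (h1 : Stmt_Arc1) (h2 : Stmt_Arc2) (hSt : Stmt_Star) :
    Stmt_NoTwo := by
  intro A hA v hv X Y l l' hX hY hne hs hs' hvl hvl'
  have hb := hB A hA
  have hmem : ∀ Z ∈ A, ∀ k ∈ arcs A Z, v ∈ closure k → v ∈ Z := by
    intro Z hZ k hk hvk
    obtain ⟨-, -, -, -, -, hsub, -⟩ := h1 A hA Z hZ k hk
    have h3 : k ⊆ Z := fun q hq => (hb.closed Z hZ).frontier_subset (hsub hq).1.1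
    exact closure_minimal h3 (hb.closed Z hZ) hvk
  have hvX := hmem X hX l hs.2.1 hvl
  have hvY := hmem Y hY l hs.2.2 hvl
  obtain ⟨X2, hX2, Y2, hY2, hYP, k, hk, hvk⟩ := hSt A hA v hv {X, Y} (by
    intro Z hZ
    rcases Finset.mem_insert.1 hZ with rfl | hZ
    · exact TwoT_mem_at.2 ⟨hX, hvX⟩
    · rw [Finset.mem_singleton.1 hZ]
      exact TwoT_mem_at.2 ⟨hY, hvY⟩) ⟨X, Finset.mem_insert_self _ _⟩ (by
    intro h
    have h3 := hv.2
    rw [← h] at h3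
    have h4 := Finset.card_le_two (a := X) (b := Y)
    omega)
  have hYX : Y2 ≠ X := fun h => hYP (by rw [h]; exact Finset.mem_insert_self _ _)
  have hYY : Y2 ≠ Y := fun h => hYP (by
    rw [h]; exact Finset.mem_insert_of_mem (Finset.mem_singleton_self _))
  have hY2A := (TwoT_mem_at.1 hY2).1
  have key : ∀ Z Z' : Set ℂ, Z ∈ A → Z' ∈ A → v ∈ Z → Sh A Z Z' l → Sh A Z Z' l' → Y2 ≠ Z →
      Y2 ≠ Z' → ¬ Sh A Z Y2 k := by
    intro Z Z' hZ hZ' hvZ hz hz' hYZ hYZ' hc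
    rcases noTwo_arc h2 hA hZ hv hvZ hne hz.2.1 hz'.2.1 hc.2.1 hvl hvl' hvk with rfl | rfl
    · exact hYZ' (TwoT_uniq hb h1 hA hZ hY2A hZ' hYZ hz.1.symm hc.2.1 hc.2.2 hz.2.2)
    · exact hYZ' (TwoT_uniq hb h1 hA hZ hY2A hZ' hYZ hz.1.symm hc.2.1 hc.2.2 hz'.2.2)
  rcases Finset.mem_insert.1 hX2 with rfl | h5
  · exact key X2 Y hX hY hvX hs hs' hYX hYY hk
  · rw [Finset.mem_singleton.1 h5] at hk
    exact key Y X hY hX hvY ⟨hs.1.symm, hs.2.2, hs.2.1⟩ ⟨hs'.1.symm, hs'.2.2, hs'.2.1⟩ hYY hYX hk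

end Pool.Agent.Hsh
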