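import Pool.Agent.Hsh.StmtsD

set_option autoImplicit false

/-!
# A side mapped to itself by the reflection in the line through the corners is a segment
-/

namespace Pool.Agent.Hsh

open Set Metric MeasureTheory Filter Topology Classical
open scoped ComplexConjugate

section

variable {u w : ℂ}

lemma Rf_conj_ne (h : u ≠ w) : conj (w - u) ≠ 0 := by
  rw [Ne, map_eq_zero, sub_eq_zero]
  exact h.symm

lemma Rf_left (h : u ≠ w) : rf u w u = u := by
  have hd := Rf_conj_ne h
  have e : u - (u + w) / 2 = -((w - u) / 2) := by ring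
  unfold rf
  rw [e, map_neg, map_div₀, map_ofNat]
  field_simp
  ring

lemma Rf_right (h : u ≠ w) : rf u w w = w := by
  have hd := Rf_conj_ne h
  have e : w - (u + w) / 2 = (w - u) / 2 := by ring
  unfold rf
  rw [e, map_div₀, map_ofNat]
  field_simp
  ring

lemma Rf_inv (h : u ≠ w) (z : ℂ) : rf u w (rf u w z) = z := by
  have hd := Rf_conj_ne h
  have hd' : w - u ≠ 0 := sub_ne_zero.mpr h.symm
  unfold rf
  rw [add_sub_cancel_left, map_mul, map_div₀, Complex.conj_conj, Complex.conj_conj]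
  field_simp
  ring

lemma Rf_cont (u w : ℂ) : Continuous (rf u w) := by
  unfold rf
  have h1 : Continuous fun z : ℂ => conj (z - (u + w) / 2) :=
    Complex.continuous_conj.comp (continuous_id.sub continuous_const)
  exact continuous_const.add (continuous_const.mul h1)

lemma Rf_line (h : u ≠ w) {z : ℂ} (hz : rf u w z = z) :
    z = u + (((z - u) / (w - u)).re : ℂ) * (w - u) := by
  have hd := Rf_conj_ne h
  have hd' : w - u ≠ 0 := sub_ne_zero.mpr h.symm
  have h1 : conj ((z - u) / (w - u)) = (z - u) / (w - u) := by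
    rw [map_div₀, div_eq_div_iff hd hd']
    unfold rf at hz
    rw [map_sub, map_sub] at *
    rw [map_div₀, map_add, map_ofNat] at hz
    have h2 : (w - u) * (conj z - (conj u + conj w) / 2) =
        (z - (u + w) / 2) * (conj w - conj u) := by
      have h3 : (w - u) / (conj w - conj u) * (conj z - (conj u + conj w) / 2) =
          z - (u + w) / 2 := by linear_combination hz
      rw [← h3]
      field_simp
    linear_combination h2
  rw [Complex.conj_eq_iff_re.mp h1]
  field_simp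
  ring

end

/-- L2 -/
theorem rfT (hS : Stmt_Side) : Stmt_Rf := by
  intro T hT u w huw hCn s hs hR
  have hok := (hS T hT u w huw hCn).2 s hs
  obtain ⟨γ, hγc, hγi, hγ0, hγ1, hγs⟩ := hok.par
  -- the reflection preserves the closed curve piece
  have hmem : ∀ t ∈ Icc (0 : ℝ) 1, ∃ t' ∈ Icc (0 : ℝ) 1, γ t' = rf u w (γ t) := by
    intro t ht
    rcases eq_or_lt_of_le ht.1 with h0 | h0
    · exact ⟨0, by simp, by rw [← h0, hγ0, Rf_left huw]⟩
    rcases eq_or_lt_of_le ht.2 with h1 | h1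
    · exact ⟨1, by simp, by rw [h1, hγ1, Rf_right huw]⟩
    have h2 : rf u w (γ t) ∈ s := by
      rw [← hR]
      refine ⟨γ t, ?_, rfl⟩
      rw [hγs]
      exact ⟨t, ⟨h0, h1⟩, rfl⟩
    rw [hγs] at h2
    obtain ⟨t', ht', h3⟩ := h2
    exact ⟨t', ⟨ht'.1.le, ht'.2.le⟩, h3⟩
  have hfix : ∀ t ∈ Icc (0 : ℝ) 1, rf u w (γ t) = γ t := by
    let f : Icc (0 : ℝ) 1 → ℂ := fun t => γ t.1
    have hfc : Continuous f := hγc.comp_continuous continuous_subtype_val fun t => t.2
    have hfi : Function.Injective f := fun a b hab => Subtype.ext (hγi a.2 b.2 hab)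
    have hfe := (hfc.isClosedEmbedding hfi).isEmbedding
    choose θ' hθ' using fun t : Icc (0 : ℝ) 1 =>
      (⟨⟨(hmem t.1 t.2).choose, (hmem t.1 t.2).choose_spec.1⟩, (hmem t.1 t.2).choose_spec.2⟩ :
        ∃ t' : Icc (0 : ℝ) 1, f t' = rf u w (f t))
    have hθc : Continuous θ' := by
      rw [hfe.continuous_iff]
      have e : f ∘ θ' = fun t => rf u w (f t) := funext hθ'
      rw [e]
      exact (Rf_cont u w).comp hfc
    have hθθ : ∀ t, θ' (θ' t) = t := by
      intro t
      apply hfi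
      rw [hθ', hθ', Rf_inv huw]
    have h01 : (0 : ℝ) ≤ 1 := zero_le_one
    obtain ⟨θ, hθ⟩ : ∃ θ : ℝ → ℝ, θ = IccExtend h01 (fun t => (θ' t : ℝ)) := ⟨_, rfl⟩
    have hθv : ∀ t (ht : t ∈ Icc (0 : ℝ) 1), θ t = (θ' ⟨t, ht⟩ : ℝ) := by
      intro t ht
      rw [hθ, IccExtend_of_mem h01 _ ht]
    have hc : ContinuousOn θ (Icc 0 1) := by
      rw [hθ]
      exact (Continuous.Icc_extend' (continuous_subtype_val.comp hθc)).continuousOn
    have hi : InjOn θ (Icc 0 1) := by
      intro a ha b hb hab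
      rw [hθv a ha, hθv b hb] at hab
      have h1 : θ' ⟨a, ha⟩ = θ' ⟨b, hb⟩ := Subtype.ext hab
      have h2 := congrArg θ' h1
      rw [hθθ, hθθ] at h2
      exact congrArg Subtype.val h2
    have h0 : θ 0 = 0 := by
      have h1 : (0 : ℝ) ∈ Icc (0 : ℝ) 1 := by simp
      rw [hθv 0 h1]
      have h2 : θ' ⟨0, h1⟩ = ⟨0, h1⟩ := by
        apply hfi
        rw [hθ']
        show rf u w (γ 0) = γ 0
        rw [hγ0, Rf_left huw]
      rw [h2]
    have h1 : θ 1 = 1 := by
      have h1 : (1 : ℝ) ∈ Icc (0 : ℝ) 1 := by simp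
      rw [hθv 1 h1]
      have h2 : θ' ⟨1, h1⟩ = ⟨1, h1⟩ := by
        apply hfi
        rw [hθ']
        show rf u w (γ 1) = γ 1
        rw [hγ1, Rf_right huw]
      rw [h2]
    have hmono := ContinuousOn.strictMonoOn_of_injOn_Icc h01 (by rw [h0, h1]; exact h01) hc hi
    intro t ht
    have hθt : θ t ∈ Icc (0 : ℝ) 1 := by
      rw [hθv t ht]
      exact (θ' ⟨t, ht⟩).2
    have hθθt : θ (θ t) = t := by
      rw [hθv _ hθt]
      have h2 : (⟨θ t, hθt⟩ : Icc (0 : ℝ) 1) = θ' ⟨t, ht⟩ := Subtype.ext (hθv t ht)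
      rw [h2, hθθ]
    have heq : θ t = t := by
      rcases lt_trichotomy (θ t) t with h2 | h2 | h2
      · have h3 := hmono hθt ht h2
        rw [hθθt] at h3
        exact absurd h3 (not_lt.mpr h2.le)
      · exact h2
      · have h3 := hmono ht hθt h2
        rw [hθθt] at h3
        exact absurd h3 (not_lt.mpr h2.le)
    have h2 := hθ' ⟨t, ht⟩
    have h3 : θ' ⟨t, ht⟩ = ⟨t, ht⟩ := Subtype.ext (by rw [← hθv t ht]; exact heq)
    rw [h3] at h2
    exact h2.symm
  -- the coordinate on the line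
  have hd' : w - u ≠ 0 := sub_ne_zero.mpr huw.symm
  obtain ⟨ρ, hρ⟩ : ∃ ρ : ℝ → ℝ, ∀ t, ρ t = ((γ t - u) / (w - u)).re := ⟨_, fun t => rfl⟩
  have hγρ : ∀ t ∈ Icc (0 : ℝ) 1, γ t = u + (ρ t : ℂ) * (w - u) := by
    intro t ht
    rw [hρ]
    exact Rf_line huw (hfix t ht)
  have hρc : ContinuousOn ρ (Icc 0 1) := by
    have e : ρ = fun t => ((γ t - u) / (w - u)).re := funext hρ
    rw [e]
    exact Complex.continuous_re.comp_continuousOn
      ((hγc.sub continuousOn_const).div_const _)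
  have hρi : InjOn ρ (Icc 0 1) := by
    intro a ha b hb hab
    apply hγi ha hb
    rw [hγρ a ha, hγρ b hb, hab]
  have hρ0 : ρ 0 = 0 := by
    rw [hρ, hγ0, sub_self, zero_div, Complex.zero_re]
  have hρ1 : ρ 1 = 1 := by
    rw [hρ, hγ1, div_self hd', Complex.one_re]
  have hmono := ContinuousOn.strictMonoOn_of_injOn_Icc zero_le_one
    (by rw [hρ0, hρ1]; exact zero_le_one) hρc hρi
  rw [hγs, openSegment_eq_image']
  apply Subset.antisymm
  · rintro _ ⟨t, ht, rfl⟩
    have ht' : t ∈ Icc (0 : ℝ) 1 := ⟨ht.1.le, ht.2.le⟩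
    refine ⟨ρ t, ⟨?_, ?_⟩, ?_⟩
    · rw [← hρ0]
      exact hmono (by simp) ht' ht.1
    · rw [← hρ1]
      exact hmono ht' (by simp) ht.2
    · show u + ρ t • (w - u) = γ t
      rw [hγρ t ht', Complex.real_smul]
  · rintro _ ⟨r, hr, rfl⟩
    have h1 := intermediate_value_Ioo (zero_le_one' ℝ) hρc
    rw [hρ0, hρ1] at h1
    obtain ⟨t, ht, h2⟩ := h1 hr
    refine ⟨t, ht, ?_⟩
    show γ t = u + r • (w - u)
    rw [hγρ t ⟨ht.1.le, ht.2.le⟩, h2, Complex.real_smul]

end Pool.Agent.Hsh
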