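import Pool.Agent.Hsh.StmtsD
import Pool.Agent.Hsh.OutTwo

set_option autoImplicit false

/-!
# Arcs and sides of an inner tile
-/

namespace Pool.Agent.Hsh

open Set Metric MeasureTheory Filter Topology Classical

/-- two sides with a common point are equal -/
theorem sArc_eq {X s s' : Set ℂ} (hs : IsSide X s) (hs' : IsSide X s') {z : ℂ} (hz : z ∈ s)
    (hz' : z ∈ s') : s = s' := by
  obtain ⟨x, -, rfl⟩ := hs
  obtain ⟨y, -, rfl⟩ := hs'
  rw [connectedComponentIn_eq hz, connectedComponentIn_eq hz']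

/-- every arc lies in a side -/
theorem sArc_side {A : Finset (Set ℂ)} {X : Set ℂ} {p q : ℂ} (hCn : Cn X = {p, q})
    (hp : p ∈ Vx A) (hq : q ∈ Vx A) {l : Set ℂ} (hl : l ∈ arcs A X) :
    ∃ s, IsSide X s ∧ l ⊆ s := by
  have hsub : fr A X ⊆ frontier X \ Cn X := by
    rintro z ⟨⟨hz, -⟩, hzV⟩
    refine ⟨hz, fun hzC => ?_⟩
    rw [hCn] at hzC
    rcases hzC with h | h
    · exact hzV (h ▸ hp)
    · exact hzV (mem_singleton_iff.1 h ▸ hq)
  obtain ⟨z, hz, rfl⟩ := hl
  exact ⟨_, ⟨z, hsub hz, rfl⟩, connectedComponentIn_mono z hsub⟩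

/-- a side containing a point of an arc contains the arc -/
theorem sArc_sub {A : Finset (Set ℂ)} {X : Set ℂ} {p q : ℂ} (hCn : Cn X = {p, q})
    (hp : p ∈ Vx A) (hq : q ∈ Vx A) {l s : Set ℂ} (hl : l ∈ arcs A X) (hs : IsSide X s) {z : ℂ}
    (hz : z ∈ l) (hzs : z ∈ s) : l ⊆ s := by
  obtain ⟨s', hs', hls⟩ := sArc_side hCn hp hq hl
  rw [sArc_eq hs hs' hzs (hls hz)]
  exact hls

theorem sArc (hB : Stmt_Bas) (hV : Stmt_VFin) (h1 : Stmt_Arc1) (h2 : Stmt_Arc2) (h3 : Stmt_Arc3)
    (hS : Stmt_Side) : Stmt_SArc := by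
  intro A hA X hX p q hpq hCn hp hq
  obtain ⟨⟨a, b, ts⟩, hside⟩ := hS X (hA.disk X hX.1) p q hpq hCn
  have hcl := (hB A hA).closed X hX.1
  refine ⟨fun l hl => sArc_side hCn hp hq hl, ?_, ?_, ?_⟩
  · intro s hs c hc
    have hcC : c ∈ Cn X := by
      rw [hCn]
      exact hc
    have hcV : c ∈ Vx A := by
      rcases hc with rfl | rfl
      · exact hp
      · exact hq
    have hcX : c ∈ X := hcl.frontier_subset hcC.1
    obtain ⟨l₁, hl₁, l₂, hl₂, hne, hc₁, hc₂, hall, r, hr, hr'⟩ := h2 A hA X hX.1 c hcV hcX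
    have hne₁ : l₁.Nonempty := closure_nonempty_iff.1 ⟨c, hc₁⟩
    have hne₂ : l₂.Nonempty := closure_nonempty_iff.1 ⟨c, hc₂⟩
    have hone : ∀ s, IsSide X s → l₁ ⊆ s ∨ l₂ ⊆ s := by
      intro s hs
      have ok := hside s hs
      have hcs : c ∈ closure s := by
        rw [ok.clos]
        right
        exact hc
      obtain ⟨z, hz, hzr⟩ := Metric.mem_closure_iff.1 hcs r hr
      have hzf := ok.sub hz
      have hzc : z ≠ c := by
        rintro rfl
        exact hzf.2 hc
      rcases hr' ⟨hzf.1, by rw [mem_ball, dist_comm]; exact hzr⟩ with (h | h) | h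
      · exact absurd (mem_singleton_iff.1 h) hzc
      · exact Or.inl (sArc_sub hCn hp hq hl₁ hs h hz)
      · exact Or.inr (sArc_sub hCn hp hq hl₂ hs h hz)
    obtain ⟨s', hs', hdis⟩ : ∃ s', IsSide X s' ∧ Disjoint s s' := by
      rcases ts.only s hs with rfl | rfl
      · exact ⟨b, ts.sb, ts.disj⟩
      · exact ⟨a, ts.sa, ts.disj.symm⟩
    rcases hone s hs with h | h
    · have h' : l₂ ⊆ s' := by
        rcases hone s' hs' with h4 | h4
        · obtain ⟨z, hz⟩ := hne₁
          exact absurd (h4 hz) (Set.disjoint_left.1 hdis (h hz))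
        · exact h4
      refine ⟨l₁, hl₁, h, hc₁, fun l' hl' hls' hcl' => ?_⟩
      rcases hall l' hl' hcl' with h5 | h5
      · exact h5
      · obtain ⟨z, hz⟩ := hne₂
        rw [h5] at hls'
        exact absurd (h' hz) (Set.disjoint_left.1 hdis (hls' hz))
    · have h' : l₁ ⊆ s' := by
        rcases hone s' hs' with h4 | h4
        · exact h4
        · obtain ⟨z, hz⟩ := hne₂
          exact absurd (h4 hz) (Set.disjoint_left.1 hdis (h hz))
      refine ⟨l₂, hl₂, h, hc₂, fun l' hl' hls' hcl' => ?_⟩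
      rcases hall l' hl' hcl' with h5 | h5
      · obtain ⟨z, hz⟩ := hne₁
        rw [h5] at hls'
        exact absurd (h' hz) (Set.disjoint_left.1 hdis (hls' hz))
      · exact h5
  · intro s hs l hl hls hpl hql
    have ok := hside s hs
    have a3 := h3 A hA X hX
    obtain ⟨u, w, -, -, -, hends⟩ := a3.ends l hl
    have hcl2 : closure l ⊆ l ∪ {p, q} := by
      intro z hz
      rcases a3.clos l hl hz with h | h
      · exact Or.inl h
      · right
        have h4 := (hends z h).1 hz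
        have h5 := (hends p hp).1 hpl
        have h6 := (hends q hq).1 hql
        rcases h4 with rfl | rfl
        · rcases h5 with rfl | rfl
          · exact Or.inl rfl
          · rcases h6 with rfl | rfl
            · exact Or.inr rfl
            · exact absurd rfl hpq
        · rcases h5 with rfl | rfl
          · rcases h6 with rfl | rfl
            · exact absurd rfl hpq
            · exact Or.inr rfl
          · exact Or.inl rfl
    by_contra hne
    obtain ⟨z₁, hz₁s, hz₁l⟩ : ∃ z ∈ s, z ∉ l := by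
      by_contra hcon
      push Not at hcon
      exact hne (Subset.antisymm hls hcon)
    obtain ⟨z₀, hz₀⟩ : l.Nonempty := closure_nonempty_iff.1 ⟨p, hpl⟩
    have hrad : ∀ z : ℂ, ∃ r : ℝ, z ∈ l → 0 < r ∧ frontier X ∩ ball z r ⊆ l := by
      intro z
      by_cases hz : z ∈ l
      · obtain ⟨r, hr, hr'⟩ := outTwo_near hV hA hX.1 hl hz
        exact ⟨r, fun _ => ⟨hr, hr'⟩⟩
      · exact ⟨0, fun h => absurd h hz⟩
    choose r hr using hrad
    have hu : IsOpen (⋃ z ∈ l, ball z (r z)) :=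
      isOpen_biUnion fun z _ => isOpen_ball
    have hmem : ∀ z ∈ s, z ∈ closure l → z ∈ l := by
      intro z hz hzl
      rcases hcl2 hzl with h | h
      · exact h
      · exact absurd h (ok.sub hz).2
    obtain ⟨y, hys, hyu, hyv⟩ := ok.conn.isPreconnected (⋃ z ∈ l, ball z (r z)) (closure l)ᶜ hu
      isClosed_closure.isOpen_compl (by
        intro z hz
        by_cases hzl : z ∈ closure l
        · left
          have h5 := hmem z hz hzl
          exact mem_iUnion₂.2 ⟨z, h5, mem_ball_self (hr z h5).1⟩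
        · exact Or.inr hzl)
      ⟨z₀, hls hz₀, mem_iUnion₂.2 ⟨z₀, hz₀, mem_ball_self (hr z₀ hz₀).1⟩⟩
      ⟨z₁, hz₁s, fun h => hz₁l (hmem z₁ hz₁s h)⟩
    obtain ⟨z, hz, hyz⟩ := mem_iUnion₂.1 hyu
    exact hyv (subset_closure ((hr z hz).2 ⟨(ok.sub hys).1, hyz⟩))
  · intro s hs v hv l hl hvl
    obtain ⟨r, hr, hr'⟩ := (hside s hs).opn v hv
    obtain ⟨z, hz, hzr⟩ := Metric.mem_closure_iff.1 hvl r hr
    have hzf : z ∈ frontier X := by
      obtain ⟨x, -, rfl⟩ := hl
      exact (connectedComponentIn_subset _ _ hz).1.1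
    exact sArc_sub hCn hp hq hl hs hz (hr' ⟨hzf, by rw [mem_ball, dist_comm]; exact hzr⟩)

end Pool.Agent.Hsh
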