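import Pool.Agent.Hsh.StmtsD
import Pool.Agent.Hsh.Circ

set_option autoImplicit false

/-! # The two sides of a disc with two convex corners -/

namespace Pool.Agent.Hsh

open Set Metric MeasureTheory Filter Topology Classical

theorem side_noint {d : ℝ} (h0 : 0 < d) (h1 : d < 1) (n : ℤ) : d ≠ n := by
  intro h
  have a : (0 : ℝ) < n := by rw [← h]; exact h0
  have b : (n : ℝ) < 1 := by rw [← h]; exact h1
  have a' : 0 < n := by exact_mod_cast a
  have b' : n < 1 := by exact_mod_cast b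
  omega

theorem side_ne {γ : ℝ → ℂ} (hper : ∀ x y, γ x = γ y ↔ ∃ n : ℤ, y = x + n) {s t : ℝ}
    (h0 : s < t) (h1 : t < s + 1) : γ s ≠ γ t := by
  intro h
  obtain ⟨n, hn⟩ := (hper s t).1 h
  exact side_noint (d := t - s) (by linarith) (by linarith) n (by linarith)

theorem side_red {γ : ℝ → ℂ} (hper : ∀ x y, γ x = γ y ↔ ∃ n : ℤ, y = x + n) (u t : ℝ) :
    ∃ s, u ≤ s ∧ s < u + 1 ∧ γ t = γ s := by
  refine ⟨t - ⌊t - u⌋, ?_, ?_, (hper _ _).2 ⟨-⌊t - u⌋, by push_cast; ring⟩⟩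
  · have := Int.floor_le (t - u)
    linarith
  · have := Int.lt_floor_add_one (t - u)
    linarith

theorem side_rev {S : Set ℂ} {P Q : ℂ} (h : ∃ δ : ℝ → ℂ, ContinuousOn δ (Icc 0 1) ∧
    InjOn δ (Icc 0 1) ∧ δ 0 = P ∧ δ 1 = Q ∧ S = δ '' Ioo 0 1) :
    ∃ δ : ℝ → ℂ, ContinuousOn δ (Icc 0 1) ∧ InjOn δ (Icc 0 1) ∧ δ 0 = Q ∧ δ 1 = P ∧
      S = δ '' Ioo 0 1 := by
  obtain ⟨δ, h1, h2, h3, h4, h5⟩ := h
  have hm : MapsTo (fun t : ℝ => 1 - t) (Icc 0 1) (Icc 0 1) := fun t ht =>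
    ⟨by linarith [ht.2], by linarith [ht.1]⟩
  refine ⟨fun t => δ (1 - t), h1.comp (by fun_prop) hm, ?_, by simpa using h4, by simpa using h3,
    ?_⟩
  · intro s hs t ht hst
    have := h2 (hm hs) (hm ht) hst
    linarith
  · rw [h5]
    ext z
    constructor
    · rintro ⟨t, ht, rfl⟩
      exact ⟨1 - t, ⟨by linarith [ht.2], by linarith [ht.1]⟩, by simp⟩
    · rintro ⟨t, ht, rfl⟩
      exact ⟨1 - t, ⟨by linarith [ht.2], by linarith [ht.1]⟩, rfl⟩

/-- the facts on an open subarc of a closed curve -/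
theorem side_aux {X : Set ℂ} {γ : ℝ → ℂ} (hγ : Continuous γ)
    (hper : ∀ x y, γ x = γ y ↔ ∃ n : ℤ, y = x + n) (hr : range γ = frontier X) {u v : ℝ}
    (huv : u < v) (hv : v < u + 1) : SideOK X (γ u) (γ v) (γ '' Ioo u v) := by
  have hsub : γ '' Ioo u v ⊆ frontier X \ {γ u, γ v} := by
    rintro _ ⟨s, hs, rfl⟩
    refine ⟨by rw [← hr]; exact ⟨s, rfl⟩, ?_⟩
    rintro (h | h)
    · exact side_ne hper hs.1 (by linarith [hs.2]) h.symm
    · exact side_ne hper hs.2 (by linarith [hs.1]) h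
  refine ⟨⟨(nonempty_Ioo.2 huv).image γ, isPreconnected_Ioo.image γ hγ.continuousOn⟩, hsub, ?_, ?_,
    ?_⟩
  · have h1 : γ '' Icc u v = γ '' Ioo u v ∪ {γ u, γ v} := by
      rw [← Ioo_union_both huv.le, image_union, image_pair]
    rw [← h1]
    refine Subset.antisymm ?_ ?_
    · exact closure_minimal (image_mono Ioo_subset_Icc_self)
        (isCompact_Icc.image hγ).isClosed
    · rw [← closure_Ioo huv.ne]
      exact image_closure_subset_closure_image hγ
  · intro z hz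
    have hcl : IsClosed (γ '' Icc v (u + 1)) := (isCompact_Icc.image hγ).isClosed
    have hzn : z ∉ γ '' Icc v (u + 1) := by
      obtain ⟨s, hs, rfl⟩ := hz
      rintro ⟨t, ht, hst⟩
      rcases eq_or_lt_of_le ht.2 with h | h
      · have h2 : γ t = γ u := (hper _ _).2 ⟨-1, by rw [h]; push_cast; ring⟩
        exact side_ne hper hs.1 (by linarith [hs.2]) (h2.symm.trans hst)
      · exact side_ne hper (lt_of_lt_of_le hs.2 ht.1) (by linarith [hs.1]) hst.symm
    obtain ⟨r, hr0, hrb⟩ := Metric.isOpen_iff.1 hcl.isOpen_compl z hzn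
    refine ⟨r, hr0, ?_⟩
    rintro w ⟨hw, hwb⟩
    rw [← hr] at hw
    obtain ⟨t, rfl⟩ := hw
    obtain ⟨s, hs1, hs2, hs⟩ := side_red hper u t
    have h3 := hrb hwb
    rw [hs] at h3 ⊢
    rcases eq_or_lt_of_le hs1 with h | h
    · exact absurd ⟨u + 1, ⟨hv.le, le_refl _⟩, (hper _ _).2 ⟨-1, by rw [← h]; push_cast; ring⟩⟩ h3
    · refine ⟨s, ⟨h, ?_⟩, rfl⟩
      by_contra h4
      exact h3 ⟨s, ⟨not_lt.1 h4, hs2.le⟩, rfl⟩
  · have hd : 0 < v - u := by linarith
    refine ⟨fun t => γ (u + t * (v - u)), (hγ.comp (by fun_prop)).continuousOn, ?_, by simp,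
      by simp, ?_⟩
    · intro s hs t ht hst
      rcases lt_trichotomy s t with h | h | h
      · exfalso
        refine side_ne hper (s := u + s * (v - u)) (t := u + t * (v - u)) ?_ ?_ hst
        · nlinarith
        · nlinarith [hs.1, hs.2, ht.1, ht.2]
      · exact h
      · exfalso
        refine side_ne hper (s := u + t * (v - u)) (t := u + s * (v - u)) ?_ ?_ hst.symm
        · nlinarith
        · nlinarith [hs.1, hs.2, ht.1, ht.2]
    · ext z
      constructor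
      · rintro ⟨s, hs, rfl⟩
        refine ⟨(s - u) / (v - u), ⟨div_pos (by linarith [hs.1]) hd, ?_⟩, ?_⟩
        · rw [div_lt_one hd]
          linarith [hs.2]
        · show γ (u + (s - u) / (v - u) * (v - u)) = γ s
          rw [div_mul_cancel₀ _ hd.ne']
          congr 1
          ring
      · rintro ⟨t, ht, rfl⟩
        refine ⟨u + t * (v - u), ⟨?_, ?_⟩, rfl⟩
        · nlinarith [ht.1, ht.2]
        · nlinarith [ht.1, ht.2]

theorem side : Stmt_Side := by
  intro X hX p q hpq hCn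
  obtain ⟨c, γ, hd⟩ := CT.disc_final X hX
  have hγ := hd.cont
  have hper := hd.per
  have hr := hd.range
  have hp : p ∈ frontier X := by
    have : p ∈ Cn X := by rw [hCn]; exact Or.inl rfl
    exact this.1
  have hq : q ∈ frontier X := by
    have : q ∈ Cn X := by rw [hCn]; exact Or.inr rfl
    exact this.1
  rw [← hr] at hp hq
  obtain ⟨x, hx⟩ := hp
  obtain ⟨y', hy'⟩ := hq
  obtain ⟨y, hy1, hy2, hy3⟩ := side_red hper x y'
  have hy : γ y = q := hy3 ▸ hy'
  have hxy : x < y := by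
    rcases eq_or_lt_of_le hy1 with h | h
    · exact absurd (by rw [← hx, h, hy]) hpq
    · exact h
  have hx1 : γ (x + 1) = p := by
    rw [← hx]
    exact (hper _ _).2 ⟨-1, by push_cast; ring⟩
  -- the two arcs
  have A1 : SideOK X p q (γ '' Ioo x y) := by
    have := side_aux hγ hper hr hxy hy2
    rwa [hx, hy] at this
  have A2' : SideOK X q p (γ '' Ioo y (x + 1)) := by
    have := side_aux hγ hper hr (u := y) (v := x + 1) hy2 (by linarith)
    rwa [hx1, hy] at this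
  have A2 : SideOK X p q (γ '' Ioo y (x + 1)) := by
    refine ⟨A2'.conn, ?_, ?_, A2'.opn, side_rev A2'.par⟩
    · rw [pair_comm]
      exact A2'.sub
    · rw [pair_comm]
      exact A2'.clos
  have hO : frontier X \ Cn X ⊆ range γ := by
    rw [hr]
    exact diff_subset
  have hpO : p ∉ frontier X \ Cn X := by
    rw [hCn]
    exact fun h => h.2 (Or.inl rfl)
  have hqO : q ∉ frontier X \ Cn X := by
    rw [hCn]
    exact fun h => h.2 (Or.inr rfl)
  have C1 : ∀ t ∈ Ioo x y, connectedComponentIn (frontier X \ Cn X) (γ t) = γ '' Ioo x y := by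
    intro t ht
    refine circ γ hγ hper _ hO x y hxy hy2.le (by rw [hx]; exact hpO) (by rw [hy]; exact hqO) ?_ t ht
    rw [hCn]
    exact A1.sub
  have C2 : ∀ t ∈ Ioo y (x + 1),
      connectedComponentIn (frontier X \ Cn X) (γ t) = γ '' Ioo y (x + 1) := by
    intro t ht
    refine circ γ hγ hper _ hO y (x + 1) hy2 (by linarith) (by rw [hy]; exact hqO)
      (by rw [hx1]; exact hpO) ?_ t ht
    rw [hCn]
    exact A2.sub
  have hcase : ∀ z ∈ frontier X, z = p ∨ z = q ∨ (∃ t ∈ Ioo x y, z = γ t) ∨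
      ∃ t ∈ Ioo y (x + 1), z = γ t := by
    intro z hz
    rw [← hr] at hz
    obtain ⟨t, rfl⟩ := hz
    obtain ⟨s, hs1, hs2, hs⟩ := side_red hper x t
    rw [hs]
    rcases eq_or_lt_of_le hs1 with h | h
    · exact Or.inl (by rw [← h, hx])
    · rcases lt_trichotomy s y with h' | h' | h'
      · exact Or.inr (Or.inr (Or.inl ⟨s, ⟨h, h'⟩, rfl⟩))
      · exact Or.inr (Or.inl (by rw [h', hy]))
      · exact Or.inr (Or.inr (Or.inr ⟨s, ⟨h', hs2⟩, rfl⟩))
  have honly : ∀ s, IsSide X s → s = γ '' Ioo x y ∨ s = γ '' Ioo y (x + 1) := by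
    rintro s ⟨z, hz, rfl⟩
    rcases hcase z hz.1 with h | h | ⟨t, ht, rfl⟩ | ⟨t, ht, rfl⟩
    · exact absurd (h ▸ hz) hpO
    · exact absurd (h ▸ hz) hqO
    · exact Or.inl (C1 t ht)
    · exact Or.inr (C2 t ht)
  have hm1 : (x + y) / 2 ∈ Ioo x y := ⟨by linarith, by linarith⟩
  have hm2 : (y + (x + 1)) / 2 ∈ Ioo y (x + 1) := ⟨by linarith, by linarith⟩
  have S1 : IsSide X (γ '' Ioo x y) := by
    refine ⟨γ ((x + y) / 2), ?_, (C1 _ hm1).symm⟩
    rw [hCn]
    exact A1.sub ⟨_, hm1, rfl⟩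
  have S2 : IsSide X (γ '' Ioo y (x + 1)) := by
    refine ⟨γ ((y + (x + 1)) / 2), ?_, (C2 _ hm2).symm⟩
    rw [hCn]
    exact A2.sub ⟨_, hm2, rfl⟩
  have hdis : Disjoint (γ '' Ioo x y) (γ '' Ioo y (x + 1)) := by
    rw [Set.disjoint_left]
    rintro _ ⟨s, hs, rfl⟩ ⟨t, ht, hst⟩
    exact side_ne hper (lt_trans hs.2 ht.1) (by linarith [hs.1, ht.2]) hst.symm
  refine ⟨⟨γ '' Ioo x y, γ '' Ioo y (x + 1), S1, S2, ?_, honly, hdis, ?_⟩, ?_⟩
  · intro h
    have h1 : γ ((x + y) / 2) ∈ γ '' Ioo x y := ⟨_, hm1, rfl⟩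
    exact Set.disjoint_left.1 hdis h1 (h ▸ h1)
  · refine Subset.antisymm ?_ ?_
    · intro z hz
      rcases hcase z hz with h | h | ⟨t, ht, rfl⟩ | ⟨t, ht, rfl⟩
      · exact Or.inr (Or.inl h)
      · exact Or.inr (Or.inr h)
      · exact Or.inl (Or.inl ⟨t, ht, rfl⟩)
      · exact Or.inl (Or.inr ⟨t, ht, rfl⟩)
    · rintro z ((h | h) | (h | h))
      · exact (A1.sub h).1
      · exact (A2.sub h).1
      · rw [h, ← hr]
        exact ⟨x, hx⟩
      · rw [h, ← hr]
        exact ⟨y, hy⟩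
  · intro s hs
    rcases honly s hs with h | h
    · rw [h]
      exact A1
    · rw [h]
      exact A2

end Pool.Agent.Hsh
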