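import Pool.Agent.Hsh.StmtsD

set_option autoImplicit false

/-!
# Points fixed by the reflection exchanging two points of a disc (MP_51bd69_co)
-/

namespace Pool.Agent.Hsh

open Set Metric MeasureTheory Filter Topology Classical

/-- The coordinate of `z` in the direction from `u` to `w`, up to a factor. -/
noncomputable def vf_rho (u w z : ℂ) : ℝ :=
  ((z - (u + w) / 2) * (starRingEnd ℂ) (w - u)).re

theorem vf_rho_cont (u w : ℂ) : Continuous (vf_rho u w) :=
  Complex.continuous_re.comp ((continuous_id.sub continuous_const).mul continuous_const)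

theorem vf_key {u w : ℂ} (h : u ≠ w) (z : ℂ) :
    (vf u w z - (u + w) / 2) * (starRingEnd ℂ) (w - u) =
      -(starRingEnd ℂ) ((z - (u + w) / 2) * (starRingEnd ℂ) (w - u)) := by
  have hd : (starRingEnd ℂ) (w - u) ≠ 0 := by
    rw [Ne, map_eq_zero]
    exact sub_ne_zero.2 (Ne.symm h)
  have h1 : vf u w z - (u + w) / 2 =
      -((w - u) / (starRingEnd ℂ) (w - u) * (starRingEnd ℂ) (z - (u + w) / 2)) := by
    unfold vf
    ring
  rw [h1, map_mul, Complex.conj_conj]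
  calc -((w - u) / (starRingEnd ℂ) (w - u) * (starRingEnd ℂ) (z - (u + w) / 2)) *
        (starRingEnd ℂ) (w - u)
      = -((w - u) / (starRingEnd ℂ) (w - u) * (starRingEnd ℂ) (w - u) *
          (starRingEnd ℂ) (z - (u + w) / 2)) := by ring
    _ = -((w - u) * (starRingEnd ℂ) (z - (u + w) / 2)) := by rw [div_mul_cancel₀ _ hd]
    _ = _ := by ring

theorem vf_rho_vf {u w : ℂ} (h : u ≠ w) (z : ℂ) : vf_rho u w (vf u w z) = -vf_rho u w z := by
  unfold vf_rho
  rw [vf_key h z, Complex.neg_re, Complex.conj_re]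

theorem vf_fix {u w : ℂ} (h : u ≠ w) {z : ℂ} (hz : vf_rho u w z = 0) : vf u w z = z := by
  have hd : (starRingEnd ℂ) (w - u) ≠ 0 := by
    rw [Ne, map_eq_zero]
    exact sub_ne_zero.2 (Ne.symm h)
  have h1 : -(starRingEnd ℂ) ((z - (u + w) / 2) * (starRingEnd ℂ) (w - u)) =
      (z - (u + w) / 2) * (starRingEnd ℂ) (w - u) := by
    apply Complex.ext
    · rw [Complex.neg_re, Complex.conj_re]
      have h2 : ((z - (u + w) / 2) * (starRingEnd ℂ) (w - u)).re = 0 := hz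
      rw [h2, neg_zero]
    · rw [Complex.neg_im, Complex.conj_im, neg_neg]
  have h3 := vf_key h z
  rw [h1] at h3
  have h4 := mul_right_cancel₀ hd h3
  exact sub_left_injective h4

theorem vf_rho_left {u w : ℂ} (h : u ≠ w) : vf_rho u w u < 0 := by
  have h1 : vf_rho u w u = -(Complex.normSq (w - u)) / 2 := by
    unfold vf_rho
    have h2 : (u - (u + w) / 2) * (starRingEnd ℂ) (w - u) =
        -((w - u) * (starRingEnd ℂ) (w - u)) / 2 := by ring
    rw [h2, Complex.mul_conj, ← Complex.ofReal_neg]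
    have h3 : (((-(Complex.normSq (w - u)) : ℝ) : ℂ)) / 2 =
        ((-(Complex.normSq (w - u)) / 2 : ℝ) : ℂ) := by push_cast; ring
    rw [h3, Complex.ofReal_re]
  have h4 : 0 < Complex.normSq (w - u) := Complex.normSq_pos.2 (sub_ne_zero.2 (Ne.symm h))
  rw [h1]
  linarith

theorem vf_rho_right {u w : ℂ} (h : u ≠ w) : 0 < vf_rho u w w := by
  have h1 : vf_rho u w w = (Complex.normSq (w - u)) / 2 := by
    unfold vf_rho
    have h2 : (w - (u + w) / 2) * (starRingEnd ℂ) (w - u) =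
        ((w - u) * (starRingEnd ℂ) (w - u)) / 2 := by ring
    rw [h2, Complex.mul_conj]
    have h3 : (((Complex.normSq (w - u) : ℝ) : ℂ)) / 2 =
        (((Complex.normSq (w - u)) / 2 : ℝ) : ℂ) := by push_cast; ring
    rw [h3, Complex.ofReal_re]
  have h4 : 0 < Complex.normSq (w - u) := Complex.normSq_pos.2 (sub_ne_zero.2 (Ne.symm h))
  rw [h1]
  linarith

theorem vf_cont (u w : ℂ) : Continuous (vf u w) := by
  have h : vf u w = fun z => (u + w) / 2 - (w - u) / (starRingEnd ℂ) (w - u) *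
      (starRingEnd ℂ) (z - (u + w) / 2) := by
    funext z
    rfl
  rw [h]
  exact continuous_const.sub (continuous_const.mul
    (Complex.continuous_conj.comp (continuous_id.sub continuous_const)))

theorem vf_join {T : Set ℂ} {c : ℂ} {γ : ℝ → ℂ} (hD : CT.DiscData T c γ) {x : ℂ} (hx : x ∈ T) :
    JoinedIn (insert x (interior T)) x c := by
  by_cases hi : x ∈ interior T
  · exact (hD.pc.joinedIn x hi c hD.center).mono (subset_insert _ _)
  · apply hD.rad
    rw [hD.compact.isClosed.frontier_eq]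
    exact ⟨hx, hi⟩

/-- L3. -/
theorem vfA : Stmt_VfA := by
  intro T hT u w huw hu hw
  obtain ⟨c, γ, hD⟩ := CT.disc_final T hT
  have h1 : JoinedIn (insert u (insert w (interior T))) u c :=
    (vf_join hD hu).mono (insert_subset_insert (subset_insert _ _))
  have h2 : JoinedIn (insert u (insert w (interior T))) w c :=
    (vf_join hD hw).mono (subset_insert _ _)
  obtain ⟨p, hp⟩ := h1.trans h2.symm
  have hc : Continuous fun t => vf_rho u w (p t) := (vf_rho_cont u w).comp p.continuous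
  have h3 := intermediate_value_univ (0 : unitInterval) 1 hc
  have h4 : (0 : ℝ) ∈ Icc (vf_rho u w (p 0)) (vf_rho u w (p 1)) := by
    rw [p.source, p.target]
    exact ⟨(vf_rho_left huw).le, (vf_rho_right huw).le⟩
  obtain ⟨t, ht⟩ := h3 h4
  have ht' : vf_rho u w (p t) = 0 := ht
  refine ⟨p t, ?_, vf_fix huw ht'⟩
  rcases hp t with h5 | h5 | h5
  · rw [h5] at ht'
    exact absurd ht' (vf_rho_left huw).ne
  · rw [h5] at ht'
    exact absurd ht' (vf_rho_right huw).ne'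
  · exact h5

/-- A symmetric side has a point on the mirror near which it has points on both sides. -/
theorem vf_pt {u w : ℂ} (huw : u ≠ w) {s : Set ℂ} (hs : vf u w '' s = s)
    (hpar : ∃ γ : ℝ → ℂ, ContinuousOn γ (Icc 0 1) ∧ InjOn γ (Icc 0 1) ∧ γ 0 = u ∧ γ 1 = w ∧
      s = γ '' Ioo 0 1) :
    ∃ z ∈ s, ∀ δ > 0, (∃ x ∈ s, dist x z < δ ∧ 0 < vf_rho u w x) ∧
      ∃ x ∈ s, dist x z < δ ∧ vf_rho u w x < 0 := by
  obtain ⟨γ, hγ, -, h0, h1, hsγ⟩ := hpar
  have hρ : ContinuousOn (fun t => vf_rho u w (γ t)) (Icc 0 1) :=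
    (vf_rho_cont u w).comp_continuousOn hγ
  set S : Set ℝ := Icc (0 : ℝ) 1 ∩ (fun t => vf_rho u w (γ t)) ⁻¹' Iic 0 with hS
  have hSc : IsClosed S := hρ.preimage_isClosed_of_isClosed isClosed_Icc isClosed_Iic
  have hSk : IsCompact S := isCompact_Icc.of_isClosed_subset hSc inter_subset_left
  have h0S : (0 : ℝ) ∈ S := by
    refine ⟨⟨le_refl _, zero_le_one⟩, ?_⟩
    show vf_rho u w (γ 0) ≤ 0
    rw [h0]
    exact (vf_rho_left huw).le
  obtain ⟨t, htS, htmax⟩ := hSk.exists_isGreatest ⟨0, h0S⟩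
  have htρ : vf_rho u w (γ t) ≤ 0 := htS.2
  have ht1 : t < 1 := by
    rcases lt_or_eq_of_le htS.1.2 with h | h
    · exact h
    · rw [h, h1] at htρ
      exact absurd (vf_rho_right huw) (not_lt.2 htρ)
  have hpos : ∀ t', t < t' → t' ≤ 1 → 0 < vf_rho u w (γ t') := by
    intro t' h2 h3
    by_contra h4
    have h5 : t' ∈ S := ⟨⟨htS.1.1.trans h2.le, h3⟩, not_lt.1 h4⟩
    exact absurd (htmax h5) (not_le.2 h2)
  have hct : ContinuousWithinAt (fun t => vf_rho u w (γ t)) (Icc 0 1) t := hρ t htS.1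
  have hγt : ContinuousWithinAt γ (Icc 0 1) t := hγ t htS.1
  have hρ0 : vf_rho u w (γ t) = 0 := by
    apply le_antisymm htρ
    by_contra h2
    rw [not_le] at h2
    have h3 : ∀ᶠ x in 𝓝[Icc 0 1] t, vf_rho u w (γ x) < 0 := hct.eventually_lt_const h2
    rw [eventually_nhdsWithin_iff, Metric.eventually_nhds_iff] at h3
    obtain ⟨ε, hε, h3⟩ := h3
    have hm : 0 < min (ε / 2) (1 - t) := lt_min (by linarith) (by linarith)
    have h4 : min (ε / 2) (1 - t) ≤ ε / 2 := min_le_left _ _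
    have h5 : min (ε / 2) (1 - t) ≤ 1 - t := min_le_right _ _
    have h6 := hpos (t + min (ε / 2) (1 - t)) (by linarith) (by linarith)
    have h7 := @h3 (t + min (ε / 2) (1 - t)) (by
      rw [Real.dist_eq, add_sub_cancel_left, abs_of_pos hm]; linarith)
      ⟨by linarith [htS.1.1], by linarith⟩
    linarith
  have ht0 : 0 < t := by
    rcases lt_or_eq_of_le htS.1.1 with h | h
    · exact h
    · rw [← h, h0] at hρ0
      exact absurd hρ0 (vf_rho_left huw).ne
  have hzs : γ t ∈ s := by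
    rw [hsγ]
    exact ⟨t, ⟨ht0, ht1⟩, rfl⟩
  have hplus : ∀ δ > 0, ∃ x ∈ s, dist x (γ t) < δ ∧ 0 < vf_rho u w x := by
    intro δ hδ
    rw [Metric.continuousWithinAt_iff] at hγt
    obtain ⟨ε, hε, h3⟩ := hγt δ hδ
    have hm : 0 < min (ε / 2) ((1 - t) / 2) := lt_min (by linarith) (by linarith)
    have h4 : min (ε / 2) ((1 - t) / 2) ≤ ε / 2 := min_le_left _ _
    have h5 : min (ε / 2) ((1 - t) / 2) ≤ (1 - t) / 2 := min_le_right _ _
    refine ⟨γ (t + min (ε / 2) ((1 - t) / 2)), ?_, ?_, ?_⟩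
    · rw [hsγ]
      exact ⟨_, ⟨by linarith, by linarith⟩, rfl⟩
    · apply h3
      · exact ⟨by linarith, by linarith⟩
      · rw [Real.dist_eq, add_sub_cancel_left, abs_of_pos hm]
        linarith
    · exact hpos _ (by linarith) (by linarith)
  refine ⟨γ t, hzs, fun δ hδ => ⟨hplus δ hδ, ?_⟩⟩
  have hV : vf u w (γ t) = γ t := vf_fix huw hρ0
  have hVc : ContinuousAt (vf u w) (γ t) := (vf_cont u w).continuousAt
  rw [Metric.continuousAt_iff] at hVc
  obtain ⟨η, hη, h2⟩ := hVc δ hδ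
  obtain ⟨x, hx, hx1, hx2⟩ := hplus η hη
  refine ⟨vf u w x, ?_, ?_, ?_⟩
  · rw [← hs]
    exact ⟨x, hx, rfl⟩
  · have h3 := h2 hx1
    rw [hV] at h3
    exact h3
  · rw [vf_rho_vf huw]
    linarith

/-- L4. -/
theorem vfB (hS : Stmt_Side) : Stmt_VfB := by
  intro T hT u w huw hCn s hs hsym
  have hSO : SideOK T u w s := (hS T hT u w huw hCn).2 s hs
  obtain ⟨z, hz, hzc⟩ := vf_pt huw hsym hSO.par
  refine ⟨z, hz, ?_⟩
  intro r hr
  obtain ⟨c, γ, hD⟩ := CT.disc_final T hT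
  obtain ⟨ψ'⟩ := hT
  set ψ := ψ'.symm with hψ
  have hfT : frontier T ⊆ T := hD.compact.isClosed.frontier_subset
  have hsT : s ⊆ T := fun x hx => hfT (hSO.sub hx).1
  have hzT : z ∈ T := hsT hz
  have hinv : ∀ x ∈ closedBall (0 : ℂ) 1, CT.discInv ψ (CT.discExt ψ x) = x := by
    intro x hx
    rw [CT.discExt_of ψ x hx, CT.discInv_of ψ _ (ψ ⟨x, hx⟩).2]
    simp
  obtain ⟨x₀, hx₀, hxz⟩ : ∃ x₀ ∈ closedBall (0 : ℂ) 1, CT.discExt ψ x₀ = z := by
    have h1 : z ∈ CT.discExt ψ '' closedBall 0 1 := by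
      rw [CT.discExt_image]
      exact hzT
    obtain ⟨x₀, h2, h3⟩ := h1
    exact ⟨x₀, h2, h3⟩
  have hE := CT.discExt_cont ψ x₀ hx₀
  rw [Metric.continuousWithinAt_iff] at hE
  obtain ⟨ε, hε, hE⟩ := hE r hr
  have hI := CT.discInv_cont ψ z hzT
  rw [Metric.continuousWithinAt_iff] at hI
  obtain ⟨δ, hδ, hI⟩ := hI ε hε
  have hIz : CT.discInv ψ z = x₀ := by rw [← hxz]; exact hinv x₀ hx₀
  rw [hIz] at hI
  rw [hxz] at hE
  set W : Set ℂ := ball x₀ ε ∩ ball 0 1 with hW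
  have hWc : IsPreconnected (CT.discExt ψ '' W) := by
    apply IsPreconnected.image
    · exact ((convex_ball x₀ ε).inter (convex_ball 0 1)).isPreconnected
    · exact (CT.discExt_cont ψ).mono (inter_subset_right.trans ball_subset_closedBall)
  have hpt : ∀ O : Set ℂ, IsOpen O → (∃ x ∈ s, dist x z < δ ∧ x ∈ O) →
      ∃ y ∈ CT.discExt ψ '' W, y ∈ O := by
    rintro O hO ⟨x, hx, hxd, hxO⟩
    have h1 : x ∈ closure (interior T) := by
      rw [hD.clos]
      exact hsT hx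
    rw [_root_.mem_closure_iff] at h1
    obtain ⟨y, ⟨hyz, hyO⟩, hyT⟩ := h1 (ball z δ ∩ O) (isOpen_ball.inter hO) ⟨hxd, hxO⟩
    have h2 : y ∈ CT.discExt ψ '' ball 0 1 := by
      rw [CT.disc_int_eq CT.invDom ψ]
      exact hyT
    obtain ⟨x', hx', rfl⟩ := h2
    refine ⟨_, ⟨x', ⟨?_, hx'⟩, rfl⟩, hyO⟩
    have h3 := hI (interior_subset hyT) hyz
    rw [hinv x' (ball_subset_closedBall hx')] at h3
    exact h3
  obtain ⟨hp, hm⟩ := hzc δ hδ
  obtain ⟨y₁, hy₁, hy₁'⟩ := hpt {y | 0 < vf_rho u w y}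
    (isOpen_lt continuous_const (vf_rho_cont u w)) hp
  obtain ⟨y₂, hy₂, hy₂'⟩ := hpt {y | vf_rho u w y < 0}
    (isOpen_lt (vf_rho_cont u w) continuous_const) hm
  have h5 := hWc.intermediate_value hy₂ hy₁ (vf_rho_cont u w).continuousOn
  have h6 : (0 : ℝ) ∈ Icc (vf_rho u w y₂) (vf_rho u w y₁) := ⟨le_of_lt hy₂', le_of_lt hy₁'⟩
  obtain ⟨y, ⟨x, hx, rfl⟩, hy⟩ := h5 h6
  refine ⟨CT.discExt ψ x, ?_, ?_, vf_fix huw hy⟩
  · rw [← CT.disc_int_eq CT.invDom ψ]
    exact ⟨x, hx.2, rfl⟩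
  · exact hE (ball_subset_closedBall hx.2) hx.1

end Pool.Agent.Hsh
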