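import Pool.Agent.Hsh.All
import Pool.Agent.Hsh.FinalD
import Pool.Agent.Hsh.NC
import Pool.Agent.Hsh.Side
import Pool.Agent.Hsh.Copy
import Pool.Agent.Hsh.SArc
import Pool.Agent.Hsh.Full
import Pool.Agent.Hsh.Lens
import Pool.Agent.Hsh.NoTwo
import Pool.Agent.Hsh.Four
import Pool.Agent.Hsh.Rf
import Pool.Agent.Hsh.Vf
import Pool.Agent.Hsh.CfgM
import Pool.Agent.Hsh.DatM
import Pool.Agent.Hsh.CmpM
import Pool.Agent.Hsh.LemN
import Pool.Agent.Hsh.LemEF
import Pool.Agent.Hsh.Local

set_option autoImplicit false

/-!
# The modules of the theorem on two convex corners put together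
-/

namespace Pool.Agent.Hsh

theorem all_nc : Stmt_NC := nC
theorem all_side : Stmt_Side := side
theorem all_copy : Stmt_Copy := copyT all_dens
theorem all_sArc : Stmt_SArc := sArc all_bas all_vFin all_arc1 all_arc2 all_arc3 all_side
theorem all_full : Stmt_Full := full all_bas all_vFin all_arc1 all_arc3
theorem all_lens : Stmt_Lens := lens all_bas all_arc1 all_arc2 all_arc3
theorem all_chain : Stmt_Chain :=
  chain all_bas all_arc1 all_arc2 all_arc3 all_side all_sArc
theorem all_noTwo : Stmt_NoTwo := noTwo all_bas all_arc1 all_arc2 all_star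
theorem all_four : Stmt_Four := four
theorem all_rf : Stmt_Rf := rfT all_side
theorem all_vfA : Stmt_VfA := vfA
theorem all_vfB : Stmt_VfB := vfB all_side
theorem all_cfg : Stmt_Cfg := cfgM all_bas all_vFin all_two all_euler all_deg all_dens all_hull
theorem all_dat : Stmt_Dat :=
  datM all_bas all_arc1 all_notSub all_side all_copy all_nc all_sArc all_four all_rf all_vfA
theorem all_cmp : Stmt_Cmp :=
  cmpM all_bas all_notSub all_side all_copy all_nc all_four all_rf all_vfA
theorem all_lemN : Stmt_LemN :=
  lemN all_bas all_arc1 all_notSub all_side all_copy all_sArc all_cmp all_four all_rf all_vfB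
theorem all_lemF : Stmt_LemF := lemF all_bas all_arc1 all_arc3 all_side all_full all_cmp
theorem all_lemE : Stmt_LemE := lemE all_bas all_arc1 all_arc3 all_side all_full all_cmp
theorem all_local : Stmt_Local :=
  locT all_bas all_arc1 all_arc2 all_arc3 all_side all_copy all_sArc all_lens all_chain all_noTwo
    all_cmp all_lemN all_lemF all_lemE

end Pool.Agent.Hsh
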