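import Pool.Agent.Hsh.StmtsB
import Pool.Agent.Hsh.Dens

set_option autoImplicit false

/-!
# Module Area: areas of the copies of a disc
-/

namespace Pool.Agent.Hsh

open Set Metric MeasureTheory Filter Topology Classical

theorem Area_copy {T X : Set ℂ} (h : IsCopy T X) :
    volume (interior X) = volume (interior T) := by
  obtain ⟨g, rfl⟩ := h
  have h1 : interior (g '' T) = g '' interior T := (g.toHomeomorph.image_interior T).symm
  rw [h1, Dens_volume_image]

theorem area : Stmt_Area := by
  intro T hT
  obtain ⟨p, γ, h⟩ := CT.disc_final T hT
  have hTc : IsClosed T := h.compact.isClosed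
  have hfin : volume (interior T) ≠ ⊤ :=
    ne_top_of_le_ne_top h.compact.measure_lt_top.ne (measure_mono interior_subset)
  have hpos : 0 < volume (interior T) := isOpen_interior.measure_pos volume ⟨p, h.center⟩
  have hfr : γ 0 ∈ frontier T := by rw [← h.range]; exact mem_range_self 0
  refine ⟨ENNReal.toReal_pos hpos.ne' hfin, ?_, ?_⟩
  · have hne : γ 0 ≠ p := by
      intro hc
      rw [hc] at hfr
      exact hfr.2 h.center
    have hd : dist (γ 0) p ≤ diam T :=
      dist_le_diam_of_mem h.compact.isBounded (hTc.frontier_subset hfr) (interior_subset h.center)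
    exact lt_of_lt_of_le (dist_pos.2 hne) hd
  · intro S hS hdisj c R hR hsub
    have h1 : (S.card : ENNReal) * volume (interior T) ≤ volume (closedBall c R) := by
      calc (S.card : ENNReal) * volume (interior T) = ∑ X ∈ S, volume (interior X) := by
            rw [Finset.sum_congr rfl (fun X hX => Area_copy (hS X hX)), Finset.sum_const,
              nsmul_eq_mul]
        _ = volume (⋃ X ∈ S, interior X) := by
            rw [← measure_biUnion_finset]
            · intro X hX Y hY hne
              exact hdisj X hX Y hY hne
            · intro X _
              exact isOpen_interior.measurableSet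
        _ ≤ volume (closedBall c R) := by
            refine measure_mono (Subset.trans ?_ hsub)
            exact iUnion₂_mono fun X _ => interior_subset
    rw [Complex.volume_closedBall] at h1
    have h2 : ENNReal.ofReal R ^ 2 * (NNReal.pi : ENNReal) ≠ ⊤ :=
      ENNReal.mul_ne_top (ENNReal.pow_ne_top ENNReal.ofReal_ne_top) ENNReal.coe_ne_top
    have h3 := ENNReal.toReal_mono h2 h1
    rw [ENNReal.toReal_mul, ENNReal.toReal_mul, ENNReal.toReal_pow, ENNReal.toReal_natCast,
      ENNReal.toReal_ofReal hR] at h3
    have h4 : ((NNReal.pi : ENNReal)).toReal = Real.pi := rfl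
    rw [h4] at h3
    linarith

end Pool.Agent.Hsh
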