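import Pool.Agent.Hsh.StmtsB

set_option autoImplicit false

/-!
# Module Ball: the hull stays in every disc containing the touching tiles
-/

namespace Pool.Agent.Hsh

open Set Metric MeasureTheory Filter Topology Classical

/-- the outside of a disc is connected -/
private theorem ball_outside (c : ℂ) (R : ℝ) : IsPreconnected {z : ℂ | R < dist z c} := by
  have h : {z : ℂ | R < dist z c} = (fun z : ℂ => z + c) '' {z : ℂ | R < ‖z‖} := by
    ext z
    simp only [Set.mem_ofPred_eq, mem_image]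
    constructor
    · intro hz
      refine ⟨z - c, ?_, by ring⟩
      rwa [dist_eq_norm] at hz
    · rintro ⟨w, hw, rfl⟩
      rw [dist_eq_norm]
      have e : w + c - c = w := by ring
      rwa [e]
  rw [h]
  exact (CT.outside R).image _ (by fun_prop)

theorem ball (hB : Stmt_Bas) (hV : Stmt_VFin) (h1 : Stmt_Arc1) : Stmt_Ball := by
  intro A B S L c R hsub p hp
  have bas := hB A L.fam
  rw [un, mem_iUnion₂] at hp
  obtain ⟨X, hX, hpX⟩ := hp
  rw [hull, Finset.mem_filter] at hX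
  by_contra hpR
  have hpU : R < dist p c := by
    rw [mem_closedBall, not_le] at hpR
    exact hpR
  have htch : ∀ Y ∈ tch A S, ∀ z ∈ Y, ¬ R < dist z c := by
    intro Y hY z hz hR
    have h2 : z ∈ un (tch A S) := by
      rw [un, mem_iUnion₂]
      exact ⟨Y, hY, hz⟩
    have h3 := hsub h2
    rw [mem_closedBall] at h3
    linarith
  have hXt : X ∉ tch A S := fun h => htch X h p hpX hpU
  have hXO : ¬ Out A B S X := hX.2.resolve_left hXt
  have hXA : X ∈ A := L.sub hX.1
  set U : Set ℂ := {z : ℂ | R < dist z c} with hU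
  have hUo : IsOpen U := isOpen_lt continuous_const (by fun_prop)
  set H0 : Finset (Set ℂ) := B.filter (fun Y => Y ∉ tch A S ∧ ¬ Out A B S Y) with hH0
  have hXH : X ∈ H0 := Finset.mem_filter.mpr ⟨hX.1, hXt, hXO⟩
  obtain ⟨c0, γ, hd⟩ := CT.disc_final X (L.fam.disk X hXA)
  obtain ⟨x0, hx0U, hx0⟩ : ∃ x0, x0 ∈ U ∧ x0 ∈ interior X := by
    have h2 : p ∈ closure (interior X) := by rw [hd.clos]; exact hpX
    rw [_root_.mem_closure_iff] at h2
    exact h2 U hUo hpU
  have hx0V : x0 ∉ Vx A := by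
    rintro ⟨-, h2⟩
    rw [bas.at_int X hXA x0 hx0, Finset.card_singleton] at h2
    omega
  have hpre : IsPreconnected (U \ Vx A) :=
    CT.compl U (Vx A) hUo (ball_outside c R) (hV A L.fam).countable
  have hclun : ∀ C : Finset (Set ℂ), C ⊆ A → IsClosed (un C) := by
    intro C hC
    rw [un]
    apply isClosed_biUnion_finset
    intro s hs
    exact bas.closed s (hC hs)
  have hH0A : H0 ⊆ A := (Finset.filter_subset _ _).trans L.sub
  have hcov : U \ Vx A ⊆ un H0 ∪ (un (A \ H0) ∪ closure (un A)ᶜ) := by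
    rintro z ⟨-, -⟩
    by_cases hz : z ∈ un A
    · rw [un, mem_iUnion₂] at hz
      obtain ⟨Y, hY, hzY⟩ := hz
      by_cases hYH : Y ∈ H0
      · left
        rw [un, mem_iUnion₂]
        exact ⟨Y, hYH, hzY⟩
      · right
        left
        rw [un, mem_iUnion₂]
        exact ⟨Y, Finset.mem_sdiff.mpr ⟨hY, hYH⟩, hzY⟩
    · right
      right
      exact subset_closure hz
  have hne1 : ((U \ Vx A) ∩ un H0).Nonempty := by
    refine ⟨x0, ⟨hx0U, hx0V⟩, ?_⟩
    rw [un, mem_iUnion₂]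
    exact ⟨X, hXH, interior_subset hx0⟩
  have hne2 : ((U \ Vx A) ∩ (un (A \ H0) ∪ closure (un A)ᶜ)).Nonempty := by
    obtain ⟨R', hR'⟩ := bas.compact.isBounded.subset_closedBall c
    have hz : dist (c + ((max R R' + 1 : ℝ) : ℂ)) c = |max R R' + 1| := by
      rw [dist_eq_norm]
      have e : c + ((max R R' + 1 : ℝ) : ℂ) - c = ((max R R' + 1 : ℝ) : ℂ) := by ring
      rw [e, Complex.norm_real, Real.norm_eq_abs]
    have h3 : max R R' + 1 ≤ |max R R' + 1| := le_abs_self _
    have h4 : R ≤ max R R' := le_max_left _ _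
    have h5 : R' ≤ max R R' := le_max_right _ _
    have hzun : c + ((max R R' + 1 : ℝ) : ℂ) ∉ un A := by
      intro h6
      have h7 := hR' h6
      rw [mem_closedBall, hz] at h7
      linarith
    refine ⟨c + ((max R R' + 1 : ℝ) : ℂ), ⟨?_, ?_⟩, Or.inr (subset_closure hzun)⟩
    · show R < dist _ c
      rw [hz]
      linarith
    · rintro ⟨h6, -⟩
      exact hzun (interior_subset h6)
  rw [isPreconnected_closed_iff] at hpre
  obtain ⟨z, ⟨hzU, hzV⟩, hzP, hzQ⟩ := hpre (un H0) (un (A \ H0) ∪ closure (un A)ᶜ)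
    (hclun H0 hH0A) ((hclun (A \ H0) Finset.sdiff_subset).union isClosed_closure) hcov hne1 hne2
  rw [un, mem_iUnion₂] at hzP
  obtain ⟨X', hX', hzX'⟩ := hzP
  have hX'f := hX'
  rw [hH0, Finset.mem_filter] at hX'f
  have hX'A : X' ∈ A := hH0A hX'
  have hzreg : z ∈ reg A := (L.inn X' hX'f.1).2 hzX'
  obtain ⟨Y, hYA, hYH, hzY⟩ : ∃ Y ∈ A, Y ∉ H0 ∧ z ∈ Y := by
    rcases hzQ with h2 | h2
    · rw [un, mem_iUnion₂] at h2
      obtain ⟨Y, hY, hzY⟩ := h2
      rw [Finset.mem_sdiff] at hY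
      exact ⟨Y, hY.1, hY.2, hzY⟩
    · rw [closure_compl] at h2
      exact absurd hzreg h2
  have hne : X' ≠ Y := fun h => hYH (h ▸ hX')
  have hzfr : z ∈ fr A X' := by
    refine ⟨⟨?_, hzreg⟩, hzV⟩
    exact bas.mem_frontier X' hX'A Y hYA hne ⟨hzX', hzY⟩
  have hl : connectedComponentIn (fr A X') z ∈ arcs A X' := ⟨z, hzfr, rfl⟩
  obtain ⟨Y', hY'A, hY'X, hlY', -, -, hat⟩ := h1 A L.fam X' hX'A _ hl
  have hzl : z ∈ connectedComponentIn (fr A X') z := mem_connectedComponentIn hzfr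
  have hYY' : Y = Y' := by
    have h2 : Y ∈ at_ A z := by
      rw [at_, Finset.mem_filter]
      exact ⟨hYA, hzY⟩
    rw [hat z hzl, Finset.mem_insert, Finset.mem_singleton] at h2
    rcases h2 with h3 | h3
    · exact absurd h3.symm hne
    · exact h3
  have hadj : Adj A X' Y := by
    rw [hYY']
    exact ⟨_, hY'X.symm, hl, hlY'⟩
  have hYt : Y ∉ tch A S := fun h => htch Y h z hzY hzU
  apply hX'f.2.2
  by_cases hYB : Y ∈ B
  · have hYO : Out A B S Y := by
      by_contra hcon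
      exact hYH (Finset.mem_filter.mpr ⟨hYB, hYt, hcon⟩)
    obtain ⟨Z, hZ, hW⟩ := hYO
    exact ⟨Z, Relation.ReflTransGen.head ⟨hadj, hYB, hYt⟩ hZ, hW⟩
  · exact ⟨X', Relation.ReflTransGen.refl, Y, hYA, hYB, hadj⟩

end Pool.Agent.Hsh
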