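import Pool.Agent.Hsh.Stmts

set_option autoImplicit false

/-!
# Basic facts on finite families of discs (problem MP_51bd69_co)
-/

namespace Pool.Agent.Hsh

open Set Metric MeasureTheory Filter Topology Classical

theorem bas : Stmt_Bas := by
  intro A hA
  have hdata : ∀ t ∈ A, ∃ (c : ℂ) (γ : ℝ → ℂ), CT.DiscData t c γ := fun t ht =>
    CT.disc_final t (hA.disk t ht)
  have hcomp : ∀ t ∈ A, IsCompact t := by
    intro t ht
    obtain ⟨c, γ, h⟩ := hdata t ht
    exact h.compact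
  have hclosed : ∀ t ∈ A, IsClosed t := fun t ht => (hcomp t ht).isClosed
  have hint : ∀ t ∈ A, ∀ t' ∈ A, t ≠ t' → Disjoint (interior t) t' := by
    intro t ht t' ht' hne'
    obtain ⟨c, γ, h⟩ := hdata t' ht'
    have h1 := (hA.disj t ht t' ht' hne').closure_right isOpen_interior
    rwa [h.clos] at h1
  have hnb : ∀ p ∈ reg A, ∃ r > 0, ball p r ⊆ un A ∧ ∀ t ∈ A, (t ∩ ball p r).Nonempty → p ∈ t := by
    intro p hp
    have hcl : IsClosed (⋃ t ∈ (A.filter (fun t => p ∉ t) : Finset (Set ℂ)), t) := by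
      refine isClosed_biUnion_finset (fun t ht => hclosed t (Finset.mem_filter.1 ht).1)
    have hpn : (⋃ t ∈ (A.filter (fun t => p ∉ t) : Finset (Set ℂ)), t)ᶜ ∈ 𝓝 p := by
      refine hcl.isOpen_compl.mem_nhds ?_
      intro hmem
      obtain ⟨t, ht, hpt⟩ := mem_iUnion₂.mp hmem
      exact (Finset.mem_filter.1 ht).2 hpt
    have hreg : reg A ∈ 𝓝 p := isOpen_interior.mem_nhds hp
    obtain ⟨ε, hε, hball⟩ := Metric.mem_nhds_iff.mp (Filter.inter_mem hpn hreg)
    refine ⟨ε, hε, fun x hx => interior_subset (hball hx).2, fun t ht hx => ?_⟩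
    obtain ⟨x, hxt, hx⟩ := hx
    by_contra hpt
    exact (hball hx).1 (mem_iUnion₂.mpr ⟨t, Finset.mem_filter.2 ⟨ht, hpt⟩, hxt⟩)
  refine
    { closed := hclosed
      compact := A.isCompact_biUnion hcomp
      int_disj := hint
      mem_frontier := ?_
      nbhd := hnb
      other := ?_
      at_int := ?_
      int_of_at := ?_ }
  · rintro t ht t' ht' hne' x ⟨hx, hx'⟩
    exact ⟨subset_closure hx, fun h => disjoint_left.mp (hint t ht t' ht' hne') h hx'⟩
  · intro t ht p hp hpr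
    obtain ⟨r, hr, hU, h⟩ := hnb p hpr
    have h1 : ¬ ball p r ⊆ t := by
      intro hsub
      exact hp.2 (mem_interior.mpr ⟨ball p r, hsub, isOpen_ball, mem_ball_self hr⟩)
    obtain ⟨y, hy, hyt⟩ := not_subset.mp h1
    obtain ⟨t', ht', hyt'⟩ := mem_iUnion₂.mp (hU hy)
    refine ⟨t', ht', ?_, h t' ht' ⟨y, hyt', hy⟩⟩
    rintro rfl
    exact hyt hyt'
  · intro t ht p hp
    ext t'
    rw [at_, Finset.mem_filter, Finset.mem_singleton]
    constructor
    · rintro ⟨ht', hp'⟩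
      by_contra hne'
      exact disjoint_left.mp (hint t ht t' ht' (Ne.symm hne')) hp hp'
    · intro h
      rw [h]
      exact ⟨ht, interior_subset hp⟩
  · intro S hS p hp hsub
    obtain ⟨r, hr, hU, h⟩ := hnb p hp
    refine mem_interior.mpr ⟨ball p r, ?_, isOpen_ball, mem_ball_self hr⟩
    intro x hx
    obtain ⟨t, ht, hxt⟩ := mem_iUnion₂.mp (hU hx)
    have h1 : t ∈ at_ A p := Finset.mem_filter.2 ⟨ht, h t ht ⟨x, hxt, hx⟩⟩
    exact mem_iUnion₂.mpr ⟨t, hsub h1, hxt⟩

end Pool.Agent.Hsh
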