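import Mathlib

set_option autoImplicit false

/-!
# Surrounding a prototile: definitions (problem MP_51bd69_co)

The Euclidean plane is `ℂ`; isometries of the plane (reflections allowed) are `ℂ ≃ᵢ ℂ`.
-/

namespace Pool.Agent.Hsh

open Set Metric MeasureTheory Filter Topology

/-- A closed topological disk in the plane. -/
def IsDisk (t : Set ℂ) : Prop := Nonempty (t ≃ₜ closedBall (0 : ℂ) 1)

/-- `t` is a copy of `T`: its image under an isometry of the plane. -/
def IsCopy (T t : Set ℂ) : Prop := ∃ g : ℂ ≃ᵢ ℂ, t = g '' T

/-- The union of a finite family of sets. -/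
def un (A : Finset (Set ℂ)) : Set ℂ := ⋃ t ∈ A, t

/-- A patch of copies of `T`: a finite set of copies of `T` with pairwise disjoint interiors whose
union is a closed topological disk. -/
structure IsPatch (T : Set ℂ) (A : Finset (Set ℂ)) : Prop where
  copy : ∀ t ∈ A, IsCopy T t
  disj : ∀ t ∈ A, ∀ t' ∈ A, t ≠ t' → Disjoint (interior t) (interior t')
  disk : IsDisk (un A)

/-- The patch `A` is surrounded by the patch `B`: `A ⊆ B` and the closure of the complement of the
union of `B` meets no tile of `A`. -/
def SurroundedBy (A B : Finset (Set ℂ)) : Prop :=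
  A ⊆ B ∧ ∀ t ∈ A, Disjoint (closure (un B)ᶜ) t

/-- `T` can be surrounded `r` times: there are patches `A 1, …, A r` of copies of `T` such that
`A 1` surrounds `A 0 = {T}` and `A (i + 1)` surrounds `A i` for `1 ≤ i < r`. -/
def CanSurround (T : Set ℂ) (r : ℕ) : Prop :=
  ∃ A : ℕ → Finset (Set ℂ), A 0 = {T} ∧ (∀ i, 1 ≤ i → i ≤ r → IsPatch T (A i)) ∧
    ∀ i, i < r → SurroundedBy (A i) (A (i + 1))

/-- The lower density at `p` of the interior of `t`: the lower limit for `ρ → 0` of the fraction of
the area of the disk of radius `ρ` about `p` which is covered by the interior of `t`. -/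
noncomputable def lowDens (t : Set ℂ) (p : ℂ) : ℝ :=
  (liminf (fun ρ : ℝ => volume (interior t ∩ ball p ρ) / volume (ball p ρ)) (𝓝[>] 0)).toReal

/-- The exterior angle of `t` at `p` divided by `π` if `p` is a convex corner, and `0` at a point
where `t` has lower density at least `1/2`: the number `max (0, 1 - 2 d)`, where `d` is the lower
density of the interior of `t` at `p` (for a corner with interior angle `α ≤ π` this is
`1 - α / π`). -/
noncomputable def ext (t : Set ℂ) (p : ℂ) : ℝ := max 0 (1 - 2 * lowDens t p)

end Pool.Agent.Hsh
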