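import Pool.Agent.Hsh.StmtsB
import Pool.Agent.Hsh.Final

set_option autoImplicit false

/-!
# The second theorem: a logarithmic bound
-/

namespace Pool.Agent.Hsh

open Set Metric MeasureTheory Filter Topology Classical

/-- the levels -/
noncomputable def lv (A : ℕ → Finset (Set ℂ)) (r : ℕ) : ℕ → Finset (Set ℂ)
  | 0 => A 0
  | k + 1 => hull (A r) (A (k + 1)) (lv A r k)

theorem finB_mono {A : ℕ → Finset (Set ℂ)} {r : ℕ}
    (hS : ∀ i, i < r → SurroundedBy (A i) (A (i + 1))) {i j : ℕ} (hij : i ≤ j) (hj : j ≤ r) :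
    A i ⊆ A j := by
  induction j, hij using Nat.le_induction with
  | base => exact Finset.Subset.refl _
  | succ j hij ih => exact (ih (by omega)).trans (hS j (by omega)).1

theorem finB_con {A : Finset (Set ℂ)} {T : Set ℂ} : Con A {T} := by
  intro P hP hne _
  refine Finset.Subset.antisymm hP ?_
  obtain ⟨X, hX⟩ := hne
  have := Finset.mem_singleton.1 (hP hX)
  intro Y hY
  rw [Finset.mem_singleton.1 hY, ← this]
  exact hX

/-- the chain of levels -/
theorem finB_chain (hb : Stmt_Bas) (hh : Stmt_Hull) (hba : Stmt_Ball) (ha : Stmt_Area)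
    {T : Set ℂ} (hT : IsDisk T) {A : ℕ → Finset (Set ℂ)} {r : ℕ} (hA0 : A 0 = {T})
    (hP : ∀ i, 1 ≤ i → i ≤ r → IsPatch T (A i))
    (hS : ∀ i, i < r → SurroundedBy (A i) (A (i + 1))) {c : ℂ} (hc : c ∈ T) (hr : 1 ≤ r) :
    ∀ k, k < r → lv A r k ⊆ A k ∧ (lv A r k).Nonempty ∧ Con (A r) (lv A r k) ∧
      un (lv A r k) ⊆ closedBall c (((k : ℝ) + 1) * diam T) ∧
      (k + 1 < r → Lev (A r) (A (k + 1)) (lv A r k)) := by
  have fam : Fam (A r) := fin_fam hT (hP r hr le_rfl)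
  obtain ⟨-, hD, -⟩ := ha T hT
  have hTc : IsCompact T := by
    obtain ⟨c', γ, hd⟩ := CT.disc_final T hT
    exact hd.compact
  have hlev : ∀ k, k + 1 < r → lv A r k ⊆ A k → (lv A r k).Nonempty → Con (A r) (lv A r k) →
      Lev (A r) (A (k + 1)) (lv A r k) := by
    intro k hk h1 h2 h3
    exact ⟨fam, finB_mono hS (by omega) le_rfl, (hP (k + 1) (by omega) (by omega)).disk,
      fin_inn (finB_mono hS (i := k + 2) (by omega) le_rfl) (hS (k + 1) (by omega))
        (finB_mono hS (by omega) le_rfl),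
      h1.trans (finB_mono hS (by omega) (by omega)), h2, h3,
      fin_tch_sub fam hb (finB_mono hS (by omega) le_rfl) h1 (hS k (by omega))⟩
  intro k
  induction k with
  | zero =>
    intro hk
    have h0 : lv A r 0 = {T} := hA0
    have hsub : lv A r 0 ⊆ A 0 := Finset.Subset.refl _
    have hne : (lv A r 0).Nonempty := by rw [h0]; exact Finset.singleton_nonempty _
    have hcon : Con (A r) (lv A r 0) := by rw [h0]; exact finB_con
    refine ⟨hsub, hne, hcon, ?_, fun h => hlev 0 h hsub hne hcon⟩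
    rw [h0]
    intro x hx
    obtain ⟨t, ht, hxt⟩ := fin_mem_un.1 hx
    rw [Finset.mem_singleton.1 ht] at hxt
    rw [mem_closedBall]
    simpa using dist_le_diam_of_mem hTc.isBounded hxt hc
  | succ k ih =>
    intro hk
    obtain ⟨h1, h2, h3, h4, h5⟩ := ih (by omega)
    have hL := h5 hk
    obtain ⟨k1, k2, k3, k4⟩ := hh _ _ _ hL
    have hsub : lv A r (k + 1) ⊆ A (k + 1) := k2
    have hne : (lv A r (k + 1)).Nonempty := h2.mono k1
    refine ⟨hsub, hne, k4, ?_, fun h => hlev (k + 1) h hsub hne k4⟩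
    apply hba _ _ _ hL
    intro x hx
    obtain ⟨X, hX, hxX⟩ := fin_mem_un.1 hx
    obtain ⟨hXA, y, hyX, hyS⟩ := Finset.mem_filter.1 hX
    have h6 := h4 hyS
    obtain ⟨g, rfl⟩ := (hP r hr le_rfl).copy X hXA
    obtain ⟨x', hx', rfl⟩ := hxX
    obtain ⟨y', hy', rfl⟩ := hyX
    have h7 : dist (g x') (g y') ≤ diam T := by
      rw [g.isometry.dist_eq]
      exact dist_le_diam_of_mem hTc.isBounded hx' hy'
    rw [mem_closedBall] at h6 ⊢
    calc dist (g x') c ≤ dist (g x') (g y') + dist (g y') c := dist_triangle _ _ _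
      _ ≤ diam T + ((k : ℝ) + 1) * diam T := add_le_add h7 h6
      _ = (((k + 1 : ℕ) : ℝ) + 1) * diam T := by push_cast; ring

theorem finB_copy (hd : Stmt_Dens) {T X : Set ℂ} (hX : IsCopy T X) {w : ℝ}
    (hw : ∀ F : Finset ℂ, (↑F : Set ℂ) ⊆ frontier T → ∑ q ∈ F, ext T q ≤ w) :
    ∀ F : Finset ℂ, (↑F : Set ℂ) ⊆ frontier X → ∑ q ∈ F, ext X q ≤ w := by
  intro F hF
  obtain ⟨g, rfl⟩ := hX
  have h6 := hw (F.image g.symm) (by
    intro x hx
    simp only [Finset.coe_image, Set.mem_image, Finset.mem_coe] at hx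
    obtain ⟨y, hy, rfl⟩ := hx
    have h7 := hF hy
    have h8 : frontier (g '' T) = g '' frontier T := (g.toHomeomorph.image_frontier T).symm
    rw [h8] at h7
    obtain ⟨z, hz, rfl⟩ := h7
    simpa using hz)
  rw [Finset.sum_image (fun x _ y _ h => g.symm.injective h)] at h6
  refine le_trans (le_of_eq (Finset.sum_congr rfl fun q _ => ?_)) h6
  have h9 := hd.2.2 g T (g.symm q)
  simp only [ext]
  rw [← h9, g.apply_symm_apply]

/-- The second theorem. -/
theorem finB_main (hb : Stmt_Bas) (hh : Stmt_Hull) (hrec : Stmt_Rec) (hd : Stmt_Dens)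
    (hba : Stmt_Ball) (hg : Stmt_Grow) (ha : Stmt_Area) (hn : Stmt_Num) (κ : ℝ) (hκ : 0 < κ) :
    ∃ C : ℝ, 0 < C ∧ ∀ T : Set ℂ, IsDisk T →
      (∀ F : Finset ℂ, (↑F : Set ℂ) ⊆ frontier T → ∑ q ∈ F, ext T q ≤ 2 - κ) →
      ∀ r : ℕ, CanSurround T r →
        (r : ℝ) ≤ C * Real.log (2 + diam T ^ 2 / (volume (interior T)).toReal) := by
  obtain ⟨C, hC, hnum⟩ := hn (min κ (1 / 2)) (by positivity)
    (lt_of_le_of_lt (min_le_right _ _) (by norm_num))
  refine ⟨C, hC, fun T hT hw r hr => ?_⟩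
  obtain ⟨hvol, hD, harea⟩ := ha T hT
  rcases Nat.eq_zero_or_pos r with rfl | hpos
  · have h1 : 0 ≤ Real.log (2 + diam T ^ 2 / (volume (interior T)).toReal) := by
      apply Real.log_nonneg
      have : 0 ≤ diam T ^ 2 / (volume (interior T)).toReal := by positivity
      linarith
    push_cast
    positivity
  obtain ⟨A, hA0, hP, hS⟩ := hr
  obtain ⟨c, hc⟩ : T.Nonempty := by
    obtain ⟨e⟩ := hT
    exact ⟨e.symm ⟨0, by simp⟩, (e.symm ⟨0, by simp⟩).2⟩
  have hch := finB_chain hb hh hba ha hT hA0 hP hS hc hpos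
  obtain ⟨s, rfl⟩ : ∃ s, r = s + 1 := ⟨r - 1, by omega⟩
  have h := hnum s (fun k => (lv A (s + 1) k).card) (volume (interior T)).toReal (diam T)
    hvol hD (by simp [lv, hA0]) ?_ ?_ ?_
  · push_cast
    exact h
  · intro k hk
    obtain ⟨h1, h2, h3, h4, h5⟩ := hch k (by omega)
    have h6 := hrec _ _ _ (h5 (by omega)) (2 - κ)
      (fun X hX => finB_copy hd ((hP (s + 1) (by omega) le_rfl).copy X hX) hw)
    have h7 : min κ (1 / 2) * ((lv A (s + 1) (k + 1)).card : ℝ) ≤
        κ * ((lv A (s + 1) (k + 1)).card : ℝ) :=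
      mul_le_mul_of_nonneg_right (min_le_left _ _) (by positivity)
    have h8 : lv A (s + 1) (k + 1) = hull (A (s + 1)) (A (k + 1)) (lv A (s + 1) k) := rfl
    rw [h8] at h7 ⊢
    linarith
  · intro k hk
    obtain ⟨h1, h2, h3, h4, h5⟩ := hch k (by omega)
    exact hg _ _ _ (h5 (by omega))
  · intro k hk
    obtain ⟨h1, h2, h3, h4, h5⟩ := hch k (by omega)
    have hsub : lv A (s + 1) k ⊆ A (s + 1) := h1.trans (finB_mono hS (by omega) le_rfl)
    have hp := hP (s + 1) (by omega) le_rfl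
    exact harea _ (fun X hX => hp.copy X (hsub hX))
      (fun X hX Y hY hne => hp.disj X (hsub hX) Y (hsub hY) hne) c _ (by positivity) h4

end Pool.Agent.Hsh
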