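import Pool.Agent.Hsh.AllC
import Pool.Agent.Hsh.FinalB

set_option autoImplicit false

/-!
# Few sharp corners: the levels and the general counting lemmas
-/

namespace Pool.Agent.Hsh

open Set Metric MeasureTheory Filter Topology Classical

/-- the vertices on tiles of `S` all of whose tiles are in `S` -/
noncomputable def fcVi (A S : Finset (Set ℂ)) : Finset ℂ :=
  (VF A).filter (fun v => at_ A v ⊆ S ∧ ∃ X ∈ S, v ∈ X)

/-- the other vertices on tiles of `S` -/
noncomputable def fcVb (A S : Finset (Set ℂ)) : Finset ℂ :=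
  (VF A).filter (fun v => ¬ at_ A v ⊆ S ∧ ∃ X ∈ S, v ∈ X)

/-- the vertices on tiles of `S` -/
noncomputable def fcV (A S : Finset (Set ℂ)) : Finset ℂ :=
  (VF A).filter (fun v => ∃ X ∈ S, v ∈ X)

theorem fc_VF {A : Finset (Set ℂ)} (hA : Fam A) {v : ℂ} : v ∈ VF A ↔ v ∈ Vx A :=
  outCount_mem_VF all_vFin hA

theorem fc_disj (A S : Finset (Set ℂ)) : Disjoint (fcVi A S) (fcVb A S) := by
  rw [Finset.disjoint_left]
  intro v hv hv'
  exact (Finset.mem_filter.1 hv').2.1 (Finset.mem_filter.1 hv).2.1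

theorem fc_union (A S : Finset (Set ℂ)) : fcVi A S ∪ fcVb A S = fcV A S := by
  ext v
  simp only [fcVi, fcVb, fcV, Finset.mem_union, Finset.mem_filter]
  constructor
  · rintro (⟨h1, h2, h3⟩ | ⟨h1, h2, h3⟩)
    · exact ⟨h1, h3⟩
    · exact ⟨h1, h3⟩
  · rintro ⟨h1, h3⟩
    by_cases h : at_ A v ⊆ S
    · exact Or.inl ⟨h1, h, h3⟩
    · exact Or.inr ⟨h1, h, h3⟩

theorem fc_card (A S : Finset (Set ℂ)) : (fcVi A S).card + (fcVb A S).card = (fcV A S).card := by
  rw [← fc_union, Finset.card_union_of_disjoint (fc_disj A S)]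

theorem fc_frontier {A : Finset (Set ℂ)} (hA : Fam A) {v : ℂ} (hv : v ∈ VF A) {X : Set ℂ}
    (hX : X ∈ A) (hvX : v ∈ X) : v ∈ frontier X := by
  obtain ⟨Y, hY, hne, hvY⟩ := rec_other (rec_VF hv) X
  exact (all_bas A hA).mem_frontier X hX Y hY hne.symm ⟨hvX, hvY⟩

/-- The Euler inequality for one family. -/
theorem fc_eul {A S : Finset (Set ℂ)} (hA : Fam A) (hSA : S ⊆ A) (hne : S.Nonempty)
    (hin : ∀ X ∈ S, Inn A X) (hcon : Con A S) :
    2 * (S.card : ℝ) - 2 ≤ ∑ v ∈ fcVi A S, (((at_ A v).card : ℝ) - 2) +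
      ∑ v ∈ fcVb A S, (((at_ S v).card : ℝ) - 1) := by
  have hE := (all_euler A hA S hSA hne hin hcon).2
  have hD := all_deg A hA S hSA hin
  have hE' : (S.card : ℝ) + (fcVi A S).card ≤ (EE A S).ncard + 1 := by exact_mod_cast hE
  have hD' : 2 * ((EE A S).ncard : ℝ) ≤ ∑ v ∈ fcVi A S, ((at_ A v).card : ℝ) +
      ∑ v ∈ fcVb A S, (((at_ S v).card - 1 : ℕ) : ℝ) := by exact_mod_cast hD
  have h1 : ∑ v ∈ fcVb A S, (((at_ S v).card - 1 : ℕ) : ℝ) =
      ∑ v ∈ fcVb A S, (((at_ S v).card : ℝ) - 1) := by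
    refine Finset.sum_congr rfl fun v hv => ?_
    obtain ⟨-, -, X, hX, hvX⟩ := Finset.mem_filter.1 hv
    have h2 : 1 ≤ (at_ S v).card := Finset.card_pos.2 ⟨X, Finset.mem_filter.2 ⟨hX, hvX⟩⟩
    rw [Nat.cast_sub h2, Nat.cast_one]
  rw [h1] at hD'
  have h2 : ∑ v ∈ fcVi A S, (((at_ A v).card : ℝ) - 2) =
      ∑ v ∈ fcVi A S, ((at_ A v).card : ℝ) - 2 * (fcVi A S).card := by
    rw [Finset.sum_sub_distrib, Finset.sum_const, nsmul_eq_mul]
    ring
  rw [h2]
  linarith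

/-- The count of the tiles touching the hull from outside. -/
theorem fc_out {A B S : Finset (Set ℂ)} (hL : Lev A B S) :
    ((tch A (hull A B S) \ hull A B S).card : ℝ) ≤
      ∑ v ∈ fcVb A (hull A B S), (((at_ A v \ hull A B S).card : ℝ) - 1) := by
  have h := all_outCount A B S hL
  have h' : ((tch A (hull A B S) \ hull A B S).card : ℝ) ≤
      ∑ v ∈ fcVb A (hull A B S), (((at_ A v \ hull A B S).card - 1 : ℕ) : ℝ) := by
    exact_mod_cast h
  refine h'.trans (le_of_eq (Finset.sum_congr rfl fun v hv => ?_))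
  obtain ⟨-, hv1, -⟩ := Finset.mem_filter.1 hv
  have h2 : 1 ≤ (at_ A v \ hull A B S).card := by
    rw [Nat.one_le_iff_ne_zero, Ne, Finset.card_eq_zero, Finset.sdiff_eq_empty_iff_subset]
    exact hv1
  rw [Nat.cast_sub h2, Nat.cast_one]

/-- The Euler inequality for the hull. -/
theorem fc_eulH {A B S : Finset (Set ℂ)} (hL : Lev A B S) :
    2 * ((hull A B S).card : ℝ) - 2 ≤ ∑ v ∈ fcVi A (hull A B S), (((at_ A v).card : ℝ) - 2) +
      ∑ v ∈ fcVb A (hull A B S), (((at_ (hull A B S) v).card : ℝ) - 1) := by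
  obtain ⟨h1, h2, h3, h4⟩ := all_hull A B S hL
  exact fc_eul hL.fam (h2.trans hL.sub) (hL.neS.mono h1) (fun X hX => hL.inn X (h2 hX)) h4

/-- the vertices on tiles of `S` are inner vertices of the hull -/
theorem fc_sub {A B S : Finset (Set ℂ)} (hL : Lev A B S) :
    fcV A S ⊆ fcVi A (hull A B S) := by
  obtain ⟨h1, h2, h3, h4⟩ := all_hull A B S hL
  intro v hv
  obtain ⟨hv1, X, hX, hvX⟩ := Finset.mem_filter.1 hv
  refine Finset.mem_filter.2 ⟨hv1, ?_, X, h1 hX, hvX⟩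
  intro Y hY
  obtain ⟨hYA, hvY⟩ := Finset.mem_filter.1 hY
  exact h3 (Finset.mem_filter.2 ⟨hYA, v, hvY, fin_mem_un.2 ⟨X, hX, hvX⟩⟩)

/-- two vertices on the boundary of the hull, and two tiles touching the hull from outside -/
theorem fc_two {A B S : Finset (Set ℂ)} (hL : Lev A B S) :
    2 ≤ (fcVb A (hull A B S)).card ∧ 2 ≤ (tch A (hull A B S) \ hull A B S).card := by
  obtain ⟨h1, h2, h3, h4⟩ := all_hull A B S hL
  obtain ⟨X, hX, Y, hY, hYH, hadj⟩ := all_open A hL.fam (hull A B S) (h2.trans hL.sub)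
    (hL.neS.mono h1) (fun X hX => hL.inn X (h2 hX))
  have key : ∀ v₀ : ℂ, ∃ u ∈ fcVb A (hull A B S), u ≠ v₀ ∧
      ∃ Z ∈ tch A (hull A B S) \ hull A B S, Z ≠ Y ∧
      Y ∈ tch A (hull A B S) \ hull A B S := by
    intro v₀
    obtain ⟨u, hu, hne, huY, ⟨X', hX', huX'⟩, Z, hZ, hZH, hZY, huZ⟩ :=
      all_outTwo A B S hL Y hY hYH ⟨X, hX, hadj⟩ v₀
    refine ⟨u, Finset.mem_filter.2 ⟨(fc_VF hL.fam).2 hu, ?_, X', hX', huX'⟩, hne, Z, ?_, hZY, ?_⟩
    · intro hsub
      exact hYH (hsub (Finset.mem_filter.2 ⟨hY, huY⟩))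
    · exact Finset.mem_sdiff.2 ⟨Finset.mem_filter.2 ⟨hZ, u, huZ,
        fin_mem_un.2 ⟨X', hX', huX'⟩⟩, hZH⟩
    · exact Finset.mem_sdiff.2 ⟨Finset.mem_filter.2 ⟨hY, u, huY,
        fin_mem_un.2 ⟨X', hX', huX'⟩⟩, hYH⟩
  obtain ⟨u, hu, -, Z, hZ, hZY, hYt⟩ := key 0
  obtain ⟨u', hu', hne, -⟩ := key u
  exact ⟨Finset.one_lt_card.2 ⟨u', hu', u, hu, hne⟩, Finset.one_lt_card.2 ⟨Z, hZ, Y, hYt, hZY⟩⟩

/-- the number of vertices of one tile -/
theorem fc_start {A : Finset (Set ℂ)} (hA : Fam A) {T : Set ℂ} (hT : Inn A T) :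
    2 ≤ (fcV A {T}).card := by
  obtain ⟨u, hu, w, hw, hne, huT, hwT⟩ := all_two A hA T hT
  refine Finset.one_lt_card.2 ⟨u, ?_, w, ?_, hne⟩
  · exact Finset.mem_filter.2 ⟨(fc_VF hA).2 hu, T, Finset.mem_singleton_self T, huT⟩
  · exact Finset.mem_filter.2 ⟨(fc_VF hA).2 hw, T, Finset.mem_singleton_self T, hwT⟩

/-- the vertices of the hull: inner vertices contain all vertices of `S`, and there are two more -/
theorem fc_grow {A B S : Finset (Set ℂ)} (hL : Lev A B S) :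
    (fcV A S).card + 2 ≤ (fcV A (hull A B S)).card := by
  have h1 := Finset.card_le_card (fc_sub hL)
  have h2 := (fc_two hL).1
  have h3 := fc_card A (hull A B S)
  omega

/-- the hull is the disjoint union of `S`, the tiles touching `S`, and the tiles in holes -/
theorem fc_hull_card {A B S : Finset (Set ℂ)} (hL : Lev A B S) :
    ((hull A B S).card : ℝ) = S.card + (tch A S \ S).card +
      (hull A B S \ (S ∪ (tch A S \ S))).card := by
  obtain ⟨h1, h2, h3, h4⟩ := all_hull A B S hL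
  have h5 : S ∪ (tch A S \ S) ⊆ hull A B S :=
    Finset.union_subset h1 (Finset.sdiff_subset.trans h3)
  have h6 := Finset.card_sdiff_add_card_eq_card h5
  have h7 : (S ∪ (tch A S \ S)).card = S.card + (tch A S \ S).card :=
    Finset.card_union_of_disjoint Finset.disjoint_sdiff
  have h8 : ((hull A B S \ (S ∪ (tch A S \ S))).card : ℝ) + ((S ∪ (tch A S \ S)).card : ℝ) =
      ((hull A B S).card : ℝ) := by exact_mod_cast h6
  have h9 : ((S ∪ (tch A S \ S)).card : ℝ) = S.card + (tch A S \ S).card := by exact_mod_cast h7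
  linarith

/-- the number of tiles of the hull -/
theorem fc_hull_two {A B S C : Finset (Set ℂ)} (hL : Lev A B S)
    (hL' : Lev A C (hull A B S)) : (hull A B S).card + 2 ≤ (hull A C (hull A B S)).card := by
  obtain ⟨h1, h2, h3, h4⟩ := all_hull A C _ hL'
  have h5 : hull A B S ∪ (tch A (hull A B S) \ hull A B S) ⊆ hull A C (hull A B S) :=
    Finset.union_subset h1 (Finset.sdiff_subset.trans h3)
  have h6 := Finset.card_le_card h5
  rw [Finset.card_union_of_disjoint Finset.disjoint_sdiff] at h6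
  have := (fc_two hL).2
  omega

/-- The chain of levels of a surrounding. -/
theorem fc_chain {T : Set ℂ} (hT : IsDisk T) {A : ℕ → Finset (Set ℂ)} {r : ℕ} (hA0 : A 0 = {T})
    (hP : ∀ i, 1 ≤ i → i ≤ r → IsPatch T (A i))
    (hS : ∀ i, i < r → SurroundedBy (A i) (A (i + 1))) (hr : 1 ≤ r) :
    ∀ k, k < r → lv A r k ⊆ A k ∧ (lv A r k).Nonempty ∧ Con (A r) (lv A r k) ∧
      (k + 1 < r → Lev (A r) (A (k + 1)) (lv A r k)) := by
  have fam : Fam (A r) := fin_fam hT (hP r hr le_rfl)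
  have hlev : ∀ k, k + 1 < r → lv A r k ⊆ A k → (lv A r k).Nonempty → Con (A r) (lv A r k) →
      Lev (A r) (A (k + 1)) (lv A r k) := by
    intro k hk h1 h2 h3
    exact ⟨fam, finB_mono hS (by omega) le_rfl, (hP (k + 1) (by omega) (by omega)).disk,
      fin_inn (finB_mono hS (i := k + 2) (by omega) le_rfl) (hS (k + 1) (by omega))
        (finB_mono hS (by omega) le_rfl),
      h1.trans (finB_mono hS (by omega) (by omega)), h2, h3,
      fin_tch_sub fam all_bas (finB_mono hS (by omega) le_rfl) h1 (hS k (by omega))⟩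
  intro k
  induction k with
  | zero =>
    intro hk
    have h0 : lv A r 0 = {T} := hA0
    have hsub : lv A r 0 ⊆ A 0 := Finset.Subset.refl _
    have hne : (lv A r 0).Nonempty := by rw [h0]; exact Finset.singleton_nonempty _
    have hcon : Con (A r) (lv A r 0) := by rw [h0]; exact finB_con
    exact ⟨hsub, hne, hcon, fun h => hlev 0 h hsub hne hcon⟩
  | succ k ih =>
    intro hk
    obtain ⟨h1, h2, h3, h5⟩ := ih (by omega)
    have hL := h5 hk
    obtain ⟨k1, k2, k3, k4⟩ := all_hull _ _ _ hL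
    exact ⟨k2, h2.mono k1, k4, fun h => hlev (k + 1) h k2 (h2.mono k1) k4⟩

/-- Double counting. -/
theorem fc_swap (A S : Finset (Set ℂ)) (w : Set ℂ → ℝ) (s : Set ℂ → ℂ → Prop) :
    ∑ v ∈ VF A, ∑ X ∈ at_ S v, (if s X v then w X else 0) =
      ∑ X ∈ S, w X * (((VF A).filter (fun v => v ∈ X ∧ s X v)).card : ℝ) := by
  unfold at_
  simp_rw [Finset.sum_filter]
  rw [Finset.sum_comm]
  refine Finset.sum_congr rfl fun X _ => ?_
  rw [← Finset.sum_filter, ← Finset.sum_filter, Finset.filter_filter, Finset.sum_const,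
    nsmul_eq_mul, mul_comm]

/-- The density inequality at a point: `a` tiles with lower density more than `u` and `b` tiles with
lower density at least `δ`. -/
theorem fc_dens {A : Finset (Set ℂ)} (hA : Fam A) {v : ℂ} {δ u : ℝ} {Q : Finset (Set ℂ)}
    (hQ : Q ⊆ at_ A v) (hu : ∀ X ∈ Q, u < lowDens X v)
    (hδ : ∀ X ∈ at_ A v, δ ≤ lowDens X v) (a b : ℕ) (ha : a ≤ Q.card)
    (hb : a + b ≤ (at_ A v).card) :
    (a : ℝ) * u + b * δ ≤ 1 ∧ (1 ≤ a → (a : ℝ) * u + b * δ < 1) := by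
  obtain ⟨Q', hQ', hQc⟩ := Finset.exists_subset_card_eq ha
  have h1 : b ≤ (at_ A v \ Q').card := by
    rw [Finset.card_sdiff_of_subset (hQ'.trans hQ)]
    omega
  obtain ⟨P', hP', hPc⟩ := Finset.exists_subset_card_eq h1
  have hdis : Disjoint Q' P' := by
    rw [Finset.disjoint_left]
    intro X hX hX'
    exact (Finset.mem_sdiff.1 (hP' hX')).2 hX
  have hsub : Q' ∪ P' ⊆ A := by
    intro X hX
    rcases Finset.mem_union.1 hX with h | h
    · exact (Finset.mem_filter.1 (hQ (hQ' h))).1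
    · exact (Finset.mem_filter.1 (Finset.mem_sdiff.1 (hP' h)).1).1
  have h2 := Finset.sum_le_sum_of_subset_of_nonneg hsub
    (fun t _ _ => (all_dens.2.1 t v).1) (f := fun t => lowDens t v)
  have h3 := all_dens.1 A hA v
  rw [Finset.sum_union hdis] at h2
  have h4 : (b : ℝ) * δ ≤ ∑ X ∈ P', lowDens X v := by
    rw [← hPc, ← nsmul_eq_mul, ← Finset.sum_const]
    exact Finset.sum_le_sum fun X hX => hδ X (Finset.mem_sdiff.1 (hP' hX)).1
  have h5 : (a : ℝ) * u ≤ ∑ X ∈ Q', lowDens X v := by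
    rw [← hQc, ← nsmul_eq_mul, ← Finset.sum_const]
    exact Finset.sum_le_sum fun X hX => (hu X (hQ' hX)).le
  refine ⟨by linarith, fun ha1 => ?_⟩
  have h6 : (a : ℝ) * u < ∑ X ∈ Q', lowDens X v := by
    rw [← hQc, ← nsmul_eq_mul, ← Finset.sum_const]
    refine Finset.sum_lt_sum_of_nonempty ?_ fun X hX => hu X (hQ' hX)
    rw [← Finset.card_pos]
    omega
  linarith

end Pool.Agent.Hsh
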