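import Pool.Agent.Hsh.FcBase

set_option autoImplicit false

/-!
# Few sharp corners: the case of three sharp corners
-/

namespace Pool.Agent.Hsh

open Set Metric MeasureTheory Filter Topology Classical

/-- A family with a relation `s X v` (the point `v` is a sharp point of the tile `X`): every tile is
sharp at no more than `m` vertices. -/
structure FcCtx (A : Finset (Set ℂ)) (s : Set ℂ → ℂ → Prop) (m : ℕ) : Prop where
  fam : Fam A
  few : ∀ X ∈ A, ((VF A).filter (fun v => v ∈ X ∧ s X v)).card ≤ m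

/-- the number of vertices at which `X` is sharp -/
noncomputable def fcC (A : Finset (Set ℂ)) (s : Set ℂ → ℂ → Prop) (X : Set ℂ) : ℕ :=
  ((VF A).filter (fun v => v ∈ X ∧ s X v)).card

theorem fc_few {A : Finset (Set ℂ)} {s : Set ℂ → ℂ → Prop} {m : ℕ} (hc : FcCtx A s m) {X : Set ℂ}
    (hX : X ∈ A) : fcC A s X ≤ m := hc.few X hX

/-- the sharp tiles of `P` at `v` -/
noncomputable def fcS (s : Set ℂ → ℂ → Prop) (v : ℂ) (P : Finset (Set ℂ)) : ℕ :=
  (P.filter (fun X => s X v)).card

/-- the tiles of `P` which are not sharp at `v` -/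
noncomputable def fcN (s : Set ℂ → ℂ → Prop) (v : ℂ) (P : Finset (Set ℂ)) : ℕ :=
  (P.filter (fun X => ¬ s X v)).card

theorem fc_SN (s : Set ℂ → ℂ → Prop) (v : ℂ) (P : Finset (Set ℂ)) : fcS s v P + fcN s v P = P.card :=
  Finset.card_filter_add_card_filter_not _

theorem fc_N_union (s : Set ℂ → ℂ → Prop) (v : ℂ) {P Q : Finset (Set ℂ)} (h : Disjoint P Q) :
    fcN s v (P ∪ Q) = fcN s v P + fcN s v Q := by
  unfold fcN
  rw [Finset.filter_union, Finset.card_union_of_disjoint]
  exact Finset.disjoint_filter_filter h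

theorem fc_N_mono (s : Set ℂ → ℂ → Prop) (v : ℂ) {P Q : Finset (Set ℂ)} (h : P ⊆ Q) :
    fcN s v P ≤ fcN s v Q :=
  Finset.card_le_card (Finset.filter_subset_filter _ h)

/-- the condition on the vertices in the case of three sharp corners -/
def FcV3 (A : Finset (Set ℂ)) (s : Set ℂ → ℂ → Prop) : Prop := ∀ v ∈ VF A,
  fcN s v (at_ A v) ≤ 1 ∧ (1 ≤ fcN s v (at_ A v) → (at_ A v).card = 3) ∧
    3 ≤ (at_ A v).card ∧ (at_ A v).card ≤ 5

/-- the weight of a tile -/
noncomputable def fcW (A H : Finset (Set ℂ)) (X : Set ℂ) : ℝ :=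
  if X ∈ H then 1 else if X ∈ tch A H then 1 / 2 else 1 / 3

theorem fcW_nonneg (A H : Finset (Set ℂ)) (X : Set ℂ) : 1 / 3 ≤ fcW A H X := by
  unfold fcW
  split_ifs <;> norm_num

theorem fc_supply_const {P : Finset (Set ℂ)} {s : Set ℂ → ℂ → Prop} {v : ℂ} {w : Set ℂ → ℝ} {a : ℝ}
    (h : ∀ X ∈ P, w X = a) :
    ∑ X ∈ P, (if s X v then w X else 0) = a * fcS s v P := by
  rw [← Finset.sum_filter, Finset.sum_congr rfl (fun X hX => h X (Finset.mem_filter.1 hX).1),
    Finset.sum_const, nsmul_eq_mul, mul_comm]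
  rfl

theorem fc_supply_ge {P : Finset (Set ℂ)} {s : Set ℂ → ℂ → Prop} {v : ℂ} {w : Set ℂ → ℝ} {a : ℝ}
    (h : ∀ X ∈ P, a ≤ w X) :
    a * fcS s v P ≤ ∑ X ∈ P, (if s X v then w X else 0) := by
  rw [← Finset.sum_filter]
  have h1 : a * (fcS s v P : ℝ) = ∑ X ∈ P.filter (fun X => s X v), a := by
    rw [Finset.sum_const, nsmul_eq_mul, mul_comm]
    rfl
  rw [h1]
  exact Finset.sum_le_sum fun X hX => h X (Finset.mem_filter.1 hX).1

theorem fc_at_union {A : Finset (Set ℂ)} {H : Finset (Set ℂ)} (hH : H ⊆ A) (v : ℂ) :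
    at_ A v = at_ H v ∪ (at_ A v \ H) ∧ Disjoint (at_ H v) (at_ A v \ H) := by
  constructor
  · ext X
    simp only [at_, Finset.mem_union, Finset.mem_filter, Finset.mem_sdiff]
    constructor
    · rintro ⟨h1, h2⟩
      by_cases h : X ∈ H
      · exact Or.inl ⟨h, h2⟩
      · exact Or.inr ⟨⟨h1, h2⟩, h⟩
    · rintro (⟨h1, h2⟩ | ⟨⟨h1, h2⟩, -⟩)
      · exact ⟨hH h1, h2⟩
      · exact ⟨h1, h2⟩
  · rw [Finset.disjoint_left]
    intro X hX hX'
    exact (Finset.mem_sdiff.1 hX').2 (Finset.mem_filter.1 hX).1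

/-- The demand of a vertex. -/
noncomputable def fcD (A H K : Finset (Set ℂ)) (v : ℂ) : ℝ :=
  (if v ∈ fcVi A H then ((at_ A v).card : ℝ) - 2 else 0) +
  (if v ∈ fcVb A H then ((at_ H v).card : ℝ) - 1 else 0) +
  1 / 2 * ((if v ∈ fcVi A K then ((at_ A v).card : ℝ) - 2 else 0) +
    (if v ∈ fcVb A K then ((at_ K v).card : ℝ) - 1 else 0)) +
  1 / 2 * (if v ∈ fcVb A H then ((at_ A v \ H).card : ℝ) - 1 else 0) +
  1 / 2 * (if v ∈ fcVi A H then 1 else 0)

theorem fcThree_demand {A B C S : Finset (Set ℂ)} {s : Set ℂ → ℂ → Prop} (hc : FcV3 A s)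
    (hL' : Lev A C (hull A B S)) {v : ℂ} (hv : v ∈ VF A) :
    fcD A (hull A B S) (hull A C (hull A B S)) v ≤
      ∑ X ∈ at_ (hull A C (hull A B S)) v,
        (if s X v then fcW A (hull A B S) X else 0) := by
  obtain ⟨q1, q2, q3, q4⟩ := hc v hv
  have hsub := fc_sub hL'
  obtain ⟨s1, s2, s3, -⟩ := all_hull A C _ hL'
  have hHA : hull A B S ⊆ A := hL'.subS.trans hL'.sub
  set H := hull A B S with hH
  set K := hull A C H with hK
  have hKA : K ⊆ A := s2.trans hL'.sub
  have hsn := fc_SN s v (at_ A v)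
  have q3' : (3 : ℝ) ≤ ((at_ A v).card : ℝ) := by exact_mod_cast q3
  have q4' : ((at_ A v).card : ℝ) ≤ 5 := by exact_mod_cast q4
  -- tiles of `K` at `v`
  have hKat : ∀ X ∈ at_ K v, X ∈ K ∧ v ∈ X := fun X hX => Finset.mem_filter.1 hX
  by_cases hvH : v ∈ fcV A H
  · -- all tiles at `v` are in `K`
    have hvK : v ∈ fcVi A K := hsub hvH
    have hvKb : v ∉ fcVb A K := Finset.disjoint_left.1 (fc_disj A K) hvK
    have hatK : at_ K v = at_ A v := by
      apply Finset.Subset.antisymm
      · exact Finset.filter_subset_filter _ hKA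
      · intro X hX
        exact Finset.mem_filter.2 ⟨(Finset.mem_filter.1 hvK).2.1 hX, (Finset.mem_filter.1 hX).2⟩
    rw [hatK]
    by_cases hvi : v ∈ fcVi A H
    · have hvb : v ∉ fcVb A H := Finset.disjoint_left.1 (fc_disj A H) hvi
      rw [fc_supply_const (a := 1) (fun X hX => by
        unfold fcW
        rw [if_pos ((Finset.mem_filter.1 hvi).2.1 hX)])]
      unfold fcD
      rw [if_pos hvi, if_neg hvb, if_pos hvK, if_neg hvKb, if_neg hvb, if_pos hvi]
      rcases Nat.eq_zero_or_pos (fcN s v (at_ A v)) with h0 | h0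
      · have e1 : (fcS s v (at_ A v) : ℝ) = ((at_ A v).card : ℝ) := by
          exact_mod_cast (by omega : fcS s v (at_ A v) = (at_ A v).card)
        rw [e1]
        linarith
      · have e1 := q2 h0
        have e2 : (fcS s v (at_ A v) : ℝ) = 2 := by
          exact_mod_cast (by omega : fcS s v (at_ A v) = 2)
        have e3 : ((at_ A v).card : ℝ) = 3 := by exact_mod_cast e1
        rw [e2, e3]
        norm_num
    · have hvb : v ∈ fcVb A H := by
        have := fc_union A H ▸ hvH
        exact (Finset.mem_union.1 this).resolve_left hvi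
      obtain ⟨hu1, hd1⟩ := fc_at_union hHA v
      have hJ : ∀ X ∈ at_ A v \ H, fcW A H X = 1 / 2 := by
        intro X hX
        obtain ⟨hX1, hX2⟩ := Finset.mem_sdiff.1 hX
        obtain ⟨hXA, hvX⟩ := Finset.mem_filter.1 hX1
        obtain ⟨-, -, Y, hY, hvY⟩ := Finset.mem_filter.1 hvb
        have ht : X ∈ tch A H :=
          Finset.mem_filter.2 ⟨hXA, v, hvX, fin_mem_un.2 ⟨Y, hY, hvY⟩⟩
        unfold fcW
        rw [if_neg hX2, if_pos ht]
      have hI : ∀ X ∈ at_ H v, fcW A H X = 1 := by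
        intro X hX
        unfold fcW
        rw [if_pos (Finset.mem_filter.1 hX).1]
      have e0 : ∑ X ∈ at_ A v, (if s X v then fcW A H X else 0) =
          1 * fcS s v (at_ H v) + 1 / 2 * fcS s v (at_ A v \ H) := by
        conv_lhs => rw [hu1]
        rw [Finset.sum_union hd1, fc_supply_const hI, fc_supply_const hJ]
      rw [e0]
      have c1 : (at_ A v).card = (at_ H v).card + (at_ A v \ H).card := by
        conv_lhs => rw [hu1]
        exact Finset.card_union_of_disjoint hd1
      have c2 : fcN s v (at_ A v) = fcN s v (at_ H v) + fcN s v (at_ A v \ H) := by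
        conv_lhs => rw [hu1]
        exact fc_N_union s v hd1
      have c3 := fc_SN s v (at_ H v)
      have c4 := fc_SN s v (at_ A v \ H)
      unfold fcD
      rw [if_neg hvi, if_pos hvb, if_pos hvK, if_neg hvKb, if_pos hvb, if_neg hvi]
      have c1' : ((at_ A v).card : ℝ) = (at_ H v).card + (at_ A v \ H).card := by
        exact_mod_cast c1
      have c3' : (fcS s v (at_ H v) : ℝ) + fcN s v (at_ H v) = (at_ H v).card := by
        exact_mod_cast c3
      have c4' : (fcS s v (at_ A v \ H) : ℝ) + fcN s v (at_ A v \ H) = (at_ A v \ H).card := by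
        exact_mod_cast c4
      rcases Nat.eq_zero_or_pos (fcN s v (at_ A v)) with h0 | h0
      · have e1 : (fcN s v (at_ H v) : ℝ) = 0 := by
          exact_mod_cast (by omega : fcN s v (at_ H v) = 0)
        have e2 : (fcN s v (at_ A v \ H) : ℝ) = 0 := by
          exact_mod_cast (by omega : fcN s v (at_ A v \ H) = 0)
        linarith
      · have e3 : ((at_ A v).card : ℝ) = 3 := by exact_mod_cast q2 h0
        have e4 : (fcN s v (at_ H v) : ℝ) + fcN s v (at_ A v \ H) ≤ 1 := by
          exact_mod_cast (by omega : fcN s v (at_ H v) + fcN s v (at_ A v \ H) ≤ 1)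
        have e5 : (0 : ℝ) ≤ fcN s v (at_ A v \ H) := Nat.cast_nonneg _
        linarith
  · have hvi : v ∉ fcVi A H := fun h => hvH (fc_union A H ▸ Finset.mem_union_left _ h)
    have hvb : v ∉ fcVb A H := fun h => hvH (fc_union A H ▸ Finset.mem_union_right _ h)
    have hnH : ∀ X ∈ at_ A v, X ∉ H := by
      intro X hX hXH
      exact hvH (Finset.mem_filter.2 ⟨hv, X, hXH, (Finset.mem_filter.1 hX).2⟩)
    have hpos : 0 ≤ ∑ X ∈ at_ K v, (if s X v then fcW A H X else 0) := by
      refine Finset.sum_nonneg fun X _ => ?_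
      split_ifs
      · exact le_trans (by norm_num) (fcW_nonneg A H X)
      · exact le_rfl
    unfold fcD
    rw [if_neg hvi, if_neg hvb, if_neg hvb, if_neg hvi]
    by_cases hvK : v ∈ fcVi A K
    · have hvKb : v ∉ fcVb A K := Finset.disjoint_left.1 (fc_disj A K) hvK
      have hatK : at_ K v = at_ A v := by
        apply Finset.Subset.antisymm
        · exact Finset.filter_subset_filter _ hKA
        · intro X hX
          exact Finset.mem_filter.2 ⟨(Finset.mem_filter.1 hvK).2.1 hX, (Finset.mem_filter.1 hX).2⟩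
      rw [if_pos hvK, if_neg hvKb]
      have e0 := fc_supply_ge (s := s) (v := v) (P := at_ K v) (w := fcW A H) (a := 1 / 3)
        (fun X _ => fcW_nonneg A H X)
      rw [hatK] at e0 ⊢
      have hsn' : (fcS s v (at_ A v) : ℝ) + fcN s v (at_ A v) = (at_ A v).card := by
        exact_mod_cast hsn
      rcases Nat.eq_zero_or_pos (fcN s v (at_ A v)) with h0 | h0
      · have e1 : (fcN s v (at_ A v) : ℝ) = 0 := by exact_mod_cast h0
        linarith
      · have e3 : ((at_ A v).card : ℝ) = 3 := by exact_mod_cast q2 h0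
        have e4 : (fcN s v (at_ A v) : ℝ) ≤ 1 := by exact_mod_cast q1
        linarith
    · rw [if_neg hvK]
      by_cases hvKb : v ∈ fcVb A K
      · rw [if_pos hvKb]
        obtain ⟨-, hnK, -⟩ := Finset.mem_filter.1 hvKb
        by_cases hI1 : (at_ K v).card ≤ 1
        · have : ((at_ K v).card : ℝ) ≤ 1 := by exact_mod_cast hI1
          linarith
        · have hI2 : 2 ≤ (at_ K v).card := by omega
          have htt : 2 ≤ (at_ (tch A H \ H) v).card :=
            all_twoT A C H hL' v (rec_VF hv) hnK hI2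
          -- the tiles of `K` at `v` touching `H`
          have hNK : at_ (tch A H \ H) v ⊆ at_ K v := by
            intro X hX
            obtain ⟨h4, h5⟩ := Finset.mem_filter.1 hX
            exact Finset.mem_filter.2 ⟨s3 (Finset.mem_sdiff.1 h4).1, h5⟩
          set N := at_ (tch A H \ H) v with hN
          set E := at_ K v \ N with hE
          have hKu : at_ K v = N ∪ E := (Finset.union_sdiff_of_subset hNK).symm
          have hdis : Disjoint N E := Finset.disjoint_sdiff
          have wN : ∀ X ∈ N, fcW A H X = 1 / 2 := by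
            intro X hX
            obtain ⟨h4, h5⟩ := Finset.mem_filter.1 hX
            obtain ⟨h6, h7⟩ := Finset.mem_sdiff.1 h4
            unfold fcW
            rw [if_neg h7, if_pos h6]
          have e0 : 1 / 2 * (fcS s v N : ℝ) + 1 / 3 * fcS s v E ≤
              ∑ X ∈ at_ K v, (if s X v then fcW A H X else 0) := by
            conv_rhs => rw [hKu]
            rw [Finset.sum_union hdis, fc_supply_const wN]
            have := fc_supply_ge (s := s) (v := v) (P := E) (w := fcW A H) (a := 1 / 3)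
              (fun X _ => fcW_nonneg A H X)
            linarith
          have c1 : (at_ K v).card = N.card + E.card := by
            conv_lhs => rw [hKu]
            exact Finset.card_union_of_disjoint hdis
          have c2 : fcN s v (at_ K v) = fcN s v N + fcN s v E := by
            conv_lhs => rw [hKu]
            exact fc_N_union s v hdis
          have hKs : at_ K v ⊆ at_ A v := Finset.filter_subset_filter _ hKA
          have c5 : fcN s v (at_ K v) ≤ fcN s v (at_ A v) := fc_N_mono s v hKs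
          have c6 : (at_ K v).card < (at_ A v).card := by
            apply Finset.card_lt_card
            refine ⟨hKs, fun h => hnK fun X hX => (Finset.mem_filter.1 (h hX)).1⟩
          have c3 := fc_SN s v N
          have c4 := fc_SN s v E
          have c1' : ((at_ K v).card : ℝ) = N.card + E.card := by exact_mod_cast c1
          have c3' : (fcS s v N : ℝ) + fcN s v N = N.card := by exact_mod_cast c3
          have c4' : (fcS s v E : ℝ) + fcN s v E = E.card := by exact_mod_cast c4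
          rcases Nat.eq_zero_or_pos (fcN s v (at_ A v)) with h0 | h0
          · have e1 : (fcN s v N : ℝ) = 0 := by exact_mod_cast (by omega : fcN s v N = 0)
            have e2 : (fcN s v E : ℝ) = 0 := by exact_mod_cast (by omega : fcN s v E = 0)
            have e3 : (E.card : ℝ) ≤ 2 := by exact_mod_cast (by omega : E.card ≤ 2)
            linarith
          · have e3 := q2 h0
            have e4 : (E.card : ℝ) = 0 := by exact_mod_cast (by omega : E.card = 0)
            have e5 : (fcN s v N : ℝ) ≤ 1 := by exact_mod_cast (by omega : fcN s v N ≤ 1)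
            have e6 : (fcN s v E : ℝ) = 0 := by
              exact_mod_cast (by omega : fcN s v E = 0)
            linarith
      · rw [if_neg hvKb]
        linarith

theorem fc_sum_mem {A : Finset (Set ℂ)} {W : Finset ℂ} (h : W ⊆ VF A) (f : ℂ → ℝ) :
    ∑ v ∈ VF A, (if v ∈ W then f v else 0) = ∑ v ∈ W, f v := by
  rw [Finset.sum_ite_mem, Finset.inter_eq_right.2 h]

theorem fc_Vi_sub (A S : Finset (Set ℂ)) : fcVi A S ⊆ VF A := Finset.filter_subset _ _

theorem fc_Vb_sub (A S : Finset (Set ℂ)) : fcVb A S ⊆ VF A := Finset.filter_subset _ _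

theorem fcD_sum (A H K : Finset (Set ℂ)) : ∑ v ∈ VF A, fcD A H K v =
    ∑ v ∈ fcVi A H, (((at_ A v).card : ℝ) - 2) + ∑ v ∈ fcVb A H, (((at_ H v).card : ℝ) - 1) +
    1 / 2 * (∑ v ∈ fcVi A K, (((at_ A v).card : ℝ) - 2) +
      ∑ v ∈ fcVb A K, (((at_ K v).card : ℝ) - 1)) +
    1 / 2 * ∑ v ∈ fcVb A H, (((at_ A v \ H).card : ℝ) - 1) + 1 / 2 * ((fcVi A H).card : ℝ) := by
  unfold fcD
  rw [Finset.sum_add_distrib, Finset.sum_add_distrib, Finset.sum_add_distrib,
    Finset.sum_add_distrib, ← Finset.mul_sum, ← Finset.mul_sum, ← Finset.mul_sum,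
    Finset.sum_add_distrib, fc_sum_mem (fc_Vi_sub A H), fc_sum_mem (fc_Vb_sub A H),
    fc_sum_mem (fc_Vi_sub A K), fc_sum_mem (fc_Vb_sub A K), fc_sum_mem (fc_Vb_sub A H),
    fc_sum_mem (fc_Vi_sub A H)]
  simp

theorem fc_wsum {A B C S : Finset (Set ℂ)} {s : Set ℂ → ℂ → Prop} {m : ℕ} (hc : FcCtx A s m)
    (hL' : Lev A C (hull A B S)) {T : Set ℂ} (hT : T ∈ hull A B S) :
    ∑ X ∈ hull A C (hull A B S), fcW A (hull A B S) X * (fcC A s X : ℝ) ≤
      m * (((hull A B S).card : ℝ) - 1) + fcC A s T +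
      m / 2 * ((tch A (hull A B S) \ hull A B S).card : ℝ) +
      m / 3 * ((hull A C (hull A B S) \
        (hull A B S ∪ (tch A (hull A B S) \ hull A B S))).card : ℝ) := by
  obtain ⟨s1, s2, s3, -⟩ := all_hull A C _ hL'
  have hHA : hull A B S ⊆ A := hL'.subS.trans hL'.sub
  set H := hull A B S with hH
  set K := hull A C H with hK
  have hKA : K ⊆ A := s2.trans hL'.sub
  have hsub : H ∪ (tch A H \ H) ⊆ K := Finset.union_subset s1 (Finset.sdiff_subset.trans s3)
  have hcm : ∀ X ∈ A, (fcC A s X : ℝ) ≤ m := fun X hX => by exact_mod_cast fc_few hc hX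
  rw [← Finset.sum_sdiff hsub, Finset.sum_union Finset.disjoint_sdiff]
  have e1 : ∑ X ∈ K \ (H ∪ (tch A H \ H)), fcW A H X * (fcC A s X : ℝ) ≤
      m / 3 * ((K \ (H ∪ (tch A H \ H))).card : ℝ) := by
    have : (m : ℝ) / 3 * ((K \ (H ∪ (tch A H \ H))).card : ℝ) =
        ∑ X ∈ K \ (H ∪ (tch A H \ H)), (m : ℝ) / 3 := by
      rw [Finset.sum_const, nsmul_eq_mul, mul_comm]
    rw [this]
    refine Finset.sum_le_sum fun X hX => ?_
    obtain ⟨h1, h2⟩ := Finset.mem_sdiff.1 hX
    have h3 : X ∉ H := fun h => h2 (Finset.mem_union_left _ h)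
    have h4 : X ∉ tch A H := fun h => h2 (Finset.mem_union_right _ (Finset.mem_sdiff.2 ⟨h, h3⟩))
    unfold fcW
    rw [if_neg h3, if_neg h4]
    have := hcm X (hKA h1)
    linarith
  have e2 : ∑ X ∈ tch A H \ H, fcW A H X * (fcC A s X : ℝ) ≤
      m / 2 * ((tch A H \ H).card : ℝ) := by
    have : (m : ℝ) / 2 * ((tch A H \ H).card : ℝ) = ∑ X ∈ tch A H \ H, (m : ℝ) / 2 := by
      rw [Finset.sum_const, nsmul_eq_mul, mul_comm]
    rw [this]
    refine Finset.sum_le_sum fun X hX => ?_
    obtain ⟨h1, h2⟩ := Finset.mem_sdiff.1 hX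
    unfold fcW
    rw [if_neg h2, if_pos h1]
    have := hcm X (hKA (s3 h1))
    linarith
  have e3 : ∑ X ∈ H, fcW A H X * (fcC A s X : ℝ) ≤ m * ((H.card : ℝ) - 1) + fcC A s T := by
    rw [← Finset.sum_erase_add _ _ hT]
    have h5 : ((H.erase T).card : ℝ) = H.card - 1 := by
      rw [Finset.card_erase_of_mem hT, Nat.cast_sub (Finset.card_pos.2 ⟨T, hT⟩), Nat.cast_one]
    have : (m : ℝ) * ((H.card : ℝ) - 1) = ∑ X ∈ H.erase T, (m : ℝ) := by
      rw [Finset.sum_const, nsmul_eq_mul, h5, mul_comm]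
    rw [this]
    have h6 : fcW A H T * (fcC A s T : ℝ) = fcC A s T := by
      unfold fcW
      rw [if_pos hT, one_mul]
    rw [h6]
    refine add_le_add (Finset.sum_le_sum fun X hX => ?_) le_rfl
    have h7 := Finset.mem_of_mem_erase hX
    unfold fcW
    rw [if_pos h7, one_mul]
    exact hcm X (hHA h7)
  linarith

theorem fcThree_count {A B C S : Finset (Set ℂ)} {s : Set ℂ → ℂ → Prop} (hc : FcCtx A s 3)
    (h3 : FcV3 A s) (hL : Lev A B S)
    (hL' : Lev A C (hull A B S)) {T : Set ℂ} (hT : T ∈ hull A B S) :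
    (fcVi A (hull A B S)).card ≤ 2 * fcC A s T := by
  have e1 := Finset.sum_le_sum (fun v hv => fcThree_demand (v := v) h3 hL' hv)
  rw [fcD_sum] at e1
  have hKA : hull A C (hull A B S) ⊆ A := (all_hull A C _ hL').2.1.trans hL'.sub
  rw [fc_swap A (hull A C (hull A B S)) (fcW A (hull A B S)) (fun X v => s X v)] at e1
  have e2 := fc_wsum hc hL' hT
  have e3 := fc_eulH hL
  have e4 := fc_eulH hL'
  have e5 := fc_out hL
  have e6 := fc_hull_card hL'
  have e7 : ∑ X ∈ hull A C (hull A B S), fcW A (hull A B S) X *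
      (((VF A).filter (fun v => v ∈ X ∧ s X v)).card : ℝ) =
      ∑ X ∈ hull A C (hull A B S), fcW A (hull A B S) X * (fcC A s X : ℝ) := rfl
  rw [e7] at e1
  push_cast at e2
  have e8 : ((fcVi A (hull A B S)).card : ℝ) ≤ 2 * fcC A s T := by linarith
  exact_mod_cast e8

/-- The levels of a surrounding of order five. -/
structure FcLevels (A : ℕ → Finset (Set ℂ)) (T : Set ℂ) : Prop where
  l0 : Lev (A 5) (A 1) {T}
  l1 : Lev (A 5) (A 2) (hull (A 5) (A 1) {T})
  l2 : Lev (A 5) (A 3) (hull (A 5) (A 2) (hull (A 5) (A 1) {T}))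
  l3 : Lev (A 5) (A 4) (hull (A 5) (A 3) (hull (A 5) (A 2) (hull (A 5) (A 1) {T})))

theorem fc_levels {T : Set ℂ} (hT : IsDisk T) {A : ℕ → Finset (Set ℂ)} (hA0 : A 0 = {T})
    (hP : ∀ i, 1 ≤ i → i ≤ 5 → IsPatch T (A i))
    (hS : ∀ i, i < 5 → SurroundedBy (A i) (A (i + 1))) : FcLevels A T := by
  have hch := fc_chain hT hA0 hP hS (by norm_num)
  have l0 := (hch 0 (by norm_num)).2.2.2 (by norm_num)
  have l1 := (hch 1 (by norm_num)).2.2.2 (by norm_num)
  have l2 := (hch 2 (by norm_num)).2.2.2 (by norm_num)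
  have l3 := (hch 3 (by norm_num)).2.2.2 (by norm_num)
  have e0 : lv A 5 0 = {T} := hA0
  have e1 : lv A 5 1 = hull (A 5) (A 1) {T} := by
    show hull (A 5) (A 1) (lv A 5 0) = _
    rw [e0]
  have e2 : lv A 5 2 = hull (A 5) (A 2) (hull (A 5) (A 1) {T}) := by
    show hull (A 5) (A 2) (lv A 5 1) = _
    rw [e1]
  have e3 : lv A 5 3 = hull (A 5) (A 3) (hull (A 5) (A 2) (hull (A 5) (A 1) {T})) := by
    show hull (A 5) (A 3) (lv A 5 2) = _
    rw [e2]
  rw [e0] at l0
  rw [e1] at l1
  rw [e2] at l2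
  rw [e3] at l3
  exact ⟨l0, l1, l2, l3⟩

theorem fc_mem {A B S : Finset (Set ℂ)} (hL : Lev A B S) {T : Set ℂ} (hT : T ∈ S) :
    T ∈ hull A B S := (all_hull A B S hL).1 hT

/-- Row 3: at most three sharp points. -/
theorem fcThree {T : Set ℂ} {A : ℕ → Finset (Set ℂ)} (hl : FcLevels A T)
    {s : Set ℂ → ℂ → Prop} (hc : FcCtx (A 5) s 3) (h3 : FcV3 (A 5) s) : False := by
  obtain ⟨l0, l1, l2, l3⟩ := hl
  have t0 : T ∈ ({T} : Finset (Set ℂ)) := Finset.mem_singleton_self T
  have t3 := fc_mem l2 (fc_mem l1 (fc_mem l0 t0))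
  have c1 := fcThree_count hc h3 l2 l3 t3
  have c2 := Finset.card_le_card (fc_sub l2)
  have c3 := fc_grow l0
  have c4 := fc_grow l1
  have hTB : T ∈ A 1 := l0.subS t0
  have c5 := fc_start l0.fam (l0.inn T hTB)
  have c6 := fc_few hc (l0.sub hTB)
  have c7 : fcC (A 5) s T ≤ (fcV (A 5) {T}).card := by
    refine Finset.card_le_card fun v hv => ?_
    obtain ⟨h4, h5, -⟩ := Finset.mem_filter.1 hv
    exact Finset.mem_filter.2 ⟨h4, T, t0, h5⟩
  omega

end Pool.Agent.Hsh
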