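import Pool.Agent.Hsh.Up
import Pool.Agent.Hsh.FcThree

set_option autoImplicit false

/-!
# Weights on the frontier: prototiles which cannot be surrounded twice
-/

namespace Pool.Agent.Hsh

open Set Metric MeasureTheory Filter Topology Classical

/-- A finite multiset of at least three frontier points of `T` whose lower densities have sum at most
`1` and whose upper densities have sum at least `1`. For the points of the copies of `T` meeting at a
vertex this holds; for polygons it says that the sum of the interior angles is `2 * π`. -/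
def VType (T : Set ℂ) (M : Multiset ℂ) : Prop :=
  (∀ q ∈ M, q ∈ frontier T) ∧ 3 ≤ Multiset.card M ∧ (M.map (lowDens T)).sum ≤ 1 ∧
    1 ≤ (M.map (upDens T)).sum

/-- The family with a weight on the prototile. -/
structure WCtx (A : Finset (Set ℂ)) (T : Set ℂ) (y : ℂ → ℝ) (g : Set ℂ → ℂ ≃ᵢ ℂ) : Prop where
  fam : Fam A
  copy : ∀ X ∈ A, X = g X '' T
  nonneg : ∀ q ∈ frontier T, 0 ≤ y q

theorem w_front {A : Finset (Set ℂ)} {T : Set ℂ} {y : ℂ → ℝ} {g : Set ℂ → ℂ ≃ᵢ ℂ}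
    (h : WCtx A T y g) {X : Set ℂ} (hX : X ∈ A) {v : ℂ} (hv : v ∈ VF A) (hvX : v ∈ X) :
    (g X).symm v ∈ frontier T := by
  have h1 := fc_frontier h.fam hv hX hvX
  have h2 : frontier X = g X '' frontier T := by
    conv_lhs => rw [h.copy X hX]
    exact ((g X).toHomeomorph.image_frontier T).symm
  rw [h2] at h1
  obtain ⟨z, hz, rfl⟩ := h1
  rw [(g X).symm_apply_apply]
  exact hz

/-- the multiset of the points of the prototile at a vertex -/
theorem w_type {A : Finset (Set ℂ)} {T : Set ℂ} {y : ℂ → ℝ} {g : Set ℂ → ℂ ≃ᵢ ℂ}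
    (h : WCtx A T y g) {v : ℂ} (hv : v ∈ VF A) :
    VType T ((at_ A v).val.map fun X => (g X).symm v) := by
  have hvx := rec_VF hv
  refine ⟨?_, ?_, ?_, ?_⟩
  · intro q hq
    obtain ⟨X, hX, rfl⟩ := Multiset.mem_map.1 hq
    have hX' : X ∈ at_ A v := hX
    obtain ⟨h1, h2⟩ := Finset.mem_filter.1 hX'
    exact w_front h h1 hv h2
  · rw [Multiset.card_map]
    exact hvx.2
  · rw [Multiset.map_map]
    have h1 : ∑ X ∈ at_ A v, lowDens X v ≤ 1 := by
      refine le_trans ?_ (all_dens.1 A h.fam v)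
      exact Finset.sum_le_sum_of_subset_of_nonneg (Finset.filter_subset _ _)
        fun X _ _ => (all_dens.2.1 X v).1
    refine le_trans (le_of_eq ?_) h1
    show ∑ X ∈ at_ A v, (lowDens T ∘ fun X => (g X).symm v) X = _
    refine Finset.sum_congr rfl fun X hX => ?_
    have h2 := all_dens.2.2 (g X) T ((g X).symm v)
    rw [(g X).apply_symm_apply, ← h.copy X (Finset.mem_filter.1 hX).1] at h2
    exact h2.symm
  · rw [Multiset.map_map]
    refine le_trans (up_sum h.fam hvx.1) (le_of_eq ?_)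
    show _ = ∑ X ∈ at_ A v, (upDens T ∘ fun X => (g X).symm v) X
    refine Finset.sum_congr rfl fun X hX => ?_
    have h2 := up_copy (g X) T ((g X).symm v)
    rw [(g X).apply_symm_apply, ← h.copy X (Finset.mem_filter.1 hX).1] at h2
    exact h2

/-- the weight of a tile at most the total weight -/
theorem w_tile {A : Finset (Set ℂ)} {T : Set ℂ} {y : ℂ → ℝ} {g : Set ℂ → ℂ ≃ᵢ ℂ}
    (h : WCtx A T y g) {c : ℝ} (hc : ∀ F : Finset ℂ, (↑F : Set ℂ) ⊆ frontier T →
      ∑ q ∈ F, y q ≤ c) {X : Set ℂ} (hX : X ∈ A) :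
    ∑ v ∈ (VF A).filter (fun v => v ∈ X), y ((g X).symm v) ≤ c := by
  have h1 := hc (((VF A).filter (fun v => v ∈ X)).image (g X).symm) (by
    intro q hq
    obtain ⟨v, hv, rfl⟩ := Finset.mem_image.1 (Finset.mem_coe.1 hq)
    obtain ⟨h2, h3⟩ := Finset.mem_filter.1 hv
    exact w_front h hX h2 h3)
  rwa [Finset.sum_image fun a _ b _ hab => (g X).symm.injective hab] at h1

/-- changing the order of summation -/
theorem w_swap {A : Finset (Set ℂ)} {T : Set ℂ} {y : ℂ → ℝ} {g : Set ℂ → ℂ ≃ᵢ ℂ}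
    (h : WCtx A T y g) {P : Finset (Set ℂ)} (hP : P ⊆ A) {W : Finset ℂ} (hW : W ⊆ VF A)
    {Q : ℂ → Finset (Set ℂ)} (hQ : ∀ v ∈ W, Q v ⊆ at_ P v) :
    ∑ v ∈ W, ∑ X ∈ Q v, y ((g X).symm v) ≤
      ∑ X ∈ P, ∑ v ∈ (VF A).filter (fun v => v ∈ X), y ((g X).symm v) := by
  have hnn : ∀ v ∈ VF A, ∀ X ∈ at_ P v, 0 ≤ y ((g X).symm v) := by
    intro v hv X hX
    obtain ⟨h1, h2⟩ := Finset.mem_filter.1 hX
    exact h.nonneg _ (w_front h (hP h1) hv h2)
  have h1 : ∑ v ∈ W, ∑ X ∈ Q v, y ((g X).symm v) ≤ ∑ v ∈ W, ∑ X ∈ at_ P v, y ((g X).symm v) :=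
    Finset.sum_le_sum fun v hv => Finset.sum_le_sum_of_subset_of_nonneg (hQ v hv)
      fun X hX _ => hnn v (hW hv) X hX
  have h2 : ∑ v ∈ W, ∑ X ∈ at_ P v, y ((g X).symm v) ≤
      ∑ v ∈ VF A, ∑ X ∈ at_ P v, y ((g X).symm v) :=
    Finset.sum_le_sum_of_subset_of_nonneg hW fun v hv _ => Finset.sum_nonneg fun X hX =>
      hnn v hv X hX
  refine (h1.trans h2).trans (le_of_eq ?_)
  unfold at_
  simp_rw [Finset.sum_filter]
  exact Finset.sum_comm

/-- First case: total weight at most one. -/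
theorem w_one {A B : Finset (Set ℂ)} {T : Set ℂ} (hL : Lev A B {T}) {y : ℂ → ℝ}
    {g : Set ℂ → ℂ ≃ᵢ ℂ} (h : WCtx A T y g)
    (hc : ∀ F : Finset ℂ, (↑F : Set ℂ) ⊆ frontier T → ∑ q ∈ F, y q ≤ 1)
    (hM : ∀ M : Multiset ℂ, VType T M → (Multiset.card M : ℝ) - 2 ≤ (M.map y).sum) : False := by
  obtain ⟨s1, s2, s3, -⟩ := all_hull A B _ hL
  have hin := hL.inn T (hL.subS (Finset.mem_singleton_self T))
  have c1 := all_three A hL.fam T hin
  have c2 : (tch A {T}).card ≤ (hull A B {T}).card := Finset.card_le_card s3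
  have e1 := fc_eulH hL
  have e2 := fc_out hL
  set H := hull A B {T} with hH
  have hHA : H ⊆ A := s2.trans hL.sub
  have hHt : H ⊆ tch A H := by
    intro X hX
    obtain ⟨x, hx⟩ := hull_nonempty (hL.fam.disk X (hHA hX))
    exact Finset.mem_filter.2 ⟨hHA hX, x, hx, fin_mem_un.2 ⟨X, hX, hx⟩⟩
  have c3 : (H.card : ℝ) + (tch A H \ H).card = (tch A H).card := by
    have := Finset.card_sdiff_add_card_eq_card hHt
    have h' : ((tch A H \ H).card : ℝ) + (H.card : ℝ) = (tch A H).card := by exact_mod_cast this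
    linarith
  have e3 := w_swap (W := fcV A H) (Q := fun v => at_ A v) h (P := tch A H)
    (Finset.filter_subset _ _) (Finset.filter_subset _ _) (by
      intro v hv X hX
      obtain ⟨-, Y, hY, hvY⟩ := Finset.mem_filter.1 hv
      obtain ⟨hXA, hvX⟩ := Finset.mem_filter.1 hX
      exact Finset.mem_filter.2 ⟨Finset.mem_filter.2 ⟨hXA, v, hvX,
        fin_mem_un.2 ⟨Y, hY, hvY⟩⟩, hvX⟩)
  have e4 : ∑ X ∈ tch A H, ∑ v ∈ (VF A).filter (fun v => v ∈ X), y ((g X).symm v) ≤
      ((tch A H).card : ℝ) := by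
    have : ((tch A H).card : ℝ) = ∑ X ∈ tch A H, (1 : ℝ) := by
      rw [Finset.sum_const, nsmul_eq_mul, mul_one]
    rw [this]
    exact Finset.sum_le_sum fun X hX => w_tile h hc (Finset.mem_filter.1 hX).1
  have e0 : ∀ v ∈ VF A, ((at_ A v).card : ℝ) - 2 ≤ ∑ X ∈ at_ A v, y ((g X).symm v) := by
    intro v hv
    have := hM _ (w_type h hv)
    rw [Multiset.card_map, Multiset.map_map] at this
    exact this
  rw [← fc_union, Finset.sum_union (fc_disj A H)] at e3
  have e5 : ∑ v ∈ fcVi A H, (((at_ A v).card : ℝ) - 2) ≤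
      ∑ v ∈ fcVi A H, ∑ X ∈ at_ A v, y ((g X).symm v) :=
    Finset.sum_le_sum fun v hv => e0 v (Finset.filter_subset _ _ hv)
  have e6 : ∑ v ∈ fcVb A H, (((at_ H v).card : ℝ) - 1) +
      ∑ v ∈ fcVb A H, (((at_ A v \ H).card : ℝ) - 1) ≤
      ∑ v ∈ fcVb A H, ∑ X ∈ at_ A v, y ((g X).symm v) := by
    rw [← Finset.sum_add_distrib]
    refine Finset.sum_le_sum fun v hv => ?_
    have h4 := e0 v (Finset.filter_subset _ _ hv)
    have h8 : (at_ A v).card = (at_ H v).card + (at_ A v \ H).card := by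
      have h3 : (at_ A v ∩ H) = at_ H v := by
        ext Y
        simp only [at_, Finset.mem_inter, Finset.mem_filter]
        constructor
        · rintro ⟨⟨_, h4⟩, h5⟩
          exact ⟨h5, h4⟩
        · rintro ⟨h4, h5⟩
          exact ⟨⟨hHA h4, h5⟩, h4⟩
      rw [← h3]
      exact (Finset.card_inter_add_card_sdiff (at_ A v) H).symm
    have h9 : ((at_ A v).card : ℝ) = (at_ H v).card + (at_ A v \ H).card := by exact_mod_cast h8
    linarith
  have e7 : (3 : ℝ) ≤ H.card := by exact_mod_cast c1.trans c2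
  linarith

/-- Second case: total weight at most two, every proper part of a vertex type has enough weight, and
at most one point has weight at least one. -/
theorem w_two {A B : Finset (Set ℂ)} {T : Set ℂ} (hL : Lev A B {T}) {y : ℂ → ℝ}
    {g : Set ℂ → ℂ ≃ᵢ ℂ} (h : WCtx A T y g)
    (hc : ∀ F : Finset ℂ, (↑F : Set ℂ) ⊆ frontier T → ∑ q ∈ F, y q ≤ 2)
    (hM : ∀ M : Multiset ℂ, VType T M → ∀ I < M, (Multiset.card I : ℝ) - 1 ≤ (I.map y).sum)
    (h1 : ∀ p ∈ frontier T, ∀ q ∈ frontier T, 1 ≤ y p → 1 ≤ y q → p = q) : False := by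
  obtain ⟨s1, s2, s3, s4⟩ := all_hull A B _ hL
  have e1 := fc_eulH hL
  have hsub := fc_sub hL
  have hTH : T ∈ hull A B {T} := fc_mem hL (Finset.mem_singleton_self T)
  have hout := all_outTwo A B _ hL
  obtain ⟨X₀, hX₀, Y, hY, hYH, hadj⟩ := all_open A hL.fam (hull A B {T}) (s2.trans hL.sub)
    (hL.neS.mono s1) (fun X hX => hL.inn X (s2 hX))
  set H := hull A B {T} with hH
  have hHA : H ⊆ A := s2.trans hL.sub
  -- proper parts
  have e0 : ∀ v ∈ VF A, ∀ P : Finset (Set ℂ), P ⊆ at_ A v → P ≠ at_ A v →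
      (P.card : ℝ) - 1 ≤ ∑ X ∈ P, y ((g X).symm v) := by
    intro v hv P hP hne
    have hlt : P.val.map (fun X => (g X).symm v) < (at_ A v).val.map fun X => (g X).symm v := by
      refine lt_of_le_of_ne (Multiset.map_le_map (Finset.val_le_iff.2 hP)) fun heq => ?_
      have h2 := congrArg Multiset.card heq
      rw [Multiset.card_map, Multiset.card_map] at h2
      exact hne (Finset.eq_of_subset_of_card_le hP (le_of_eq h2.symm))
    have h2 := hM _ (w_type h hv) _ hlt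
    rw [Multiset.card_map, Multiset.map_map] at h2
    exact h2
  -- a boundary vertex at which the inequality is strict
  obtain ⟨u, hu, hus⟩ : ∃ u ∈ fcVb A H, ((at_ H u).card : ℝ) - 1 <
      ∑ X ∈ at_ H u, y ((g X).symm u) := by
    have key : ∀ v₀ : ℂ, ∃ u ∈ VF A, u ≠ v₀ ∧ u ∈ Y ∧ (∃ X ∈ H, u ∈ X) ∧
        ∃ Z ∈ A, Z ∉ H ∧ Z ≠ Y ∧ u ∈ Z := by
      intro v₀
      obtain ⟨u, hu, h2⟩ := hout Y hY hYH ⟨X₀, hX₀, hadj⟩ v₀
      exact ⟨u, (fc_VF hL.fam).2 hu, h2⟩
    have fin : ∀ u ∈ VF A, u ∈ Y → (∃ X ∈ H, u ∈ X) → (∃ Z ∈ A, Z ∉ H ∧ Z ≠ Y ∧ u ∈ Z) →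
        y ((g Y).symm u) < 1 → ∃ u ∈ fcVb A H, ((at_ H u).card : ℝ) - 1 <
          ∑ X ∈ at_ H u, y ((g X).symm u) := by
      intro u hu huY hX hZ hlt
      obtain ⟨Z, hZA, hZH, hZY, huZ⟩ := hZ
      have hYa : Y ∈ at_ A u := Finset.mem_filter.2 ⟨hY, huY⟩
      have hZa : Z ∈ at_ A u := Finset.mem_filter.2 ⟨hZA, huZ⟩
      refine ⟨u, Finset.mem_filter.2 ⟨hu, fun hs => hYH (hs hYa), hX⟩, ?_⟩
      have hYn : Y ∉ at_ H u := fun hs => hYH (Finset.mem_filter.1 hs).1
      have h2 := e0 u hu (insert Y (at_ H u))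
        (Finset.insert_subset hYa (Finset.filter_subset_filter _ hHA)) (by
          intro heq
          rw [← heq] at hZa
          rcases Finset.mem_insert.1 hZa with h3 | h3
          · exact hZY h3
          · exact hZH (Finset.mem_filter.1 h3).1)
      rw [Finset.card_insert_of_notMem hYn, Finset.sum_insert hYn] at h2
      push_cast at h2
      linarith
    obtain ⟨u, hu, -, huY, hX, hZ⟩ := key 0
    by_cases hlt : y ((g Y).symm u) < 1
    · exact fin u hu huY hX hZ hlt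
    · obtain ⟨u', hu', hne, huY', hX', hZ'⟩ := key u
      refine fin u' hu' huY' hX' hZ' ?_
      by_contra hlt'
      refine hne ((g Y).symm.injective (h1 _ (w_front h hY hu' huY') _ (w_front h hY hu huY)
        (not_lt.1 hlt') (not_lt.1 hlt)))
  -- the inner vertices
  have e5 : ∑ v ∈ fcVi A H, (((at_ A v).card : ℝ) - 2) ≤
      ∑ v ∈ fcVi A H, ∑ X ∈ (at_ H v).erase T, y ((g X).symm v) := by
    refine Finset.sum_le_sum fun v hv => ?_
    have hvV := Finset.filter_subset _ _ hv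
    have hat : at_ H v = at_ A v := by
      apply Finset.Subset.antisymm (Finset.filter_subset_filter _ hHA)
      intro X hX
      exact Finset.mem_filter.2 ⟨(Finset.mem_filter.1 hv).2.1 hX, (Finset.mem_filter.1 hX).2⟩
    rw [hat]
    by_cases hvT : T ∈ at_ A v
    · have h2 := e0 v hvV ((at_ A v).erase T) (Finset.erase_subset _ _) (fun heq => by
        rw [← heq] at hvT
        exact Finset.notMem_erase T _ hvT)
      rw [Finset.card_erase_of_mem hvT, Nat.cast_sub (Finset.card_pos.2 ⟨T, hvT⟩)] at h2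
      push_cast at h2
      linarith
    · rw [Finset.erase_eq_of_notMem hvT]
      obtain ⟨X, hX⟩ : (at_ A v).Nonempty :=
        Finset.card_pos.1 (lt_of_lt_of_le (by norm_num) (rec_VF hvV).2)
      have h2 := e0 v hvV ((at_ A v).erase X) (Finset.erase_subset _ _) (fun heq => by
        rw [← heq] at hX
        exact Finset.notMem_erase X _ hX)
      rw [Finset.card_erase_of_mem hX, Nat.cast_sub (Finset.card_pos.2 ⟨X, hX⟩)] at h2
      push_cast at h2
      have h3 : ∑ Z ∈ (at_ A v).erase X, y ((g Z).symm v) ≤ ∑ Z ∈ at_ A v, y ((g Z).symm v) := by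
        refine Finset.sum_le_sum_of_subset_of_nonneg (Finset.erase_subset _ _) fun Z hZ _ => ?_
        obtain ⟨h4, h5⟩ := Finset.mem_filter.1 hZ
        exact h.nonneg _ (w_front h h4 hvV h5)
      linarith
  -- the boundary vertices
  have hTb : ∀ v ∈ fcVb A H, T ∉ at_ H v := by
    intro v hv hvT
    have h2 : v ∈ fcVi A H := hsub (Finset.mem_filter.2 ⟨Finset.filter_subset _ _ hv, T,
      Finset.mem_singleton_self T, (Finset.mem_filter.1 hvT).2⟩)
    exact Finset.disjoint_left.1 (fc_disj A H) h2 hv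
  have hprop : ∀ v ∈ fcVb A H, at_ H v ⊆ at_ A v ∧ at_ H v ≠ at_ A v := by
    intro v hv
    refine ⟨Finset.filter_subset_filter _ hHA, fun heq => (Finset.mem_filter.1 hv).2.1 ?_⟩
    intro X hX
    rw [← heq] at hX
    exact (Finset.mem_filter.1 hX).1
  have e6 : ∑ v ∈ fcVb A H, (((at_ H v).card : ℝ) - 1) <
      ∑ v ∈ fcVb A H, ∑ X ∈ (at_ H v).erase T, y ((g X).symm v) := by
    refine Finset.sum_lt_sum (fun v hv => ?_) ⟨u, hu, ?_⟩
    · rw [Finset.erase_eq_of_notMem (hTb v hv)]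
      exact e0 v (Finset.filter_subset _ _ hv) _ (hprop v hv).1 (hprop v hv).2
    · rw [Finset.erase_eq_of_notMem (hTb u hu)]
      exact hus
  have e3 := w_swap (P := H.erase T) (W := fcV A H) (Q := fun v => (at_ H v).erase T) h
    ((Finset.erase_subset _ _).trans hHA) (Finset.filter_subset _ _) (by
      intro v _ X hX
      obtain ⟨h2, h3⟩ := Finset.mem_erase.1 hX
      exact Finset.mem_filter.2 ⟨Finset.mem_erase.2 ⟨h2, (Finset.mem_filter.1 h3).1⟩,
        (Finset.mem_filter.1 h3).2⟩)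
  have e4 : ∑ X ∈ H.erase T, ∑ v ∈ (VF A).filter (fun v => v ∈ X), y ((g X).symm v) ≤
      2 * ((H.card : ℝ) - 1) := by
    have h5 : ((H.erase T).card : ℝ) = H.card - 1 := by
      rw [Finset.card_erase_of_mem hTH, Nat.cast_sub (Finset.card_pos.2 ⟨T, hTH⟩), Nat.cast_one]
    have : 2 * ((H.card : ℝ) - 1) = ∑ X ∈ H.erase T, (2 : ℝ) := by
      rw [Finset.sum_const, nsmul_eq_mul, h5, mul_comm]
    rw [this]
    exact Finset.sum_le_sum fun X hX => w_tile h hc (hHA (Finset.mem_of_mem_erase hX))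
  rw [← fc_union, Finset.sum_union (fc_disj A H)] at e3
  linarith

/-- The theorem on weights. -/
theorem w_main (T : Set ℂ) (hT : IsDisk T) (y : ℂ → ℝ) (hy : ∀ q ∈ frontier T, 0 ≤ y q)
    (hcase : ((∀ F : Finset ℂ, (↑F : Set ℂ) ⊆ frontier T → ∑ q ∈ F, y q ≤ 1) ∧
        ∀ M : Multiset ℂ, VType T M → (Multiset.card M : ℝ) - 2 ≤ (M.map y).sum) ∨
      ((∀ F : Finset ℂ, (↑F : Set ℂ) ⊆ frontier T → ∑ q ∈ F, y q ≤ 2) ∧
        (∀ M : Multiset ℂ, VType T M → ∀ I < M, (Multiset.card I : ℝ) - 1 ≤ (I.map y).sum) ∧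
        ∀ p ∈ frontier T, ∀ q ∈ frontier T, 1 ≤ y p → 1 ≤ y q → p = q)) :
    ¬ CanSurround T 2 := by
  rintro ⟨A, hA0, hP, hS⟩
  have hch := fc_chain hT hA0 hP hS (by norm_num)
  have l0 := (hch 0 (by norm_num)).2.2.2 (by norm_num)
  have e0 : lv A 2 0 = {T} := hA0
  rw [e0] at l0
  have hcp : ∀ X : Set ℂ, ∃ g : ℂ ≃ᵢ ℂ, X ∈ A 2 → X = g '' T := by
    intro X
    by_cases hX : X ∈ A 2
    · obtain ⟨g, hg⟩ := (hP 2 (by norm_num) le_rfl).copy X hX
      exact ⟨g, fun _ => hg⟩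
    · exact ⟨IsometryEquiv.refl ℂ, fun h => absurd h hX⟩
  choose g hg using hcp
  have hctx : WCtx (A 2) T y g := ⟨l0.fam, fun X hX => hg X hX, hy⟩
  rcases hcase with ⟨h1, h2⟩ | ⟨h1, h2, h3⟩
  · exact w_one l0 hctx h1 h2
  · exact w_two l0 hctx h1 h2 h3

end Pool.Agent.Hsh
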