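import Pool.Agent.Hsh.FcFive
import Pool.Agent.Hsh.Wts

set_option autoImplicit false

/-!
# Few sharp corners: the theorem
-/

namespace Pool.Agent.Hsh

open Set Metric MeasureTheory Filter Topology Classical

/-- the relation of the sharp points -/
def FcSh (g : Set ℂ → ℂ ≃ᵢ ℂ) (P : Finset ℂ) (X : Set ℂ) (v : ℂ) : Prop := (g X).symm v ∈ P

theorem fc_ctx {A : Finset (Set ℂ)} {T : Set ℂ} {y : ℂ → ℝ} {g : Set ℂ → ℂ ≃ᵢ ℂ}
    (h : WCtx A T y g) {P : Finset ℂ} {m : ℕ} (hP : P.card ≤ m) : FcCtx A (FcSh g P) m := by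
  refine ⟨h.fam, fun X _ => le_trans ?_ hP⟩
  rw [← Finset.card_image_of_injective _ (g X).symm.injective]
  refine Finset.card_le_card fun q hq => ?_
  obtain ⟨v, hv, rfl⟩ := Finset.mem_image.1 hq
  exact (Finset.mem_filter.1 hv).2.2

/-- the number of tiles which are not sharp at a vertex -/
theorem fc_out_le {A : Finset (Set ℂ)} {g : Set ℂ → ℂ ≃ᵢ ℂ} {P : Finset ℂ} {v : ℂ} {k : ℕ}
    (h : ∀ J ≤ (at_ A v).val.map (fun X => (g X).symm v), (∀ q ∈ J, q ∉ P) →
      Multiset.card J ≤ k) : fcN (FcSh g P) v (at_ A v) ≤ k := by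
  have h1 := h (((at_ A v).filter (fun X => ¬ FcSh g P X v)).val.map (fun X => (g X).symm v))
    (Multiset.map_le_map (Finset.val_le_iff.2 (Finset.filter_subset _ _))) (by
      intro q hq
      obtain ⟨X, hX, rfl⟩ := Multiset.mem_map.1 hq
      have hX' : X ∈ (at_ A v).filter (fun X => ¬ FcSh g P X v) := hX
      exact (Finset.mem_filter.1 hX').2)
  rwa [Multiset.card_map] at h1

/-- The four cases of the theorem. `P` is the finite set of the sharp points, `r` the number of times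
the prototile cannot be surrounded. -/
def FcRow (T : Set ℂ) (P : Finset ℂ) (r : ℕ) : Prop :=
  (P.card ≤ 1 ∧ r = 2 ∧ ∀ M, VType T M →
    ∀ J ≤ M, (∀ q ∈ J, q ∉ P) → Multiset.card J ≤ 2) ∨
  (P.card ≤ 2 ∧ r = 3 ∧ ∀ M, VType T M →
    ∀ J ≤ M, (∀ q ∈ J, q ∉ P) → Multiset.card J ≤ 1) ∨
  (P.card ≤ 3 ∧ r = 5 ∧ ∀ M, VType T M → Multiset.card M ≤ 5 ∧
    (∀ J ≤ M, (∀ q ∈ J, q ∉ P) → Multiset.card J ≤ 1) ∧
    ∀ q ∈ M, q ∉ P → Multiset.card M = 3) ∨
  (P.card ≤ 5 ∧ r = 5 ∧ ∀ M, VType T M → Multiset.card M = 3 ∧ ∀ q ∈ M, q ∈ P)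

/-- Prototiles with few sharp corners. -/
theorem fc_main (T : Set ℂ) (hT : IsDisk T) (P : Finset ℂ) (r : ℕ) (hrow : FcRow T P r) :
    ¬ CanSurround T r := by
  rintro ⟨A, hA0, hP, hS⟩
  have hctx : ∀ i, 1 ≤ i → i ≤ r → ∃ g, WCtx (A i) T (fun _ => 0) g := by
    intro i h1 h2
    have hcp : ∀ X : Set ℂ, ∃ g : ℂ ≃ᵢ ℂ, X ∈ A i → X = g '' T := by
      intro X
      by_cases hX : X ∈ A i
      · obtain ⟨g, hg⟩ := (hP i h1 h2).copy X hX
        exact ⟨g, fun _ => hg⟩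
      · exact ⟨IsometryEquiv.refl ℂ, fun h => absurd h hX⟩
    choose g hg using hcp
    exact ⟨g, fin_fam hT (hP i h1 h2), fun X hX => hg X hX, fun _ _ => le_rfl⟩
  rcases hrow with ⟨hm, rfl, hM⟩ | ⟨hm, rfl, hM⟩ | ⟨hm, rfl, hM⟩ | ⟨hm, rfl, hM⟩
  · obtain ⟨g, hg⟩ := hctx 2 (by norm_num) le_rfl
    have hch := fc_chain hT hA0 hP hS (by norm_num)
    have l0 := (hch 0 (by norm_num)).2.2.2 (by norm_num)
    have e0 : lv A 2 0 = {T} := hA0
    rw [e0] at l0
    exact fcOne l0 (fc_ctx hg hm) fun v hv => fc_out_le (hM _ (w_type hg hv))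
  · obtain ⟨g, hg⟩ := hctx 3 (by norm_num) le_rfl
    have hch := fc_chain hT hA0 hP hS (by norm_num)
    have l0 := (hch 0 (by norm_num)).2.2.2 (by norm_num)
    have l1 := (hch 1 (by norm_num)).2.2.2 (by norm_num)
    have e0 : lv A 3 0 = {T} := hA0
    have e1 : lv A 3 1 = hull (A 3) (A 1) {T} := by
      show hull (A 3) (A 1) (lv A 3 0) = _
      rw [e0]
    rw [e0] at l0
    rw [e1] at l1
    exact fcTwo l0 l1 (fc_ctx hg hm) fun v hv => fc_out_le (hM _ (w_type hg hv))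
  · obtain ⟨g, hg⟩ := hctx 5 (by norm_num) le_rfl
    refine fcThree (fc_levels hT hA0 hP hS) (fc_ctx hg hm) fun v hv => ?_
    obtain ⟨h1, h2, h3⟩ := hM _ (w_type hg hv)
    rw [Multiset.card_map] at h1 h3
    refine ⟨fc_out_le h2, fun h4 => ?_, (rec_VF hv).2, h1⟩
    obtain ⟨X, hX⟩ := Finset.card_pos.1 (lt_of_lt_of_le Nat.zero_lt_one h4)
    obtain ⟨h5, h6⟩ := Finset.mem_filter.1 hX
    exact h3 _ (Multiset.mem_map.2 ⟨X, h5, rfl⟩) h6
  · obtain ⟨g, hg⟩ := hctx 5 (by norm_num) le_rfl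
    refine fcFive (fc_levels hT hA0 hP hS) (fc_ctx hg hm) fun v hv => ?_
    obtain ⟨h1, h2⟩ := hM _ (w_type hg hv)
    rw [Multiset.card_map] at h1
    exact ⟨h1, fun X hX => h2 _ (Multiset.mem_map.2 ⟨X, hX, rfl⟩)⟩

/-! ## The conditions in terms of lower densities -/

/-- sums over a multiset -/
theorem fc_msum {T : Set ℂ} {c : ℝ} (J : Multiset ℂ) (h : ∀ q ∈ J, c ≤ lowDens T q) :
    (Multiset.card J : ℝ) * c ≤ (J.map (lowDens T)).sum := by
  induction J using Multiset.induction_on with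
  | empty => simp
  | cons a J ih =>
    rw [Multiset.card_cons, Multiset.map_cons, Multiset.sum_cons]
    have h1 := h a (Multiset.mem_cons_self a J)
    have h2 := ih fun q hq => h q (Multiset.mem_cons_of_mem hq)
    push_cast
    linarith

theorem fc_msum_lt {T : Set ℂ} {c : ℝ} (J : Multiset ℂ) (h : ∀ q ∈ J, c < lowDens T q)
    (hJ : 1 ≤ Multiset.card J) : (Multiset.card J : ℝ) * c < (J.map (lowDens T)).sum := by
  obtain ⟨a, ha⟩ := Multiset.card_pos_iff_exists_mem.1 (lt_of_lt_of_le Nat.zero_lt_one hJ)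
  obtain ⟨J', rfl⟩ := Multiset.exists_cons_of_mem ha
  rw [Multiset.card_cons, Multiset.map_cons, Multiset.sum_cons]
  have h1 := h a (Multiset.mem_cons_self a J')
  have h2 := fc_msum J' fun q hq => (h q (Multiset.mem_cons_of_mem hq)).le
  push_cast
  linarith

theorem fc_take (J : Multiset ℂ) (a : ℕ) (ha : a ≤ Multiset.card J) :
    ∃ J' ≤ J, Multiset.card J' = a := by
  induction J using Quotient.inductionOn with
  | h l =>
    refine ⟨(l.take a : List ℂ), ?_, ?_⟩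
    · exact Multiset.coe_le.2 (List.take_sublist a l).subperm
    · rw [Multiset.coe_card, List.length_take]
      exact min_eq_left ha

/-- if `J` is a part of the vertex type `M`, `δ ≤ d` at all points and `u < d` at the points of `J` -/
theorem fc_part {T : Set ℂ} {δ u : ℝ} {M J : Multiset ℂ} (hM : VType T M) (hJ : J ≤ M)
    (hlow : ∀ q ∈ frontier T, δ ≤ lowDens T q) (hu : ∀ q ∈ J, u < lowDens T q) (a b : ℕ)
    (ha : a ≤ Multiset.card J) (hb : a + b ≤ Multiset.card M) :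
    (a : ℝ) * u + b * δ ≤ 1 ∧ (1 ≤ a → (a : ℝ) * u + b * δ < 1) := by
  obtain ⟨J', hJ', hJc⟩ := fc_take J a ha
  obtain ⟨L, rfl⟩ := Multiset.le_iff_exists_add.1 (hJ'.trans hJ)
  obtain ⟨h1, -, h2, -⟩ := hM
  rw [Multiset.card_add, hJc] at hb
  obtain ⟨L', hL', hLc⟩ := fc_take L b (by omega)
  obtain ⟨R, rfl⟩ := Multiset.le_iff_exists_add.1 hL'
  rw [Multiset.map_add, Multiset.sum_add, Multiset.map_add, Multiset.sum_add] at h2
  have h3 := fc_msum L' fun q hq =>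
    hlow q (h1 q (Multiset.mem_add.2 (Or.inr (Multiset.mem_add.2 (Or.inl hq)))))
  have h4 := fc_msum J' fun q hq => (hu q (Multiset.mem_of_le hJ' hq)).le
  have h5 := fc_msum (T := T) (c := 0) R fun q _ => (all_dens.2.1 T q).1
  rw [hLc] at h3
  rw [hJc] at h4
  refine ⟨by linarith, fun h6 => ?_⟩
  have h7 := fc_msum_lt J' (fun q hq => hu q (Multiset.mem_of_le hJ' hq)) (by omega)
  rw [hJc] at h7
  linarith

/-- The theorem for lower densities: all lower densities are at least `δ`, those at the points not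
in `P` are more than `u`. -/
theorem fc_row {T : Set ℂ} {δ u : ℝ} {P : Finset ℂ} {m r : ℕ} (hPm : P.card ≤ m)
    (hrow : (m = 1 ∧ r = 2 ∧ 1 / 3 ≤ u) ∨ (m = 2 ∧ r = 3 ∧ 1 ≤ 2 * u + δ) ∨
      (m = 3 ∧ r = 5 ∧ 1 / 6 < δ ∧ 1 ≤ 2 * u + δ ∧ 1 ≤ u + 3 * δ) ∨
      (m = 5 ∧ r = 5 ∧ 1 / 4 < δ ∧ 1 ≤ u + 2 * δ))
    (hlow : ∀ q ∈ frontier T, δ ≤ lowDens T q)
    (hP : ∀ q ∈ frontier T, q ∉ P → u < lowDens T q) : FcRow T P r := by
  have hgt : ∀ M, VType T M → ∀ J ≤ M, (∀ q ∈ J, q ∉ P) → ∀ q ∈ J, u < lowDens T q := by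
    intro M hM J hJ h q hq
    exact hP q (hM.1 q (Multiset.mem_of_le hJ hq)) (h q hq)
  have hsing : ∀ M, VType T M → ∀ q ∈ M, q ∉ P → ∀ b : ℕ, 1 + b ≤ Multiset.card M →
      u + b * δ < 1 := by
    intro M hM q hq hqP b hb
    have hle : ({q} : Multiset ℂ) ≤ M := Multiset.singleton_le.2 hq
    have h := (fc_part hM hle hlow (hgt M hM {q} hle (by
      intro x hx
      rw [Multiset.mem_singleton.1 hx]
      exact hqP)) 1 b (by simp) hb).2 le_rfl
    simpa using h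
  rcases hrow with ⟨rfl, rfl, h1⟩ | ⟨rfl, rfl, h1⟩ | ⟨rfl, rfl, h1, h2, h3⟩ | ⟨rfl, rfl, h1, h2⟩
  · refine Or.inl ⟨hPm, rfl, fun M hM J hJ h => ?_⟩
    by_contra hcon
    have hJM := Multiset.card_le_card hJ
    have h4 := (fc_part hM hJ hlow (hgt M hM J hJ h) 3 0 (by omega) (by omega)).2 (by norm_num)
    push_cast at h4
    linarith
  · refine Or.inr (Or.inl ⟨hPm, rfl, fun M hM J hJ h => ?_⟩)
    by_contra hcon
    have hMc := hM.2.1
    have h4 := (fc_part hM hJ hlow (hgt M hM J hJ h) 2 1 (by omega) (by omega)).2 (by norm_num)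
    push_cast at h4
    linarith
  · refine Or.inr (Or.inr (Or.inl ⟨hPm, rfl, fun M hM => ⟨?_, fun J hJ h => ?_, fun q hq hqP => ?_⟩⟩))
    · by_contra hcon
      have h4 := (fc_part (u := u) hM (Multiset.zero_le M) hlow (by simp) 0 6 (by simp)
        (by omega)).1
      push_cast at h4
      linarith
    · by_contra hcon
      have hMc := hM.2.1
      have h4 := (fc_part hM hJ hlow (hgt M hM J hJ h) 2 1 (by omega) (by omega)).2 (by norm_num)
      push_cast at h4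
      linarith
    · by_contra hcon
      have hMc := hM.2.1
      have h4 := hsing M hM q hq hqP 3 (by omega)
      push_cast at h4
      linarith
  · refine Or.inr (Or.inr (Or.inr ⟨hPm, rfl, fun M hM => ⟨?_, fun q hq => ?_⟩⟩))
    · by_contra hcon
      have hMc := hM.2.1
      have h4 := (fc_part (u := u) hM (Multiset.zero_le M) hlow (by simp) 0 4 (by simp)
        (by omega)).1
      push_cast at h4
      linarith
    · by_contra hqP
      have hMc := hM.2.1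
      have h4 := hsing M hM q hq hqP 2 (by omega)
      push_cast at h4
      linarith

end Pool.Agent.Hsh
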