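import Pool.Agent.Hsh.FcThree

set_option autoImplicit false

/-!
# Few sharp corners: the other cases
-/

namespace Pool.Agent.Hsh

open Set Metric MeasureTheory Filter Topology Classical

/-! ## Row 1: at most one sharp point -/

/-- the sum over the tiles of a set containing all tiles at the vertices in `W` -/
theorem fc_swap_le {A P : Finset (Set ℂ)} {s : Set ℂ → ℂ → Prop} {W : Finset ℂ}
    (hW : W ⊆ VF A)
    (hP : ∀ v ∈ W, at_ A v ⊆ P) (hPA : P ⊆ A) :
    ∑ v ∈ W, (fcS s v (at_ A v) : ℝ) ≤ ∑ X ∈ P, (fcC A s X : ℝ) := by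
  have e1 := fc_swap A P (fun _ => 1) (fun X v => s X v)
  have e2 : ∑ X ∈ P, (1 : ℝ) * (((VF A).filter (fun v => v ∈ X ∧ s X v)).card : ℝ) =
      ∑ X ∈ P, (fcC A s X : ℝ) := by
    refine Finset.sum_congr rfl fun X _ => ?_
    rw [one_mul]
    rfl
  rw [← e2, ← e1]
  have e3 : ∀ v : ℂ, ∑ X ∈ at_ P v, (if s X v then (1 : ℝ) else 0) =
      (fcS s v (at_ P v) : ℝ) := by
    intro v
    rw [fc_supply_const (a := 1) (w := fun _ => 1) (fun _ _ => rfl), one_mul]
  simp_rw [e3]
  have e4 : ∀ v ∈ W, (fcS s v (at_ A v) : ℝ) = (fcS s v (at_ P v) : ℝ) := by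
    intro v hv
    have : at_ A v = at_ P v := by
      apply Finset.Subset.antisymm
      · intro X hX
        exact Finset.mem_filter.2 ⟨hP v hv hX, (Finset.mem_filter.1 hX).2⟩
      · exact Finset.filter_subset_filter _ hPA
    rw [this]
  rw [Finset.sum_congr rfl e4]
  exact Finset.sum_le_sum_of_subset_of_nonneg hW fun _ _ _ => Nat.cast_nonneg _

/-- Row 1: at most one sharp point. -/
theorem fcOne {A B : Finset (Set ℂ)} {T : Set ℂ} (hL : Lev A B {T})
    {s : Set ℂ → ℂ → Prop} (hc : FcCtx A s 1) (h1 : ∀ v ∈ VF A, fcN s v (at_ A v) ≤ 2) :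
    False := by
  obtain ⟨s1, s2, s3, -⟩ := all_hull A B _ hL
  have hin := hL.inn T (hL.subS (Finset.mem_singleton_self T))
  have c1 := all_three A hL.fam T hin
  have c2 : (tch A {T}).card ≤ (hull A B {T}).card := Finset.card_le_card s3
  have e1 := fc_eulH hL
  have e2 := fc_out hL
  set H := hull A B {T} with hH
  have hHA : H ⊆ A := s2.trans hL.sub
  have hHt : H ⊆ tch A H := by
    intro X hX
    obtain ⟨x, hx⟩ := hull_nonempty (hL.fam.disk X (hHA hX))
    exact Finset.mem_filter.2 ⟨hHA hX, x, hx, fin_mem_un.2 ⟨X, hX, hx⟩⟩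
  have c3 : (H.card : ℝ) + (tch A H \ H).card = (tch A H).card := by
    have := Finset.card_sdiff_add_card_eq_card hHt
    have h' : ((tch A H \ H).card : ℝ) + (H.card : ℝ) = (tch A H).card := by exact_mod_cast this
    linarith
  have e3 := fc_swap_le (s := s) (A := A) (P := tch A H) (W := fcV A H)
    (Finset.filter_subset _ _) (by
      intro v hv X hX
      obtain ⟨-, Y, hY, hvY⟩ := Finset.mem_filter.1 hv
      obtain ⟨hXA, hvX⟩ := Finset.mem_filter.1 hX
      exact Finset.mem_filter.2 ⟨hXA, v, hvX, fin_mem_un.2 ⟨Y, hY, hvY⟩⟩)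
    (Finset.filter_subset _ _)
  have e4 : ∑ X ∈ tch A H, (fcC A s X : ℝ) ≤ ((tch A H).card : ℝ) := by
    have : ((tch A H).card : ℝ) = ∑ X ∈ tch A H, (1 : ℝ) := by
      rw [Finset.sum_const, nsmul_eq_mul, mul_one]
    rw [this]
    refine Finset.sum_le_sum fun X hX => ?_
    exact_mod_cast fc_few hc (Finset.mem_filter.1 hX).1
  rw [← fc_union, Finset.sum_union (fc_disj A H)] at e3
  have e5 : ∑ v ∈ fcVi A H, (((at_ A v).card : ℝ) - 2) ≤
      ∑ v ∈ fcVi A H, (fcS s v (at_ A v) : ℝ) := by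
    refine Finset.sum_le_sum fun v hv => ?_
    have h4 := h1 v (Finset.filter_subset _ _ hv)
    have h5 := fc_SN s v (at_ A v)
    have h6 : (fcS s v (at_ A v) : ℝ) + fcN s v (at_ A v) = (at_ A v).card := by exact_mod_cast h5
    have h7 : (fcN s v (at_ A v) : ℝ) ≤ 2 := by exact_mod_cast h4
    linarith
  have e6 : ∑ v ∈ fcVb A H, (((at_ H v).card : ℝ) - 1) +
      ∑ v ∈ fcVb A H, (((at_ A v \ H).card : ℝ) - 1) ≤
      ∑ v ∈ fcVb A H, (fcS s v (at_ A v) : ℝ) := by
    rw [← Finset.sum_add_distrib]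
    refine Finset.sum_le_sum fun v hv => ?_
    have h4 := h1 v (Finset.filter_subset _ _ hv)
    have h5 := fc_SN s v (at_ A v)
    have h6 : (fcS s v (at_ A v) : ℝ) + fcN s v (at_ A v) = (at_ A v).card := by exact_mod_cast h5
    have h7 : (fcN s v (at_ A v) : ℝ) ≤ 2 := by exact_mod_cast h4
    obtain ⟨hu1, hd1⟩ := fc_at_union hHA v
    have h8 : (at_ A v).card = (at_ H v).card + (at_ A v \ H).card := by
      conv_lhs => rw [hu1]
      exact Finset.card_union_of_disjoint hd1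
    have h9 : ((at_ A v).card : ℝ) = (at_ H v).card + (at_ A v \ H).card := by exact_mod_cast h8
    linarith
  have e7 : (3 : ℝ) ≤ H.card := by exact_mod_cast c1.trans c2
  linarith

/-! ## Row 2: at most two sharp points -/

/-- Row 2: at most two sharp points. -/
theorem fcTwo {A B B' : Finset (Set ℂ)} {T : Set ℂ} (hL : Lev A B {T})
    (hL' : Lev A B' (hull A B {T})) {s : Set ℂ → ℂ → Prop}
    (hc : FcCtx A s 2) (h1 : ∀ v ∈ VF A, fcN s v (at_ A v) ≤ 1) : False := by
  have c0 := fc_start hL.fam (hL.inn T (hL.subS (Finset.mem_singleton_self T)))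
  have c1 := fc_grow hL
  have c2 := Finset.card_le_card (fc_sub hL')
  have e1 := fc_eulH hL'
  obtain ⟨s1, s2, s3, -⟩ := all_hull A B' _ hL'
  set H := hull A B' (hull A B {T}) with hH
  have hHA : H ⊆ A := s2.trans hL'.sub
  have e2 := fc_swap A H (fun _ => 1) (fun X v => s X v)
  have e3 : ∑ X ∈ H, (1 : ℝ) * (((VF A).filter (fun v => v ∈ X ∧ s X v)).card : ℝ) ≤
      2 * (H.card : ℝ) := by
    have : 2 * (H.card : ℝ) = ∑ X ∈ H, (2 : ℝ) := by
      rw [Finset.sum_const, nsmul_eq_mul, mul_comm]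
    rw [this]
    refine Finset.sum_le_sum fun X hX => ?_
    rw [one_mul]
    exact_mod_cast fc_few hc (hHA hX)
  rw [← e2] at e3
  have e4 : ∑ v ∈ VF A, ((if v ∈ fcVi A H then ((at_ A v).card : ℝ) - 1 else 0) +
      (if v ∈ fcVb A H then ((at_ H v).card : ℝ) - 1 else 0)) ≤
      ∑ v ∈ VF A, ∑ X ∈ at_ H v, (if s X v then (1 : ℝ) else 0) := by
    refine Finset.sum_le_sum fun v hv => ?_
    rw [fc_supply_const (a := 1) (w := fun _ => 1) (fun _ _ => rfl), one_mul]
    have h4 := h1 v hv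
    have h5 := fc_SN s v (at_ H v)
    have hsub : at_ H v ⊆ at_ A v := Finset.filter_subset_filter _ hHA
    have h6 : (fcS s v (at_ H v) : ℝ) + fcN s v (at_ H v) = (at_ H v).card := by
      exact_mod_cast h5
    have h7 : (fcN s v (at_ H v) : ℝ) ≤ 1 := by
      exact_mod_cast (fc_N_mono s v hsub).trans h4
    by_cases hvi : v ∈ fcVi A H
    · have hvb : v ∉ fcVb A H := Finset.disjoint_left.1 (fc_disj A H) hvi
      rw [if_pos hvi, if_neg hvb]
      have : at_ H v = at_ A v := by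
        apply Finset.Subset.antisymm hsub
        intro X hX
        exact Finset.mem_filter.2 ⟨(Finset.mem_filter.1 hvi).2.1 hX, (Finset.mem_filter.1 hX).2⟩
      rw [this] at h6 h7 ⊢
      linarith
    · rw [if_neg hvi]
      by_cases hvb : v ∈ fcVb A H
      · rw [if_pos hvb]
        linarith
      · rw [if_neg hvb]
        have : (0 : ℝ) ≤ fcS s v (at_ H v) := Nat.cast_nonneg _
        linarith
  rw [Finset.sum_add_distrib, fc_sum_mem (fc_Vi_sub A H), fc_sum_mem (fc_Vb_sub A H)] at e4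
  have e5 : ∑ v ∈ fcVi A H, (((at_ A v).card : ℝ) - 1) =
      ∑ v ∈ fcVi A H, (((at_ A v).card : ℝ) - 2) + (fcVi A H).card := by
    rw [Finset.card_eq_sum_ones, Nat.cast_sum, ← Finset.sum_add_distrib]
    refine Finset.sum_congr rfl fun v _ => ?_
    ring
  have e6 : (4 : ℝ) ≤ (fcVi A H).card := by exact_mod_cast (by omega : 4 ≤ (fcVi A H).card)
  linarith

/-! ## Row 4: at most five sharp points -/

/-- the condition on the vertices in the case of five sharp corners -/
def FcV5 (A : Finset (Set ℂ)) (s : Set ℂ → ℂ → Prop) : Prop := ∀ v ∈ VF A,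
  (at_ A v).card = 3 ∧ ∀ X ∈ at_ A v, s X v

/-- the number of vertices of a tile -/
noncomputable def fcn (A : Finset (Set ℂ)) (X : Set ℂ) : ℕ := ((VF A).filter (fun v => v ∈ X)).card

theorem fcn_le {A : Finset (Set ℂ)} {s : Set ℂ → ℂ → Prop} {m : ℕ} (hc : FcCtx A s m)
    (h5 : FcV5 A s) {X : Set ℂ} (hX : X ∈ A) : fcn A X ≤ m := by
  refine le_trans (le_of_eq ?_) (fc_few hc hX)
  unfold fcn fcC
  congr 1
  ext v
  simp only [Finset.mem_filter]
  constructor
  · rintro ⟨h3, h4⟩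
    exact ⟨h3, h4, (h5 v h3).2 X (Finset.mem_filter.2 ⟨hX, h4⟩)⟩
  · rintro ⟨h3, h4, -⟩
    exact ⟨h3, h4⟩

/-- counting incidences -/
theorem fcn_swap (A S : Finset (Set ℂ)) :
    ∑ v ∈ VF A, ((at_ S v).card : ℝ) = ∑ X ∈ S, (fcn A X : ℝ) := by
  have e1 := fc_swap A S (fun _ => 1) (fun _ _ => True)
  simp only [if_true, and_true, one_mul, Finset.sum_const, nsmul_eq_mul, mul_one] at e1
  exact e1

/-- the Euler inequality when all vertices are in three tiles -/
theorem fcFive_euler {A B S : Finset (Set ℂ)} {s : Set ℂ → ℂ → Prop} (h5 : FcV5 A s)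
    (hL : Lev A B S) :
    4 * ((hull A B S).card : ℝ) - 4 + (fcVi A (hull A B S)).card ≤
      ∑ X ∈ hull A B S, (fcn A X : ℝ) := by
  have e1 := fc_eulH hL
  obtain ⟨s1, s2, s3, -⟩ := all_hull A B _ hL
  set H := hull A B S with hH
  have hHA : H ⊆ A := s2.trans hL.sub
  rw [← fcn_swap]
  have e4 : ∑ v ∈ VF A, (2 * (if v ∈ fcVi A H then ((at_ A v).card : ℝ) - 2 else 0) +
      2 * (if v ∈ fcVb A H then ((at_ H v).card : ℝ) - 1 else 0) +
      (if v ∈ fcVi A H then 1 else 0)) ≤ ∑ v ∈ VF A, ((at_ H v).card : ℝ) := by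
    refine Finset.sum_le_sum fun v hv => ?_
    have hD := (h5 v hv).1
    have hD' : ((at_ A v).card : ℝ) = 3 := by exact_mod_cast hD
    have hsub : at_ H v ⊆ at_ A v := Finset.filter_subset_filter _ hHA
    by_cases hvi : v ∈ fcVi A H
    · have hvb : v ∉ fcVb A H := Finset.disjoint_left.1 (fc_disj A H) hvi
      rw [if_pos hvi, if_neg hvb, if_pos hvi]
      have : at_ H v = at_ A v := by
        apply Finset.Subset.antisymm hsub
        intro X hX
        exact Finset.mem_filter.2 ⟨(Finset.mem_filter.1 hvi).2.1 hX, (Finset.mem_filter.1 hX).2⟩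
      rw [this, hD']
      norm_num
    · rw [if_neg hvi, if_neg hvi]
      by_cases hvb : v ∈ fcVb A H
      · rw [if_pos hvb]
        have h3 : (at_ H v).card < (at_ A v).card := by
          apply Finset.card_lt_card
          refine ⟨hsub, fun h => (Finset.mem_filter.1 hvb).2.1 fun X hX =>
            (Finset.mem_filter.1 (h hX)).1⟩
        have h4 : ((at_ H v).card : ℝ) ≤ 2 := by exact_mod_cast (by omega : (at_ H v).card ≤ 2)
        linarith
      · rw [if_neg hvb]
        have : (0 : ℝ) ≤ (at_ H v).card := Nat.cast_nonneg _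
        linarith
  rw [Finset.sum_add_distrib, Finset.sum_add_distrib, ← Finset.mul_sum, ← Finset.mul_sum,
    fc_sum_mem (fc_Vi_sub A H), fc_sum_mem (fc_Vb_sub A H), fc_sum_mem (fc_Vi_sub A H)] at e4
  have e5 : ∑ v ∈ fcVi A H, (1 : ℝ) = (fcVi A H).card := by simp
  rw [e5] at e4
  linarith

/-- the vertices on the hull, when all vertices are in three tiles -/
theorem fcFive_out {A B S : Finset (Set ℂ)} {s : Set ℂ → ℂ → Prop} (h5 : FcV5 A s)
    (hL : Lev A B S) :
    2 * ((hull A B S).card : ℝ) - 2 + (tch A (hull A B S) \ hull A B S).card ≤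
      (fcV A (hull A B S)).card := by
  have e1 := fc_eulH hL
  have e2 := fc_out hL
  obtain ⟨s1, s2, s3, -⟩ := all_hull A B _ hL
  set H := hull A B S with hH
  have hHA : H ⊆ A := s2.trans hL.sub
  have e3 : ((fcVi A H).card : ℝ) + (fcVb A H).card = (fcV A H).card := by
    exact_mod_cast fc_card A H
  have e4 : ∑ v ∈ fcVi A H, (((at_ A v).card : ℝ) - 2) = (fcVi A H).card := by
    have : ((fcVi A H).card : ℝ) = ∑ v ∈ fcVi A H, (1 : ℝ) := by simp
    rw [this]
    refine Finset.sum_congr rfl fun v hv => ?_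
    have hD' : ((at_ A v).card : ℝ) = 3 := by
      exact_mod_cast (h5 v (fc_Vi_sub A H hv)).1
    rw [hD']
    norm_num
  have e5 : ∑ v ∈ fcVb A H, (((at_ H v).card : ℝ) - 1) +
      ∑ v ∈ fcVb A H, (((at_ A v \ H).card : ℝ) - 1) = (fcVb A H).card := by
    have : ((fcVb A H).card : ℝ) = ∑ v ∈ fcVb A H, (1 : ℝ) := by simp
    rw [this, ← Finset.sum_add_distrib]
    refine Finset.sum_congr rfl fun v hv => ?_
    have hD' : ((at_ A v).card : ℝ) = 3 := by
      exact_mod_cast (h5 v (fc_Vb_sub A H hv)).1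
    obtain ⟨hu1, hd1⟩ := fc_at_union hHA v
    have h8 : (at_ A v).card = (at_ H v).card + (at_ A v \ H).card := by
      conv_lhs => rw [hu1]
      exact Finset.card_union_of_disjoint hd1
    have h9 : ((at_ A v).card : ℝ) = (at_ H v).card + (at_ A v \ H).card := by exact_mod_cast h8
    linarith
  linarith

/-- the vertices of the tiles in the holes are inner vertices -/
theorem fcFive_hole {A C H : Finset (Set ℂ)} (hL' : Lev A C H)
    (h3 : ∀ v ∈ VF A, (at_ A v).card = 3) {X : Set ℂ} (hX : X ∈ hull A C H)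
    (hXt : X ∉ tch A H) {v : ℂ} (hv : v ∈ VF A) (hvX : v ∈ X) : v ∈ fcVi A (hull A C H) := by
  refine Finset.mem_filter.2 ⟨hv, ?_, X, hX, hvX⟩
  by_contra hnK
  obtain ⟨s1, s2, s3, -⟩ := all_hull A C _ hL'
  have hKA : hull A C H ⊆ A := s2.trans hL'.sub
  have hXA := hKA hX
  by_cases h2 : 2 ≤ (at_ (hull A C H) v).card
  · have htt := all_twoT A C H hL' v (rec_VF hv) hnK h2
    obtain ⟨Z, hZ, hZK⟩ := Finset.not_subset.1 hnK
    have h4 : at_ (tch A H \ H) v ⊆ ((at_ A v).erase X).erase Z := by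
      intro Y hY
      obtain ⟨h5, h6⟩ := Finset.mem_filter.1 hY
      obtain ⟨h7, h8⟩ := Finset.mem_sdiff.1 h5
      refine Finset.mem_erase.2 ⟨?_, Finset.mem_erase.2 ⟨?_, ?_⟩⟩
      · rintro rfl
        exact hZK (s3 h7)
      · rintro rfl
        exact hXt h7
      · exact Finset.mem_filter.2 ⟨(Finset.mem_filter.1 h7).1, h6⟩
    have h5 := Finset.card_le_card h4
    have h6 : Z ∈ (at_ A v).erase X := Finset.mem_erase.2 ⟨fun h => hZK (h ▸ hX), hZ⟩
    have h7 : X ∈ at_ A v := Finset.mem_filter.2 ⟨hXA, hvX⟩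
    rw [Finset.card_erase_of_mem h6, Finset.card_erase_of_mem h7, h3 v hv] at h5
    omega
  · -- only one tile of the hull
    have h7 : X ∈ at_ A v := Finset.mem_filter.2 ⟨hXA, hvX⟩
    have h8 : X ∈ at_ (hull A C H) v := Finset.mem_filter.2 ⟨hX, hvX⟩
    have h9 : ({X} : Finset (Set ℂ)) ≠ at_ A v := by
      intro h
      have := h3 v hv
      rw [← h, Finset.card_singleton] at this
      omega
    obtain ⟨X', hX', Y, hY, hYn, l, hl, -⟩ := all_star A hL'.fam v (rec_VF hv) {X}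
      (Finset.singleton_subset_iff.2 h7) (Finset.singleton_nonempty X) h9
    rw [Finset.mem_singleton.1 hX'] at hl
    have hYX : Y ≠ X := fun h => hYn (Finset.mem_singleton.2 h)
    obtain ⟨hYA, hvY⟩ := Finset.mem_filter.1 hY
    have hYH : Y ∉ hull A C H := by
      intro h
      have h10 : Y ∈ at_ (hull A C H) v := Finset.mem_filter.2 ⟨h, hvY⟩
      exact h2 (Finset.one_lt_card.2 ⟨Y, h10, X, h8, hYX⟩)
    have h11 := TwoT_touch hL' hnK hX hvX hYA hYH ⟨l, hl⟩
    exact hXt (Finset.mem_sdiff.1 (Finset.mem_filter.1 h11).1).1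

/-- Row 4: at most five sharp points. -/
theorem fcFive {T : Set ℂ} {A : ℕ → Finset (Set ℂ)} (hl : FcLevels A T)
    {s : Set ℂ → ℂ → Prop} (hc : FcCtx (A 5) s 5) (h5 : FcV5 (A 5) s) : False := by
  obtain ⟨l0, l1, l2, l3⟩ := hl
  have h3 : ∀ v ∈ VF (A 5), (at_ (A 5) v).card = 3 := fun v hv => (h5 v hv).1
  -- at least seven tiles
  have hin := l0.inn T (l0.subS (Finset.mem_singleton_self T))
  have c1 := all_three (A 5) l0.fam T hin
  have c2 := Finset.card_le_card (all_hull _ _ _ l0).2.2.1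
  have c3 := fc_hull_two l0 l1
  have c4 := fc_hull_two l1 l2
  have e1 := fcFive_euler h5 l3
  have e2 := fcFive_out h5 l2
  have e3 := fc_hull_card l3
  obtain ⟨s1, s2, s3, -⟩ := all_hull _ _ _ l3
  set H := hull (A 5) (A 3) (hull (A 5) (A 2) (hull (A 5) (A 1) {T})) with hH
  set K := hull (A 5) (A 4) H with hK
  set E := K \ (H ∪ (tch (A 5) H \ H)) with hE
  have hHA : H ⊆ A 5 := l3.subS.trans l3.sub
  have hKA : K ⊆ A 5 := s2.trans l3.sub
  have hsub : H ∪ (tch (A 5) H \ H) ⊆ K :=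
    Finset.union_subset s1 (Finset.sdiff_subset.trans s3)
  have hEX : ∀ X ∈ E, X ∈ K ∧ X ∉ tch (A 5) H := by
    intro X hX
    obtain ⟨h4, h5⟩ := Finset.mem_sdiff.1 hX
    refine ⟨h4, fun h => h5 ?_⟩
    by_cases h6 : X ∈ H
    · exact Finset.mem_union_left _ h6
    · exact Finset.mem_union_right _ (Finset.mem_sdiff.2 ⟨h, h6⟩)
  -- the vertices of the tiles in the holes
  have d1 : fcV (A 5) E ⊆ fcVi (A 5) K := by
    intro v hv
    obtain ⟨hv1, X, hX, hvX⟩ := Finset.mem_filter.1 hv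
    exact fcFive_hole l3 h3 (hEX X hX).1 (hEX X hX).2 hv1 hvX
  have d2 : Disjoint (fcV (A 5) H) (fcV (A 5) E) := by
    rw [Finset.disjoint_left]
    intro v hv hv'
    obtain ⟨hv1, X, hX, hvX⟩ := Finset.mem_filter.1 hv
    obtain ⟨-, Y, hY, hvY⟩ := Finset.mem_filter.1 hv'
    exact (hEX Y hY).2 (Finset.mem_filter.2 ⟨hKA (hEX Y hY).1, v, hvY,
      fin_mem_un.2 ⟨X, hX, hvX⟩⟩)
  have d3 : (fcV (A 5) H).card + (fcV (A 5) E).card ≤ (fcVi (A 5) K).card := by
    rw [← Finset.card_union_of_disjoint d2]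
    exact Finset.card_le_card (Finset.union_subset (fc_sub l3) d1)
  have d4 : ∑ X ∈ E, (fcn (A 5) X : ℝ) ≤ 3 * (fcV (A 5) E).card := by
    rw [← fcn_swap]
    have : 3 * ((fcV (A 5) E).card : ℝ) = ∑ v ∈ VF (A 5), (if v ∈ fcV (A 5) E then (3 : ℝ) else 0) := by
      have hs : fcV (A 5) E ⊆ VF (A 5) := Finset.filter_subset _ _
      rw [fc_sum_mem hs (fun _ => (3 : ℝ)), Finset.sum_const, nsmul_eq_mul, mul_comm]
    rw [this]
    refine Finset.sum_le_sum fun v hv => ?_
    have hEA : E ⊆ A 5 := Finset.sdiff_subset.trans hKA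
    by_cases h : v ∈ fcV (A 5) E
    · rw [if_pos h]
      have h4 : (at_ E v).card ≤ (at_ (A 5) v).card :=
        Finset.card_le_card (Finset.filter_subset_filter _ hEA)
      rw [h3 v hv] at h4
      exact_mod_cast h4
    · rw [if_neg h]
      have h4 : at_ E v = ∅ := by
        rw [Finset.eq_empty_iff_forall_notMem]
        intro X hX
        obtain ⟨h5, h6⟩ := Finset.mem_filter.1 hX
        exact h (Finset.mem_filter.2 ⟨hv, X, h5, h6⟩)
      rw [h4]
      simp
  -- the sum over `K`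
  have d5 : ∑ X ∈ K, (fcn (A 5) X : ℝ) ≤
      5 * ((H.card : ℝ) + (tch (A 5) H \ H).card) + ∑ X ∈ E, (fcn (A 5) X : ℝ) := by
    rw [← Finset.sum_sdiff hsub, ← hE]
    have h6 : ((H ∪ (tch (A 5) H \ H)).card : ℝ) = (H.card : ℝ) + (tch (A 5) H \ H).card := by
      exact_mod_cast Finset.card_union_of_disjoint (Finset.disjoint_sdiff (s := H) (t := tch (A 5) H))
    have h7 : ∑ X ∈ H ∪ (tch (A 5) H \ H), (fcn (A 5) X : ℝ) ≤
        5 * ((H ∪ (tch (A 5) H \ H)).card : ℝ) := by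
      have : 5 * ((H ∪ (tch (A 5) H \ H)).card : ℝ) = ∑ X ∈ H ∪ (tch (A 5) H \ H), (5 : ℝ) := by
        rw [Finset.sum_const, nsmul_eq_mul, mul_comm]
      rw [this]
      refine Finset.sum_le_sum fun X hX => ?_
      exact_mod_cast fcn_le hc h5 (hKA (hsub hX))
    rw [h6] at h7
    linarith
  have d6 : ∑ X ∈ E, (fcn (A 5) X : ℝ) ≤ 5 * (E.card : ℝ) := by
    have : 5 * (E.card : ℝ) = ∑ X ∈ E, (5 : ℝ) := by
      rw [Finset.sum_const, nsmul_eq_mul, mul_comm]
    rw [this]
    refine Finset.sum_le_sum fun X hX => ?_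
    exact_mod_cast fcn_le hc h5 (hKA (hEX X hX).1)
  have d3' : ((fcV (A 5) H).card : ℝ) + (fcV (A 5) E).card ≤ (fcVi (A 5) K).card := by
    exact_mod_cast d3
  have c5 : (7 : ℝ) ≤ H.card := by exact_mod_cast (by omega : 7 ≤ H.card)
  linarith

end Pool.Agent.Hsh
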