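import Pool.Agent.Hsh.StmtsB

set_option autoImplicit false

/-! # Module Grow -/

namespace Pool.Agent.Hsh

open Set Metric MeasureTheory Filter Topology Classical

theorem grow (h1 : Stmt_Arc1) (hH : Stmt_Hull) (hO : Stmt_Open) : Stmt_Grow := by
  intro A B S hL
  obtain ⟨k1, k2, k3, k4⟩ := hH A B S hL
  obtain ⟨X, hX, Y, hY, hYS, l, hne, hlX, hlY⟩ := hO A hL.fam S (hL.subS.trans hL.sub) hL.neS
    (fun X hX => hL.inn X (hL.subS hX))
  obtain ⟨Z, hZ, -, -, ⟨q, hq⟩, -, hat⟩ := h1 A hL.fam X (hL.sub (hL.subS hX)) l hlX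
  obtain ⟨Z', hZ', -, -, -, -, hat'⟩ := h1 A hL.fam Y hY l hlY
  have hqX : q ∈ X := by
    have : X ∈ at_ A q := by rw [hat q hq]; simp
    exact (Finset.mem_filter.1 this).2
  have hqY : q ∈ Y := by
    have : Y ∈ at_ A q := by rw [hat' q hq]; simp
    exact (Finset.mem_filter.1 this).2
  have hYt : Y ∈ tch A S := by
    refine Finset.mem_filter.2 ⟨hY, q, hqY, ?_⟩
    simp only [un, Set.mem_iUnion, exists_prop]
    exact ⟨X, hX, hqX⟩
  have hsub : insert Y S ⊆ hull A B S := Finset.insert_subset (k3 hYt) k1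
  have := Finset.card_le_card hsub
  rwa [Finset.card_insert_of_notMem hYS] at this

end Pool.Agent.Hsh
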