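import Pool.Agent.Hsh.StmtsB

namespace Pool.Agent.Hsh

open Classical

/-- `2 log x` is dominated by a small multiple of `x`. -/
theorem num_log {l x : ℝ} (hl : 0 < l) (hx : 0 < x) :
    2 * Real.log x ≤ l / 2 * x - 2 + 2 * Real.log (4 / l) := by
  have h1 : 0 < l / 4 * x := by positivity
  have h2 := Real.log_le_sub_one_of_pos h1
  have h3 : Real.log x = Real.log (l / 4 * x) + Real.log (4 / l) := by
    rw [← Real.log_mul h1.ne' (by positivity)]
    congr 1
    field_simp
  rw [h3]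
  linarith

theorem num : Stmt_Num := by
  intro κ hκ0 hκ1
  have h1κ : 0 < 1 - κ := by linarith
  obtain ⟨lam, hlam⟩ : ∃ lam : ℝ, lam = -Real.log (1 - κ) := ⟨_, rfl⟩
  have hlam0 : 0 < lam := by
    rw [hlam]
    have := Real.log_neg h1κ (by linarith)
    linarith
  obtain ⟨k0, hk0⟩ : ∃ k0 : ℕ, k0 = ⌈2 / κ⌉₊ := ⟨_, rfl⟩
  have hk0' : 2 / κ ≤ (k0 : ℝ) := by rw [hk0]; exact Nat.le_ceil _
  obtain ⟨K0, hK0⟩ : ∃ K0 : ℝ,
      K0 = lam * ((k0 : ℝ) + 1) + Real.log Real.pi + 2 * Real.log (4 / lam) - 2 := ⟨_, rfl⟩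
  have hlog2 : 0 < Real.log 2 := Real.log_pos (by norm_num)
  refine ⟨((k0 : ℝ) + 1) / Real.log 2 + 2 / lam * (|K0| / Real.log 2 + 1), by positivity, ?_⟩
  intro r f a D ha hD hf0 hrec hmono harea
  have hQ : 0 < D ^ 2 / a := by positivity
  obtain ⟨Q, hQe⟩ : ∃ Q : ℝ, Q = D ^ 2 / a := ⟨_, rfl⟩
  rw [← hQe] at hQ ⊢
  have hL : Real.log 2 ≤ Real.log (2 + Q) := Real.log_le_log (by norm_num) (by linarith)
  have hLpos : 0 < Real.log (2 + Q) := lt_of_lt_of_le hlog2 hL
  have hpart2 : 0 ≤ 2 / lam * (|K0| / Real.log 2 + 1) * Real.log (2 + Q) := by positivity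
  have hpart1 : ((k0 : ℝ) + 1) ≤ ((k0 : ℝ) + 1) / Real.log 2 * Real.log (2 + Q) := by
    have : ((k0 : ℝ) + 1) / Real.log 2 * Real.log 2 ≤
        ((k0 : ℝ) + 1) / Real.log 2 * Real.log (2 + Q) :=
      mul_le_mul_of_nonneg_left hL (by positivity)
    rwa [div_mul_cancel₀ _ hlog2.ne'] at this
  rcases lt_or_ge r k0 with hr | hr
  · have hr' : (r : ℝ) + 1 ≤ (k0 : ℝ) + 1 := by
      have : (r : ℝ) ≤ (k0 : ℝ) := by exact_mod_cast hr.le
      linarith
    rw [add_mul]
    linarith
  · -- the lower bound `k + 1 ≤ f k`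
    have hlow : ∀ k, k ≤ r → (k : ℝ) + 1 ≤ (f k : ℝ) := by
      intro k
      induction k with
      | zero => intro _; simp [hf0]
      | succ n ih =>
        intro hn
        have h1 := ih (by omega)
        have h2 := hmono n (by omega)
        have h3 : (f n : ℝ) + 1 ≤ (f (n + 1) : ℝ) := by exact_mod_cast h2
        push_cast
        linarith
    -- exponential growth
    have hexp : ∀ j, k0 + j ≤ r →
        1 ≤ (1 - κ) ^ j * ((f (k0 + j) : ℝ) - 2 / κ) := by
      intro j
      induction j with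
      | zero =>
        intro hj
        have h1 := hlow k0 (by omega)
        simp only [pow_zero, one_mul, Nat.add_zero]
        linarith
      | succ n ih =>
        intro hn
        have h1 := ih (by omega)
        have h2 := hrec (k0 + n) (by omega)
        have h3 : (f (k0 + n) : ℝ) - 2 / κ ≤
            (1 - κ) * ((f (k0 + n + 1) : ℝ) - 2 / κ) := by
          have h4 : κ * (2 / κ) = 2 := by field_simp
          nlinarith
        calc (1 : ℝ) ≤ (1 - κ) ^ n * ((f (k0 + n) : ℝ) - 2 / κ) := h1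
          _ ≤ (1 - κ) ^ n * ((1 - κ) * ((f (k0 + n + 1) : ℝ) - 2 / κ)) :=
              mul_le_mul_of_nonneg_left h3 (by positivity)
          _ = (1 - κ) ^ (n + 1) * ((f (k0 + (n + 1)) : ℝ) - 2 / κ) := by
              rw [pow_succ]
              ring_nf
    obtain ⟨j, hj⟩ : ∃ j, r = k0 + j := ⟨r - k0, by omega⟩
    have h1 := hexp j (by omega)
    rw [← hj] at h1
    have h2κ : 0 < 2 / κ := by positivity
    have h2 : 1 ≤ (1 - κ) ^ j * (f r : ℝ) := by
      have : (1 - κ) ^ j * ((f r : ℝ) - 2 / κ) ≤ (1 - κ) ^ j * (f r : ℝ) :=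
        mul_le_mul_of_nonneg_left (by linarith) (by positivity)
      linarith
    have hfr : 0 < (f r : ℝ) := by
      have := hlow r le_rfl
      have : (0 : ℝ) ≤ (r : ℝ) := by positivity
      linarith
    have h3 : lam * (j : ℝ) ≤ Real.log (f r : ℝ) := by
      have h4 : 0 ≤ Real.log ((1 - κ) ^ j * (f r : ℝ)) := Real.log_nonneg h2
      rw [Real.log_mul (by positivity) hfr.ne', Real.log_pow] at h4
      have h5 : lam * (j : ℝ) = -((j : ℝ) * Real.log (1 - κ)) := by rw [hlam]; ring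
      linarith
    have hr1 : 0 < (r : ℝ) + 1 := by positivity
    have h4 : (f r : ℝ) ≤ Real.pi * (((r : ℝ) + 1) ^ 2 * Q) := by
      have h5 := harea r le_rfl
      have h6 : (f r : ℝ) ≤ Real.pi * (((r : ℝ) + 1) * D) ^ 2 / a := by
        rw [le_div_iff₀ ha]
        exact h5
      calc (f r : ℝ) ≤ Real.pi * (((r : ℝ) + 1) * D) ^ 2 / a := h6
        _ = Real.pi * (((r : ℝ) + 1) ^ 2 * Q) := by
            rw [hQe]
            ring
    have h5 : Real.log (f r : ℝ) ≤
        Real.log Real.pi + (2 * Real.log ((r : ℝ) + 1) + Real.log Q) := by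
      have h6 := Real.log_le_log hfr h4
      rw [Real.log_mul Real.pi_pos.ne' (by positivity), Real.log_mul (by positivity) hQ.ne',
        Real.log_pow] at h6
      push_cast at h6
      exact h6
    have h6 := num_log hlam0 hr1
    have h7 : Real.log Q ≤ Real.log (2 + Q) := Real.log_le_log hQ (by linarith)
    have hrj : (r : ℝ) = (k0 : ℝ) + (j : ℝ) := by rw [hj]; push_cast; ring
    have h8 : lam / 2 * ((r : ℝ) + 1) ≤ K0 + Real.log (2 + Q) := by
      rw [hK0]
      have h9 : lam * (j : ℝ) = lam * ((r : ℝ) + 1) - lam * ((k0 : ℝ) + 1) := by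
        rw [hrj]; ring
      linarith
    have h9 : K0 ≤ |K0| / Real.log 2 * Real.log (2 + Q) := by
      have h10 : |K0| / Real.log 2 * Real.log 2 ≤ |K0| / Real.log 2 * Real.log (2 + Q) :=
        mul_le_mul_of_nonneg_left hL (by positivity)
      rw [div_mul_cancel₀ _ hlog2.ne'] at h10
      exact (le_abs_self K0).trans h10
    have h10 : lam / 2 * ((r : ℝ) + 1) ≤ (|K0| / Real.log 2 + 1) * Real.log (2 + Q) := by
      linarith
    have h11 : (r : ℝ) + 1 ≤ 2 / lam * (|K0| / Real.log 2 + 1) * Real.log (2 + Q) := by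
      have h12 : 2 / lam * (lam / 2 * ((r : ℝ) + 1)) ≤
          2 / lam * ((|K0| / Real.log 2 + 1) * Real.log (2 + Q)) :=
        mul_le_mul_of_nonneg_left h10 (by positivity)
      have h13 : 2 / lam * (lam / 2 * ((r : ℝ) + 1)) = (r : ℝ) + 1 := by
        field_simp
      rw [h13] at h12
      linarith
    rw [add_mul]
    linarith

end Pool.Agent.Hsh
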