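import Pool.Agent.Hsh.Stmts

set_option autoImplicit false

/-! # Module Path -/

namespace Pool.Agent.Hsh

open Set Metric MeasureTheory Filter Topology Classical

theorem path_disk {t : Set ℂ} (h : IsDisk t) : IsPathConnected t := by
  obtain ⟨e⟩ := h
  haveI : PathConnectedSpace (closedBall (0 : ℂ) 1) := by
    rw [← isPathConnected_iff_pathConnectedSpace]
    exact (convex_closedBall (0 : ℂ) 1).isPathConnected ⟨0, by simp⟩
  haveI : PathConnectedSpace t := e.symm.surjective.pathConnectedSpace e.symm.continuous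
  exact isPathConnected_iff_pathConnectedSpace.2 inferInstance

theorem path_mem_un {A : Finset (Set ℂ)} {x : ℂ} : x ∈ un A ↔ ∃ t ∈ A, x ∈ t := by
  simp [un]

theorem pathT (hB : Stmt_Bas) (h1 : Stmt_Arc1) : Stmt_Path := by
  intro A S hA hSA hC x hx y hy
  obtain ⟨X, hX, hxX⟩ := path_mem_un.1 hx
  obtain ⟨Y, hY, hyY⟩ := path_mem_un.1 hy
  have hsub : ∀ Z ∈ S, Z ⊆ un S := fun Z hZ z hz => path_mem_un.2 ⟨Z, hZ, hz⟩
  have key : S.filter (fun Z => ∀ z ∈ Z, JoinedIn (un S) x z) = S := by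
    refine hC _ (Finset.filter_subset _ _) ⟨X, ?_⟩ ?_
    · refine Finset.mem_filter.2 ⟨hX, fun z hz => ?_⟩
      exact ((path_disk (hA.disk X (hSA hX))).joinedIn x hxX z hz).mono (hsub X hX)
    · intro Z hZ W hW hadj
      obtain ⟨hZS, hZ2⟩ := Finset.mem_filter.1 hZ
      obtain ⟨l, hne, hl1, hl2⟩ := hadj
      obtain ⟨Y', hY', hne', hlY', ⟨q, hq⟩, hsubl, hat⟩ := h1 A hA Z (hSA hZS) l hl1
      obtain ⟨Y2, hY2, hne2, hlY2, -, hsubl2, hat2⟩ := h1 A hA W (hSA hW) l hl2
      have hqW : q ∈ W := by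
        have : W ∈ at_ A q := by rw [hat2 q hq]; simp
        exact (Finset.mem_filter.1 this).2
      have hqZ : q ∈ Z := by
        have : Z ∈ at_ A q := by rw [hat q hq]; simp
        exact (Finset.mem_filter.1 this).2
      refine Finset.mem_filter.2 ⟨hW, fun z hz => ?_⟩
      exact (hZ2 q hqZ).trans
        (((path_disk (hA.disk W (hSA hW))).joinedIn q hqW z hz).mono (hsub W hW))
  have hYm : Y ∈ S.filter (fun Z => ∀ z ∈ Z, JoinedIn (un S) x z) := by rw [key]; exact hY
  exact (Finset.mem_filter.1 hYm).2 y hyY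

end Pool.Agent.Hsh
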