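import Pool.Agent.Hsh.Defs
import Pool.Agent.CT.T.TFinal

set_option autoImplicit false

/-!
# Frozen statements of the modules for MP_51bd69_co
-/

namespace Pool.Agent.Hsh

open Set Metric MeasureTheory Filter Topology Classical

/-- A finite family of closed discs with pairwise disjoint interiors. -/
structure Fam (A : Finset (Set ℂ)) : Prop where
  disk : ∀ t ∈ A, IsDisk t
  disj : ∀ t ∈ A, ∀ t' ∈ A, t ≠ t' → Disjoint (interior t) (interior t')

/-- The tiles of `A` at `p`. -/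
noncomputable def at_ (A : Finset (Set ℂ)) (p : ℂ) : Finset (Set ℂ) := A.filter (fun t => p ∈ t)

/-- The open set covered by the family. -/
def reg (A : Finset (Set ℂ)) : Set ℂ := interior (un A)

/-- A tile `X` is inner if it lies in the interior of the union. -/
def Inn (A : Finset (Set ℂ)) (X : Set ℂ) : Prop := X ∈ A ∧ X ⊆ reg A

/-- The vertices: the points of the open set `reg A` which are in at least three tiles. -/
def Vx (A : Finset (Set ℂ)) : Set ℂ := {p | p ∈ reg A ∧ 3 ≤ (at_ A p).card}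

/-- The vertices, as a finite set (it is finite by `Stmt_VFin`). -/
noncomputable def VF (A : Finset (Set ℂ)) : Finset ℂ :=
  if h : (Vx A).Finite then h.toFinset else ∅

/-- The part of the frontier of `X` in the open set `reg A`, without the vertices. -/
def fr (A : Finset (Set ℂ)) (X : Set ℂ) : Set ℂ := (frontier X ∩ reg A) \ Vx A

/-- The arcs of `X`: the connected components of `fr A X`. -/
def arcs (A : Finset (Set ℂ)) (X : Set ℂ) : Set (Set ℂ) :=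
  {l | ∃ p ∈ fr A X, l = connectedComponentIn (fr A X) p}

/-- `l` is a common arc of the tiles `X` and `Y`. -/
def Sh (A : Finset (Set ℂ)) (X Y l : Set ℂ) : Prop := X ≠ Y ∧ l ∈ arcs A X ∧ l ∈ arcs A Y

/-- Adjacency of tiles: they have a common arc. -/
def Adj (A : Finset (Set ℂ)) (X Y : Set ℂ) : Prop := ∃ l, Sh A X Y l

/-- The set `S` of tiles is connected through arcs. -/
def Con (A S : Finset (Set ℂ)) : Prop :=
  ∀ P : Finset (Set ℂ), P ⊆ S → P.Nonempty → (∀ X ∈ P, ∀ Y ∈ S, Adj A X Y → Y ∈ P) → P = S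

/-! ## Basic facts -/

/-- B1: basic facts on finite families of discs. -/
structure Bas (A : Finset (Set ℂ)) : Prop where
  closed : ∀ t ∈ A, IsClosed t
  compact : IsCompact (un A)
  int_disj : ∀ t ∈ A, ∀ t' ∈ A, t ≠ t' → Disjoint (interior t) t'
  mem_frontier : ∀ t ∈ A, ∀ t' ∈ A, t ≠ t' → t ∩ t' ⊆ frontier t
  nbhd : ∀ p ∈ reg A, ∃ r > 0, ball p r ⊆ un A ∧ ∀ t ∈ A, (t ∩ ball p r).Nonempty → p ∈ t
  other : ∀ t ∈ A, ∀ p ∈ frontier t, p ∈ reg A → ∃ t' ∈ A, t' ≠ t ∧ p ∈ t'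
  at_int : ∀ t ∈ A, ∀ p ∈ interior t, at_ A p = {t}
  /-- a point of `reg A` all of whose tiles are in `S` is interior to the union of `S` -/
  int_of_at : ∀ S ⊆ A, ∀ p ∈ reg A, at_ A p ⊆ S → p ∈ interior (un S)

def Stmt_Bas : Prop := ∀ A : Finset (Set ℂ), Fam A → Bas A

/-- B2: three tiles have at most two common points, so there are finitely many vertices. -/
def Stmt_VFin : Prop := ∀ A : Finset (Set ℂ), Fam A → (Vx A).Finite

/-- B3: the frontier of an inner tile is not contained in another tile. -/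
def Stmt_NotSub : Prop := ∀ A : Finset (Set ℂ), Fam A → ∀ X, Inn A X → ∀ Y ∈ A, X ≠ Y →
  ¬ frontier X ⊆ Y

/-- B4: an inner tile has at least two vertices. -/
def Stmt_Two : Prop := ∀ A : Finset (Set ℂ), Fam A → ∀ X, Inn A X →
  ∃ u ∈ Vx A, ∃ w ∈ Vx A, u ≠ w ∧ u ∈ X ∧ w ∈ X

/-! ## Arcs -/

/-- C1: components of a subset of a closed curve. -/
def Stmt_Circ : Prop := ∀ (γ : ℝ → ℂ), Continuous γ → (∀ x y, γ x = γ y ↔ ∃ n : ℤ, y = x + n) →
  ∀ O ⊆ range γ, ∀ a b : ℝ, a < b → b ≤ a + 1 → γ a ∉ O → γ b ∉ O → γ '' Ioo a b ⊆ O →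
  ∀ t ∈ Ioo a b, connectedComponentIn O (γ t) = γ '' Ioo a b

/-- C2: each arc of a tile is an arc of exactly one other tile. -/
def Stmt_Arc1 : Prop := ∀ A : Finset (Set ℂ), Fam A → ∀ X ∈ A, ∀ l ∈ arcs A X,
  ∃ Y ∈ A, Y ≠ X ∧ l ∈ arcs A Y ∧ l.Nonempty ∧ l ⊆ fr A X ∧ ∀ p ∈ l, at_ A p = {X, Y}

/-- C3: at a vertex `v` of a tile exactly two arcs of the tile end. -/
def Stmt_Arc2 : Prop := ∀ A : Finset (Set ℂ), Fam A → ∀ X ∈ A, ∀ v ∈ Vx A, v ∈ X →
  ∃ l₁ ∈ arcs A X, ∃ l₂ ∈ arcs A X, l₁ ≠ l₂ ∧ v ∈ closure l₁ ∧ v ∈ closure l₂ ∧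
    (∀ l ∈ arcs A X, v ∈ closure l → l = l₁ ∨ l = l₂) ∧
    ∃ r > 0, frontier X ∩ ball v r ⊆ {v} ∪ l₁ ∪ l₂

/-- C4: the arcs of an inner tile. -/
structure Arc3 (A : Finset (Set ℂ)) (X : Set ℂ) : Prop where
  fin : (arcs A X).Finite
  cover : ⋃₀ (arcs A X) = frontier X \ Vx A
  clos : ∀ l ∈ arcs A X, closure l ⊆ l ∪ Vx A
  ends : ∀ l ∈ arcs A X, ∃ u w, u ≠ w ∧ u ∈ Vx A ∧ w ∈ Vx A ∧
    ∀ v ∈ Vx A, v ∈ closure l ↔ (v = u ∨ v = w)

def Stmt_Arc3 : Prop := ∀ A : Finset (Set ℂ), Fam A → ∀ X, Inn A X → Arc3 A X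

/-- C5: around a vertex the tiles are connected through arcs ending at the vertex. -/
def Stmt_Star : Prop := ∀ A : Finset (Set ℂ), Fam A → ∀ v ∈ Vx A, ∀ P ⊆ at_ A v, P.Nonempty →
  P ≠ at_ A v → ∃ X ∈ P, ∃ Y ∈ at_ A v, Y ∉ P ∧ ∃ l, Sh A X Y l ∧ v ∈ closure l

/-- C6: parity of the arcs around a vertex: for a set `P` of tiles at `v`, an even number of arcs
ending at `v` has exactly one of its two tiles in `P`. In the form: if `P` is not empty and not the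
set of all tiles at `v`, there are two different such arcs. -/
def Stmt_Par : Prop := ∀ A : Finset (Set ℂ), Fam A → ∀ v ∈ Vx A, ∀ P ⊆ at_ A v, P.Nonempty →
  P ≠ at_ A v → ∃ X ∈ P, ∃ Y ∈ at_ A v, Y ∉ P ∧ ∃ X' ∈ P, ∃ Y' ∈ at_ A v, Y' ∉ P ∧
    ∃ l l', l ≠ l' ∧ Sh A X Y l ∧ Sh A X' Y' l' ∧ v ∈ closure l ∧ v ∈ closure l'

/-- C7: a nonempty family of inner tiles is not closed under adjacency. -/
def Stmt_Open : Prop := ∀ A : Finset (Set ℂ), Fam A → ∀ C ⊆ A, C.Nonempty → (∀ X ∈ C, Inn A X) →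
  ∃ X ∈ C, ∃ Y ∈ A, Y ∉ C ∧ Adj A X Y

/-! ## Euler inequality -/

/-- D1: linear algebra over the field with two elements. -/
def Stmt_Lin : Prop := ∀ (α β γ : Type) [DecidableEq α] [DecidableEq β] [DecidableEq γ]
  (S : Finset α) (E : Finset β) (W : Finset γ) (a : β → α → Prop) (e : γ → β → Prop),
  (∀ l ∈ E, ∃ X ∈ S, ∃ Y ∈ S, X ≠ Y ∧ ∀ Z ∈ S, a l Z ↔ (Z = X ∨ Z = Y)) →
  (∀ v ∈ W, ∀ X ∈ S, Even (E.filter (fun l => a l X ∧ e v l)).card) →
  (∀ P ⊆ S, P.Nonempty → (∀ X ∈ P, ∀ Y ∈ S, (∃ l ∈ E, a l X ∧ a l Y) → Y ∈ P) → P = S) →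
  (∀ Q ⊆ W, (∀ l ∈ E, Even (Q.filter (fun v => e v l)).card) → Q = ∅) →
  S.card + W.card ≤ E.card + 1

/-- the arcs between tiles of `S` -/
def EE (A S : Finset (Set ℂ)) : Set (Set ℂ) := {l | ∃ X ∈ S, ∃ Y ∈ S, Sh A X Y l}

/-- D2: the Euler inequality. `S` is a connected family of inner tiles. -/
def Stmt_Euler : Prop := ∀ A : Finset (Set ℂ), Fam A → ∀ S ⊆ A, S.Nonempty → (∀ X ∈ S, Inn A X) →
  Con A S → (EE A S).Finite ∧
  S.card + ((VF A).filter (fun v => at_ A v ⊆ S ∧ ∃ X ∈ S, v ∈ X)).card ≤ (EE A S).ncard + 1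

/-- D3: counting the ends of the arcs. -/
def Stmt_Deg : Prop := ∀ A : Finset (Set ℂ), Fam A → ∀ S ⊆ A, (∀ X ∈ S, Inn A X) →
  2 * (EE A S).ncard ≤
    ∑ v ∈ (VF A).filter (fun v => at_ A v ⊆ S ∧ ∃ X ∈ S, v ∈ X), (at_ A v).card +
    ∑ v ∈ (VF A).filter (fun v => ¬ at_ A v ⊆ S ∧ ∃ X ∈ S, v ∈ X), ((at_ S v).card - 1)

/-! ## Density -/

/-- E1: lower densities. -/
def Stmt_Dens : Prop := (∀ A : Finset (Set ℂ), Fam A → ∀ p : ℂ, ∑ t ∈ A, lowDens t p ≤ 1) ∧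
  (∀ (t : Set ℂ) (p : ℂ), 0 ≤ lowDens t p ∧ lowDens t p ≤ 1) ∧
  ∀ (g : ℂ ≃ᵢ ℂ) (t : Set ℂ) (p : ℂ), lowDens (g '' t) (g p) = lowDens t p

/-- E2: the weighted inequality. -/
def Stmt_Wt : Prop := ∀ A : Finset (Set ℂ), Fam A → ∀ S ⊆ A, S.Nonempty → (∀ X ∈ S, Inn A X) →
  Con A S →
  2 * (S.card : ℝ) - 2 ≤ (∑ X ∈ S, ∑ v ∈ (VF A).filter (fun v => v ∈ X), ext X v) +
    (((VF A).filter (fun v => ¬ at_ A v ⊆ S ∧ 2 ≤ (at_ S v).card)).card : ℝ)

/-! ## Levels -/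

/-- The tiles of `A` touching the union of `S`. -/
noncomputable def tch (A S : Finset (Set ℂ)) : Finset (Set ℂ) :=
  A.filter (fun X => (X ∩ un S).Nonempty)

/-- A tile `X` of `B` is outer (with respect to `S`) if it can be connected, through adjacent tiles
of `B` not touching `S`, with a tile adjacent to a tile of `A` not in `B`. -/
def Out (A B S : Finset (Set ℂ)) (X : Set ℂ) : Prop :=
  ∃ Z, Relation.ReflTransGen (fun P Q => Adj A P Q ∧ (Q ∈ B ∧ Q ∉ tch A S)) X Z ∧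
    ∃ W ∈ A, W ∉ B ∧ Adj A Z W

/-- The tiles of `B` which touch `S` or are not outer. -/
noncomputable def hull (A B S : Finset (Set ℂ)) : Finset (Set ℂ) :=
  B.filter (fun X => X ∈ tch A S ∨ ¬ Out A B S X)

/-- The situation at one level: `A` is the ambient family, `B ⊆ A` a subfamily with union a disc and
all tiles inner, `S ⊆ B` a nonempty connected family all of whose neighbours are in `B`. -/
structure Lev (A B S : Finset (Set ℂ)) : Prop where
  fam : Fam A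
  sub : B ⊆ A
  disk : IsDisk (un B)
  inn : ∀ X ∈ B, Inn A X
  subS : S ⊆ B
  neS : S.Nonempty
  con : Con A S
  tch : tch A S ⊆ B

/-- F1: the hull. -/
def Stmt_Hull : Prop := ∀ A B S : Finset (Set ℂ), Lev A B S →
  S ⊆ hull A B S ∧ hull A B S ⊆ B ∧ tch A S ⊆ hull A B S ∧ Con A (hull A B S)

/-- F2: at a vertex on the boundary of the hull which is in at least two tiles of the hull there are
at least two tiles touching `S` (not in `S`). -/
def Stmt_TwoT : Prop := ∀ A B S : Finset (Set ℂ), Lev A B S → ∀ v ∈ Vx A,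
  ¬ at_ A v ⊆ hull A B S → 2 ≤ (at_ (hull A B S) v).card →
  2 ≤ (at_ (tch A S \ S) v).card

/-- F3: nonplanarity in a disc. -/
def Stmt_KDisc : Prop := ∀ D : Set ℂ, IsDisk D → ∀ (a c : ℂ) (b y : Fin 3 → ℂ)
  (Z Z' Q : Fin 3 → Set ℂ), (∀ i, Z i ⊆ D) → (∀ i, Z' i ⊆ D) → (∀ i, Q i ⊆ D) →
  (∀ i, JoinedIn (Z i) a (b i)) → (∀ i, JoinedIn (Z' i) c (b i)) →
  (∀ i, JoinedIn (Q i) (b i) (y i)) → (∀ i, y i ∈ frontier D) →
  (∀ i j, i ≠ j → Disjoint (Z i) (Z' j)) → (∀ i j, i ≠ j → Disjoint (Z i) (Q j)) →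
  (∀ i j, i ≠ j → Disjoint (Z' i) (Q j)) → False

/-- F4: the union of a connected family of inner tiles is path connected. -/
def Stmt_Path : Prop := ∀ A S : Finset (Set ℂ), Fam A → S ⊆ A → Con A S →
  ∀ x ∈ un S, ∀ y ∈ un S, JoinedIn (un S) x y

/-- F5: from a point `v` of `B` in a tile of `A` not in the hull one can go, avoiding the hull, to
the frontier of the union of `B`. -/
def Stmt_OutPath : Prop := ∀ A B S : Finset (Set ℂ), Lev A B S → ∀ v ∈ un B, ∀ Z ∈ A,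
  Z ∉ hull A B S → v ∈ Z → ∃ y ∈ frontier (un B),
    JoinedIn (insert v (un B \ un (hull A B S))) v y

/-- F6: a touching tile is at most at two vertices on the boundary of the hull at which there is
another touching tile. -/
def Stmt_AtMost : Prop := ∀ A B S : Finset (Set ℂ), Lev A B S → ∀ P ∈ tch A S \ S,
  ((VF A).filter (fun v => ¬ at_ A v ⊆ hull A B S ∧ v ∈ P ∧
    2 ≤ (at_ (tch A S \ S) v).card)).card ≤ 2

/-- F7: the boundary junctions are at most as many as the touching tiles. -/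
def Stmt_Junc : Prop := ∀ A B S : Finset (Set ℂ), Lev A B S →
  ((VF A).filter (fun v => ¬ at_ A v ⊆ hull A B S ∧ 2 ≤ (at_ (hull A B S) v).card)).card ≤
    (tch A S \ S).card

/-! ## The end -/

/-- G1: the recursion. Here `w` bounds the total exterior angle (divided by `π`) at convex corners of
each tile. -/
def Stmt_Rec : Prop := ∀ A B S : Finset (Set ℂ), Lev A B S → ∀ w : ℝ,
  (∀ X ∈ A, ∀ F : Finset ℂ, (↑F : Set ℂ) ⊆ frontier X → ∑ q ∈ F, ext X q ≤ w) →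
  (2 - w) * (hull A B S).card - 2 ≤ (hull A B S).card - (S.card : ℝ)

/-- G2: a tile has at least two neighbours. -/
def Stmt_Three : Prop := ∀ A : Finset (Set ℂ), Fam A → ∀ X, Inn A X → 3 ≤ (tch A {X}).card

end Pool.Agent.Hsh
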