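import Pool.Agent.Hsh.Stmts

set_option autoImplicit false

/-!
# Frozen statements for the second theorem on MP_51bd69_co (logarithmic bound)
-/

namespace Pool.Agent.Hsh

open Set Metric MeasureTheory Filter Topology Classical

/-- H1: the hull stays in every disc containing the touching tiles. -/
def Stmt_Ball : Prop := ∀ A B S : Finset (Set ℂ), Lev A B S → ∀ (c : ℂ) (R : ℝ),
  un (tch A S) ⊆ closedBall c R → un (hull A B S) ⊆ closedBall c R

/-- H2: the hull is larger than `S`. -/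
def Stmt_Grow : Prop := ∀ A B S : Finset (Set ℂ), Lev A B S → S.card + 1 ≤ (hull A B S).card

/-- H3: area and diameter. -/
def Stmt_Area : Prop := ∀ T : Set ℂ, IsDisk T → 0 < (volume (interior T)).toReal ∧ 0 < diam T ∧
  ∀ S : Finset (Set ℂ), (∀ X ∈ S, IsCopy T X) →
    (∀ X ∈ S, ∀ Y ∈ S, X ≠ Y → Disjoint (interior X) (interior Y)) →
    ∀ (c : ℂ) (R : ℝ), 0 ≤ R → un S ⊆ closedBall c R →
      (S.card : ℝ) * (volume (interior T)).toReal ≤ Real.pi * R ^ 2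

/-- H4: the recursion gives exponential growth. -/
def Stmt_Num : Prop := ∀ κ : ℝ, 0 < κ → κ < 1 → ∃ C : ℝ, 0 < C ∧
  ∀ (r : ℕ) (f : ℕ → ℕ) (a D : ℝ), 0 < a → 0 < D → f 0 = 1 →
    (∀ k < r, κ * (f (k + 1) : ℝ) - 2 ≤ (f (k + 1) : ℝ) - (f k : ℝ)) →
    (∀ k < r, f k + 1 ≤ f (k + 1)) →
    (∀ k ≤ r, (f k : ℝ) * a ≤ Real.pi * (((k : ℝ) + 1) * D) ^ 2) →
    (r : ℝ) + 1 ≤ C * Real.log (2 + D ^ 2 / a)

end Pool.Agent.Hsh
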