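import Pool.Agent.Hsh.Stmts

set_option autoImplicit false

/-!
# Frozen statements for the sharp theorem on MP_51bd69_co (not twice)
-/

namespace Pool.Agent.Hsh

open Set Metric MeasureTheory Filter Topology Classical

/-- I1: a tile outside the hull which has a common arc with a tile of the hull has, for every point
`v₀`, a vertex other than `v₀` on the hull at which there is another tile outside the hull. -/
def Stmt_OutTwo : Prop := ∀ A B S : Finset (Set ℂ), Lev A B S → ∀ Y ∈ A, Y ∉ hull A B S →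
  (∃ X ∈ hull A B S, Adj A X Y) → ∀ v₀ : ℂ, ∃ u ∈ Vx A, u ≠ v₀ ∧ u ∈ Y ∧
    (∃ X ∈ hull A B S, u ∈ X) ∧ ∃ Z ∈ A, Z ∉ hull A B S ∧ Z ≠ Y ∧ u ∈ Z

/-- I2: let `P` be a nonempty set of tiles at the vertex `v`, at least two tiles at `v` not being in
`P`. Then for every `Y₀` some tile `Y ≠ Y₀` at `v`, not in `P`, has a common arc with a tile of
`P`. -/
def Stmt_OutAdj : Prop := ∀ A : Finset (Set ℂ), Fam A → ∀ v ∈ Vx A, ∀ P ⊆ at_ A v, P.Nonempty →
  2 ≤ (at_ A v \ P).card → ∀ Y₀ : Set ℂ, ∃ Y ∈ at_ A v, Y ∉ P ∧ Y ≠ Y₀ ∧ ∃ X ∈ P, Adj A X Y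

/-- I3: counting the tiles touching the hull from outside. -/
def Stmt_OutCount : Prop := ∀ A B S : Finset (Set ℂ), Lev A B S →
  (tch A (hull A B S) \ hull A B S).card ≤
    ∑ v ∈ (VF A).filter (fun v => ¬ at_ A v ⊆ hull A B S ∧ ∃ X ∈ hull A B S, v ∈ X),
      ((at_ A v \ hull A B S).card - 1)

/-- I4: the weighted inequality for the hull and the tiles touching it. -/
def Stmt_WtB : Prop := ∀ A B S : Finset (Set ℂ), Lev A B S →
  ((tch A (hull A B S) \ hull A B S).card : ℝ) + 2 * ((hull A B S).card : ℝ) - 2 ≤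
    ∑ X ∈ tch A (hull A B S), ∑ v ∈ (VF A).filter (fun v => v ∈ X), ext X v

end Pool.Agent.Hsh
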