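import Pool.Agent.Hsh.Stmts

set_option autoImplicit false

/-!
# Frozen statements for the theorem on two convex corners (MP_51bd69_co): not twice
-/

namespace Pool.Agent.Hsh

open Set Metric MeasureTheory Filter Topology Classical

/-- The convex corners of `X`. -/
def Cn (X : Set ℂ) : Set ℂ := {q | q ∈ frontier X ∧ lowDens X q < 1 / 2}

/-- `s` is a side of `X`: a component of the frontier without the convex corners. -/
def IsSide (X s : Set ℂ) : Prop :=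
  ∃ z ∈ frontier X \ Cn X, s = connectedComponentIn (frontier X \ Cn X) z

/-- The half turn exchanging `u` and `w`. -/
noncomputable def hf (u w : ℂ) : ℂ ≃ᵢ ℂ := IsometryEquiv.subLeft (u + w)

/-- The reflection in the line through `u` and `w`. -/
noncomputable def rf (u w z : ℂ) : ℂ :=
  (u + w) / 2 + (w - u) / (starRingEnd ℂ) (w - u) * (starRingEnd ℂ) (z - (u + w) / 2)

/-- The reflection exchanging `u` and `w`. -/
noncomputable def vf (u w z : ℂ) : ℂ :=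
  (u + w) / 2 - (w - u) / (starRingEnd ℂ) (w - u) * (starRingEnd ℂ) (z - (u + w) / 2)

/-! ## Sides -/

/-- The two sides of a disc whose convex corners are exactly `p` and `q`. -/
structure TwoSides (X : Set ℂ) (p q : ℂ) (a b : Set ℂ) : Prop where
  sa : IsSide X a
  sb : IsSide X b
  ne : a ≠ b
  only : ∀ s, IsSide X s → s = a ∨ s = b
  disj : Disjoint a b
  cover : frontier X = a ∪ b ∪ {p, q}

/-- A side of a disc whose convex corners are exactly `p` and `q`. -/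
structure SideOK (X : Set ℂ) (p q : ℂ) (s : Set ℂ) : Prop where
  conn : IsConnected s
  sub : s ⊆ frontier X \ {p, q}
  clos : closure s = s ∪ {p, q}
  opn : ∀ z ∈ s, ∃ r > 0, frontier X ∩ ball z r ⊆ s
  par : ∃ γ : ℝ → ℂ, ContinuousOn γ (Icc 0 1) ∧ InjOn γ (Icc 0 1) ∧ γ 0 = p ∧ γ 1 = q ∧
    s = γ '' Ioo 0 1

/-- J1: sides. -/
def Stmt_Side : Prop := ∀ X : Set ℂ, IsDisk X → ∀ p q : ℂ, p ≠ q → Cn X = {p, q} →
  (∃ a b, TwoSides X p q a b) ∧ ∀ s, IsSide X s → SideOK X p q s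

/-- J2: corners and sides of a copy. -/
def Stmt_Copy : Prop := ∀ (g : ℂ ≃ᵢ ℂ) (X : Set ℂ), Cn (g '' X) = g '' Cn X ∧
  ∀ s, IsSide (g '' X) s ↔ ∃ t, IsSide X t ∧ s = g '' t

/-- J3: an isometry mapping a compact set into itself maps it onto itself; the same for a set whose
closure has two more points. -/
def Stmt_NC : Prop := (∀ (φ : ℂ ≃ᵢ ℂ) (K : Set ℂ), IsCompact K → φ '' K ⊆ K → φ '' K = K) ∧
  ∀ (φ : ℂ ≃ᵢ ℂ) (s : Set ℂ) (p q : ℂ), Bornology.IsBounded s → closure s = s ∪ {p, q} →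
    p ∉ s → q ∉ s → φ '' s ⊆ s → φ '' s = s

/-! ## Arcs and sides -/

/-- Arcs and sides of an inner tile whose convex corners are exactly the vertices `p`, `q`. -/
structure SArc (A : Finset (Set ℂ)) (X : Set ℂ) (p q : ℂ) : Prop where
  /-- every arc lies in a side -/
  side : ∀ l ∈ arcs A X, ∃ s, IsSide X s ∧ l ⊆ s
  /-- every side has exactly one arc at every corner -/
  first : ∀ s, IsSide X s → ∀ c, (c = p ∨ c = q) → ∃ l ∈ arcs A X, l ⊆ s ∧ c ∈ closure l ∧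
    ∀ l' ∈ arcs A X, l' ⊆ s → c ∈ closure l' → l' = l
  /-- an arc with both corners in its closure is a side -/
  whole : ∀ s, IsSide X s → ∀ l ∈ arcs A X, l ⊆ s → p ∈ closure l → q ∈ closure l → l = s
  /-- the arcs at a point of a side are in the side -/
  inner : ∀ s, IsSide X s → ∀ v ∈ s, ∀ l ∈ arcs A X, v ∈ closure l → l ⊆ s

/-- K1 -/
def Stmt_SArc : Prop := ∀ A : Finset (Set ℂ), Fam A → ∀ X, Inn A X → ∀ p q : ℂ, p ≠ q →
  Cn X = {p, q} → p ∈ Vx A → q ∈ Vx A → SArc A X p q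

/-- K2: a common arc whose ends are the two convex corners of the tile `Y` is a side of `Y`. -/
def Stmt_Full : Prop := ∀ A : Finset (Set ℂ), Fam A → ∀ X, Inn A X → ∀ Y ∈ A, ∀ l, Sh A X Y l →
  ∀ f g : ℂ, f ≠ g → f ∈ Vx A → g ∈ Vx A → f ∈ closure l → g ∈ closure l → Cn Y = {f, g} →
  IsSide Y l

/-- K3: if two different arcs of the inner tile `X` have the same two ends `f`, `g`, then these are
the only vertices of `X`. -/
def Stmt_Lens : Prop := ∀ A : Finset (Set ℂ), Fam A → ∀ X, Inn A X → ∀ l ∈ arcs A X,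
  ∀ l' ∈ arcs A X, l ≠ l' → ∀ f g : ℂ, f ≠ g → f ∈ Vx A → g ∈ Vx A → f ∈ closure l →
  g ∈ closure l → f ∈ closure l' → g ∈ closure l' → ∀ v ∈ Vx A, v ∈ X → v = f ∨ v = g

/-- K4: if a side contains an arc from the corner `p` to `v` and an arc from `v` to the corner `q`,
it contains no other arc. -/
def Stmt_Chain : Prop := ∀ A : Finset (Set ℂ), Fam A → ∀ X, Inn A X → ∀ p q : ℂ, p ≠ q →
  Cn X = {p, q} → p ∈ Vx A → q ∈ Vx A → ∀ s, IsSide X s → ∀ l₁ ∈ arcs A X, ∀ l₂ ∈ arcs A X,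
  l₁ ⊆ s → l₂ ⊆ s → ∀ v ∈ Vx A, v ≠ p → v ≠ q → p ∈ closure l₁ → v ∈ closure l₁ →
  v ∈ closure l₂ → q ∈ closure l₂ → ∀ l ∈ arcs A X, l ⊆ s → l = l₁ ∨ l = l₂

/-- K5: two tiles cannot have two common arcs at a vertex. -/
def Stmt_NoTwo : Prop := ∀ A : Finset (Set ℂ), Fam A → ∀ v ∈ Vx A, ∀ X Y l l' : Set ℂ, X ∈ A →
  Y ∈ A → l ≠ l' → Sh A X Y l → Sh A X Y l' → v ∈ closure l → v ∈ closure l' → False

/-! ## Isometries -/

/-- L1: the isometries preserving `{u, w}`. -/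
def Stmt_Four : Prop := ∀ u w : ℂ, u ≠ w → ∀ φ : ℂ ≃ᵢ ℂ, φ '' {u, w} = {u, w} →
  (∀ z, φ z = z) ∨ (∀ z, φ z = hf u w z) ∨ (∀ z, φ z = rf u w z) ∨ ∀ z, φ z = vf u w z

/-- L2: a side mapped to itself by the reflection in the line through the corners is a segment. -/
def Stmt_Rf : Prop := ∀ T : Set ℂ, IsDisk T → ∀ u w : ℂ, u ≠ w → Cn T = {u, w} →
  ∀ s, IsSide T s → rf u w '' s = s → s = openSegment ℝ u w

/-- L3: a disc containing `u` and `w` has an interior point fixed by the reflection exchanging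
them. -/
def Stmt_VfA : Prop := ∀ T : Set ℂ, IsDisk T → ∀ u w : ℂ, u ≠ w → u ∈ T → w ∈ T →
  ∃ y ∈ interior T, vf u w y = y

/-- L4: the local form for a symmetric side. -/
def Stmt_VfB : Prop := ∀ T : Set ℂ, IsDisk T → ∀ u w : ℂ, u ≠ w → Cn T = {u, w} →
  ∀ s, IsSide T s → vf u w '' s = s →
  ∃ z ∈ s, ∀ r > 0, ∃ y ∈ interior T, y ∈ ball z r ∧ vf u w y = y

/-! ## The configuration -/

/-- The result of the counting argument. -/
structure Cfg (A H : Finset (Set ℂ)) (T : Set ℂ) (u w : ℂ) : Prop where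
  fam : Fam A
  sub : H ⊆ A
  inn : ∀ X ∈ H, Inn A X
  memT : T ∈ H
  copy : ∀ X ∈ A, IsCopy T X
  ne : u ≠ w
  cnT : Cn T = {u, w}
  vT : ∀ v ∈ Vx A, v ∈ T → v = u ∨ v = w
  touch : ∀ X ∈ A, (X ∩ T).Nonempty → X ∈ H
  cn : ∀ X ∈ H, Cn X ⊆ Vx A
  /-- at every vertex of a tile of `H` exactly one tile has no convex corner, and it is in `H` -/
  nc : ∀ v ∈ Vx A, (∃ X ∈ H, v ∈ X) → ∃ N ∈ H, v ∈ N ∧ v ∉ Cn N ∧
    ∀ X ∈ A, v ∈ X → v ∉ Cn X → X = N

/-- M1: the counting argument. -/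
def Stmt_Cfg : Prop := ∀ (A B : Finset (Set ℂ)) (T : Set ℂ), Lev A B {T} →
  (∀ X ∈ A, IsCopy T X) → (∀ q ∈ frontier T, 0 < lowDens T q) →
  (∀ F : Finset ℂ, (↑F : Set ℂ) ⊆ frontier T → (∀ q ∈ F, lowDens T q < 1 / 2) → F.card ≤ 2) →
  ∃ u w : ℂ, Cfg A (hull A B {T}) T u w

/-- The configuration with its short side `a` and its long side `b`. -/
structure Dat (A H : Finset (Set ℂ)) (T : Set ℂ) (u w : ℂ) (a b : Set ℂ) : Prop where
  cfg : Cfg A H T u w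
  ts : TwoSides T u w a b
  /-- `a` is congruent to a proper part of `b` -/
  prec : ∃ φ : ℂ ≃ᵢ ℂ, a ⊆ φ '' b ∧ a ≠ φ '' b
  /-- the other tile at `b` is the image of `T` under the half turn -/
  memT' : hf u w '' T ∈ A
  neT' : hf u w '' T ≠ T
  symb : hf u w '' b = b
  arcb : b ∈ arcs A (hf u w '' T)

/-- M2 -/
def Stmt_Dat : Prop := ∀ (A H : Finset (Set ℂ)) (T : Set ℂ) (u w : ℂ), Cfg A H T u w →
  ∃ a b : Set ℂ, Dat A H T u w a b

/-- `l` is the short side of `Q` (`a` is the short side of the prototile). -/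
def Sg (a Q l : Set ℂ) : Prop := IsSide Q l ∧ ∃ h : ℂ ≃ᵢ ℂ, l = h '' a

/-- M3: comparison of the sides. -/
structure Cmp (A H : Finset (Set ℂ)) (T : Set ℂ) (u w : ℂ) (a b : Set ℂ) : Prop where
  aa : ∀ g h : ℂ ≃ᵢ ℂ, g '' a ⊆ h '' a → g '' a = h '' a
  bb : ∀ g h : ℂ ≃ᵢ ℂ, g '' b ⊆ h '' b → g '' b = h '' b
  ba : ∀ g h : ℂ ≃ᵢ ℂ, ¬ g '' b ⊆ h '' a
  /-- every tile has one short side, the other one being congruent to `b` -/
  cases : ∀ X ∈ A, ∀ s, IsSide X s → Sg a X s ∨ ∃ g : ℂ ≃ᵢ ℂ, X = g '' T ∧ s = g '' b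
  sg : ∀ X ∈ A, ∀ s, Sg a X s → ∀ g : ℂ ≃ᵢ ℂ, X = g '' T → s = g '' a
  /-- the corners of a tile -/
  two : ∀ X ∈ A, ∃ p q : ℂ, p ≠ q ∧ Cn X = {p, q}
  /-- different tiles have no common short side -/
  diff : ∀ X ∈ A, ∀ Y ∈ A, X ≠ Y → ∀ s, Sg a X s → ¬ Sg a Y s

def Stmt_Cmp : Prop := ∀ (A H : Finset (Set ℂ)) (T : Set ℂ) (u w : ℂ) (a b : Set ℂ),
  Dat A H T u w a b → Cmp A H T u w a b

/-- M4: not all arcs in a long side are short sides of their other tiles. -/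
def Stmt_LemN : Prop := ∀ (A H : Finset (Set ℂ)) (T : Set ℂ) (u w : ℂ) (a b : Set ℂ),
  Dat A H T u w a b → ∀ X ∈ H, ∀ s, IsSide X s → ¬ Sg a X s →
  ∃ l ∈ arcs A X, l ⊆ s ∧ ∀ Q ∈ A, Q ≠ X → l ∈ arcs A Q → ¬ Sg a Q l

/-- M5: an arc properly contained in a side is a short side of its other tile, or has an end at a
corner of `X` which is not a corner of that tile. -/
def Stmt_LemF : Prop := ∀ (A H : Finset (Set ℂ)) (T : Set ℂ) (u w : ℂ) (a b : Set ℂ),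
  Dat A H T u w a b → ∀ X ∈ H, ∀ s, IsSide X s → ∀ l ∈ arcs A X, l ⊆ s → l ≠ s → ∀ Q ∈ A,
  Q ≠ X → l ∈ arcs A Q → Sg a Q l ∨ ∃ f ∈ Cn X, f ∈ closure l ∧ f ∉ Cn Q

/-- M6: every arc in a short side has an end at a corner of `X` which is not a corner of the other
tile. -/
def Stmt_LemE : Prop := ∀ (A H : Finset (Set ℂ)) (T : Set ℂ) (u w : ℂ) (a b : Set ℂ),
  Dat A H T u w a b → ∀ X ∈ H, ∀ s, Sg a X s → ∀ l ∈ arcs A X, l ⊆ s → ∀ Q ∈ A,
  Q ≠ X → l ∈ arcs A Q → ∃ p ∈ Cn X, p ∈ closure l ∧ p ∉ Cn Q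

/-- M7: the end. -/
def Stmt_Local : Prop := ∀ (A H : Finset (Set ℂ)) (T : Set ℂ) (u w : ℂ) (a b : Set ℂ),
  ¬ Dat A H T u w a b

end Pool.Agent.Hsh
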