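import Pool.Agent.Hsh.FcBase

set_option autoImplicit false

/-!
# Upper densities
-/

namespace Pool.Agent.Hsh

open Set Metric MeasureTheory Filter Topology Classical

/-- The upper density at `p` of `t`: the upper limit for `ρ → 0` of the fraction of the area of the
disk of radius `ρ` about `p` which is covered by `t`. -/
noncomputable def upDens (t : Set ℂ) (p : ℂ) : ℝ :=
  (limsup (fun ρ : ℝ => volume (t ∩ ball p ρ) / volume (ball p ρ)) (𝓝[>] 0)).toReal

theorem up_copy (g : ℂ ≃ᵢ ℂ) (t : Set ℂ) (p : ℂ) : upDens (g '' t) (g p) = upDens t p := by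
  have h : ∀ ρ : ℝ, volume (g '' t ∩ ball (g p) ρ) / volume (ball (g p) ρ) =
      volume (t ∩ ball p ρ) / volume (ball p ρ) := by
    intro ρ
    rw [← g.image_ball p ρ, ← image_inter g.injective, Dens_volume_image, Dens_volume_image]
  simp only [upDens, h]

theorem up_le_one (t : Set ℂ) (p : ℂ) :
    limsup (fun ρ : ℝ => volume (t ∩ ball p ρ) / volume (ball p ρ)) (𝓝[>] 0) ≤ 1 := by
  have h : limsup (fun ρ : ℝ => volume (t ∩ ball p ρ) / volume (ball p ρ)) (𝓝[>] 0) ≤
      limsup (fun _ : ℝ => (1 : ENNReal)) (𝓝[>] 0) := by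
    refine limsup_le_limsup (Eventually.of_forall fun ρ => ?_)
    refine ENNReal.div_le_of_le_mul ?_
    rw [one_mul]
    exact measure_mono inter_subset_right
  rwa [limsup_const] at h

theorem up_sum {A : Finset (Set ℂ)} (hA : Fam A) {v : ℂ} (hv : v ∈ reg A) :
    1 ≤ ∑ X ∈ at_ A v, upDens X v := by
  set L : Set ℂ → ENNReal := fun t =>
    limsup (fun ρ : ℝ => volume (t ∩ ball v ρ) / volume (ball v ρ)) (𝓝[>] 0) with hL
  have hL1 : ∀ t, L t ≤ 1 := fun t => up_le_one t v
  have hLt : ∀ t, L t ≠ ⊤ := fun t => ne_top_of_le_ne_top ENNReal.one_ne_top (hL1 t)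
  obtain ⟨r, hr, hr1, hr2⟩ := (all_bas A hA).nbhd v hv
  have key : 1 ≤ ∑ t ∈ at_ A v, L t := by
    refine ENNReal.le_of_forall_pos_le_add fun ε hε _ => ?_
    set n : ENNReal := ((at_ A v).card : ENNReal) + 1 with hn
    have hn0 : n ≠ 0 := by simp [hn]
    have hnt : n ≠ ⊤ := by simp [hn]
    set e : ENNReal := ε / n with he
    have he0 : 0 < e := ENNReal.div_pos (by exact_mod_cast hε.ne') hnt
    have hev : ∀ t ∈ at_ A v, ∀ᶠ ρ : ℝ in 𝓝[>] 0,
        volume (t ∩ ball v ρ) / volume (ball v ρ) ≤ L t + e := by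
      intro t _
      have hlt : L t < L t + e := ENNReal.lt_add_right (hLt t) he0.ne'
      have h := eventually_lt_of_limsup_lt hlt
      filter_upwards [h] with ρ hρ
      exact hρ.le
    have hall : ∀ᶠ ρ : ℝ in 𝓝[>] 0, ∀ t ∈ at_ A v,
        volume (t ∩ ball v ρ) / volume (ball v ρ) ≤ L t + e :=
      (Finset.eventually_all (at_ A v)).2 hev
    obtain ⟨ρ, hρ, hρ0, hρr⟩ := (hall.and (Ioo_mem_nhdsGT hr)).exists
    have hb0 : volume (ball v ρ) ≠ 0 := (measure_ball_pos volume v hρ0).ne'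
    have hbt : volume (ball v ρ) ≠ ⊤ := measure_ball_lt_top.ne
    calc (1 : ENNReal) = volume (ball v ρ) / volume (ball v ρ) :=
          (ENNReal.div_self hb0 hbt).symm
      _ ≤ (∑ t ∈ at_ A v, volume (t ∩ ball v ρ)) / volume (ball v ρ) := by
          refine ENNReal.div_le_div_right ?_ _
          refine le_trans (measure_mono ?_) (measure_biUnion_finset_le (at_ A v) _)
          intro x hx
          have hxr : x ∈ ball v r := ball_subset_ball hρr.le hx
          obtain ⟨t, ht, hxt⟩ := fin_mem_un.1 (hr1 hxr)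
          exact mem_iUnion₂.2 ⟨t, Finset.mem_filter.2 ⟨ht, hr2 t ht ⟨x, hxt, hxr⟩⟩, hxt, hx⟩
      _ = ∑ t ∈ at_ A v, volume (t ∩ ball v ρ) / volume (ball v ρ) := by
          simp only [div_eq_mul_inv, Finset.sum_mul]
      _ ≤ ∑ t ∈ at_ A v, (L t + e) := Finset.sum_le_sum hρ
      _ = ∑ t ∈ at_ A v, L t + (at_ A v).card * e := by
          rw [Finset.sum_add_distrib, Finset.sum_const, nsmul_eq_mul]
      _ ≤ ∑ t ∈ at_ A v, L t + ε := by
          refine add_le_add le_rfl ?_
          calc ((at_ A v).card : ENNReal) * e ≤ n * e := mul_le_mul_left (by simp [hn]) _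
            _ = ε := by rw [he]; exact ENNReal.mul_div_cancel hn0 hnt
  have h2 : ∑ t ∈ at_ A v, upDens t v = (∑ t ∈ at_ A v, L t).toReal := by
    rw [ENNReal.toReal_sum fun t _ => hLt t]
    rfl
  rw [h2]
  have h3 : ∑ t ∈ at_ A v, L t ≠ ⊤ := ENNReal.sum_ne_top.2 fun t _ => hLt t
  calc (1 : ℝ) = (1 : ENNReal).toReal := ENNReal.toReal_one.symm
    _ ≤ (∑ t ∈ at_ A v, L t).toReal := ENNReal.toReal_mono h3 key

end Pool.Agent.Hsh
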